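import Pool.Agent.H41.MK.Chs

/-!
# Chart identity for `cC3`
-/

namespace H41MK

open H41FT H45FT Real

variable {a b c : ℝ}

theorem cC3_eq (G : GF) {a g n u sa ka si y un R v sb b w p q p2 q2 sc X Y c : ℝ}
    (hu : cos (π / 2 * a) = u) (hsa : sin (π / 2 * a) = sa) (hka : cos (π / 2 * g) = ka)
    (hsi : sin (π / 2 * g) = si) (hy : ka * sa = y) (hun : u + n = un) (hR : √(un * un + y * y) = R)
    (hv : y * R⁻¹ = v) (hsb : un * R⁻¹ = sb)
    (hb : ((1 : ℕ) : ℝ) - 2 * (2 / π * arctan (y * (un + R)⁻¹)) = b) (hw : n * v = w)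
    (hp : sa * si = p) (hq : u * sb + y * v = q) (hp2 : sb * si = p2)
    (hq2 : v * sa + u * sb * ka = q2) (hsc : √(((1 : ℕ) : ℝ) - w * w) = sc)
    (hX : 2 * (2 / π * arctan (p * (sc + q)⁻¹)) = X)
    (hY : 2 * (2 / π * arctan (p2 * (sc + q2)⁻¹)) = Y)
    (hc : ((1 : ℕ) : ℝ) - 2 * (2 / π * arctan (w * (((1 : ℕ) : ℝ) + sc)⁻¹)) = c) :
    cC3 rO G a g n = G rO a b c u v w sa sb sc X (q * sc⁻¹) Y (q2 * sc⁻¹) g ka := by
  subst hu; subst hsa; subst hka; subst hsi; subst hy; subst hun; subst hR; subst hv; subst hsb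
  subst hb; subst hw; subst hp; subst hq; subst hp2; subst hq2; subst hsc; subst hX; subst hY
  subst hc
  rfl

theorem CH_C3 (G : GF) (h0 : 0 < a) (hab : a ≤ b) (hbc : b ≤ c) (hc : c ≤ 1) (hb : b < 1)
    (hs : 2 ≤ a + b + c) :
    Tt G (-1) a b c = cC3 rO G a (ang (dih (-1) a b c)) (cos (π / 2 * c) / cos (π / 2 * b)) := by
  have hpi := Real.pi_pos
  have ha1 : a ≤ 1 := by linarith
  have hb0 : 0 < b := by linarith
  have hc0 : 0 < c := by linarith
  have hg : 0 ≤ gram3 (-1) a b c := (gram3_neg_nonneg_iff h0 hab hbc hc).2 hs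
  have hgx : gram3 (-1) b c a = gram3 (-1) a b c := by unfold gram3; ring
  have hgy : gram3 (-1) c a b = gram3 (-1) a b c := by unfold gram3; ring
  obtain ⟨-, z2⟩ := ang_neg h0 ha1 hb0 hb.le hc0.le hc hg
  obtain ⟨-, x2⟩ := ang_neg hb0 hb.le hc0 hc h0.le ha1 (hgx ▸ hg)
  obtain ⟨-, y2⟩ := ang_neg hc0 hc h0 ha1 hb0.le hb.le (hgy ▸ hg)
  have hd1 := dih_abs_le (σ := -1) (Or.inr rfl) h0 ha1 hb0 hb.le hg
  have hv : 0 < cos (π / 2 * b) := cos_pos_of_mem_Ioo ⟨by nlinarith, by nlinarith⟩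
  have hu : 0 < cos (π / 2 * a) := cos_pos_of_mem_Ioo ⟨by nlinarith, by nlinarith⟩
  have hw := csn hc0.le hc
  have hsa := snp h0 ha1
  have hsb := snp hb0 hb.le
  have hsc := snp hc0 hc
  have pa := sin_sq_add_cos_sq (π / 2 * a)
  have pb := sin_sq_add_cos_sq (π / 2 * b)
  have pc := sin_sq_add_cos_sq (π / 2 * c)
  have gz := gram_id (σ := -1) (by norm_num) a b c
  have gx := gram_id (σ := -1) (by norm_num) b c a
  have gy := gram_id (σ := -1) (by norm_num) c a b
  rw [hgx] at gx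
  rw [hgy] at gy
  have hbh := at_half (x := 1 - b) (by linarith) (by linarith)
  have hch := at_half (x := 1 - c) (by linarith) (by linarith)
  rw [sin_comp, cos_comp] at hbh hch
  have hsi : (sin (π / 2 * ang (dih (-1) a b c)) * (sin (π / 2 * a) * sin (π / 2 * b))) ^ 2 =
      gram3 (-1) a b c := by
    have m := dih_mul (c := c) (-1) h0 ha1 hb0 hb.le
    have hd2 : 0 ≤ 1 - dih (-1) a b c ^ 2 := by
      have := abs_le_one_iff_mul_self_le_one.1 hd1
      nlinarith
    rw [sin_ang, mul_pow, Real.sq_sqrt hd2]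
    rw [← m] at gz
    linarith [gz]
  have hsi0 : 0 ≤ sin (π / 2 * ang (dih (-1) a b c)) := by
    rw [sin_ang]; exact Real.sqrt_nonneg _
  have hka := cos_ang hd1
  unfold Tt
  generalize dih (-1) a b c = tz at *
  generalize dih (-1) b c a = tx at *
  generalize dih (-1) c a b = ty at *
  generalize hzz : ang tz = g at *
  generalize hsie : sin (π / 2 * g) = si at *
  generalize hua : cos (π / 2 * a) = u at *
  generalize hub : cos (π / 2 * b) = v at *
  generalize huc : cos (π / 2 * c) = w at *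
  generalize hsa' : sin (π / 2 * a) = sa at *
  generalize hsb' : sin (π / 2 * b) = sb at *
  generalize hsc' : sin (π / 2 * c) = sc at *
  generalize gram3 (-1) a b c = D at *
  have eX := ang_half (t := tx) (P := sa * si) (Q := (u + v * w) / sb) (S := sc) hsc (by positivity)
    (by positivity) (fa_x hsb hsi (by linarith [gx])) (by rw [x2]; field_simp)
  have eY := ang_half (t := ty) (P := sb * si) (Q := (v + w * u) / sa) (S := sc) hsc (by positivity)
    (by positivity) (fa_x (G := D) hsa (by rw [← hsi]; ring) (by linarith [gy])) (by rw [y2]; field_simp)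
  rw [cC3_eq G (a := a) (g := g) (n := w / v) hua hsa' hka hsie rfl rfl (fa_R hu hv hw hsa hsb pb z2)
    (fa_v hu hv hw hsa hsb z2) (fa_sb hu hv hw hsb) (b := b) (by
      rw [fa_b hu hv hw hsa hsb z2, hbh, Nat.cast_one]; ring) (div_mul_cancel₀ w hv.ne') rfl
    (fa_q hsa hsb pb z2) rfl (fa_q2 hsa hsb pa z2) (sc := sc) (by
      rw [Nat.cast_one, show 1 - w * w = sc ^ 2 by linarith]; exact Real.sqrt_sq hsc.le) eX eY
    (c := c) (by rw [Nat.cast_one, hch]; ring)]
  have e1 : |tx| = (u + v * w) / sb * sc⁻¹ := by rw [x2]; field_simp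
  have e2 : |ty| = (v + w * u) / sa * sc⁻¹ := by rw [y2]; field_simp
  rw [← e1, ← e2]

end H41MK
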