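import Pool.Agent.H41.MK.Chk

/-!
# Chart identity for `cFD`
-/

namespace H41MK

open H41FT H45FT Real

variable {a b c : ℝ}

theorem cFD_eq (G : GF) {a be n u sa v sb w sc c m ka si g p q p2 q2 X Y b : ℝ}
    (hu : cos (π / 2 * a) = u) (hsa : sin (π / 2 * a) = sa) (hv : sin (π / 2 * be) = v)
    (hsb : cos (π / 2 * be) = sb) (hw : n * v = w) (hsc : √(((1 : ℕ) : ℝ) - w * w) = sc)
    (hc : ((1 : ℕ) : ℝ) - ((2 : ℕ) : ℝ) * (2 / π * arctan (w * (((1 : ℕ) : ℝ) + sc)⁻¹)) = c)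
    (hm : v * sa⁻¹ = m) (hka : m * (u - n) * sb⁻¹ = ka) (hsi : √(((1 : ℕ) : ℝ) - ka * ka) = si)
    (hg : ((1 : ℕ) : ℝ) - ((2 : ℕ) : ℝ) * (2 / π * arctan (ka * (((1 : ℕ) : ℝ) + si)⁻¹)) = g)
    (hp : sa * si = p) (hq : u * sb + v * sa * ka = q) (hp2 : sb * si = p2)
    (hq2 : m * (((1 : ℕ) : ℝ) - u * n) = q2)
    (hX : ((2 : ℕ) : ℝ) * (2 / π * arctan (p * (sc + q)⁻¹)) = X)
    (hY : ((2 : ℕ) : ℝ) * (2 / π * arctan (p2 * (sc + q2)⁻¹)) = Y)
    (hb : ((1 : ℕ) : ℝ) - be = b) :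
    cFD rO G a be n = G rO a b c u v w sa sb sc X (q * sc⁻¹) Y (q2 * sc⁻¹) g ka := by
  subst hu; subst hsa; subst hv; subst hsb; subst hw; subst hsc; subst hc; subst hm; subst hka
  subst hsi; subst hg; subst hp; subst hq; subst hp2; subst hq2; subst hX; subst hY; subst hb
  unfold cFD
  simp only [lt_app]
  rfl

theorem CH_FD (G : GF) (h0 : 0 < a) (hab : a ≤ b) (hbc : b ≤ c) (hc : c ≤ 1) (hb : b < 1)
    (hs : c ≤ a + b) (ht : dih 1 a b c ≤ 0) : Tt G 1 a b c =
      cFD rO G a (1 - b) (cos (π / 2 * c) / cos (π / 2 * b)) := by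
  have hpi := Real.pi_pos
  have ha1 : a ≤ 1 := by linarith
  have hb0 : 0 < b := by linarith
  have hc0 : 0 < c := by linarith
  have hg : 0 ≤ gram3 1 a b c := (gram3_one_nonneg_iff h0 hab hbc hc).2 hs
  have hgx : gram3 1 b c a = gram3 1 a b c := by unfold gram3; ring
  have hgy : gram3 1 c a b = gram3 1 a b c := by unfold gram3; ring
  have hx0 := dih_x_nonneg h0 hab hbc hc
  have hy0 := dih_y_nonneg h0 hab hbc hc
  have z2 := abs_dih_obt ht
  obtain ⟨-, x2⟩ := ang_pos hb0 hb.le hc0 hc hx0 (hgx ▸ hg)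
  obtain ⟨-, y2⟩ := ang_pos hc0 hc h0 ha1 hy0 (hgy ▸ hg)
  have hd1 := dih_abs_le (σ := 1) (Or.inl rfl) h0 ha1 hb0 hb.le hg
  have hv : 0 < cos (π / 2 * b) := cos_pos_of_mem_Ioo ⟨by nlinarith, by nlinarith⟩
  have hu := csn h0.le ha1
  have hw := csn hc0.le hc
  have hsa := snp h0 ha1
  have hsb := snp hb0 hb.le
  have hsc := snp hc0 hc
  have pb := sin_sq_add_cos_sq (π / 2 * b)
  have pc := sin_sq_add_cos_sq (π / 2 * c)
  have gz := gram_id (σ := 1) (by norm_num) a b c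
  have gx := gram_id (σ := 1) (by norm_num) b c a
  have gy := gram_id (σ := 1) (by norm_num) c a b
  rw [hgx] at gx
  rw [hgy] at gy
  have hch := at_half (x := 1 - c) (by linarith) (by linarith)
  rw [sin_comp, cos_comp] at hch
  have mx := dih_mul (c := a) 1 hb0 hb.le hc0 hc
  have my := dih_mul (c := b) 1 hc0 hc h0 ha1
  have hQx : 0 ≤ cos (π / 2 * a) - cos (π / 2 * b) * cos (π / 2 * c) := by
    have h6 : 0 ≤ dih 1 b c a * (sin (π / 2 * b) * sin (π / 2 * c)) := by positivity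
    rw [mx] at h6; linarith
  have hQy : 0 ≤ cos (π / 2 * b) - cos (π / 2 * c) * cos (π / 2 * a) := by
    have h6 : 0 ≤ dih 1 c a b * (sin (π / 2 * c) * sin (π / 2 * a)) := by positivity
    rw [my] at h6; linarith
  have hd2 : 0 ≤ 1 - dih 1 a b c ^ 2 := by
    have := abs_le_one_iff_mul_self_le_one.1 hd1
    nlinarith
  have hsi : (√(1 - dih 1 a b c ^ 2) * (sin (π / 2 * a) * sin (π / 2 * b))) ^ 2 =
      gram3 1 a b c := by
    have m := dih_mul (c := c) 1 h0 ha1 hb0 hb.le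
    rw [mul_pow, Real.sq_sqrt hd2]
    rw [← m] at gz
    linarith [gz]
  have hsi0 : 0 ≤ √(1 - dih 1 a b c ^ 2) := Real.sqrt_nonneg _
  have hsq : 1 - |dih 1 a b c| * |dih 1 a b c| = 1 - dih 1 a b c ^ 2 := by
    rw [← sq, sq_abs]
  have hang : (1 : ℝ) - 2 * (2 / π * arctan (|dih 1 a b c| *
      (1 + √(1 - dih 1 a b c ^ 2))⁻¹)) = ang (dih 1 a b c) := by
    have h3 := arccos_nonneg |dih 1 a b c|
    have h4 : arccos |dih 1 a b c| ≤ π / 2 := arccos_le_pi_div_two.2 (abs_nonneg _)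
    rw [at_two (θ := π / 2 - arccos |dih 1 a b c|) (by linarith) (by linarith)
      (by rw [sin_pi_div_two_sub, cos_arccos (by linarith [abs_nonneg (dih 1 a b c)]) hd1])
      (by rw [cos_pi_div_two_sub, sin_arccos, sq_abs])]
    unfold ang
    field_simp
    ring
  unfold Tt
  generalize hsd : √(1 - dih 1 a b c ^ 2) = si at *
  generalize hkk : |dih 1 a b c| = κ at *
  generalize dih 1 b c a = tx at *
  generalize dih 1 c a b = ty at *
  generalize hzz : ang (dih 1 a b c) = g at *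
  have eb : sin (π / 2 * (1 - b)) = cos (π / 2 * b) := sin_comp b
  have eb' : cos (π / 2 * (1 - b)) = sin (π / 2 * b) := cos_comp b
  generalize hua : cos (π / 2 * a) = u at *
  generalize hub : cos (π / 2 * b) = v at *
  generalize huc : cos (π / 2 * c) = w at *
  generalize hsa' : sin (π / 2 * a) = sa at *
  generalize hsb' : sin (π / 2 * b) = sb at *
  generalize hsc' : sin (π / 2 * c) = sc at *
  generalize gram3 1 a b c = D at *
  have ex := ga_x (u := u) (v := v) (w := w) (sc := sc) hsb hsi (by linarith [gx])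
  have ey := ga_x (u := v) (v := w) (w := u) (sc := sc) (si := si) (sa := sb) (G := D) hsa
    (by rw [← hsi]; ring) (by linarith [gy])
  have eX := ang_half (t := tx) (P := sa * si) (Q := (u - v * w) / sb) (S := sc) hsc (by positivity)
    (div_nonneg hQx hsb.le) ex (by rw [x2]; field_simp)
  have eY := ang_half (t := ty) (P := sb * si) (Q := (v - w * u) / sa) (S := sc) hsc (by positivity)
    (div_nonneg hQy hsa.le) ey (by rw [y2]; field_simp)
  have ek : v * sa⁻¹ * (u - w / v) * sb⁻¹ = κ := by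
    rw [z2]; field_simp
  rw [cFD_eq G (a := a) (be := 1 - b) (n := w / v) hua hsa' eb eb' (div_mul_cancel₀ w hv.ne')
    (sc := sc) (by
      rw [Nat.cast_one, show 1 - w * w = sc ^ 2 by linarith]; exact Real.sqrt_sq hsc.le)
    (c := c) (by rw [Nat.cast_one, Nat.cast_ofNat, hch]; ring) rfl ek
    (si := si) (by rw [Nat.cast_one, hsq]; exact hsd)
    (g := g) (by rw [Nat.cast_one, Nat.cast_ofNat]; exact hang) rfl
    (q := (u - v * w) / sb) (by rw [← ga_q hsa hsb pb z2]; ring) rfl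
    (q2 := (v - w * u) / sa) (by rw [Nat.cast_one]; field_simp)
    (X := ang tx) (by rw [Nat.cast_ofNat]; exact eX) (Y := ang ty)
    (by rw [Nat.cast_ofNat]; exact eY) (b := b) (by rw [Nat.cast_one]; ring)]
  have e1 : |tx| = (u - v * w) / sb * sc⁻¹ := by rw [x2]; field_simp
  have e2 : |ty| = (v - w * u) / sa * sc⁻¹ := by rw [y2]; field_simp
  rw [← e1, ← e2]

end H41MK
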