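import Pool.Agent.H41.MK.Chg

/-!
# Chart identities for the scaled charts
-/

namespace H41MK

open H41FT H45FT Real

variable {a b c : ℝ}

theorem cCoF_eq (G : GF) {ρ t ka si g t2 r2 ia ib u v sap sbp sav sbu p q p2 q2 scp X Y w sc c sa sb
      a b : ℝ}
    (ht2 : t * t = t2) (hr2 : ρ * ρ * t2 = r2) (hia : (((1 : ℕ) : ℝ) + r2)⁻¹ = ia)
    (hib : (((1 : ℕ) : ℝ) + t2)⁻¹ = ib) (hu : (((1 : ℕ) : ℝ) - r2) * ia = u)
    (hv : (((1 : ℕ) : ℝ) - t2) * ib = v) (hsap : 2 * (ρ * ia) = sap) (hsbp : 2 * ib = sbp)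
    (hsav : sap * v = sav) (hsbu : sbp * u = sbu) (hp : sap * si = p) (hq : sbu + sav * ka = q)
    (hp2 : sbp * si = p2) (hq2 : sav + sbu * ka = q2) (hscp : √(p * p + q * q) = scp)
    (hX : 2 * (2 / π * arctan (p * (scp + q)⁻¹)) = X)
    (hY : 2 * (2 / π * arctan (p2 * (scp + q2)⁻¹)) = Y)
    (hw : u * v - t2 * (sap * sbp * ka) = w) (hsc : t * scp = sc)
    (hc : 2 * (2 / π * arctan (sc * (((1 : ℕ) : ℝ) + w)⁻¹)) = c)
    (hsa : t * sap = sa) (hsb : t * sbp = sb)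
    (ha : 2 * (2 / π * arctan (ρ * t)) = a) (hb : 2 * (2 / π * arctan t) = b) :
    cCo rO G false ρ t ka si g =
      G rO a b c u v w sa sb sc X (q * scp⁻¹) Y (q2 * scp⁻¹) g ka := by
  subst ht2; subst hr2; subst hia; subst hib; subst hu; subst hv; subst hsap; subst hsbp
  subst hsav; subst hsbu; subst hp; subst hq; subst hp2; subst hq2; subst hscp; subst hX; subst hY
  subst hw; subst hsc; subst hc; subst hsa; subst hsb; subst ha; subst hb
  rfl

theorem cCoT_eq (G : GF) {ρ t ka si g t2 r2 ia ib u v sap sbp sav sbu p q p2 q2 scp X Y w sc c sa sb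
      a b : ℝ}
    (ht2 : t * t = t2) (hr2 : ρ * ρ * t2 = r2) (hia : (((1 : ℕ) : ℝ) + r2)⁻¹ = ia)
    (hib : (((1 : ℕ) : ℝ) + t2)⁻¹ = ib) (hu : (((1 : ℕ) : ℝ) - r2) * ia = u)
    (hv : (((1 : ℕ) : ℝ) - t2) * ib = v) (hsap : 2 * (ρ * ia) = sap) (hsbp : 2 * ib = sbp)
    (hsav : sap * v = sav) (hsbu : sbp * u = sbu) (hp : sap * si = p) (hq : sbu + sav * ka = q)
    (hp2 : sbp * si = p2) (hq2 : sav + sbu * ka = q2) (hscp : √(p * p + q * q) = scp)
    (hX : 2 * (2 / π * arctan (p * (scp + q)⁻¹)) = X)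
    (hY : 2 * (2 / π * arctan (p2 * (scp + q2)⁻¹)) = Y)
    (hw : u * v - t2 * (sap * sbp * ka) = w) (hsc : t * scp = sc)
    (hc : 2 * (2 / π * arctan (sc * (((1 : ℕ) : ℝ) + w)⁻¹)) = c)
    (hsa : t * sap = sa) (hsb : t * sbp = sb)
    (ha : 2 * (2 / π * arctan (ρ * t)) = a) (hb : 2 * (2 / π * arctan t) = b) :
    cCo rO G true ρ t ka si g =
      G rO a b c u v w sa sb sc X (q * scp⁻¹) Y (q2 * scp⁻¹) g (((0 : ℕ) : ℝ) - ka) := by
  subst ht2; subst hr2; subst hia; subst hib; subst hu; subst hv; subst hsap; subst hsbp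
  subst hsav; subst hsbu; subst hp; subst hq; subst hp2; subst hq2; subst hscp; subst hX; subst hY
  subst hw; subst hsc; subst hc; subst hsa; subst hsb; subst ha; subst hb
  rfl

theorem core_true (G : GF) (h0 : 0 < a) (hab : a ≤ b) (hbc : b ≤ c)
    (hc : c ≤ 1) (hs : c ≤ a + b) {ka si g : ℝ}
    (hka : ka = (cos (π / 2 * a) * cos (π / 2 * b) - cos (π / 2 * c)) *
      (sin (π / 2 * a) * sin (π / 2 * b))⁻¹) (hsi0 : 0 ≤ si)
    (hsi : (si * (sin (π / 2 * a) * sin (π / 2 * b))) ^ 2 = gram3 1 a b c) :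
    cCo rO G false (tan (π / 4 * a) / tan (π / 4 * b)) (tan (π / 4 * b)) ka si g =
      G rO a b c (cos (π / 2 * a)) (cos (π / 2 * b)) (cos (π / 2 * c))
        (sin (π / 2 * a)) (sin (π / 2 * b)) (sin (π / 2 * c))
        (ang (dih 1 b c a)) |dih 1 b c a| (ang (dih 1 c a b)) |dih 1 c a b| g ka ∧
    cCo rO G true (tan (π / 4 * a) / tan (π / 4 * b)) (tan (π / 4 * b)) ka si g =
      G rO a b c (cos (π / 2 * a)) (cos (π / 2 * b)) (cos (π / 2 * c))
        (sin (π / 2 * a)) (sin (π / 2 * b)) (sin (π / 2 * c))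
        (ang (dih 1 b c a)) |dih 1 b c a| (ang (dih 1 c a b)) |dih 1 c a b| g (((0 : ℕ) : ℝ) - ka) := by
  have hpi := Real.pi_pos
  have ha1 : a ≤ 1 := by linarith
  have hb0 : 0 < b := by linarith
  have hb1 : b ≤ 1 := by linarith
  have hc0 : 0 < c := by linarith
  have hg : 0 ≤ gram3 1 a b c := (gram3_one_nonneg_iff h0 hab hbc hc).2 hs
  have hgx : gram3 1 b c a = gram3 1 a b c := by unfold gram3; ring
  have hgy : gram3 1 c a b = gram3 1 a b c := by unfold gram3; ring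
  have hx0 := dih_x_nonneg h0 hab hbc hc
  have hy0 := dih_y_nonneg h0 hab hbc hc
  obtain ⟨-, x2⟩ := ang_pos hb0 hb1 hc0 hc hx0 (hgx ▸ hg)
  obtain ⟨-, y2⟩ := ang_pos hc0 hc h0 ha1 hy0 (hgy ▸ hg)
  have hv := csn hb0.le hb1
  have hu := csn h0.le ha1
  have hw := csn hc0.le hc
  have hsa := snp h0 ha1
  have hsb := snp hb0 hb1
  have hsc := snp hc0 hc
  have pa := sin_sq_add_cos_sq (π / 2 * a)
  have pb := sin_sq_add_cos_sq (π / 2 * b)
  have gx := gram_id (σ := 1) (by norm_num) b c a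
  have gy := gram_id (σ := 1) (by norm_num) c a b
  rw [hgx] at gx
  rw [hgy] at gy
  have hch := at_half (x := c) (by linarith) (by linarith)
  have mx := dih_mul (c := a) 1 hb0 hb1 hc0 hc
  have my := dih_mul (c := b) 1 hc0 hc h0 ha1
  have hQx : 0 ≤ cos (π / 2 * a) - cos (π / 2 * b) * cos (π / 2 * c) := by
    have h6 : 0 ≤ dih 1 b c a * (sin (π / 2 * b) * sin (π / 2 * c)) := by positivity
    rw [mx] at h6; linarith
  have hQy : 0 ≤ cos (π / 2 * b) - cos (π / 2 * c) * cos (π / 2 * a) := by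
    have h6 : 0 ≤ dih 1 c a b * (sin (π / 2 * c) * sin (π / 2 * a)) := by positivity
    rw [my] at h6; linarith
  obtain ⟨s0, sA, sU, sS⟩ := half_sub (s := tan (π / 4 * a)) h0 ha1 rfl
  obtain ⟨t0, tA, tU, tS⟩ := half_sub (s := tan (π / 4 * b)) hb0 hb1 rfl
  generalize dih 1 b c a = tx at *
  generalize dih 1 c a b = ty at *
  generalize tan (π / 4 * a) = s at *
  generalize tan (π / 4 * b) = t at *
  generalize cos (π / 2 * a) = u at *
  generalize cos (π / 2 * b) = v at *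
  generalize cos (π / 2 * c) = w at *
  generalize sin (π / 2 * a) = sa at *
  generalize sin (π / 2 * b) = sb at *
  generalize sin (π / 2 * c) = sc at *
  generalize gram3 1 a b c = D at *
  have ex := ka_x (u := u) (v := v) (w := w) (sc := sc) hsb t0 hsi (by linarith [gx])
  have ey := ka_x (u := v) (v := w) (w := u) (sc := sc) (si := si) (sa := sb) (G := D) hsa t0
    (by rw [← hsi]; ring) (by linarith [gy])
  have eX := ang_half (t := tx) (P := sa / t * si) (Q := (u - v * w) / sb / t) (S := sc / t)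
    (by positivity) (by positivity) (div_nonneg (div_nonneg hQx hsb.le) t0.le) ex
    (by rw [x2]; field_simp)
  have eY := ang_half (t := ty) (P := sb / t * si) (Q := (v - w * u) / sa / t) (S := sc / t)
    (by positivity) (by positivity) (div_nonneg (div_nonneg hQy hsa.le) t0.le) ey
    (by rw [y2]; field_simp)
  have e1 : |tx| = (u - v * w) / sb / t * (sc / t)⁻¹ := by rw [x2]; field_simp
  have e2 : |ty| = (v - w * u) / sa / t * (sc / t)⁻¹ := by rw [y2]; field_simp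
  have r2 : s / t * (s / t) * (t * t) = s * s := by field_simp
  have i1 : 0 < 1 + s * s := by positivity
  have i2 : 0 < 1 + t * t := by positivity
  have f1 : 2 * (s / t * (1 + s * s)⁻¹) = sa / t := by
    rw [← sS]; field_simp
  have f2 : 2 * (1 + t * t)⁻¹ = sb / t := by
    rw [← tS]; field_simp
  have f3 : sb / t * u + sa / t * v * ka = (u - v * w) / sb / t := by
    rw [← ga_q hsa hsb pb hka]; field_simp
  have f4 : sa / t * v + sb / t * u * ka = (v - w * u) / sa / t := by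
    rw [← ga_q2 hsa hsb pa hka]; field_simp
  have f5 : √(sa / t * si * (sa / t * si) + (u - v * w) / sb / t * ((u - v * w) / sb / t)) = sc / t := by
    rw [← sq, ← sq, ex]; exact Real.sqrt_sq (by positivity)
  have f6 : u * v - t * t * (sa / t * (sb / t) * ka) = w := by
    rw [← ga_w hsa hsb hka]; field_simp
  have f7 : t * (sc / t) = sc := by field_simp
  have f8 : t * (sa / t) = sa := by field_simp
  have f9 : t * (sb / t) = sb := by field_simp
  have f10 : 2 * (2 / π * arctan (s / t * t)) = a := by rw [div_mul_cancel₀ _ t0.ne', sA]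
  constructor
  · rw [cCoF_eq G (ρ := s / t) (t := t) (ka := ka) (si := si) (g := g) rfl r2
      (by rw [Nat.cast_one]) (by rw [Nat.cast_one]) (u := u) (by rw [Nat.cast_one, sU])
      (v := v) (by rw [Nat.cast_one, tU]) f1 f2 rfl rfl rfl f3 rfl f4 f5 eX eY f6 f7
      (c := c) (by rw [Nat.cast_one, hch]) f8 f9 f10 tA]
    rw [← e1, ← e2]
  · rw [cCoT_eq G (ρ := s / t) (t := t) (ka := ka) (si := si) (g := g) rfl r2
      (by rw [Nat.cast_one]) (by rw [Nat.cast_one]) (u := u) (by rw [Nat.cast_one, sU])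
      (v := v) (by rw [Nat.cast_one, tU]) f1 f2 rfl rfl rfl f3 rfl f4 f5 eX eY f6 f7
      (c := c) (by rw [Nat.cast_one, hch]) f8 f9 f10 tA]
    rw [← e1, ← e2]

theorem CH_F1 (G : GF) (h0 : 0 < a) (hab : a ≤ b) (hbc : b ≤ c) (hc : c ≤ 1) (hs : c ≤ a + b)
    (ht : dih 1 a b c ≤ 0) : Tt G 1 a b c =
      cF1 rO G (tan (π / 4 * a) / tan (π / 4 * b)) (tan (π / 4 * b)) (ang (dih 1 a b c)) := by
  have hb0 : 0 < b := by linarith
  have hb1 : b ≤ 1 := by linarith
  have hg : 0 ≤ gram3 1 a b c := (gram3_one_nonneg_iff h0 hab hbc hc).2 hs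
  have hd1 := dih_abs_le (σ := 1) (Or.inl rfl) h0 (by linarith) hb0 hb1 hg
  have gz := gram_id (σ := 1) (by norm_num) a b c
  have hsi : (sin (π / 2 * ang (dih 1 a b c)) * (sin (π / 2 * a) * sin (π / 2 * b))) ^ 2 =
      gram3 1 a b c := by
    have m := dih_mul (c := c) 1 h0 (by linarith) hb0 hb1
    have hd2 : 0 ≤ 1 - dih 1 a b c ^ 2 := by
      have := abs_le_one_iff_mul_self_le_one.1 hd1
      nlinarith
    rw [sin_ang, mul_pow, Real.sq_sqrt hd2]
    rw [← m] at gz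
    linarith [gz]
  have hsi0 : 0 ≤ sin (π / 2 * ang (dih 1 a b c)) := by
    rw [sin_ang]; exact Real.sqrt_nonneg _
  have hka : cos (π / 2 * ang (dih 1 a b c)) = (cos (π / 2 * a) * cos (π / 2 * b) -
      cos (π / 2 * c)) * (sin (π / 2 * a) * sin (π / 2 * b))⁻¹ := by
    rw [cos_ang hd1, abs_dih_obt ht]
  have h1 := (core_true G (g := ang (dih 1 a b c)) h0 hab hbc hc hs hka hsi0 hsi).1
  unfold Tt
  have h2 : cF1 rO G (tan (π / 4 * a) / tan (π / 4 * b)) (tan (π / 4 * b)) (ang (dih 1 a b c)) =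
    cCo rO G false (tan (π / 4 * a) / tan (π / 4 * b)) (tan (π / 4 * b))
      (cos (π / 2 * ang (dih 1 a b c))) (sin (π / 2 * ang (dih 1 a b c))) (ang (dih 1 a b c)) := by
    unfold cF1
    rw [lt_app, lt_app]
    simp only [rO]
  rw [h2, h1, cos_ang hd1]

theorem cF0_eq (G : GF) {ρ t τ kz sz : ℝ} (hkz : τ * ρ * (((1 : ℕ) : ℝ) - t * t) = kz)
    (hsz : √(((4 : ℕ) : ℝ) - kz * kz) = sz) : cF0 rO G ρ t τ =
      cCo rO G true ρ t (((0 : ℕ) : ℝ) - (((2 : ℕ) : ℝ))⁻¹ * kz) ((((2 : ℕ) : ℝ))⁻¹ * sz)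
        (((1 : ℕ) : ℝ) - ((2 : ℕ) : ℝ) * (2 / π * arctan (kz * (((2 : ℕ) : ℝ) + sz)⁻¹))) := by
  subst hkz; subst hsz
  unfold cF0
  rw [lt_app, lt_app, lt_app, lt_app, lt_app, lt_app]
  simp only [rO]

theorem CH_F0 (h0 : 0 < a) (hab : a ≤ b) (hbc : b ≤ c) (hc : c ≤ 1) (hs : c ≤ a + b)
    (ht : 0 ≤ dih 1 a b c) : ∃ τ : ℝ, 0 ≤ τ ∧ τ ≤ 1 ∧ ∀ G : GF, Tt G 1 a b c =
      cF0 rO G (tan (π / 4 * a) / tan (π / 4 * b)) (tan (π / 4 * b)) τ := by
  have hpi := Real.pi_pos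
  have ha1 : a ≤ 1 := by linarith
  have hb0 : 0 < b := by linarith
  have hb1 : b ≤ 1 := by linarith
  have hc0 : 0 < c := by linarith
  have hg : 0 ≤ gram3 1 a b c := (gram3_one_nonneg_iff h0 hab hbc hc).2 hs
  have hd1 := dih_abs_le (σ := 1) (Or.inl rfl) h0 (by linarith) hb0 hb1 hg
  have gz := gram_id (σ := 1) (by norm_num) a b c
  have m := dih_mul (c := c) 1 h0 (by linarith) hb0 hb1
  have hd2 : 0 ≤ 1 - dih 1 a b c ^ 2 := by
    have := abs_le_one_iff_mul_self_le_one.1 hd1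
    nlinarith
  have hsi : (√(1 - dih 1 a b c ^ 2) * (sin (π / 2 * a) * sin (π / 2 * b))) ^ 2 =
      gram3 1 a b c := by
    rw [mul_pow, Real.sq_sqrt hd2]
    rw [← m] at gz
    linarith [gz]
  have hsa := snp h0 ha1
  have hsb := snp hb0 hb1
  have hv := csn hb0.le hb1
  have hwv := csa hb0.le hbc hc
  obtain ⟨s0, sA, sU, sS⟩ := half_sub (s := tan (π / 4 * a)) h0 ha1 rfl
  obtain ⟨t0, tA, tU, tS⟩ := half_sub (s := tan (π / 4 * b)) hb0 hb1 rfl
  have hka : -dih 1 a b c = (cos (π / 2 * a) * cos (π / 2 * b) -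
      cos (π / 2 * c)) * (sin (π / 2 * a) * sin (π / 2 * b))⁻¹ := by
    unfold dih; rw [← neg_div, div_eq_mul_inv]; ring
  -- the parameter
  obtain ⟨τ, hτ0, hτ1, hτ⟩ : ∃ τ : ℝ, 0 ≤ τ ∧ τ ≤ 1 ∧
      τ * (tan (π / 4 * a) / tan (π / 4 * b)) * (1 - tan (π / 4 * b) * tan (π / 4 * b)) =
        2 * dih 1 a b c := by
    -- `2 κ ≤ ρ (1 - t²)`
    have key : 2 * dih 1 a b c ≤
        tan (π / 4 * a) / tan (π / 4 * b) * (1 - tan (π / 4 * b) * tan (π / 4 * b)) := by
      have h1 : dih 1 a b c * (sin (π / 2 * a) * sin (π / 2 * b)) ≤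
          cos (π / 2 * b) * (1 - cos (π / 2 * a)) := by
        rw [m]; nlinarith
      have i1 : 0 < 1 + tan (π / 4 * a) * tan (π / 4 * a) := by positivity
      have i2 : 0 < 1 + tan (π / 4 * b) * tan (π / 4 * b) := by positivity
      have e1 : 1 - cos (π / 2 * a) = tan (π / 4 * a) * sin (π / 2 * a) := by
        rw [← sU, ← sS]
        generalize tan (π / 4 * a) = t at *
        field_simp
        ring
      have e2 : cos (π / 2 * b) = (1 - tan (π / 4 * b) * tan (π / 4 * b)) / (2 * tan (π / 4 * b)) *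
          sin (π / 2 * b) := by
        rw [← tU, ← tS]
        generalize tan (π / 4 * b) = t at *
        field_simp
      rw [e1, e2] at h1
      generalize tan (π / 4 * a) = s at *
      generalize tan (π / 4 * b) = t at *
      generalize sin (π / 2 * a) = sa at *
      generalize sin (π / 2 * b) = sb at *
      have h2 : (1 - t * t) / (2 * t) * sb * (s * sa) = (s / t * (1 - t * t) / 2) * (sa * sb) := by
        field_simp
      rw [h2] at h1
      have h3 := le_of_mul_le_mul_right h1 (mul_pos hsa hsb)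
      linarith
    rcases (show 0 ≤ tan (π / 4 * a) / tan (π / 4 * b) * (1 - tan (π / 4 * b) * tan (π / 4 * b)) by
      linarith).eq_or_lt with h | h
    · refine ⟨0, le_rfl, zero_le_one, ?_⟩
      rw [← h] at key
      have : dih 1 a b c = 0 := le_antisymm (by linarith) ht
      rw [this]; ring
    · refine ⟨2 * dih 1 a b c / (tan (π / 4 * a) / tan (π / 4 * b) *
        (1 - tan (π / 4 * b) * tan (π / 4 * b))), by positivity, ?_, ?_⟩
      · rw [div_le_one h]; exact key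
      · rw [mul_assoc, div_mul_cancel₀ _ h.ne']
  refine ⟨τ, hτ0, hτ1, fun G => ?_⟩
  have hsz : √(((4 : ℕ) : ℝ) - 2 * dih 1 a b c * (2 * dih 1 a b c)) = 2 * √(1 - dih 1 a b c ^ 2) := by
    rw [show ((4 : ℕ) : ℝ) - 2 * dih 1 a b c * (2 * dih 1 a b c) = 2 ^ 2 * (1 - dih 1 a b c ^ 2) by
      push_cast; ring, Real.sqrt_mul (by norm_num), Real.sqrt_sq (by norm_num)]
  rw [cF0_eq G (kz := 2 * dih 1 a b c) (by rw [Nat.cast_one]; exact hτ) hsz]
  have eka : (((0 : ℕ) : ℝ) - (((2 : ℕ) : ℝ))⁻¹ * (2 * dih 1 a b c)) = -dih 1 a b c := by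
    push_cast; ring
  have esi : (((2 : ℕ) : ℝ))⁻¹ * (2 * √(1 - dih 1 a b c ^ 2)) = √(1 - dih 1 a b c ^ 2) := by
    push_cast; ring
  have eg : ((1 : ℕ) : ℝ) - ((2 : ℕ) : ℝ) * (2 / π * arctan (2 * dih 1 a b c *
      (((2 : ℕ) : ℝ) + 2 * √(1 - dih 1 a b c ^ 2))⁻¹)) = ang (dih 1 a b c) := by
    rw [show ((2 : ℕ) : ℝ) = 2 by norm_num]
    have hs0 := Real.sqrt_nonneg (1 - dih 1 a b c ^ 2)
    have e5 : 2 * dih 1 a b c * (2 + 2 * √(1 - dih 1 a b c ^ 2))⁻¹ =
        dih 1 a b c * (1 + √(1 - dih 1 a b c ^ 2))⁻¹ := by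
      have : 0 < 1 + √(1 - dih 1 a b c ^ 2) := by linarith
      field_simp
    have h3 := arccos_nonneg (dih 1 a b c)
    have h4 : arccos (dih 1 a b c) ≤ π / 2 := arccos_le_pi_div_two.2 ht
    rw [e5, at_two (θ := π / 2 - arccos (dih 1 a b c)) (by linarith) (by linarith)
      (by rw [sin_pi_div_two_sub, cos_arccos (by linarith) (by
        have := le_abs_self (dih 1 a b c); linarith)])
      (by rw [cos_pi_div_two_sub, sin_arccos])]
    unfold ang
    rw [abs_of_nonneg ht]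
    push_cast
    field_simp
    ring
  rw [eka, esi, eg, (core_true G (g := ang (dih 1 a b c)) h0 hab hbc hc hs hka (Real.sqrt_nonneg _) hsi).2]
  unfold Tt
  have e6 : ((0 : ℕ) : ℝ) - -dih 1 a b c = |dih 1 a b c| := by
    rw [abs_of_nonneg ht]; push_cast; ring
  rw [e6]

end H41MK
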