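import Pool.Agent.H41.MK.Tru
import Pool.Agent.H41.FT.Chk

/-!
# Chart identities for the sides and for `T_-`
-/

namespace H41MK

open H41FT H45FT Real

variable {a b c : ℝ}

theorem cSdT_eq (G : GF) {x y z u v w sa sb sc : ℝ} (hu : sin (π / 2 * x) = u)
    (hv : sin (π / 2 * y) = v) (hw : sin (π / 2 * z) = w) (hsa : cos (π / 2 * x) = sa)
    (hsb : cos (π / 2 * y) = sb) (hsc : cos (π / 2 * z) = sc) {D : ℝ}
    (hG : ((1 : ℕ) : ℝ) - u * u - v * v - w * w - ((2 : ℕ) : ℝ) * (u * v * w) = D) :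
    cSd rO G true x y z = G rO (((1 : ℕ) : ℝ) - x) (((1 : ℕ) : ℝ) - y) (((1 : ℕ) : ℝ) - z)
      u v w sa sb sc
      (((2 : ℕ) : ℝ) * (2 / π * arctan (√D * (sb * sc + (u + v * w))⁻¹))) ((u + v * w) * (sb * sc)⁻¹)
      (((2 : ℕ) : ℝ) * (2 / π * arctan (√D * (sc * sa + (v + w * u))⁻¹))) ((v + w * u) * (sc * sa)⁻¹)
      (((2 : ℕ) : ℝ) * (2 / π * arctan (√D * (sa * sb + (w + u * v))⁻¹)))
      ((w + u * v) * (sa * sb)⁻¹) := by
  subst hu; subst hv; subst hw; subst hsa; subst hsb; subst hsc; subst hG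
  rfl

theorem cSdF_eq (G : GF) {x y z u v w sa sb sc : ℝ} (hu : sin (π / 2 * x) = u)
    (hv : sin (π / 2 * y) = v) (hw : sin (π / 2 * z) = w) (hsa : cos (π / 2 * x) = sa)
    (hsb : cos (π / 2 * y) = sb) (hsc : cos (π / 2 * z) = sc) {D : ℝ}
    (hG : ((1 : ℕ) : ℝ) - u * u - v * v - w * w + ((2 : ℕ) : ℝ) * (u * v * w) = D) :
    cSd rO G false x y z = G rO (((1 : ℕ) : ℝ) - x) (((1 : ℕ) : ℝ) - y) (((1 : ℕ) : ℝ) - z)
      u v w sa sb sc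
      (((2 : ℕ) : ℝ) * (2 / π * arctan (√D * (sb * sc + (u - v * w))⁻¹))) ((u - v * w) * (sb * sc)⁻¹)
      (((2 : ℕ) : ℝ) * (2 / π * arctan (√D * (sc * sa + (v - w * u))⁻¹))) ((v - w * u) * (sc * sa)⁻¹)
      (((2 : ℕ) : ℝ) * (2 / π * arctan (√D * (sa * sb + (w - u * v))⁻¹)))
      ((w - u * v) * (sa * sb)⁻¹) := by
  subst hu; subst hv; subst hw; subst hsa; subst hsb; subst hsc; subst hG
  rfl

theorem CH_Sd3 (G : GF) (h0 : 0 < a) (hab : a ≤ b) (hbc : b ≤ c) (hc : c ≤ 1) (hs : 2 ≤ a + b + c) :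
    Tt G (-1) a b c = cSd rO G true (1 - a) (1 - b) (1 - c) := by
  have ha1 : a ≤ 1 := by linarith
  have hb0 : 0 < b := by linarith
  have hb1 : b ≤ 1 := by linarith
  have hc0 : 0 < c := by linarith
  have hg : 0 ≤ gram3 (-1) a b c := (gram3_neg_nonneg_iff h0 hab hbc hc).2 hs
  have hgx : gram3 (-1) b c a = gram3 (-1) a b c := by unfold gram3; ring
  have hgy : gram3 (-1) c a b = gram3 (-1) a b c := by unfold gram3; ring
  obtain ⟨z1, z2⟩ := ang_neg h0 ha1 hb0 hb1 hc0.le hc hg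
  obtain ⟨x1, x2⟩ := ang_neg hb0 hb1 hc0 hc h0.le ha1 (hgx ▸ hg)
  obtain ⟨y1, y2⟩ := ang_neg hc0 hc h0 ha1 hb0.le hb1 (hgy ▸ hg)
  rw [hgx] at x1
  rw [hgy] at y1
  have hG : ((1 : ℕ) : ℝ) - cos (π / 2 * a) * cos (π / 2 * a) - cos (π / 2 * b) * cos (π / 2 * b) -
      cos (π / 2 * c) * cos (π / 2 * c) - ((2 : ℕ) : ℝ) * (cos (π / 2 * a) * cos (π / 2 * b) *
      cos (π / 2 * c)) = gram3 (-1) a b c := by
    unfold gram3; push_cast; ring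
  rw [cSdT_eq G (sin_comp a) (sin_comp b) (sin_comp c) (cos_comp a) (cos_comp b) (cos_comp c) hG]
  unfold Tt
  rw [x1, x2, y1, y2, z1, z2]
  simp only [Nat.cast_one, Nat.cast_ofNat, sub_sub_cancel]

theorem CH_Sd0 (G : GF) (h0 : 0 < a) (hab : a ≤ b) (hbc : b ≤ c) (hc : c ≤ 1) (hs : c ≤ a + b)
    (ht : 0 ≤ dih 1 a b c) : Tt G 1 a b c = cSd rO G false (1 - a) (1 - b) (1 - c) := by
  have ha1 : a ≤ 1 := by linarith
  have hb0 : 0 < b := by linarith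
  have hb1 : b ≤ 1 := by linarith
  have hc0 : 0 < c := by linarith
  have hg : 0 ≤ gram3 1 a b c := (gram3_one_nonneg_iff h0 hab hbc hc).2 hs
  have hgx : gram3 1 b c a = gram3 1 a b c := by unfold gram3; ring
  have hgy : gram3 1 c a b = gram3 1 a b c := by unfold gram3; ring
  obtain ⟨z1, z2⟩ := ang_pos h0 ha1 hb0 hb1 ht hg
  obtain ⟨x1, x2⟩ := ang_pos hb0 hb1 hc0 hc (dih_x_nonneg h0 hab hbc hc) (hgx ▸ hg)
  obtain ⟨y1, y2⟩ := ang_pos hc0 hc h0 ha1 (dih_y_nonneg h0 hab hbc hc) (hgy ▸ hg)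
  rw [hgx] at x1
  rw [hgy] at y1
  have hG : ((1 : ℕ) : ℝ) - cos (π / 2 * a) * cos (π / 2 * a) - cos (π / 2 * b) * cos (π / 2 * b) -
      cos (π / 2 * c) * cos (π / 2 * c) + ((2 : ℕ) : ℝ) * (cos (π / 2 * a) * cos (π / 2 * b) *
      cos (π / 2 * c)) = gram3 1 a b c := by
    unfold gram3; push_cast; ring
  rw [cSdF_eq G (sin_comp a) (sin_comp b) (sin_comp c) (cos_comp a) (cos_comp b) (cos_comp c) hG]
  unfold Tt
  rw [x1, x2, y1, y2, z1, z2]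
  simp only [Nat.cast_one, Nat.cast_ofNat, sub_sub_cancel]

end H41MK
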