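import Pool.Agent.H41.MK.Fun

/-!
# Parametricity
-/

namespace H41MK

open H41FT

/-- a final assembly respects enclosures -/
def Par (G : GF) : Prop := ∀ {T : Type} {K : Set P} {o : Ops T} {ok : T → Prop} {SE : T → (P → ℝ)
      → Prop}
    (_ : Sound K o ok SE) {x1 x2 x3 x4 x5 x6 x7 x8 x9 x10 x11 x12 x13 x14 x15 : T}
    {y1 y2 y3 y4 y5 y6 y7 y8 y9 y10 y11 y12 y13 y14 y15 : P → ℝ},
    R ok SE x1 y1 → R ok SE x2 y2 → R ok SE x3 y3 → R ok SE x4 y4 → R ok SE x5 y5 → R ok SE x6 y6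
      →
    R ok SE x7 y7 → R ok SE x8 y8 → R ok SE x9 y9 → R ok SE x10 y10 → R ok SE x11 y11 →
    R ok SE x12 y12 → R ok SE x13 y13 → R ok SE x14 y14 → R ok SE x15 y15 →
    R ok SE (G o x1 x2 x3 x4 x5 x6 x7 x8 x9 x10 x11 x12 x13 x14 x15)
      (G fO y1 y2 y3 y4 y5 y6 y7 y8 y9 y10 y11 y12 y13 y14 y15)

section

variable {T : Type} {K : Set P} {o : Ops T} {ok : T → Prop} {SE : T → (P → ℝ) → Prop}

theorem vtx_R (S : Sound K o ok SE) (mk sg : Bool)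
    {a1 a2 g1 g2 C1 C2 P1 P2 S1 S2 gam X : T} {a1' a2' g1' g2' C1' C2' P1' P2' S1' S2' gam' X' :
      P → ℝ}
    (ha1 : R ok SE a1 a1')
    (ha2 : R ok SE a2 a2')
    (hg1 : R ok SE g1 g1')
    (hg2 : R ok SE g2 g2')
    (hC1 : R ok SE C1 C1')
    (hC2 : R ok SE C2 C2')
    (hP1 : R ok SE P1 P1')
    (hP2 : R ok SE P2 P2')
    (hS1 : R ok SE S1 S1')
    (hS2 : R ok SE S2 S2')
    (hgam : R ok SE gam gam')
    (hX : R ok SE X X') :
    R ok SE (vtx o mk sg a1 a2 g1 g2 C1 C2 P1 P2 S1 S2 gam X) (vtx fO mk sg a1' a2' g1' g2' C1'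
      C2' P1' P2' S1' S2' gam' X') := by
  unfold vtx
  refine rlt (E := R ok SE) (S.rmul hX hX) fun _ _ hX2 => ?_
  refine rlt (E := R ok SE) (S.rmul hC1 hC2) fun _ _ hCC => ?_
  refine rlt (E := R ok SE) (S.rmul hS1 hS2) fun _ _ hSQ => ?_
  refine rlt (E := R ok SE) (S.rmul hg1 hg2) fun _ _ hGG => ?_
  refine rlt (E := R ok SE) (S.rsmul 264 (S.rmul hSQ hCC)) fun _ _ hZ => ?_
  refine rlt (E := R ok SE) (by cases mk; exacts [(S.rsub (S.rnat 4880) (S.rsmul 12960 ha2)),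
      (S.rsub (S.rsmul 12960 ha1) (S.rnat 8080))]) fun _ _ he12 => ?_
  refine rlt (E := R ok SE) (by cases mk; exacts [ha1, (S.rsub (S.rnat 1) ha2)]) fun _ _ hM => ?_
  refine rlt (E := R ok SE) (S.rmul (S.rsub (S.rsmul 810 hM) (S.rsmul 105 hSQ)) (S.rmul hX
      (S.radd (S.rnat 13) (S.rsmul 3 hX2)))) fun _ _ hOo => ?_
  refine rlt (E := R ok SE) (S.rsub (S.radd he12 (S.rsmul 800 (S.radd hg1 hg2))) (S.radd (S.radd
      (S.rsmul 1680 hCC) (S.rsmul 32 (S.rmul hP1 hP2))) (S.radd (S.rsmul 130 hGG) hZ))) fun _ _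
      hE => ?_
  refine rlt (E := R ok SE) (S.radd (S.radd (S.rsmul 330 (S.rmul hGG (S.rsub (S.rnat 1) hgam)))
      hZ) (S.rmul hX2 hE)) fun _ _ hr => ?_
  cases sg
  exacts [(S.rsub hr hOo), (S.radd hr hOo)]

theorem RG_R (S : Sound K o ok SE) (kab kbc kac sz sx : Bool)
    {a b c u v w sa sb sc gx cx gy cy gz cz : T} {a' b' c' u' v' w' sa' sb' sc' gx' cx' gy' cy'
      gz' cz' : P → ℝ}
    (ha : R ok SE a a')
    (hb : R ok SE b b')
    (hc : R ok SE c c')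
    (hu : R ok SE u u')
    (hv : R ok SE v v')
    (hw : R ok SE w w')
    (hsa : R ok SE sa sa')
    (hsb : R ok SE sb sb')
    (hsc : R ok SE sc sc')
    (hgx : R ok SE gx gx')
    (hcx : R ok SE cx cx')
    (hgy : R ok SE gy gy')
    (hcy : R ok SE cy cy')
    (hgz : R ok SE gz gz')
    (hcz : R ok SE cz cz') :
    R ok SE (RG o kab kbc kac sz sx a b c u v w sa sb sc gx cx gy cy gz cz) (RG fO kab kbc kac sz
      sx a' b' c' u' v' w' sa' sb' sc' gx' cx' gy' cy' gz' cz') := by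
  unfold RG
  refine rlt (E := R ok SE) (S.rmul hsa hsa) fun _ _ ha2 => ?_
  refine rlt (E := R ok SE) (S.rmul hsb hsb) fun _ _ hb2 => ?_
  refine rlt (E := R ok SE) (S.rmul hsc hsc) fun _ _ hc2 => ?_
  refine rlt (E := R ok SE) (S.rsub (S.rsmul 7 ha) (S.rsmul 3 ha2)) fun _ _ hga => ?_
  refine rlt (E := R ok SE) (S.rsub (S.rsmul 7 hb) (S.rsmul 3 hb2)) fun _ _ hgb => ?_
  refine rlt (E := R ok SE) (S.rsub (S.rsmul 7 hc) (S.rsmul 3 hc2)) fun _ _ hgc => ?_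
  refine rlt (E := R ok SE) (S.rsub (S.rnat 1) (S.rsmul 2 ha2)) fun _ _ hCa => ?_
  refine rlt (E := R ok SE) (S.rsub (S.rnat 1) (S.rsmul 2 hb2)) fun _ _ hCb => ?_
  refine rlt (E := R ok SE) (S.rsub (S.rnat 1) (S.rsmul 2 hc2)) fun _ _ hCc => ?_
  refine rlt (E := R ok SE) (S.rsub (S.radd (S.rnat 10) (S.rsmul 3 ha2)) (S.rsmul 23 ha)) fun _ _
      hPa => ?_
  refine rlt (E := R ok SE) (S.rsub (S.radd (S.rnat 10) (S.rsmul 3 hb2)) (S.rsmul 23 hb)) fun _ _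
      hPb => ?_
  refine rlt (E := R ok SE) (S.rsub (S.radd (S.rnat 10) (S.rsmul 3 hc2)) (S.rsmul 23 hc)) fun _ _
      hPc => ?_
  refine rlt (E := R ok SE) (S.rsmul 2 (S.rmul hsa hu)) fun _ _ hSa => ?_
  refine rlt (E := R ok SE) (S.rsmul 2 (S.rmul hsb hv)) fun _ _ hSb => ?_
  refine rlt (E := R ok SE) (S.rsmul 2 (S.rmul hsc hw)) fun _ _ hSc => ?_
  refine rlt (E := R ok SE) (S.rsub (S.rnat 20) (S.radd (S.rsmul 11 ha) (S.rsmul 9 ha2))) fun _ _
      hka => ?_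
  refine rlt (E := R ok SE) (S.rsub (S.rnat 20) (S.radd (S.rsmul 11 hb) (S.rsmul 9 hb2))) fun _ _
      hkb => ?_
  refine rlt (E := R ok SE) (S.rsub (S.rnat 20) (S.radd (S.rsmul 11 hc) (S.rsmul 9 hc2))) fun _ _
      hkc => ?_
  refine rlt (E := R ok SE) (S.radd (S.rmul (S.rsub (S.rsmul 27 ha) (S.rsmul 7 ha2)) (S.radd hkb
      hkc)) (S.radd (S.rmul (S.rsub (S.rsmul 27 hb) (S.rsmul 7 hb2)) (S.radd hkc hka)) (S.rmul
      (S.rsub (S.rsmul 27 hc) (S.rsmul 7 hc2)) (S.radd hka hkb)))) fun _ _ hN => ?_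
  exact S.rsub (S.rsmul 12 hN) (S.radd (vtx_R S kab sz ha hb hga hgb hCa hCb hPa hPb hSa hSb hgz
      hcz) (S.radd (vtx_R S kbc sx hb hc hgb hgc hCb hCc hPb hPc hSb hSc hgx hcx) (vtx_R S kac sx
      ha hc hga hgc hCa hCc hPa hPc hSa hSc hgy hcy)))

theorem cFs_R (S : Sound K o ok SE) {G : GF} (hG : Par G)
    {a b g : T} {a' b' g' : P → ℝ}
    (ha : R ok SE a a')
    (hb : R ok SE b b')
    (hg : R ok SE g g') :
    R ok SE (cFs o G a b g) (cFs fO G a' b' g') := by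
  unfold cFs
  refine rlt (E := R ok SE) (S.rcs ha) fun _ _ hu => ?_
  refine rlt (E := R ok SE) (S.rsn ha) fun _ _ hsa => ?_
  refine rlt (E := R ok SE) (S.rcs hb) fun _ _ hv => ?_
  refine rlt (E := R ok SE) (S.rsn hb) fun _ _ hsb => ?_
  refine rlt (E := R ok SE) (S.rcs hg) fun _ _ hka => ?_
  refine rlt (E := R ok SE) (S.rsn hg) fun _ _ hsi => ?_
  refine rlt (E := R ok SE) (S.rmul hsa hv) fun _ _ hsav => ?_
  refine rlt (E := R ok SE) (S.rmul hsb hu) fun _ _ hsbu => ?_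
  refine rlt (E := R ok SE) (S.rsub (S.rmul hu hv) (S.rmul (S.rmul hsa hsb) hka)) fun _ _ hw => ?_
  refine rlt (E := R ok SE) (S.rmul hsa hsi) fun _ _ hp => ?_
  refine rlt (E := R ok SE) (S.radd hsbu (S.rmul hsav hka)) fun _ _ hq => ?_
  refine rlt (E := R ok SE) (S.rmul hsb hsi) fun _ _ hp2 => ?_
  refine rlt (E := R ok SE) (S.radd hsav (S.rmul hsbu hka)) fun _ _ hq2 => ?_
  refine rlt (E := R ok SE) (S.rsqrt (S.radd (S.rmul hp hp) (S.rmul hq hq))) fun _ _ hsc => ?_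
  refine rlt (E := R ok SE) (S.rinv hsc) fun _ _ hisc => ?_
  refine rlt (E := R ok SE) (S.rsmul 2 (S.rat (S.rmul hp (S.rinv (S.radd hsc hq))))) fun _ _ hX
      => ?_
  refine rlt (E := R ok SE) (S.rsmul 2 (S.rat (S.rmul hp2 (S.rinv (S.radd hsc hq2))))) fun _ _ hY
      => ?_
  refine rlt (E := R ok SE) (S.rsmul 2 (S.rat (S.rmul hsc (S.rinv (S.radd (S.rnat 1) hw))))) fun
      _ _ hc => ?_
  refine rlt (E := R ok SE) (S.rmul hq hisc) fun _ _ hcx => ?_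
  refine rlt (E := R ok SE) (S.rmul hq2 hisc) fun _ _ hcy => ?_
  exact hG S ha hb hc hu hv hw hsa hsb hsc hX hcx hY hcy hg hka

theorem cCo_R (S : Sound K o ok SE) {G : GF} (hG : Par G) (neg : Bool)
    {rho t ka si g : T} {rho' t' ka' si' g' : P → ℝ}
    (hrho : R ok SE rho rho')
    (ht : R ok SE t t')
    (hka : R ok SE ka ka')
    (hsi : R ok SE si si')
    (hg : R ok SE g g') :
    R ok SE (cCo o G neg rho t ka si g) (cCo fO G neg rho' t' ka' si' g') := by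
  unfold cCo
  refine rlt (E := R ok SE) (S.rmul ht ht) fun _ _ ht2 => ?_
  refine rlt (E := R ok SE) (S.rmul (S.rmul hrho hrho) ht2) fun _ _ hr2 => ?_
  refine rlt (E := R ok SE) (S.rinv (S.radd (S.rnat 1) hr2)) fun _ _ hia => ?_
  refine rlt (E := R ok SE) (S.rinv (S.radd (S.rnat 1) ht2)) fun _ _ hib => ?_
  refine rlt (E := R ok SE) (S.rmul (S.rsub (S.rnat 1) hr2) hia) fun _ _ hu => ?_
  refine rlt (E := R ok SE) (S.rmul (S.rsub (S.rnat 1) ht2) hib) fun _ _ hv => ?_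
  refine rlt (E := R ok SE) (S.rsmul 2 (S.rmul hrho hia)) fun _ _ hsap => ?_
  refine rlt (E := R ok SE) (S.rsmul 2 hib) fun _ _ hsbp => ?_
  refine rlt (E := R ok SE) (S.rmul hsap hv) fun _ _ hsav => ?_
  refine rlt (E := R ok SE) (S.rmul hsbp hu) fun _ _ hsbu => ?_
  refine rlt (E := R ok SE) (S.rmul hsap hsi) fun _ _ hp => ?_
  refine rlt (E := R ok SE) (S.radd hsbu (S.rmul hsav hka)) fun _ _ hq => ?_
  refine rlt (E := R ok SE) (S.rmul hsbp hsi) fun _ _ hp2 => ?_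
  refine rlt (E := R ok SE) (S.radd hsav (S.rmul hsbu hka)) fun _ _ hq2 => ?_
  refine rlt (E := R ok SE) (S.rsqrt (S.radd (S.rmul hp hp) (S.rmul hq hq))) fun _ _ hscp => ?_
  refine rlt (E := R ok SE) (S.rinv hscp) fun _ _ hisc => ?_
  refine rlt (E := R ok SE) (S.rsmul 2 (S.rat (S.rmul hp (S.rinv (S.radd hscp hq))))) fun _ _ hX
      => ?_
  refine rlt (E := R ok SE) (S.rsmul 2 (S.rat (S.rmul hp2 (S.rinv (S.radd hscp hq2))))) fun _ _
      hY => ?_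
  refine rlt (E := R ok SE) (S.rsub (S.rmul hu hv) (S.rmul ht2 (S.rmul (S.rmul hsap hsbp) hka)))
      fun _ _ hw => ?_
  refine rlt (E := R ok SE) (S.rmul ht hscp) fun _ _ hsc => ?_
  refine rlt (E := R ok SE) (S.rsmul 2 (S.rat (S.rmul hsc (S.rinv (S.radd (S.rnat 1) hw))))) fun
      _ _ hc => ?_
  refine rlt (E := R ok SE) (S.rmul ht hsap) fun _ _ hsa => ?_
  refine rlt (E := R ok SE) (S.rmul ht hsbp) fun _ _ hsb => ?_
  refine rlt (E := R ok SE) (by cases neg; exacts [hka, (S.rsub (S.rnat 0) hka)]) fun _ _ hcz =>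
      ?_
  refine rlt (E := R ok SE) (S.rsmul 2 (S.rat (S.rmul hrho ht))) fun _ _ ha => ?_
  refine rlt (E := R ok SE) (S.rsmul 2 (S.rat ht)) fun _ _ hb => ?_
  refine rlt (E := R ok SE) (S.rmul hq hisc) fun _ _ hcx => ?_
  refine rlt (E := R ok SE) (S.rmul hq2 hisc) fun _ _ hcy => ?_
  exact hG S ha hb hc hu hv hw hsa hsb hsc hX hcx hY hcy hg hcz

theorem cF1_R (S : Sound K o ok SE) {G : GF} (hG : Par G)
    {rho t g : T} {rho' t' g' : P → ℝ}
    (hrho : R ok SE rho rho')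
    (ht : R ok SE t t')
    (hg : R ok SE g g') :
    R ok SE (cF1 o G rho t g) (cF1 fO G rho' t' g') := by
  unfold cF1
  refine rlt (E := R ok SE) (S.rcs hg) fun _ _ hka => ?_
  refine rlt (E := R ok SE) (S.rsn hg) fun _ _ hsi => ?_
  exact cCo_R S hG false hrho ht hka hsi hg

theorem cF0_R (S : Sound K o ok SE) {G : GF} (hG : Par G)
    {rho t tau : T} {rho' t' tau' : P → ℝ}
    (hrho : R ok SE rho rho')
    (ht : R ok SE t t')
    (htau : R ok SE tau tau') :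
    R ok SE (cF0 o G rho t tau) (cF0 fO G rho' t' tau') := by
  unfold cF0
  refine rlt (E := R ok SE) (S.rmul (S.rmul htau hrho) (S.rsub (S.rnat 1) (S.rmul ht ht))) fun _
      _ hkz2 => ?_
  refine rlt (E := R ok SE) (S.rsqrt (S.rsub (S.rnat 4) (S.rmul hkz2 hkz2))) fun _ _ hsz2 => ?_
  refine rlt (E := R ok SE) (S.rsub (S.rnat 1) (S.rsmul 2 (S.rat (S.rmul hkz2 (S.rinv (S.radd
      (S.rnat 2) hsz2)))))) fun _ _ hZ => ?_
  refine rlt (E := R ok SE) (S.rinv (S.rnat 2)) fun _ _ hhf => ?_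
  refine rlt (E := R ok SE) (S.rsub (S.rnat 0) (S.rmul hhf hkz2)) fun _ _ hka => ?_
  refine rlt (E := R ok SE) (S.rmul hhf hsz2) fun _ _ hsi => ?_
  exact cCo_R S hG true hrho ht hka hsi hZ

theorem cC3_R (S : Sound K o ok SE) {G : GF} (hG : Par G)
    {a g n : T} {a' g' n' : P → ℝ}
    (ha : R ok SE a a')
    (hg : R ok SE g g')
    (hn : R ok SE n n') :
    R ok SE (cC3 o G a g n) (cC3 fO G a' g' n') := by
  unfold cC3
  refine rlt (E := R ok SE) (S.rcs ha) fun _ _ hu => ?_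
  refine rlt (E := R ok SE) (S.rsn ha) fun _ _ hsa => ?_
  refine rlt (E := R ok SE) (S.rcs hg) fun _ _ hka => ?_
  refine rlt (E := R ok SE) (S.rsn hg) fun _ _ hsi => ?_
  refine rlt (E := R ok SE) (S.rmul hka hsa) fun _ _ hy => ?_
  refine rlt (E := R ok SE) (S.radd hu hn) fun _ _ hun => ?_
  refine rlt (E := R ok SE) (S.rsqrt (S.radd (S.rmul hun hun) (S.rmul hy hy))) fun _ _ hR => ?_
  refine rlt (E := R ok SE) (S.rinv hR) fun _ _ hiR => ?_
  refine rlt (E := R ok SE) (S.rmul hy hiR) fun _ _ hv => ?_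
  refine rlt (E := R ok SE) (S.rmul hun hiR) fun _ _ hsb => ?_
  refine rlt (E := R ok SE) (S.rsub (S.rnat 1) (S.rsmul 2 (S.rat (S.rmul hy (S.rinv (S.radd hun
      hR)))))) fun _ _ hb => ?_
  refine rlt (E := R ok SE) (S.rmul hn hv) fun _ _ hw => ?_
  refine rlt (E := R ok SE) (S.rmul hsa hsi) fun _ _ hp => ?_
  refine rlt (E := R ok SE) (S.radd (S.rmul hu hsb) (S.rmul hy hv)) fun _ _ hq => ?_
  refine rlt (E := R ok SE) (S.rmul hsb hsi) fun _ _ hp2 => ?_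
  refine rlt (E := R ok SE) (S.radd (S.rmul hv hsa) (S.rmul (S.rmul hu hsb) hka)) fun _ _ hq2 =>
      ?_
  refine rlt (E := R ok SE) (S.rsqrt (S.rsub (S.rnat 1) (S.rmul hw hw))) fun _ _ hsc => ?_
  refine rlt (E := R ok SE) (S.rinv hsc) fun _ _ hisc => ?_
  refine rlt (E := R ok SE) (S.rsmul 2 (S.rat (S.rmul hp (S.rinv (S.radd hsc hq))))) fun _ _ hX
      => ?_
  refine rlt (E := R ok SE) (S.rsmul 2 (S.rat (S.rmul hp2 (S.rinv (S.radd hsc hq2))))) fun _ _ hY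
      => ?_
  refine rlt (E := R ok SE) (S.rsub (S.rnat 1) (S.rsmul 2 (S.rat (S.rmul hw (S.rinv (S.radd
      (S.rnat 1) hsc)))))) fun _ _ hc => ?_
  refine rlt (E := R ok SE) (S.rmul hq hisc) fun _ _ hcx => ?_
  refine rlt (E := R ok SE) (S.rmul hq2 hisc) fun _ _ hcy => ?_
  exact hG S ha hb hc hu hv hw hsa hsb hsc hX hcx hY hcy hg hka

theorem cSd_R (S : Sound K o ok SE) {G : GF} (hG : Par G) (neg : Bool)
    {al be de : T} {al' be' de' : P → ℝ}
    (hal : R ok SE al al')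
    (hbe : R ok SE be be')
    (hde : R ok SE de de') :
    R ok SE (cSd o G neg al be de) (cSd fO G neg al' be' de') := by
  unfold cSd
  refine rlt (E := R ok SE) (S.rsn hal) fun _ _ hu => ?_
  refine rlt (E := R ok SE) (S.rsn hbe) fun _ _ hv => ?_
  refine rlt (E := R ok SE) (S.rsn hde) fun _ _ hw => ?_
  refine rlt (E := R ok SE) (S.rcs hal) fun _ _ hsa => ?_
  refine rlt (E := R ok SE) (S.rcs hbe) fun _ _ hsb => ?_
  refine rlt (E := R ok SE) (S.rcs hde) fun _ _ hsc => ?_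
  refine rlt (E := R ok SE) (S.rmul hu hv) fun _ _ huv => ?_
  refine rlt (E := R ok SE) (S.rmul hv hw) fun _ _ hvw => ?_
  refine rlt (E := R ok SE) (S.rmul hw hu) fun _ _ hwu => ?_
  refine rlt (E := R ok SE) (S.rsub (S.rsub (S.rsub (S.rnat 1) (S.rmul hu hu)) (S.rmul hv hv))
      (S.rmul hw hw)) fun _ _ hG0 => ?_
  refine rlt (E := R ok SE) (S.rsmul 2 (S.rmul huv hw)) fun _ _ he => ?_
  refine rlt (E := R ok SE) (by cases neg; exacts [(S.radd hG0 he), (S.rsub hG0 he)]) fun _ _ hD2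
      => ?_
  refine rlt (E := R ok SE) (S.rsqrt hD2) fun _ _ hDr => ?_
  refine rlt (E := R ok SE) (by cases neg; exacts [(S.rsub hu hvw), (S.radd hu hvw)]) fun _ _ hnx
      => ?_
  refine rlt (E := R ok SE) (by cases neg; exacts [(S.rsub hv hwu), (S.radd hv hwu)]) fun _ _ hny
      => ?_
  refine rlt (E := R ok SE) (by cases neg; exacts [(S.rsub hw huv), (S.radd hw huv)]) fun _ _ hnz
      => ?_
  refine rlt (E := R ok SE) (S.rmul hsa hsb) fun _ _ hab => ?_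
  refine rlt (E := R ok SE) (S.rmul hsb hsc) fun _ _ hbc => ?_
  refine rlt (E := R ok SE) (S.rmul hsc hsa) fun _ _ hca => ?_
  refine rlt (E := R ok SE) (S.rsub (S.rnat 1) hal) fun _ _ ha => ?_
  refine rlt (E := R ok SE) (S.rsub (S.rnat 1) hbe) fun _ _ hb => ?_
  refine rlt (E := R ok SE) (S.rsub (S.rnat 1) hde) fun _ _ hc => ?_
  refine rlt (E := R ok SE) (S.rsmul 2 (S.rat (S.rmul hDr (S.rinv (S.radd hbc hnx))))) fun _ _ hX
      => ?_
  refine rlt (E := R ok SE) (S.rmul hnx (S.rinv hbc)) fun _ _ hcx => ?_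
  refine rlt (E := R ok SE) (S.rsmul 2 (S.rat (S.rmul hDr (S.rinv (S.radd hca hny))))) fun _ _ hY
      => ?_
  refine rlt (E := R ok SE) (S.rmul hny (S.rinv hca)) fun _ _ hcy => ?_
  refine rlt (E := R ok SE) (S.rsmul 2 (S.rat (S.rmul hDr (S.rinv (S.radd hab hnz))))) fun _ _ hZ
      => ?_
  refine rlt (E := R ok SE) (S.rmul hnz (S.rinv hab)) fun _ _ hcz => ?_
  exact hG S ha hb hc hu hv hw hsa hsb hsc hX hcx hY hcy hZ hcz

theorem cOn_R (S : Sound K o ok SE) {G : GF} (hG : Par G)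
    {x be th : T} {x' be' th' : P → ℝ}
    (hx : R ok SE x x')
    (hbe : R ok SE be be')
    (hth : R ok SE th th') :
    R ok SE (cOn o G x be th) (cOn fO G x' be' th') := by
  unfold cOn
  refine rlt (E := R ok SE) (S.radd hx hbe) fun _ _ hal => ?_
  refine rlt (E := R ok SE) (S.rmul hbe hth) fun _ _ hde => ?_
  exact cSd_R S hG false hal hbe hde

theorem cFD_R (S : Sound K o ok SE) {G : GF} (hG : Par G)
    {a be n : T} {a' be' n' : P → ℝ}
    (ha : R ok SE a a')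
    (hbe : R ok SE be be')
    (hn : R ok SE n n') :
    R ok SE (cFD o G a be n) (cFD fO G a' be' n') := by
  unfold cFD
  refine rlt (E := R ok SE) (S.rcs ha) fun _ _ hu => ?_
  refine rlt (E := R ok SE) (S.rsn ha) fun _ _ hsa => ?_
  refine rlt (E := R ok SE) (S.rsn hbe) fun _ _ hv => ?_
  refine rlt (E := R ok SE) (S.rcs hbe) fun _ _ hsb => ?_
  refine rlt (E := R ok SE) (S.rmul hn hv) fun _ _ hw => ?_
  refine rlt (E := R ok SE) (S.rsqrt (S.rsub (S.rnat 1) (S.rmul hw hw))) fun _ _ hsc => ?_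
  refine rlt (E := R ok SE) (S.rsub (S.rnat 1) (S.rsmul 2 (S.rat (S.rmul hw (S.rinv (S.radd
      (S.rnat 1) hsc)))))) fun _ _ hc => ?_
  refine rlt (E := R ok SE) (S.rinv hsa) fun _ _ hisa => ?_
  refine rlt (E := R ok SE) (S.rinv hsb) fun _ _ hisb => ?_
  refine rlt (E := R ok SE) (S.rinv hsc) fun _ _ hisc => ?_
  refine rlt (E := R ok SE) (S.rmul hv hisa) fun _ _ hm => ?_
  refine rlt (E := R ok SE) (S.rmul (S.rmul hm (S.rsub hu hn)) hisb) fun _ _ hka => ?_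
  refine rlt (E := R ok SE) (S.rsqrt (S.rsub (S.rnat 1) (S.rmul hka hka))) fun _ _ hsi => ?_
  refine rlt (E := R ok SE) (S.rsub (S.rnat 1) (S.rsmul 2 (S.rat (S.rmul hka (S.rinv (S.radd
      (S.rnat 1) hsi)))))) fun _ _ hg => ?_
  refine rlt (E := R ok SE) (S.rmul hsa hsi) fun _ _ hp => ?_
  refine rlt (E := R ok SE) (S.radd (S.rmul hu hsb) (S.rmul (S.rmul hv hsa) hka)) fun _ _ hq => ?_
  refine rlt (E := R ok SE) (S.rmul hsb hsi) fun _ _ hp2 => ?_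
  refine rlt (E := R ok SE) (S.rmul hm (S.rsub (S.rnat 1) (S.rmul hu hn))) fun _ _ hq2 => ?_
  refine rlt (E := R ok SE) (S.rsmul 2 (S.rat (S.rmul hp (S.rinv (S.radd hsc hq))))) fun _ _ hX
      => ?_
  refine rlt (E := R ok SE) (S.rsmul 2 (S.rat (S.rmul hp2 (S.rinv (S.radd hsc hq2))))) fun _ _ hY
      => ?_
  refine rlt (E := R ok SE) (S.rsub (S.rnat 1) hbe) fun _ _ hb => ?_
  refine rlt (E := R ok SE) (S.rmul hq hisc) fun _ _ hcx => ?_
  refine rlt (E := R ok SE) (S.rmul hq2 hisc) fun _ _ hcy => ?_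
  exact hG S ha hb hc hu hv hw hsa hsb hsc hX hcx hY hcy hg hka

theorem cE1_R (S : Sound K o ok SE) {G : GF} (hG : Par G)
    {rho t z : T} {rho' t' z' : P → ℝ}
    (hrho : R ok SE rho rho')
    (ht : R ok SE t t')
    (hz : R ok SE z z') :
    R ok SE (cE1 o G rho t z) (cE1 fO G rho' t' z') := by
  unfold cE1
  refine rlt (E := R ok SE) (S.rnat 0) fun _ _ hn0 => ?_
  refine rlt (E := R ok SE) (S.rsub (S.rnat 1) hz) fun _ _ hka => ?_
  refine rlt (E := R ok SE) (S.rmul hz (S.rsub (S.rnat 2) hz)) fun _ _ hs2 => ?_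
  refine rlt (E := R ok SE) (S.rmul ht ht) fun _ _ ht2 => ?_
  refine rlt (E := R ok SE) (S.rmul (S.rmul hrho hrho) ht2) fun _ _ hr2 => ?_
  refine rlt (E := R ok SE) (S.rinv (S.radd (S.rnat 1) hr2)) fun _ _ hia => ?_
  refine rlt (E := R ok SE) (S.rinv (S.radd (S.rnat 1) ht2)) fun _ _ hib => ?_
  refine rlt (E := R ok SE) (S.rmul (S.rsub (S.rnat 1) hr2) hia) fun _ _ hu => ?_
  refine rlt (E := R ok SE) (S.rmul (S.rsub (S.rnat 1) ht2) hib) fun _ _ hv => ?_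
  refine rlt (E := R ok SE) (S.rsmul 2 (S.rmul hrho hia)) fun _ _ hsap => ?_
  refine rlt (E := R ok SE) (S.rsmul 2 hib) fun _ _ hsbp => ?_
  refine rlt (E := R ok SE) (S.rmul hsap hv) fun _ _ hsav => ?_
  refine rlt (E := R ok SE) (S.rmul hsbp hu) fun _ _ hsbu => ?_
  refine rlt (E := R ok SE) (S.radd hsbu (S.rmul hsav hka)) fun _ _ hq => ?_
  refine rlt (E := R ok SE) (S.radd hsav (S.rmul hsbu hka)) fun _ _ hq2 => ?_
  refine rlt (E := R ok SE) (S.rsqrt (S.radd (S.rmul (S.rmul hsap hsap) hs2) (S.rmul hq hq))) fun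
      _ _ hscp => ?_
  refine rlt (E := R ok SE) (S.rinv hscp) fun _ _ hisc => ?_
  refine rlt (E := R ok SE) (S.rsub (S.rmul hu hv) (S.rmul ht2 (S.rmul (S.rmul hsap hsbp) hka)))
      fun _ _ hw => ?_
  refine rlt (E := R ok SE) (S.rmul ht hscp) fun _ _ hsc => ?_
  refine rlt (E := R ok SE) (S.rsmul 2 (S.rat (S.rmul hsc (S.rinv (S.radd (S.rnat 1) hw))))) fun
      _ _ hc => ?_
  refine rlt (E := R ok SE) (S.rmul ht hsap) fun _ _ hsa => ?_
  refine rlt (E := R ok SE) (S.rmul ht hsbp) fun _ _ hsb => ?_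
  refine rlt (E := R ok SE) (S.rsmul 2 (S.rat (S.rmul hrho ht))) fun _ _ ha => ?_
  refine rlt (E := R ok SE) (S.rsmul 2 (S.rat ht)) fun _ _ hb => ?_
  refine rlt (E := R ok SE) (S.rmul hq hisc) fun _ _ hcx => ?_
  refine rlt (E := R ok SE) (S.rmul hq2 hisc) fun _ _ hcy => ?_
  exact hG S ha hb hc hu hv hw hsa hsb hsc hn0 hcx hn0 hcy hn0 hka

end

end H41MK
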