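import Pool.Agent.H41.MK.Fn
import Pool.Agent.H41.MK.Par

/-!
# Guards and base enclosures
-/

namespace H41MK

open H41FT

section guards

variable {T : Type} (o : Ops T)

/-- `cos γ - y` -/
def gKy (_ y g : T) : T := o.sub (o.cs g) y
/-- `- w` in the chart `(a, y, γ)` -/
def gYW (a y g : T) : T :=
  lt (o.mul a y) fun be =>
  o.sub (o.mul (o.mul (o.sn a) (o.cs be)) (o.cs g)) (o.mul (o.cs a) (o.sn be))
/-- `a - b` in the chart `(a, y, γ)` -/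
def gYab (a y _ : T) : T := lt (o.mul a y) fun be => o.sub (o.add a be) (o.nat 1)
/-- `n - u` -/
def gDn (a _ n : T) : T := o.sub n (o.cs a)

end guards

section

variable {T : Type} {K : Set P} {o : Ops T} {ok : T → Prop} {SE : T → (P → ℝ) → Prop}

theorem gKy_R (S : Sound K o ok SE) {a b g : T} {a' b' g' : P → ℝ} (_ : R ok SE a a')
    (h2 : R ok SE b b') (h3 : R ok SE g g') : R ok SE (gKy o a b g) (gKy fO a' b' g') := by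
  unfold gKy
  exact S.rsub (S.rcs h3) h2

theorem gYW_R (S : Sound K o ok SE) {a b g : T} {a' b' g' : P → ℝ} (h1 : R ok SE a a')
    (h2 : R ok SE b b') (h3 : R ok SE g g') : R ok SE (gYW o a b g) (gYW fO a' b' g') := by
  unfold gYW
  refine rlt (E := R ok SE) (S.rmul h1 h2) fun _ _ h => ?_
  exact S.rsub (S.rmul (S.rmul (S.rsn h1) (S.rcs h)) (S.rcs h3)) (S.rmul (S.rcs h1) (S.rsn h))

theorem gYab_R (S : Sound K o ok SE) {a b g : T} {a' b' g' : P → ℝ} (h1 : R ok SE a a')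
    (h2 : R ok SE b b') (_ : R ok SE g g') : R ok SE (gYab o a b g) (gYab fO a' b' g') := by
  unfold gYab
  refine rlt (E := R ok SE) (S.rmul h1 h2) fun _ _ h => ?_
  exact S.rsub (S.radd h1 h) (S.rnat 1)

theorem gDn_R (S : Sound K o ok SE) {a b g : T} {a' b' g' : P → ℝ} (h1 : R ok SE a a')
    (_ : R ok SE b b') (h3 : R ok SE g g') : R ok SE (gDn o a b g) (gDn fO a' b' g') := by
  unfold gDn
  exact S.rsub h3 (S.rcs h1)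

end

theorem par_G3 : Par G3 := by
  intro T K o ok SE S x1 x2 x3 x4 x5 x6 x7 x8 x9 x10 x11 x12 x13 x14 x15
    y1 y2 y3 y4 y5 y6 y7 y8 y9 y10 y11 y12 y13 y14 y15
    h1 h2 h3 h4 h5 h6 h7 h8 h9 h10 h11 h12 h13 h14 h15
  unfold G3
  exact RG_R S true true true false false h1 h2 h3 h4 h5 h6 h7 h8 h9 h10 h11 h12 h13 h14 h15
theorem par_Go0 : Par Go0 := by
  intro T K o ok SE S x1 x2 x3 x4 x5 x6 x7 x8 x9 x10 x11 x12 x13 x14 x15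
    y1 y2 y3 y4 y5 y6 y7 y8 y9 y10 y11 y12 y13 y14 y15
    h1 h2 h3 h4 h5 h6 h7 h8 h9 h10 h11 h12 h13 h14 h15
  unfold Go0
  exact RG_R S false false false false true h1 h2 h3 h4 h5 h6 h7 h8 h9 h10 h11 h12 h13 h14 h15
theorem par_Go2 : Par Go2 := by
  intro T K o ok SE S x1 x2 x3 x4 x5 x6 x7 x8 x9 x10 x11 x12 x13 x14 x15
    y1 y2 y3 y4 y5 y6 y7 y8 y9 y10 y11 y12 y13 y14 y15
    h1 h2 h3 h4 h5 h6 h7 h8 h9 h10 h11 h12 h13 h14 h15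
  unfold Go2
  exact RG_R S false true false false true h1 h2 h3 h4 h5 h6 h7 h8 h9 h10 h11 h12 h13 h14 h15
theorem par_Go7 : Par Go7 := by
  intro T K o ok SE S x1 x2 x3 x4 x5 x6 x7 x8 x9 x10 x11 x12 x13 x14 x15
    y1 y2 y3 y4 y5 y6 y7 y8 y9 y10 y11 y12 y13 y14 y15
    h1 h2 h3 h4 h5 h6 h7 h8 h9 h10 h11 h12 h13 h14 h15
  unfold Go7
  exact RG_R S true true true false true h1 h2 h3 h4 h5 h6 h7 h8 h9 h10 h11 h12 h13 h14 h15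
theorem par_Ga0 : Par Ga0 := by
  intro T K o ok SE S x1 x2 x3 x4 x5 x6 x7 x8 x9 x10 x11 x12 x13 x14 x15
    y1 y2 y3 y4 y5 y6 y7 y8 y9 y10 y11 y12 y13 y14 y15
    h1 h2 h3 h4 h5 h6 h7 h8 h9 h10 h11 h12 h13 h14 h15
  unfold Ga0
  exact RG_R S false false false true true h1 h2 h3 h4 h5 h6 h7 h8 h9 h10 h11 h12 h13 h14 h15
theorem par_Ga2 : Par Ga2 := by
  intro T K o ok SE S x1 x2 x3 x4 x5 x6 x7 x8 x9 x10 x11 x12 x13 x14 x15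
    y1 y2 y3 y4 y5 y6 y7 y8 y9 y10 y11 y12 y13 y14 y15
    h1 h2 h3 h4 h5 h6 h7 h8 h9 h10 h11 h12 h13 h14 h15
  unfold Ga2
  exact RG_R S false true false true true h1 h2 h3 h4 h5 h6 h7 h8 h9 h10 h11 h12 h13 h14 h15
theorem par_Ga7 : Par Ga7 := by
  intro T K o ok SE S x1 x2 x3 x4 x5 x6 x7 x8 x9 x10 x11 x12 x13 x14 x15
    y1 y2 y3 y4 y5 y6 y7 y8 y9 y10 y11 y12 y13 y14 y15
    h1 h2 h3 h4 h5 h6 h7 h8 h9 h10 h11 h12 h13 h14 h15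
  unfold Ga7
  exact RG_R S true true true true true h1 h2 h3 h4 h5 h6 h7 h8 h9 h10 h11 h12 h13 h14 h15

/-! base enclosures -/

theorem enc_E0 : Enc3 E0 (ev E0) (Sm (ev E0)) := by
  refine Enc3.of_R fun S _ _ _ _ _ _ h1 h2 h3 => ?_
  unfold E0
  exact cE1_R S par_Go0 h1 h2 h3
theorem enc_M3 : Enc3 M3 (ev M3) (Sm (ev M3)) := by
  refine Enc3.of_R fun S _ _ _ _ _ _ h1 h2 h3 => ?_
  unfold M3
  exact cC3_R S par_G3 h1 h2 h3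
theorem enc_S3 : Enc3 S3 (ev S3) (Sm (ev S3)) := by
  refine Enc3.of_R fun S _ _ _ _ _ _ h1 h2 h3 => ?_
  unfold S3
  exact cSd_R S par_G3 true h1 h2 h3
theorem enc_P0 : Enc3 P0 (ev P0) (Sm (ev P0)) := by
  refine Enc3.of_R fun S _ _ _ _ _ _ h1 h2 h3 => ?_
  unfold P0
  exact cF1_R S par_Go0 h1 h2 h3
theorem enc_P2 : Enc3 P2 (ev P2) (Sm (ev P2)) := by
  refine Enc3.of_R fun S _ _ _ _ _ _ h1 h2 h3 => ?_
  unfold P2
  exact cF1_R S par_Go2 h1 h2 h3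
theorem enc_Z0 : Enc3 Z0 (ev Z0) (Sm (ev Z0)) := by
  refine Enc3.of_R fun S _ _ _ _ _ _ h1 h2 h3 => ?_
  unfold Z0
  exact cF0_R S par_Ga0 h1 h2 h3
theorem enc_Z2 : Enc3 Z2 (ev Z2) (Sm (ev Z2)) := by
  refine Enc3.of_R fun S _ _ _ _ _ _ h1 h2 h3 => ?_
  unfold Z2
  exact cF0_R S par_Ga2 h1 h2 h3
theorem enc_Z7 : Enc3 Z7 (ev Z7) (Sm (ev Z7)) := by
  refine Enc3.of_R fun S _ _ _ _ _ _ h1 h2 h3 => ?_
  unfold Z7
  exact cF0_R S par_Ga7 h1 h2 h3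
theorem enc_O7 : Enc3 O7 (ev O7) (Sm (ev O7)) := by
  refine Enc3.of_R fun S _ _ _ _ _ _ h1 h2 h3 => ?_
  unfold O7
  exact cOn_R S par_Ga7 h1 h2 h3
theorem enc_D7 : Enc3 D7 (ev D7) (Sm (ev D7)) := by
  refine Enc3.of_R fun S _ _ _ _ _ _ h1 h2 h3 => ?_
  unfold D7
  exact cFD_R S par_Go7 h1 h2 h3
theorem enc_Q7 : Enc3 Q7 (ev Q7) (Sm (ev Q7)) := by
  refine Enc3.of_R fun S _ _ _ _ _ _ h1 h2 h3 => ?_
  unfold Q7
  exact cFs_R S par_Go7 h1 h2 h3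
theorem enc_Y7 : Enc3 Y7 (ev Y7) (Sm (ev Y7)) := by
  refine Enc3.of_R fun S _ _ _ _ _ _ h1 h2 h3 => ?_
  unfold Y7 cFY
  exact rlt (S.rsub (S.rnat 1) (S.rmul h1 h2)) fun _ _ hb => cFs_R S par_Go7 h1 hb h3

theorem enc_gKy : Enc3 gKy (ev gKy) (Sm (ev gKy)) :=
  Enc3.of_R fun S _ _ _ _ _ _ h1 h2 h3 => gKy_R S h1 h2 h3
theorem enc_gYW : Enc3 gYW (ev gYW) (Sm (ev gYW)) :=
  Enc3.of_R fun S _ _ _ _ _ _ h1 h2 h3 => gYW_R S h1 h2 h3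
theorem enc_gYab : Enc3 gYab (ev gYab) (Sm (ev gYab)) :=
  Enc3.of_R fun S _ _ _ _ _ _ h1 h2 h3 => gYab_R S h1 h2 h3
theorem enc_gDn : Enc3 gDn (ev gDn) (Sm (ev gDn)) :=
  Enc3.of_R fun S _ _ _ _ _ _ h1 h2 h3 => gDn_R S h1 h2 h3

end H41MK
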