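import Pool.Agent.H41.MK.Cl

/-!
# The individual claims
-/

namespace H41MK

open H41FT

/-- claim MA -/
def QMA : P → Prop :=
  QQ (D 1 (D 0 (ev M3))) (Sm (ev M3)) (ev gN) (ev gN) (ev gN)
theorem okMA (t : Tr) (b : Bx)
    (h : chk (LT (dd (dd M3 0) 1)) (SK gN gN gN) t b.c0 b.w0 b.c1 b.w1 b.c2 b.w2 = true) :
    ∀ p, b.In p → QMA p :=
  chkQ (enc_dd (enc_dd enc_M3 0) 1) enc_gN enc_gN enc_gN t b h

/-- claim MB -/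
def QMB : P → Prop :=
  QQ (fO.sub (fO.nat 0) (D 1 (D 0 (ev M3)))) (Sm (ev M3)) (ev gN) (ev gN) (ev gN)
theorem okMB (t : Tr) (b : Bx)
    (h : chk (LT (ngF (dd (dd M3 0) 1))) (SK gN gN gN) t b.c0 b.w0 b.c1 b.w1 b.c2 b.w2 = true) :
    ∀ p, b.In p → QMB p :=
  chkQ (enc_ng (enc_dd (enc_dd enc_M3 0) 1)) enc_gN enc_gN enc_gN t b h

/-- claim MC -/
def QMC : P → Prop :=
  QQ (D 0 (ev M3)) (Sm (ev M3)) (ev gN) (ev gN) (ev gN)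
theorem okMC (t : Tr) (b : Bx)
    (h : chk (LT (dd M3 0)) (SK gN gN gN) t b.c0 b.w0 b.c1 b.w1 b.c2 b.w2 = true) :
    ∀ p, b.In p → QMC p :=
  chkQ (enc_dd enc_M3 0) enc_gN enc_gN enc_gN t b h

/-- claim MD -/
def QMD : P → Prop :=
  QQ (D 1 (ev M3)) (Sm (ev M3)) (ev gN) (ev gN) (ev gN)
theorem okMD (t : Tr) (b : Bx)
    (h : chk (LT (dd M3 1)) (SK gN gN gN) t b.c0 b.w0 b.c1 b.w1 b.c2 b.w2 = true) :
    ∀ p, b.In p → QMD p :=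
  chkQ (enc_dd enc_M3 1) enc_gN enc_gN enc_gN t b h

/-- claim ME -/
def QME : P → Prop :=
  QQ (fO.sub (fO.nat 0) (D 1 (ev M3))) (Sm (ev M3)) (ev gC3) (ev gN) (ev gN)
theorem okME (t : Tr) (b : Bx)
    (h : chk (LT (ngF (dd M3 1))) (SK gC3 gN gN) t b.c0 b.w0 b.c1 b.w1 b.c2 b.w2 = true) :
    ∀ p, b.In p → QME p :=
  chkQ (enc_ng (enc_dd enc_M3 1)) enc_gC3 enc_gN enc_gN t b h

/-- claim MG -/
def QMG : P → Prop :=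
  QQ (ev M3) (Sm (ev M3)) (ev gC3) (ev gN) (ev gN)
theorem okMG (t : Tr) (b : Bx)
    (h : chk (LT (M3)) (SK gC3 gN gN) t b.c0 b.w0 b.c1 b.w1 b.c2 b.w2 = true) :
    ∀ p, b.In p → QMG p :=
  chkQ (enc_M3) enc_gC3 enc_gN enc_gN t b h

/-- claim SB -/
def QSB : P → Prop :=
  QQ (D 2 (D 0 (ev S3))) (Sm (ev S3)) (ev gN) (ev gN) (ev gN)
theorem okSB (t : Tr) (b : Bx)
    (h : chk (LT (dd (dd S3 0) 2)) (SK gN gN gN) t b.c0 b.w0 b.c1 b.w1 b.c2 b.w2 = true) :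
    ∀ p, b.In p → QSB p :=
  chkQ (enc_dd (enc_dd enc_S3 0) 2) enc_gN enc_gN enc_gN t b h

/-- claim SC -/
def QSC : P → Prop :=
  QQ (D 2 (D 1 (ev S3))) (Sm (ev S3)) (ev gN) (ev gN) (ev gN)
theorem okSC (t : Tr) (b : Bx)
    (h : chk (LT (dd (dd S3 1) 2)) (SK gN gN gN) t b.c0 b.w0 b.c1 b.w1 b.c2 b.w2 = true) :
    ∀ p, b.In p → QSC p :=
  chkQ (enc_dd (enc_dd enc_S3 1) 2) enc_gN enc_gN enc_gN t b h

/-- claim SA -/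
def QSA : P → Prop :=
  QQ (D 1 (D 0 (ev S3))) (Sm (ev S3)) (ev gN) (ev gN) (ev gN)
theorem okSA (t : Tr) (b : Bx)
    (h : chk (LT (dd (dd S3 0) 1)) (SK gN gN gN) t b.c0 b.w0 b.c1 b.w1 b.c2 b.w2 = true) :
    ∀ p, b.In p → QSA p :=
  chkQ (enc_dd (enc_dd enc_S3 0) 1) enc_gN enc_gN enc_gN t b h

/-- claim SE -/
def QSE : P → Prop :=
  QQ (D 1 (ev S3)) (Sm (ev S3)) (ev gN) (ev gN) (ev gN)
theorem okSE (t : Tr) (b : Bx)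
    (h : chk (LT (dd S3 1)) (SK gN gN gN) t b.c0 b.w0 b.c1 b.w1 b.c2 b.w2 = true) :
    ∀ p, b.In p → QSE p :=
  chkQ (enc_dd enc_S3 1) enc_gN enc_gN enc_gN t b h

/-- claim SF -/
def QSF : P → Prop :=
  QQ (D 2 (ev S3)) (Sm (ev S3)) (ev gN) (ev gN) (ev gN)
theorem okSF (t : Tr) (b : Bx)
    (h : chk (LT (dd S3 2)) (SK gN gN gN) t b.c0 b.w0 b.c1 b.w1 b.c2 b.w2 = true) :
    ∀ p, b.In p → QSF p :=
  chkQ (enc_dd enc_S3 2) enc_gN enc_gN enc_gN t b h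

/-- claim S0 -/
def QS0 : P → Prop :=
  QQ (ev S3) (Sm (ev S3)) (ev gXY) (ev gYZ) (ev gN)
theorem okS0 (t : Tr) (b : Bx)
    (h : chk (LT (S3)) (SK gXY gYZ gN) t b.c0 b.w0 b.c1 b.w1 b.c2 b.w2 = true) :
    ∀ p, b.In p → QS0 p :=
  chkQ (enc_S3) enc_gXY enc_gYZ enc_gN t b h

/-- claim PA -/
def QPA : P → Prop :=
  QQ (D 0 (D 2 (D 1 (ev E0)))) (Sm (ev E0)) (ev gN) (ev gN) (ev gN)
theorem okPA (t : Tr) (b : Bx)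
    (h : chk (LT (dd (dd (dd E0 1) 2) 0)) (SK gN gN gN) t b.c0 b.w0 b.c1 b.w1 b.c2 b.w2 = true) :
    ∀ p, b.In p → QPA p :=
  chkQ (enc_dd (enc_dd (enc_dd enc_E0 1) 2) 0) enc_gN enc_gN enc_gN t b h

/-- claim PB -/
def QPB : P → Prop :=
  QQ (D 2 (D 1 (ev E0))) (Sm (ev E0)) (ev gN) (ev gN) (ev gN)
theorem okPB (t : Tr) (b : Bx)
    (h : chk (LT (dd (dd E0 1) 2)) (SK gN gN gN) t b.c0 b.w0 b.c1 b.w1 b.c2 b.w2 = true) :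
    ∀ p, b.In p → QPB p :=
  chkQ (enc_dd (enc_dd enc_E0 1) 2) enc_gN enc_gN enc_gN t b h

/-- claim PE -/
def QPE : P → Prop :=
  QQ (D 0 (D 1 (ev P0))) (Sm (ev P0)) (ev gN) (ev gN) (ev gN)
theorem okPE (t : Tr) (b : Bx)
    (h : chk (LT (dd (dd P0 1) 0)) (SK gN gN gN) t b.c0 b.w0 b.c1 b.w1 b.c2 b.w2 = true) :
    ∀ p, b.In p → QPE p :=
  chkQ (enc_dd (enc_dd enc_P0 1) 0) enc_gN enc_gN enc_gN t b h

/-- claim PF -/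
def QPF : P → Prop :=
  QQ (D 1 (ev P0)) (Sm (ev P0)) (ev gN) (ev gN) (ev gN)
theorem okPF (t : Tr) (b : Bx)
    (h : chk (LT (dd P0 1)) (SK gN gN gN) t b.c0 b.w0 b.c1 b.w1 b.c2 b.w2 = true) :
    ∀ p, b.In p → QPF p :=
  chkQ (enc_dd enc_P0 1) enc_gN enc_gN enc_gN t b h

/-- claim PG -/
def QPG : P → Prop :=
  QQ (D 2 (D 0 (ev P0))) (Sm (ev P0)) (ev gN) (ev gN) (ev gN)
theorem okPG (t : Tr) (b : Bx)
    (h : chk (LT (dd (dd P0 0) 2)) (SK gN gN gN) t b.c0 b.w0 b.c1 b.w1 b.c2 b.w2 = true) :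
    ∀ p, b.In p → QPG p :=
  chkQ (enc_dd (enc_dd enc_P0 0) 2) enc_gN enc_gN enc_gN t b h

/-- claim PH -/
def QPH : P → Prop :=
  QQ (D 2 (D 0 (ev P2))) (Sm (ev P2)) (ev gT1) (ev gN) (ev gN)
theorem okPH (t : Tr) (b : Bx)
    (h : chk (LT (dd (dd P2 0) 2)) (SK gT1 gN gN) t b.c0 b.w0 b.c1 b.w1 b.c2 b.w2 = true) :
    ∀ p, b.In p → QPH p :=
  chkQ (enc_dd (enc_dd enc_P2 0) 2) enc_gT1 enc_gN enc_gN t b h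

/-- claim PI -/
def QPI : P → Prop :=
  QQ (D 0 (ev P0)) (Sm (ev P0)) (ev gN) (ev gN) (ev gN)
theorem okPI (t : Tr) (b : Bx)
    (h : chk (LT (dd P0 0)) (SK gN gN gN) t b.c0 b.w0 b.c1 b.w1 b.c2 b.w2 = true) :
    ∀ p, b.In p → QPI p :=
  chkQ (enc_dd enc_P0 0) enc_gN enc_gN enc_gN t b h

/-- claim PJ -/
def QPJ : P → Prop :=
  QQ (D 0 (ev P2)) (Sm (ev P2)) (ev gT1) (ev gN) (ev gN)
theorem okPJ (t : Tr) (b : Bx)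
    (h : chk (LT (dd P2 0)) (SK gT1 gN gN) t b.c0 b.w0 b.c1 b.w1 b.c2 b.w2 = true) :
    ∀ p, b.In p → QPJ p :=
  chkQ (enc_dd enc_P2 0) enc_gT1 enc_gN enc_gN t b h

/-- claim PK -/
def QPK : P → Prop :=
  QQ (D 2 (ev P0)) (Sm (ev P0)) (ev gN) (ev gN) (ev gN)
theorem okPK (t : Tr) (b : Bx)
    (h : chk (LT (dd P0 2)) (SK gN gN gN) t b.c0 b.w0 b.c1 b.w1 b.c2 b.w2 = true) :
    ∀ p, b.In p → QPK p :=
  chkQ (enc_dd enc_P0 2) enc_gN enc_gN enc_gN t b h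

/-- claim PL -/
def QPL : P → Prop :=
  QQ (D 2 (ev P2)) (Sm (ev P2)) (ev gT1) (ev gN) (ev gN)
theorem okPL (t : Tr) (b : Bx)
    (h : chk (LT (dd P2 2)) (SK gT1 gN gN) t b.c0 b.w0 b.c1 b.w1 b.c2 b.w2 = true) :
    ∀ p, b.In p → QPL p :=
  chkQ (enc_dd enc_P2 2) enc_gT1 enc_gN enc_gN t b h

/-- claim PM -/
def QPM : P → Prop :=
  QQ (ev P0) (Sm (ev P0)) (ev gT1) (ev gN) (ev gN)
theorem okPM (t : Tr) (b : Bx)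
    (h : chk (LT (P0)) (SK gT1 gN gN) t b.c0 b.w0 b.c1 b.w1 b.c2 b.w2 = true) :
    ∀ p, b.In p → QPM p :=
  chkQ (enc_P0) enc_gT1 enc_gN enc_gN t b h

/-- claim PN -/
def QPN : P → Prop :=
  QQ (ev P2) (Sm (ev P2)) (ev gT1) (ev gN) (ev gN)
theorem okPN (t : Tr) (b : Bx)
    (h : chk (LT (P2)) (SK gT1 gN gN) t b.c0 b.w0 b.c1 b.w1 b.c2 b.w2 = true) :
    ∀ p, b.In p → QPN p :=
  chkQ (enc_P2) enc_gT1 enc_gN enc_gN t b h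

/-- claim PX -/
def QPX : P → Prop :=
  QQ (fO.sub (fO.nat 0) (D 0 (D 2 (ev P2)))) (Sm (ev P2)) (ev gT1) (ev gN) (ev gN)
theorem okPX (t : Tr) (b : Bx)
    (h : chk (LT (ngF (dd (dd P2 2) 0))) (SK gT1 gN gN) t b.c0 b.w0 b.c1 b.w1 b.c2 b.w2 = true) :
    ∀ p, b.In p → QPX p :=
  chkQ (enc_ng (enc_dd (enc_dd enc_P2 2) 0)) enc_gT1 enc_gN enc_gN t b h

/-- claim PP -/
def QPP : P → Prop :=
  QQ (D 0 (ev P2)) (Sm (ev P2)) (ev gT1) (ev gN) (ev gN)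
theorem okPP (t : Tr) (b : Bx)
    (h : chk (LT (dd P2 0)) (SK gT1 gN gN) t b.c0 b.w0 b.c1 b.w1 b.c2 b.w2 = true) :
    ∀ p, b.In p → QPP p :=
  chkQ (enc_dd enc_P2 0) enc_gT1 enc_gN enc_gN t b h

/-- claim YF -/
def QYF : P → Prop :=
  QQ (D 0 (D 2 (ev Y7))) (Sm (ev Y7)) (ev gN) (ev gN) (ev gN)
theorem okYF (t : Tr) (b : Bx)
    (h : chk (LT (dd (dd Y7 2) 0)) (SK gN gN gN) t b.c0 b.w0 b.c1 b.w1 b.c2 b.w2 = true) :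
    ∀ p, b.In p → QYF p :=
  chkQ (enc_dd (enc_dd enc_Y7 2) 0) enc_gN enc_gN enc_gN t b h

/-- claim YG -/
def QYG : P → Prop :=
  QQ (D 2 (ev Y7)) (Sm (ev Y7)) (ev gN) (ev gN) (ev gN)
theorem okYG (t : Tr) (b : Bx)
    (h : chk (LT (dd Y7 2)) (SK gN gN gN) t b.c0 b.w0 b.c1 b.w1 b.c2 b.w2 = true) :
    ∀ p, b.In p → QYG p :=
  chkQ (enc_dd enc_Y7 2) enc_gN enc_gN enc_gN t b h

/-- claim YH -/
def QYH : P → Prop :=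
  QQ (D 0 (ev Y7)) (Sm (ev Y7)) (ev gKy) (ev gN) (ev gN)
theorem okYH (t : Tr) (b : Bx)
    (h : chk (LT (dd Y7 0)) (SK gKy gN gN) t b.c0 b.w0 b.c1 b.w1 b.c2 b.w2 = true) :
    ∀ p, b.In p → QYH p :=
  chkQ (enc_dd enc_Y7 0) enc_gKy enc_gN enc_gN t b h

/-- claim YI -/
def QYI : P → Prop :=
  QQ (fO.sub (fO.nat 0) (D 0 (D 2 (ev Y7)))) (Sm (ev Y7)) (ev gKy) (ev gN) (ev gN)
theorem okYI (t : Tr) (b : Bx)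
    (h : chk (LT (ngF (dd (dd Y7 2) 0))) (SK gKy gN gN) t b.c0 b.w0 b.c1 b.w1 b.c2 b.w2 = true) :
    ∀ p, b.In p → QYI p :=
  chkQ (enc_ng (enc_dd (enc_dd enc_Y7 2) 0)) enc_gKy enc_gN enc_gN t b h

/-- claim YE -/
def QYE : P → Prop :=
  QQ (ev Y7) (Sm (ev Y7)) (ev gYW) (ev gYab) (ev gN)
theorem okYE (t : Tr) (b : Bx)
    (h : chk (LT (Y7)) (SK gYW gYab gN) t b.c0 b.w0 b.c1 b.w1 b.c2 b.w2 = true) :
    ∀ p, b.In p → QYE p :=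
  chkQ (enc_Y7) enc_gYW enc_gYab enc_gN t b h

/-- claim DA -/
def QDA : P → Prop :=
  QQ (D 1 (ev D7)) (Sm (ev D7)) (ev gDn) (ev gN) (ev gN)
theorem okDA (t : Tr) (b : Bx)
    (h : chk (LT (dd D7 1)) (SK gDn gN gN) t b.c0 b.w0 b.c1 b.w1 b.c2 b.w2 = true) :
    ∀ p, b.In p → QDA p :=
  chkQ (enc_dd enc_D7 1) enc_gDn enc_gN enc_gN t b h

/-- claim DB -/
def QDB : P → Prop :=
  QQ (D 1 (ev D7)) (Sm (ev D7)) (ev gDn) (ev gN) (ev gN)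
theorem okDB (t : Tr) (b : Bx)
    (h : chk (LT (dd D7 1)) (SK gDn gN gN) t b.c0 b.w0 b.c1 b.w1 b.c2 b.w2 = true) :
    ∀ p, b.In p → QDB p :=
  chkQ (enc_dd enc_D7 1) enc_gDn enc_gN enc_gN t b h

/-- claim DC -/
def QDC : P → Prop :=
  QQ (D 1 (ev D7)) (Sm (ev D7)) (ev gDn) (ev gN) (ev gN)
theorem okDC (t : Tr) (b : Bx)
    (h : chk (LT (dd D7 1)) (SK gDn gN gN) t b.c0 b.w0 b.c1 b.w1 b.c2 b.w2 = true) :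
    ∀ p, b.In p → QDC p :=
  chkQ (enc_dd enc_D7 1) enc_gDn enc_gN enc_gN t b h

/-- claim QD -/
def QQD : P → Prop :=
  QQ (D 2 (ev Q7)) (Sm (ev Q7)) (ev gW) (ev gYX) (ev gN)
theorem okQD (t : Tr) (b : Bx)
    (h : chk (LT (dd Q7 2)) (SK gW gYX gN) t b.c0 b.w0 b.c1 b.w1 b.c2 b.w2 = true) :
    ∀ p, b.In p → QQD p :=
  chkQ (enc_dd enc_Q7 2) enc_gW enc_gYX enc_gN t b h

/-- claim ZA -/
def QZA : P → Prop :=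
  QQ (D 0 (D 1 (ev Z0))) (Sm (ev Z0)) (ev gN) (ev gN) (ev gN)
theorem okZA (t : Tr) (b : Bx)
    (h : chk (LT (dd (dd Z0 1) 0)) (SK gN gN gN) t b.c0 b.w0 b.c1 b.w1 b.c2 b.w2 = true) :
    ∀ p, b.In p → QZA p :=
  chkQ (enc_dd (enc_dd enc_Z0 1) 0) enc_gN enc_gN enc_gN t b h

/-- claim ZB -/
def QZB : P → Prop :=
  QQ (D 1 (ev Z0)) (Sm (ev Z0)) (ev gN) (ev gN) (ev gN)
theorem okZB (t : Tr) (b : Bx)
    (h : chk (LT (dd Z0 1)) (SK gN gN gN) t b.c0 b.w0 b.c1 b.w1 b.c2 b.w2 = true) :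
    ∀ p, b.In p → QZB p :=
  chkQ (enc_dd enc_Z0 1) enc_gN enc_gN enc_gN t b h

/-- claim ZC -/
def QZC : P → Prop :=
  QQ (D 0 (ev Z0)) (Sm (ev Z0)) (ev gN) (ev gN) (ev gN)
theorem okZC (t : Tr) (b : Bx)
    (h : chk (LT (dd Z0 0)) (SK gN gN gN) t b.c0 b.w0 b.c1 b.w1 b.c2 b.w2 = true) :
    ∀ p, b.In p → QZC p :=
  chkQ (enc_dd enc_Z0 0) enc_gN enc_gN enc_gN t b h

/-- claim ZD -/
def QZD : P → Prop :=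
  QQ (D 0 (ev Z2)) (Sm (ev Z2)) (ev gN) (ev gN) (ev gN)
theorem okZD (t : Tr) (b : Bx)
    (h : chk (LT (dd Z2 0)) (SK gN gN gN) t b.c0 b.w0 b.c1 b.w1 b.c2 b.w2 = true) :
    ∀ p, b.In p → QZD p :=
  chkQ (enc_dd enc_Z2 0) enc_gN enc_gN enc_gN t b h

/-- claim ZE -/
def QZE : P → Prop :=
  QQ (D 0 (ev Z7)) (Sm (ev Z7)) (ev gN) (ev gN) (ev gN)
theorem okZE (t : Tr) (b : Bx)
    (h : chk (LT (dd Z7 0)) (SK gN gN gN) t b.c0 b.w0 b.c1 b.w1 b.c2 b.w2 = true) :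
    ∀ p, b.In p → QZE p :=
  chkQ (enc_dd enc_Z7 0) enc_gN enc_gN enc_gN t b h

/-- claim ZF -/
def QZF : P → Prop :=
  QQ (ev Z0) (Sm (ev Z0)) (ev Z2) (ev gN) (ev gN)
theorem okZF (t : Tr) (b : Bx)
    (h : chk (LT (Z0)) (SK Z2 gN gN) t b.c0 b.w0 b.c1 b.w1 b.c2 b.w2 = true) :
    ∀ p, b.In p → QZF p :=
  chkQ (enc_Z0) enc_Z2 enc_gN enc_gN t b h

/-- claim ZG -/
def QZG : P → Prop :=
  QQ (ev Z7) (Sm (ev Z7)) (ev Z2) (ev Z0) (ev gN)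
theorem okZG (t : Tr) (b : Bx)
    (h : chk (LT (Z7)) (SK Z2 Z0 gN) t b.c0 b.w0 b.c1 b.w1 b.c2 b.w2 = true) :
    ∀ p, b.In p → QZG p :=
  chkQ (enc_Z7) enc_Z2 enc_Z0 enc_gN t b h

/-- claim ZH -/
def QZH : P → Prop :=
  QQ (fO.sub (fO.nat 0) (D 0 (D 1 (ev Z7)))) (Sm (ev Z7)) (ev gN) (ev gN) (ev gN)
theorem okZH (t : Tr) (b : Bx)
    (h : chk (LT (ngF (dd (dd Z7 1) 0))) (SK gN gN gN) t b.c0 b.w0 b.c1 b.w1 b.c2 b.w2 = true) :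
    ∀ p, b.In p → QZH p :=
  chkQ (enc_ng (enc_dd (enc_dd enc_Z7 1) 0)) enc_gN enc_gN enc_gN t b h

/-- claim ZI -/
def QZI : P → Prop :=
  QQ (fO.sub (fO.nat 0) (D 1 (ev Z7))) (Sm (ev Z7)) (ev gN) (ev gN) (ev gN)
theorem okZI (t : Tr) (b : Bx)
    (h : chk (LT (ngF (dd Z7 1))) (SK gN gN gN) t b.c0 b.w0 b.c1 b.w1 b.c2 b.w2 = true) :
    ∀ p, b.In p → QZI p :=
  chkQ (enc_ng (enc_dd enc_Z7 1)) enc_gN enc_gN enc_gN t b h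

/-- claim ZJ -/
def QZJ : P → Prop :=
  QQ (fO.sub (fO.nat 0) (D 0 (D 1 (ev Z2)))) (Sm (ev Z2)) (ev gN) (ev gN) (ev gN)
theorem okZJ (t : Tr) (b : Bx)
    (h : chk (LT (ngF (dd (dd Z2 1) 0))) (SK gN gN gN) t b.c0 b.w0 b.c1 b.w1 b.c2 b.w2 = true) :
    ∀ p, b.In p → QZJ p :=
  chkQ (enc_ng (enc_dd (enc_dd enc_Z2 1) 0)) enc_gN enc_gN enc_gN t b h

/-- claim OA -/
def QOA : P → Prop :=
  QQ (D 1 (D 0 (ev O7))) (Sm (ev O7)) (ev gO) (ev gN) (ev gN)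
theorem okOA (t : Tr) (b : Bx)
    (h : chk (LT (dd (dd O7 0) 1)) (SK gO gN gN) t b.c0 b.w0 b.c1 b.w1 b.c2 b.w2 = true) :
    ∀ p, b.In p → QOA p :=
  chkQ (enc_dd (enc_dd enc_O7 0) 1) enc_gO enc_gN enc_gN t b h

/-- claim OB -/
def QOB : P → Prop :=
  QQ (D 1 (D 1 (ev O7))) (Sm (ev O7)) (ev gO) (ev gN) (ev gN)
theorem okOB (t : Tr) (b : Bx)
    (h : chk (LT (dd (dd O7 1) 1)) (SK gO gN gN) t b.c0 b.w0 b.c1 b.w1 b.c2 b.w2 = true) :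
    ∀ p, b.In p → QOB p :=
  chkQ (enc_dd (enc_dd enc_O7 1) 1) enc_gO enc_gN enc_gN t b h

end H41MK
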