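import Pool.Agent.H45.FT.Reduce

/-!
# The mixed kernel: definitions of the certificate

Angles are normalised by `π/2`: `t ∈ [0,1]`, `t = 0` parallel, `t = 1` orthogonal lines.
-/

namespace H41MK

open Finset H45FT

/-- weight of the angle in the mixed kernel -/
noncomputable def lam : ℝ := 11 / 20
/-- peeling parameter -/
noncomputable def e1 : ℝ := 7 / 4
/-- `lam / 6 + e1 / 3` -/
noncomputable def th : ℝ := 27 / 40
/-- `(lam + 2 e1) / 3` -/
noncomputable def ell : ℝ := 27 / 20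
/-- coefficient of the degree zero part -/
noncomputable def c0 : ℝ := 11 / 1600
/-- split of the odd part -/
noncomputable def t1 : ℝ := 13 / 16

/-- `cos²` of the angle -/
noncomputable def csq (t : ℝ) : ℝ := Real.cos (Real.pi / 2 * t) ^ 2
/-- `(1 - t) - cos²` -/
noncomputable def eta (t : ℝ) : ℝ := (1 - t) - csq t
/-- the mixed kernel `lam (1 - t) + (1 - lam) cos²` -/
noncomputable def kk (t : ℝ) : ℝ := lam * (1 - t) + (1 - lam) * csq t
/-- the peeling weight -/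
noncomputable def gg (t : ℝ) : ℝ := (1 - csq t) - e1 * eta t
/-- the multiplier -/
noncomputable def vv (t : ℝ) : ℝ := (1 - csq t) / 2 - th * eta t

/-- odd planar kernel -/
noncomputable def Ok (a b : ℝ) : ℝ :=
  ell * min (min a (1 - a)) (min b (1 - b))
    - (ell - 1) / 2 * (Real.sin (Real.pi * a) * Real.sin (Real.pi * b))

/-- `min(|u|,|w|)` with the sign of `u w`, `u = 1/2 - a`, `w = 1/2 - b` -/
noncomputable def e0 (a b : ℝ) : ℝ :=
  if 0 ≤ (1 / 2 - a) * (1 / 2 - b) then min |1 / 2 - a| |1 / 2 - b|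
  else -min |1 / 2 - a| |1 / 2 - b|

noncomputable def fA (a : ℝ) : ℝ := lam * (1 / 2 - a) + (1 - lam) * (Real.cos (Real.pi * a) / 2)
noncomputable def fB (a : ℝ) : ℝ := e1 * (1 / 2 - a) + (1 - e1) * (Real.cos (Real.pi * a) / 2)

/-- even planar kernel -/
noncomputable def Ek (a b : ℝ) : ℝ :=
  ell * e0 a b - (ell - 1) / 2 * (Real.cos (Real.pi * a) * Real.cos (Real.pi * b))
    - (fA a + fB a) * (fA b + fB b) / 3 - 2 / 3 * (fB a * fB b)

/-- degree zero part -/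
noncomputable def Zk (a b : ℝ) : ℝ :=
  c0 * (Real.sin (2 * Real.pi * a) * Real.sin (2 * Real.pi * b))

/-- the three-point kernel; `X` is the cosine of the dihedral angle -/
noncomputable def Kz (a b X : ℝ) : ℝ :=
  Zk a b * (1 - X ^ 2) + Ek a b * X ^ 2 + t1 * Ok a b * X + (1 - t1) * Ok a b * X ^ 3

/-- the slack at one vertex: peeling term plus kernel -/
noncomputable def Vx (a b X : ℝ) : ℝ := gg a * gg b * kk (ang X) + Kz a b X

/-- **The pointwise inequality.** -/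
def Star : Prop := ∀ a ∈ Set.Icc (0 : ℝ) 1, ∀ b ∈ Set.Icc (0 : ℝ) 1, ∀ c ∈ Set.Icc (0 : ℝ) 1,
  ∀ σ : ℝ, (σ = 1 ∨ σ = -1) → 0 ≤ gram3 σ a b c →
  0 ≤ (vv a * (kk b + kk c) + vv b * (kk c + kk a) + vv c * (kk a + kk b))
    - (Vx a b (dih σ a b c) + Vx b c (dih σ b c a) + Vx c a (dih σ c a b))

/-- The kernel at `z` is positive semidefinite in every dimension. -/
def KPSD : Prop := ∀ (d : ℕ), 0 < d → ∀ (ι : Type) (t : Finset ι)
    (v : ι → EuclideanSpace ℝ (Fin (d + 1))) (w : ι → ℝ)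
    (z : EuclideanSpace ℝ (Fin (d + 1))), ‖z‖ = 1 → (∀ i ∈ t, ‖v i‖ = 1) →
    0 ≤ ∑ x ∈ t, ∑ y ∈ t, w x * w y *
      Kz (ang (inner ℝ (v x) z)) (ang (inner ℝ (v y) z)) (inner ℝ (dir z (v x)) (dir z (v y)))

/-- The bound in dimension `n` for finite families with nonnegative weights. -/
def Bd (n : ℕ) : Prop := ∀ (ι : Type) (t : Finset ι) (v : ι → EuclideanSpace ℝ (Fin n)) (w : ι → ℝ),
  (∀ i ∈ t, ‖v i‖ = 1) → (∀ i ∈ t, 0 ≤ w i) →
    (∑ i ∈ t, w i) ^ 2 / n ≤ ∑ i ∈ t, ∑ j ∈ t, w i * w j * kk (ang (inner ℝ (v i) (v j)))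

end H41MK
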