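import Pool.Agent.H41.MK.Meas

/-!
# The mixed kernel: all exponents `p` with `t ^ p < 1 - kk t` inside `(0,1)`, with equality case
-/

namespace H41MK

open Finset H45FT MeasureTheory Topology

theorem rpow_le_rk {p : ℝ} (hp : 0 < p) (hP : ∀ t : ℝ, 0 < t → t < 1 → t ^ p < 1 - kk t)
    {t : ℝ} (h0 : 0 ≤ t) (h1 : t ≤ 1) : t ^ p ≤ rk t := by
  unfold rk
  rcases h0.eq_or_lt with rfl | h0
  · rw [Real.zero_rpow hp.ne', ms_kk_zero]; norm_num
  · rcases h1.eq_or_lt with rfl | h1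
    · rw [Real.one_rpow, kk_one]; norm_num
    · exact (hP t h0 h1).le

theorem dich {p : ℝ} (hP : ∀ t : ℝ, 0 < t → t < 1 → t ^ p < 1 - kk t)
    {t : ℝ} (h0 : 0 ≤ t) (h1 : t ≤ 1) (h : rk t ≤ t ^ p) : t = 0 ∨ t = 1 := by
  by_contra hc
  push Not at hc
  have := hP t (lt_of_le_of_ne h0 (Ne.symm hc.1)) (lt_of_le_of_ne h1 hc.2)
  unfold rk at h
  linarith

theorem energy_le_of (hB : ∀ d, Bd (d + 1)) (d : ℕ) {p : ℝ} (hp : 0 < p)
    (hP : ∀ t : ℝ, 0 < t → t < 1 → t ^ p < 1 - kk t)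
    (μ : Measure (EuclideanSpace ℝ (Fin (d + 1)))) (hμ : IsProbabilityMeasure μ)
    (hs : μ (Metric.sphere (0 : EuclideanSpace ℝ (Fin (d + 1))) 1)ᶜ = 0) :
    ∫ x, ∫ y, Real.arccos |@inner ℝ _ _ x y| ^ p ∂μ ∂μ ≤
      (Real.pi / 2) ^ p * ((d : ℝ) / (d + 1)) := by
  have hpi := Real.pi_pos
  refine integral_integral_le_of_finite μ hs (fun x y => Real.arccos |@inner ℝ _ _ x y| ^ p)
    ?_ (B := Real.pi ^ p) ?_ ?_
  · have : Continuous fun q : EuclideanSpace ℝ (Fin (d + 1)) × EuclideanSpace ℝ (Fin (d + 1)) =>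
      Real.arccos |@inner ℝ _ _ q.1 q.2| := by fun_prop
    exact this.rpow_const fun _ => Or.inr hp.le
  · intro x y
    rw [abs_of_nonneg (Real.rpow_nonneg (Real.arccos_nonneg _) _)]
    exact Real.rpow_le_rpow (Real.arccos_nonneg _) (Real.arccos_le_pi _) hp.le
  · intro t w ht hw hw1
    have h1 := fin_rk hB d t w ht hw hw1
    have h2 : ∑ v ∈ t, ∑ u ∈ t, w v * w u * Real.arccos |@inner ℝ _ _ v u| ^ p ≤
        (Real.pi / 2) ^ p * ∑ i ∈ t, ∑ j ∈ t, w i * w j * rk (ang (inner ℝ i j)) := by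
      rw [Finset.mul_sum]
      refine Finset.sum_le_sum fun v hv => ?_
      rw [Finset.mul_sum]
      refine Finset.sum_le_sum fun u hu => ?_
      have h3 := rpow_le_rk hp hP (ang_nonneg (inner ℝ v u)) (ang_le_one (inner ℝ v u))
      have h4 : Real.arccos |@inner ℝ _ _ v u| ^ p
          = (Real.pi / 2) ^ p * ang (inner ℝ v u) ^ p := by
        rw [← half_pi_ang, Real.mul_rpow (by positivity) (ang_nonneg _)]
      rw [h4]
      calc w v * w u * ((Real.pi / 2) ^ p * ang (inner ℝ v u) ^ p)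
          = ((Real.pi / 2) ^ p * (w v * w u)) * ang (inner ℝ v u) ^ p := by ring
        _ ≤ ((Real.pi / 2) ^ p * (w v * w u)) * rk (ang (inner ℝ v u)) := by
            refine mul_le_mul_of_nonneg_left h3 ?_
            exact mul_nonneg (by positivity) (mul_nonneg (hw v hv) (hw u hu))
        _ = _ := by ring
    refine h2.trans ?_
    exact mul_le_mul_of_nonneg_left h1 (by positivity)

/-- In the case of equality the support consists of equal or orthogonal lines. -/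
theorem supp_dich (hB : ∀ d, Bd (d + 1)) (d : ℕ) {p : ℝ} (hp : 0 < p)
    (hP : ∀ t : ℝ, 0 < t → t < 1 → t ^ p < 1 - kk t)
    (μ : Measure (EuclideanSpace ℝ (Fin (d + 1)))) (hμ : IsProbabilityMeasure μ)
    (hs : μ (Metric.sphere (0 : EuclideanSpace ℝ (Fin (d + 1))) 1)ᶜ = 0)
    (he : (Real.pi / 2) ^ p * ((d : ℝ) / (d + 1)) ≤
      ∫ x, ∫ y, Real.arccos |@inner ℝ _ _ x y| ^ p ∂μ ∂μ)
    {x y : EuclideanSpace ℝ (Fin (d + 1))} (hx : x ∈ μ.support) (hy : y ∈ μ.support) :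
    ang (@inner ℝ _ _ x y) = 0 ∨ ang (@inner ℝ _ _ x y) = 1 := by
  have hpi := Real.pi_pos
  set A : ℝ := (Real.pi / 2) ^ p with hA
  have hA0 : 0 < A := by positivity
  let F1 : EuclideanSpace ℝ (Fin (d + 1)) × EuclideanSpace ℝ (Fin (d + 1)) → ℝ :=
    fun q => rk (ang (@inner ℝ _ _ q.1 q.2))
  let F2 : EuclideanSpace ℝ (Fin (d + 1)) × EuclideanSpace ℝ (Fin (d + 1)) → ℝ :=
    fun q => Real.arccos |@inner ℝ _ _ q.1 q.2| ^ p
  have c1 : Continuous F1 := cont_rk.comp (H95FL.cont_ang.comp (by fun_prop))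
  have c2 : Continuous F2 := by
    have : Continuous fun q : EuclideanSpace ℝ (Fin (d + 1)) × EuclideanSpace ℝ (Fin (d + 1)) =>
      Real.arccos |@inner ℝ _ _ q.1 q.2| := by fun_prop
    exact this.rpow_const fun _ => Or.inr hp.le
  have i1 : Integrable F1 (μ.prod μ) :=
    Integrable.of_bound c1.aestronglyMeasurable 1 (Filter.Eventually.of_forall fun q => by
      rw [Real.norm_eq_abs]; exact rk_bd _)
  have i2 : Integrable F2 (μ.prod μ) :=
    Integrable.of_bound c2.aestronglyMeasurable (Real.pi ^ p)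
      (Filter.Eventually.of_forall fun q => by
        rw [Real.norm_eq_abs, abs_of_nonneg (Real.rpow_nonneg (Real.arccos_nonneg _) _)]
        exact Real.rpow_le_rpow (Real.arccos_nonneg _) (Real.arccos_le_pi _) hp.le)
  have g0 : ∀ q, 0 ≤ A * F1 q - F2 q := by
    intro q
    have h3 := rpow_le_rk hp hP (ang_nonneg (inner ℝ q.1 q.2)) (ang_le_one (inner ℝ q.1 q.2))
    have h4 : F2 q = A * ang (inner ℝ q.1 q.2) ^ p := by
      simp only [F2]
      rw [← half_pi_ang, Real.mul_rpow (by positivity) (ang_nonneg _)]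
    rw [h4]
    have := mul_le_mul_of_nonneg_left h3 hA0.le
    simp only [F1]
    linarith
  have ig : Integrable (fun q => A * F1 q - F2 q) (μ.prod μ) := (i1.const_mul A).sub i2
  have e1 : ∫ q, F1 q ∂(μ.prod μ) = ∫ x, ∫ y, rk (ang (@inner ℝ _ _ x y)) ∂μ ∂μ :=
    integral_prod _ i1
  have e2 : ∫ q, F2 q ∂(μ.prod μ) = ∫ x, ∫ y, Real.arccos |@inner ℝ _ _ x y| ^ p ∂μ ∂μ :=
    integral_prod _ i2
  have hr := rk_energy hB d μ hμ hs
  rw [← e1] at hr
  rw [← e2] at he
  have hz : ∫ q, (A * F1 q - F2 q) ∂(μ.prod μ) = 0 := by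
    refine le_antisymm ?_ (integral_nonneg g0)
    rw [integral_sub (i1.const_mul A) i2, integral_const_mul]
    have := mul_le_mul_of_nonneg_left hr hA0.le
    linarith
  have hae := (integral_eq_zero_iff_of_nonneg g0 ig).1 hz
  have hcont : Continuous fun q => A * F1 q - F2 q := (continuous_const.mul c1).sub c2
  have key : A * F1 (x, y) - F2 (x, y) = 0 := by
    by_contra hne
    have ho : IsOpen {q | A * F1 q - F2 q ≠ 0} := isOpen_ne_fun hcont continuous_const
    have hm : {q | A * F1 q - F2 q ≠ 0} ∈ 𝓝 (x, y) := ho.mem_nhds hne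
    obtain ⟨U, hU, V, hV, hUV⟩ := mem_nhds_prod_iff.1 hm
    have h1 := (Measure.mem_support_iff_forall x).1 hx U hU
    have h2 := (Measure.mem_support_iff_forall y).1 hy V hV
    have h3 : (μ.prod μ) {q | A * F1 q - F2 q ≠ 0} = 0 := by
      have := ae_iff.1 hae
      simpa using this
    have h4 : (μ.prod μ) (U ×ˢ V) = 0 := measure_mono_null hUV h3
    rw [Measure.prod_prod, mul_eq_zero] at h4
    rcases h4 with h4 | h4
    · exact h1.ne' h4
    · exact h2.ne' h4
  refine dich hP (ang_nonneg _) (ang_le_one _) ?_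
  have h4 : F2 (x, y) = A * ang (inner ℝ x y) ^ p := by
    simp only [F2]
    rw [← half_pi_ang, Real.mul_rpow (by positivity) (ang_nonneg _)]
  rw [h4] at key
  have h5 : A * F1 (x, y) = A * ang (inner ℝ x y) ^ p := by linarith
  exact (mul_left_cancel₀ hA0.ne' h5).le

/-- The case of equality, for every exponent with `t ^ p < 1 - kk t` inside `(0,1)`. -/
theorem energy_eq_iff_of (hB : ∀ d, Bd (d + 1)) (d : ℕ) {p : ℝ} (hp : 0 < p)
    (hP : ∀ t : ℝ, 0 < t → t < 1 → t ^ p < 1 - kk t)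
    (μ : Measure (EuclideanSpace ℝ (Fin (d + 1)))) (hμ : IsProbabilityMeasure μ)
    (hs : μ (Metric.sphere (0 : EuclideanSpace ℝ (Fin (d + 1))) 1)ᶜ = 0) :
    ∫ x, ∫ y, Real.arccos |@inner ℝ _ _ x y| ^ p ∂μ ∂μ =
      (Real.pi / 2) ^ p * ((d : ℝ) / (d + 1)) ↔
    ∃ b : OrthonormalBasis (Fin (d + 1)) ℝ (EuclideanSpace ℝ (Fin (d + 1))),
      ∀ i, μ {b i, -b i} = ((d + 1 : ℕ) : ENNReal)⁻¹ := by
  have hpi := Real.pi_pos
  have hA0 : 0 < (Real.pi / 2) ^ p := by positivity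
  constructor
  · intro he
    have hsup : μ.support ⊆ Metric.sphere (0 : EuclideanSpace ℝ (Fin (d + 1))) 1 :=
      Measure.support_subset_of_isClosed Metric.isClosed_sphere (by
        rw [mem_ae_iff]; exact hs)
    have hn : ∀ x ∈ μ.support, ‖x‖ = 1 := fun x hx => mem_sphere_zero_iff_norm.1 (hsup hx)
    obtain ⟨b, hb⟩ := H95FL.exists_onb μ.support hn (fun x hx y hy => by
      rcases supp_dich hB d hp hP μ hμ hs he.ge hx hy with h | h
      · right
        have := cos_ang (abs_inner_le_one (hn x hx) (hn y hy))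
        rw [h, mul_zero, Real.cos_zero] at this
        exact this.symm
      · left
        have := cos_ang (abs_inner_le_one (hn x hx) (hn y hy))
        rw [h, mul_one, Real.cos_pi_div_two] at this
        exact abs_eq_zero.1 this.symm)
    have hc : μ (⋃ i, ({b i, -b i} : Set (EuclideanSpace ℝ (Fin (d + 1)))))ᶜ = 0 := by
      refine measure_mono_null ?_ (Measure.measure_compl_support (μ := μ))
      rw [Set.compl_subset_compl]
      intro x hx
      obtain ⟨i, hi⟩ := hb x hx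
      exact Set.mem_iUnion.2 ⟨i, hi⟩
    have hv := H95FL.value_of_carried μ b hp hc
    have hm := H95FL.mass_one μ b hc
    rw [hv] at he
    have h6 : 1 - ∑ i, μ.real {b i, -b i} ^ 2 = (d : ℝ) / (d + 1) := mul_left_cancel₀ hA0.ne' he
    have hd1 : (0 : ℝ) < (d : ℝ) + 1 := by positivity
    have h7 : ∑ i, (μ.real {b i, -b i} - 1 / ((d : ℝ) + 1)) ^ 2 = 0 := by
      have e : ∀ i, (μ.real {b i, -b i} - 1 / ((d : ℝ) + 1)) ^ 2 = μ.real {b i, -b i} ^ 2 -
          2 / ((d : ℝ) + 1) * μ.real {b i, -b i} + (1 / ((d : ℝ) + 1)) ^ 2 := fun i => by ring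
      simp only [e]
      rw [Finset.sum_add_distrib, Finset.sum_sub_distrib, ← Finset.mul_sum, hm]
      simp only [Finset.sum_const, Finset.card_univ, Fintype.card_fin, nsmul_eq_mul]
      have h8 : ∑ i, μ.real {b i, -b i} ^ 2 = 1 - (d : ℝ) / (d + 1) := by linarith
      rw [h8]
      push_cast
      field_simp
      ring
    refine ⟨b, fun i => ?_⟩
    have h9 := (Finset.sum_eq_zero_iff_of_nonneg (fun i _ => sq_nonneg _)).1 h7 i (Finset.mem_univ i)
    have h10 : μ.real {b i, -b i} = 1 / ((d : ℝ) + 1) := by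
      have := pow_eq_zero_iff (two_ne_zero) |>.1 h9
      linarith
    rw [← ENNReal.toReal_eq_toReal_iff' (measure_ne_top _ _) (by simp)]
    rw [ENNReal.toReal_inv, ENNReal.toReal_natCast]
    change μ.real {b i, -b i} = _
    rw [h10]
    push_cast
    ring
  · rintro ⟨b, hb⟩
    have hc := H95FL.carried_of_mass μ b hb
    rw [H95FL.value_of_carried μ b hp hc]
    have hm : ∀ i, μ.real {b i, -b i} = 1 / ((d : ℝ) + 1) := by
      intro i
      rw [Measure.real, hb i, ENNReal.toReal_inv, ENNReal.toReal_natCast]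
      push_cast
      ring
    simp only [hm, Finset.sum_const, Finset.card_univ, Fintype.card_fin, nsmul_eq_mul]
    push_cast
    field_simp
    ring

/-- All exponents `p` with `t ^ p < 1 - kk t` inside `(0,1)`: the bound and its case of equality. -/
theorem energy_of (hB : ∀ d, Bd (d + 1)) (d : ℕ) {p : ℝ} (hp : 0 < p)
    (hP : ∀ t : ℝ, 0 < t → t < 1 → t ^ p < 1 - kk t)
    (μ : Measure (EuclideanSpace ℝ (Fin (d + 1)))) (hμ : IsProbabilityMeasure μ)
    (hs : μ (Metric.sphere (0 : EuclideanSpace ℝ (Fin (d + 1))) 1)ᶜ = 0) :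
    ∫ x, ∫ y, Real.arccos |@inner ℝ _ _ x y| ^ p ∂μ ∂μ ≤
      (Real.pi / 2) ^ p * ((d : ℝ) / (d + 1)) ∧
    (∫ x, ∫ y, Real.arccos |@inner ℝ _ _ x y| ^ p ∂μ ∂μ =
        (Real.pi / 2) ^ p * ((d : ℝ) / (d + 1)) ↔
      ∃ b : OrthonormalBasis (Fin (d + 1)) ℝ (EuclideanSpace ℝ (Fin (d + 1))),
        ∀ i, μ {b i, -b i} = ((d + 1 : ℕ) : ENNReal)⁻¹) :=
  ⟨energy_le_of hB d hp hP μ hμ hs, energy_eq_iff_of hB d hp hP μ hμ hs⟩

end H41MK
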