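import Pool.Agent.H41.MK.Tru
import Pool.Agent.H41.FT.L3

/-!
# MK-5: the functions of the certificate vanish on the faces, part 1
-/

namespace H41MK

open H41FT H45FT Real

theorem M3_a0 (γ : ℝ) {n : ℝ} (hn : 0 ≤ n) : M3 rO 0 γ n = 0 := by
  have h1 : 0 < 1 + n := by linarith
  have h2 : √((1 + n) * (1 + n)) = 1 + n := Real.sqrt_mul_self h1.le
  have h3 : (1 + n) * (1 + n)⁻¹ = 1 := by field_simp
  simp [M3, cC3, G3, RG, vtx, lt, rO, h2, h3]
  ring_nf

theorem M3_g1 {a n : ℝ} (ha0 : 0 ≤ a) (ha : a < 1) (hn : 0 ≤ n) : M3 rO a 1 n = 0 := by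
  have hp := Real.pi_pos
  have hu : 0 < cos (π / 2 * a) := cos_pos_of_mem_Ioo ⟨by nlinarith, by nlinarith⟩
  have h1 : 0 < cos (π / 2 * a) + n := by linarith
  have h2 : √((cos (π / 2 * a) + n) * (cos (π / 2 * a) + n)) = cos (π / 2 * a) + n :=
    Real.sqrt_mul_self h1.le
  have h3 : (cos (π / 2 * a) + n) * (cos (π / 2 * a) + n)⁻¹ = 1 := mul_inv_cancel₀ h1.ne'
  have h4 := at_half (x := a) (by linarith) (by linarith)
  have h5 := sin_sq_add_cos_sq (π / 2 * a)
  simp [M3, cC3, G3, RG, vtx, lt, rO, h2, h3, h4, at_one']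
  linear_combination (-4320 : ℝ) * h5

theorem M3_g0 {a n : ℝ} (ha0 : 0 ≤ a) (ha : a < 1) (hn : 0 ≤ n) : M3 rO a 0 n = 0 := by
  have hp := Real.pi_pos
  have hu : 0 < cos (π / 2 * a) := cos_pos_of_mem_Ioo ⟨by nlinarith, by nlinarith⟩
  have hs : 0 ≤ sin (π / 2 * a) := sin_nonneg_of_nonneg_of_le_pi (by positivity) (by nlinarith)
  have h5 := sin_sq_add_cos_sq (π / 2 * a)
  have hA0 : 0 ≤ π / 2 * a := by positivity
  have hA1 : π / 2 * a < π / 2 := by nlinarith
  simp only [M3, cC3, G3, RG, vtx, lt, rO, cond_true, cond_false, mul_zero, sin_zero,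
    cos_zero, one_mul, zero_mul, arctan_zero, add_zero, Nat.cast_one, mul_one, Nat.cast_zero,
    Nat.cast_ofNat]
  generalize hAA : π / 2 * a = A at *
  have hR0 : 0 < (cos A + n) * (cos A + n) + sin A * sin A := by nlinarith [mul_self_nonneg (sin A)]
  have hR : 0 < √((cos A + n) * (cos A + n) + sin A * sin A) := Real.sqrt_pos.2 hR0
  have hR2 := Real.mul_self_sqrt hR0.le
  generalize √((cos A + n) * (cos A + n) + sin A * sin A) = R at *
  -- abbreviations
  obtain ⟨v, hv⟩ : ∃ v, v = sin A * R⁻¹ := ⟨_, rfl⟩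
  obtain ⟨sb, hsb⟩ : ∃ sb, sb = (cos A + n) * R⁻¹ := ⟨_, rfl⟩
  have hRi : R * R⁻¹ = 1 := mul_inv_cancel₀ hR.ne'
  have hv0 : 0 ≤ v := by rw [hv]; positivity
  have hsb0 : 0 < sb := by rw [hsb]; positivity
  have hvs : v ^ 2 + sb ^ 2 = 1 := by
    rw [hv, hsb]
    field_simp
    linarith
  have hw : n * v = sin A * sb - cos A * v := by rw [hv, hsb]; ring
  have hq0 : 0 < cos A * sb + sin A * v := by positivity
  have hq : 1 - n * v * (n * v) = (cos A * sb + sin A * v) * (cos A * sb + sin A * v) := by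
    rw [hw]
    linear_combination (-(v ^ 2 + sb ^ 2)) * h5 - hvs
  have hsc : √(1 - n * v * (n * v)) = cos A * sb + sin A * v := by
    rw [hq]; exact Real.sqrt_mul_self hq0.le
  rw [← hv, ← hsb, hsc]
  -- β
  have hb1 : cos (arccos sb) = sb := cos_arccos (by linarith) (by nlinarith)
  have hb2 : sin (arccos sb) = v := by
    rw [sin_arccos, show 1 - sb ^ 2 = v ^ 2 by linarith, Real.sqrt_sq hv0]
  have hb3 : arccos sb ≤ π / 2 := arccos_le_pi_div_two.2 hsb0.le
  have hb4 := arccos_nonneg sb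
  generalize arccos sb = B at *
  have e1 : sin A * (cos A + n + R)⁻¹ = v * (1 + sb)⁻¹ := by
    rw [hv, hsb]
    have : 0 < cos A + n + R := by linarith
    have h2 : 0 < R + (cos A + n) := by linarith
    field_simp
    ring
  have e2 := at_two (θ := B) (by linarith) (by linarith) hb2.symm hb1.symm
  have e3 := at_two (θ := A - B) (s := n * v) (c := cos A * sb + sin A * v) (by linarith)
    (by linarith) (by rw [hw, sin_sub, hb1, hb2]) (by rw [cos_sub, hb1, hb2])
  have e4 : (cos A * sb + sin A * v) * (cos A * sb + sin A * v)⁻¹ = 1 := mul_inv_cancel₀ hq0.ne'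
  have e5 : v * sin A + cos A * sb = cos A * sb + sin A * v := by ring
  have e6 : 2 / π * A = a := by rw [← hAA]; field_simp
  have e7 : 2 / π * (A - B) = a - 2 / π * B := by rw [mul_sub, e6]
  rw [e1, e2, e3, e5, e4, e7, hw]
  linear_combination (6720*(cos A)*v*(sin A)*sb + 6720*v^2*(sin A)^2 + 6720*v^2*sb^2 + 6720*sb^4 + (-3360)*sb^2) * h5 + (6720*(cos A)*v*(sin A)*sb + (-6720)*(sin A)^2*sb^2 + 3360*(sin A)^2 + 6720*sb^2) * hvs

section
variable {x : ℝ} (h1 : -1 < x) (h2 : x < 1)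
include h1 h2

theorem S3_x : S3 rO x 0 0 = 0 := by
  have e1 := sqrt_ax h1 h2
  have e2 := at_ax h1 h2
  have e3 : cos (π / 2 * x) * (cos (π / 2 * x))⁻¹ = 1 := mul_inv_cancel₀ (cos_pos' h1 h2).ne'
  have h5 := sin_sq_add_cos_sq (π / 2 * x)
  simp only [S3, cSd, G3, RG, vtx, lt, rO, cond_true, cond_false, mul_zero,
    sin_zero, cos_zero, one_mul, zero_mul, arctan_one, arctan_zero, add_zero, zero_add, sub_zero,
    Nat.cast_one, mul_one, Nat.cast_ofNat, Nat.cast_zero, inv_one, e1, e2, e3, at_one']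
  linear_combination (-4320 : ℝ) * h5

theorem S3_y : S3 rO 0 x 0 = 0 := by
  have e1 := sqrt_ax h1 h2
  have e2 := at_ax h1 h2
  have e3 : cos (π / 2 * x) * (cos (π / 2 * x))⁻¹ = 1 := mul_inv_cancel₀ (cos_pos' h1 h2).ne'
  have h5 := sin_sq_add_cos_sq (π / 2 * x)
  simp only [S3, cSd, G3, RG, vtx, lt, rO, cond_true, cond_false, mul_zero,
    sin_zero, cos_zero, one_mul, zero_mul, arctan_one, arctan_zero, add_zero, zero_add, sub_zero,
    Nat.cast_one, mul_one, Nat.cast_ofNat, Nat.cast_zero, inv_one, e1, e2, e3, at_one']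
  linear_combination (-4320 : ℝ) * h5

theorem S3_z : S3 rO 0 0 x = 0 := by
  have e1 := sqrt_ax h1 h2
  have e2 := at_ax h1 h2
  have e3 : cos (π / 2 * x) * (cos (π / 2 * x))⁻¹ = 1 := mul_inv_cancel₀ (cos_pos' h1 h2).ne'
  have h5 := sin_sq_add_cos_sq (π / 2 * x)
  simp only [S3, cSd, G3, RG, vtx, lt, rO, cond_true, cond_false, mul_zero,
    sin_zero, cos_zero, one_mul, zero_mul, arctan_one, arctan_zero, add_zero, zero_add, sub_zero,
    Nat.cast_one, mul_one, Nat.cast_ofNat, Nat.cast_zero, inv_one, e1, e2, e3, at_one']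
  linear_combination (-4320 : ℝ) * h5

theorem A7_x : cSd rO Ga7 false x 0 0 = 0 := by
  have e1 := sqrt_ax h1 h2
  have e2 := at_ax h1 h2
  have e3 : cos (π / 2 * x) * (cos (π / 2 * x))⁻¹ = 1 := mul_inv_cancel₀ (cos_pos' h1 h2).ne'
  have h5 := sin_sq_add_cos_sq (π / 2 * x)
  simp only [cSd, Ga7, RG, vtx, lt, rO, cond_true, cond_false, mul_zero,
    sin_zero, cos_zero, one_mul, zero_mul, arctan_one, arctan_zero, add_zero, zero_add, sub_zero,
    Nat.cast_one, mul_one, Nat.cast_ofNat, Nat.cast_zero, inv_one, e1, e2, e3, at_one']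
  linear_combination (-4320 : ℝ) * h5

theorem A7_y : cSd rO Ga7 false 0 x 0 = 0 := by
  have e1 := sqrt_ax h1 h2
  have e2 := at_ax h1 h2
  have e3 : cos (π / 2 * x) * (cos (π / 2 * x))⁻¹ = 1 := mul_inv_cancel₀ (cos_pos' h1 h2).ne'
  have h5 := sin_sq_add_cos_sq (π / 2 * x)
  simp only [cSd, Ga7, RG, vtx, lt, rO, cond_true, cond_false, mul_zero,
    sin_zero, cos_zero, one_mul, zero_mul, arctan_one, arctan_zero, add_zero, zero_add, sub_zero,
    Nat.cast_one, mul_one, Nat.cast_ofNat, Nat.cast_zero, inv_one, e1, e2, e3, at_one']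
  linear_combination (-4320 : ℝ) * h5

theorem A7_z : cSd rO Ga7 false 0 0 x = 0 := by
  have e1 := sqrt_ax h1 h2
  have e2 := at_ax h1 h2
  have e3 : cos (π / 2 * x) * (cos (π / 2 * x))⁻¹ = 1 := mul_inv_cancel₀ (cos_pos' h1 h2).ne'
  have h5 := sin_sq_add_cos_sq (π / 2 * x)
  simp only [cSd, Ga7, RG, vtx, lt, rO, cond_true, cond_false, mul_zero,
    sin_zero, cos_zero, one_mul, zero_mul, arctan_one, arctan_zero, add_zero, zero_add, sub_zero,
    Nat.cast_one, mul_one, Nat.cast_ofNat, Nat.cast_zero, inv_one, e1, e2, e3, at_one']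
  linear_combination (-4320 : ℝ) * h5

end

end H41MK
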