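import Pool.Agent.H41.MK.Tru
import Pool.Agent.H41.FT.L3

/-!
# MK-6: the functions of the certificate vanish on the faces, part 2
-/

namespace H41MK

open H41FT H45FT Real

theorem P0_t0 (ρ γ : ℝ) : P0 rO ρ 0 γ = 0 := by
  simp [P0, cF1, cCo, Go0, RG, vtx, lt, rO]
  norm_num

theorem Z0_t0 (ρ τ : ℝ) : Z0 rO ρ 0 τ = 0 := by
  simp [Z0, cF0, cCo, Ga0, RG, vtx, lt, rO]
  norm_num

private theorem aux_r0 (t : ℝ) : √(2 * (1 + t * t)⁻¹ * (2 * (1 + t * t)⁻¹)) = 2 * (1 + t * t)⁻¹ ∧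
    t * (2 * (1 + t * t)⁻¹) * (1 + (1 - t * t) * (1 + t * t)⁻¹)⁻¹ = t := by
  have h1 : 0 < 1 + t * t := by nlinarith [mul_self_nonneg t]
  refine ⟨Real.sqrt_mul_self (by positivity), ?_⟩
  field_simp; ring

theorem P0_r0 (t γ : ℝ) : P0 rO 0 t γ = 0 := by
  obtain ⟨h2, h3⟩ := aux_r0 t
  have k1 : 0 < 1 + t * t := by nlinarith [mul_self_nonneg t]
  simp only [P0, cF1, cCo, Go0, RG, vtx, lt, rO, mul_zero, zero_mul, Nat.cast_zero, Nat.cast_one,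
    Nat.cast_ofNat, add_zero, zero_add, sub_zero, inv_one, mul_one, one_mul, cond_true,
    cond_false, arctan_zero]
  rw [h2, h3]
  obtain ⟨w, hw⟩ : ∃ w, w = (1 + t * t)⁻¹ := ⟨_, rfl⟩
  have hw0 : w ≠ 0 := by rw [hw]; positivity
  have hw1 : w * (1 + t * t) = 1 := by rw [hw]; exact inv_mul_cancel₀ k1.ne'
  rw [← hw]
  have k4 : 2 * w * (2 * w)⁻¹ = 1 := mul_inv_cancel₀ (by positivity)
  simp only [k4]
  generalize 2 * (2 / π * arctan t) = b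
  have e : ((1 - t * t) * w) ^ 2 + (t * (2 * w)) ^ 2 = 1 := by
    have : ((1 - t * t) * w) ^ 2 + (t * (2 * w)) ^ 2 = (w * (1 + t * t)) ^ 2 := by ring
    rw [this, hw1]; ring
  generalize (1 - t * t) * w = v at *
  generalize t * (2 * w) = s at *
  linear_combination (6720 * s ^ 2) * e

theorem P2_r0 (t γ : ℝ) : P2 rO 0 t γ = 0 := by
  obtain ⟨h2, h3⟩ := aux_r0 t
  have k1 : 0 < 1 + t * t := by nlinarith [mul_self_nonneg t]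
  simp only [P2, cF1, cCo, Go2, RG, vtx, lt, rO, mul_zero, zero_mul, Nat.cast_zero, Nat.cast_one,
    Nat.cast_ofNat, add_zero, zero_add, sub_zero, inv_one, mul_one, one_mul, cond_true,
    cond_false, arctan_zero]
  rw [h2, h3]
  obtain ⟨w, hw⟩ : ∃ w, w = (1 + t * t)⁻¹ := ⟨_, rfl⟩
  have hw0 : w ≠ 0 := by rw [hw]; positivity
  have hw1 : w * (1 + t * t) = 1 := by rw [hw]; exact inv_mul_cancel₀ k1.ne'
  rw [← hw]
  have k4 : 2 * w * (2 * w)⁻¹ = 1 := mul_inv_cancel₀ (by positivity)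
  simp only [k4]
  generalize 2 * (2 / π * arctan t) = b
  have e : ((1 - t * t) * w) ^ 2 + (t * (2 * w)) ^ 2 = 1 := by
    have : ((1 - t * t) * w) ^ 2 + (t * (2 * w)) ^ 2 = (w * (1 + t * t)) ^ 2 := by ring
    rw [this, hw1]; ring
  generalize (1 - t * t) * w = v at *
  generalize t * (2 * w) = s at *
  linear_combination (6720 * s ^ 2) * e

theorem P0_g0 {ρ t : ℝ} (h1 : 0 ≤ ρ) (h2 : ρ ≤ 1) (h3 : 0 ≤ t) (h4 : t < 1) :
    P0 rO ρ t 0 = 0 := by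
  have hr : 0 ≤ ρ * ρ * (t * t) := by positivity
  have ht1 : t * t < 1 := by nlinarith
  have hρ1 : ρ * ρ ≤ 1 := by nlinarith
  have hr1 : ρ * ρ * (t * t) < 1 := by nlinarith [mul_nonneg h3 h3]
  have k1 : 0 < 1 + ρ * ρ * (t * t) := by positivity
  have k2 : 0 < 1 + t * t := by positivity
  have k3 : ρ * t * t < 1 := by nlinarith
  have k4 : 0 < 1 - ρ * t * t := by linarith
  obtain ⟨q, hq⟩ : ∃ q, q = 2 * (1 + t * t)⁻¹ * ((1 - ρ * ρ * (t * t)) * (1 + ρ * ρ * (t * t))⁻¹) +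
      2 * (ρ * (1 + ρ * ρ * (t * t))⁻¹) * ((1 - t * t) * (1 + t * t)⁻¹) := ⟨_, rfl⟩
  have hq0 : 0 < q := by
    rw [hq]
    have : 0 < 1 - ρ * ρ * (t * t) := by linarith
    have : 0 < 1 - t * t := by linarith
    positivity
  have hq' : 2 * (ρ * (1 + ρ * ρ * (t * t))⁻¹) * ((1 - t * t) * (1 + t * t)⁻¹) +
      2 * (1 + t * t)⁻¹ * ((1 - ρ * ρ * (t * t)) * (1 + ρ * ρ * (t * t))⁻¹) = q := by rw [hq]; ring
  have e1 : √(q * q) = q := Real.sqrt_mul_self hq0.le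
  have e2 : q * q⁻¹ = 1 := mul_inv_cancel₀ hq0.ne'
  have e3 : t * q * (1 + ((1 - ρ * ρ * (t * t)) * (1 + ρ * ρ * (t * t))⁻¹ *
      ((1 - t * t) * (1 + t * t)⁻¹) - t * t * (2 * (ρ * (1 + ρ * ρ * (t * t))⁻¹) *
      (2 * (1 + t * t)⁻¹))))⁻¹ = (ρ * t + t) / (1 - ρ * t * t) := by
    have e4 : 1 + ((1 - ρ * ρ * (t * t)) * (1 + ρ * ρ * (t * t))⁻¹ *
      ((1 - t * t) * (1 + t * t)⁻¹) - t * t * (2 * (ρ * (1 + ρ * ρ * (t * t))⁻¹) *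
      (2 * (1 + t * t)⁻¹))) = 2 * (1 - ρ * t * t) ^ 2 *
      ((1 + ρ * ρ * (t * t))⁻¹ * (1 + t * t)⁻¹) := by
      field_simp; ring
    have e6 : q = 2 * (1 + ρ) * (1 - ρ * t * t) *
        ((1 + ρ * ρ * (t * t))⁻¹ * (1 + t * t)⁻¹) := by
      rw [hq]; field_simp; ring
    have hK : 0 < (1 + ρ * ρ * (t * t))⁻¹ * (1 + t * t)⁻¹ := by positivity
    rw [e4, e6]
    clear e4 e6 hq' hq hq0 e1 e2
    generalize (1 + ρ * ρ * (t * t))⁻¹ * (1 + t * t)⁻¹ = K at *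
    generalize 1 - ρ * t * t = Q at *
    field_simp
    ring
  have e5 : arctan ((ρ * t + t) / (1 - ρ * t * t)) = arctan (ρ * t) + arctan t :=
    (arctan_add k3).symm
  simp only [P0, cF1, cCo, Go0, RG, vtx, lt, rO, mul_zero, zero_mul, Nat.cast_zero, Nat.cast_one,
    Nat.cast_ofNat, add_zero, zero_add, sub_zero, inv_one, mul_one, one_mul, cond_true,
    cond_false, arctan_zero, cos_zero, sin_zero]
  rw [← hq, hq', e1, e2, e3, e5]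
  have e6 : (2 : ℝ) * (2 / π * (arctan (ρ * t) + arctan t)) =
    2 * (2 / π * arctan (ρ * t)) + 2 * (2 / π * arctan t) := by ring
  rw [e6]
  obtain ⟨u, hu⟩ : ∃ u, u = (1 - ρ * ρ * (t * t)) * (1 + ρ * ρ * (t * t))⁻¹ := ⟨_, rfl⟩
  obtain ⟨v, hv⟩ : ∃ v, v = (1 - t * t) * (1 + t * t)⁻¹ := ⟨_, rfl⟩
  obtain ⟨x, hx⟩ : ∃ x, x = t * (2 * (ρ * (1 + ρ * ρ * (t * t))⁻¹)) := ⟨_, rfl⟩
  obtain ⟨y, hy⟩ : ∃ y, y = t * (2 * (1 + t * t)⁻¹) := ⟨_, rfl⟩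
  have f1 : u ^ 2 + x ^ 2 = 1 := by rw [hu, hx]; field_simp; ring
  have f2 : v ^ 2 + y ^ 2 = 1 := by rw [hv, hy]; field_simp; ring
  have f3 : t * q = y * u + x * v := by rw [hq, hu, hv, hx, hy]; ring
  have f4 : t * t * (2 * (ρ * (1 + ρ * ρ * (t * t))⁻¹) * (2 * (1 + t * t)⁻¹)) = x * y := by
    rw [hx, hy]; ring
  rw [f4, f3, ← hu, ← hv, ← hx, ← hy]
  generalize 2 * (2 / π * arctan (ρ * t)) = a
  generalize 2 * (2 / π * arctan t) = b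
  linear_combination (-3360*y^2 + 6720*y^4 + 6720*v^2*y^2 + 6720*v^2*x^2 + 6720*u*v*x*y) * f1 + (6720*y^2 + 3360*x^2 - 6720*x^2*y^2 + 6720*u*v*x*y) * f2

theorem P2_g0 {ρ t : ℝ} (h1 : 0 ≤ ρ) (h2 : ρ ≤ 1) (h3 : 0 ≤ t) (h4 : t < 1) :
    P2 rO ρ t 0 = 0 := by
  have hr : 0 ≤ ρ * ρ * (t * t) := by positivity
  have ht1 : t * t < 1 := by nlinarith
  have hρ1 : ρ * ρ ≤ 1 := by nlinarith
  have hr1 : ρ * ρ * (t * t) < 1 := by nlinarith [mul_nonneg h3 h3]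
  have k1 : 0 < 1 + ρ * ρ * (t * t) := by positivity
  have k2 : 0 < 1 + t * t := by positivity
  have k3 : ρ * t * t < 1 := by nlinarith
  have k4 : 0 < 1 - ρ * t * t := by linarith
  obtain ⟨q, hq⟩ : ∃ q, q = 2 * (1 + t * t)⁻¹ * ((1 - ρ * ρ * (t * t)) * (1 + ρ * ρ * (t * t))⁻¹) +
      2 * (ρ * (1 + ρ * ρ * (t * t))⁻¹) * ((1 - t * t) * (1 + t * t)⁻¹) := ⟨_, rfl⟩
  have hq0 : 0 < q := by
    rw [hq]
    have : 0 < 1 - ρ * ρ * (t * t) := by linarith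
    have : 0 < 1 - t * t := by linarith
    positivity
  have hq' : 2 * (ρ * (1 + ρ * ρ * (t * t))⁻¹) * ((1 - t * t) * (1 + t * t)⁻¹) +
      2 * (1 + t * t)⁻¹ * ((1 - ρ * ρ * (t * t)) * (1 + ρ * ρ * (t * t))⁻¹) = q := by rw [hq]; ring
  have e1 : √(q * q) = q := Real.sqrt_mul_self hq0.le
  have e2 : q * q⁻¹ = 1 := mul_inv_cancel₀ hq0.ne'
  have e3 : t * q * (1 + ((1 - ρ * ρ * (t * t)) * (1 + ρ * ρ * (t * t))⁻¹ *
      ((1 - t * t) * (1 + t * t)⁻¹) - t * t * (2 * (ρ * (1 + ρ * ρ * (t * t))⁻¹) *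
      (2 * (1 + t * t)⁻¹))))⁻¹ = (ρ * t + t) / (1 - ρ * t * t) := by
    have e4 : 1 + ((1 - ρ * ρ * (t * t)) * (1 + ρ * ρ * (t * t))⁻¹ *
      ((1 - t * t) * (1 + t * t)⁻¹) - t * t * (2 * (ρ * (1 + ρ * ρ * (t * t))⁻¹) *
      (2 * (1 + t * t)⁻¹))) = 2 * (1 - ρ * t * t) ^ 2 *
      ((1 + ρ * ρ * (t * t))⁻¹ * (1 + t * t)⁻¹) := by
      field_simp; ring
    have e6 : q = 2 * (1 + ρ) * (1 - ρ * t * t) *
        ((1 + ρ * ρ * (t * t))⁻¹ * (1 + t * t)⁻¹) := by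
      rw [hq]; field_simp; ring
    have hK : 0 < (1 + ρ * ρ * (t * t))⁻¹ * (1 + t * t)⁻¹ := by positivity
    rw [e4, e6]
    clear e4 e6 hq' hq hq0 e1 e2
    generalize (1 + ρ * ρ * (t * t))⁻¹ * (1 + t * t)⁻¹ = K at *
    generalize 1 - ρ * t * t = Q at *
    field_simp
    ring
  have e5 : arctan ((ρ * t + t) / (1 - ρ * t * t)) = arctan (ρ * t) + arctan t :=
    (arctan_add k3).symm
  simp only [P2, cF1, cCo, Go2, RG, vtx, lt, rO, mul_zero, zero_mul, Nat.cast_zero, Nat.cast_one,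
    Nat.cast_ofNat, add_zero, zero_add, sub_zero, inv_one, mul_one, one_mul, cond_true,
    cond_false, arctan_zero, cos_zero, sin_zero]
  rw [← hq, hq', e1, e2, e3, e5]
  have e6 : (2 : ℝ) * (2 / π * (arctan (ρ * t) + arctan t)) =
    2 * (2 / π * arctan (ρ * t)) + 2 * (2 / π * arctan t) := by ring
  rw [e6]
  obtain ⟨u, hu⟩ : ∃ u, u = (1 - ρ * ρ * (t * t)) * (1 + ρ * ρ * (t * t))⁻¹ := ⟨_, rfl⟩
  obtain ⟨v, hv⟩ : ∃ v, v = (1 - t * t) * (1 + t * t)⁻¹ := ⟨_, rfl⟩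
  obtain ⟨x, hx⟩ : ∃ x, x = t * (2 * (ρ * (1 + ρ * ρ * (t * t))⁻¹)) := ⟨_, rfl⟩
  obtain ⟨y, hy⟩ : ∃ y, y = t * (2 * (1 + t * t)⁻¹) := ⟨_, rfl⟩
  have f1 : u ^ 2 + x ^ 2 = 1 := by rw [hu, hx]; field_simp; ring
  have f2 : v ^ 2 + y ^ 2 = 1 := by rw [hv, hy]; field_simp; ring
  have f3 : t * q = y * u + x * v := by rw [hq, hu, hv, hx, hy]; ring
  have f4 : t * t * (2 * (ρ * (1 + ρ * ρ * (t * t))⁻¹) * (2 * (1 + t * t)⁻¹)) = x * y := by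
    rw [hx, hy]; ring
  rw [f4, f3, ← hu, ← hv, ← hx, ← hy]
  generalize 2 * (2 / π * arctan (ρ * t)) = a
  generalize 2 * (2 / π * arctan t) = b
  linear_combination (-3360*y^2 + 6720*y^4 + 6720*v^2*y^2 + 6720*v^2*x^2 + 6720*u*v*x*y) * f1 + (6720*y^2 + 3360*x^2 - 6720*x^2*y^2 + 6720*u*v*x*y) * f2


theorem Z0_r0 (τ t : ℝ) : Z0 rO 0 t τ = 0 := by
  obtain ⟨h2, h3⟩ := aux_r0 t
  have k1 : 0 < 1 + t * t := by nlinarith [mul_self_nonneg t]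
  have k0 : √(4 : ℝ) = 2 := by
    rw [show (4 : ℝ) = 2 * 2 by norm_num]; exact Real.sqrt_mul_self (by norm_num)
  have k6 : ((2 : ℝ)⁻¹ * 2) = 1 := by norm_num
  simp only [Z0, cF0, cCo, Ga0, RG, vtx, lt, rO, mul_zero, zero_mul, Nat.cast_zero, Nat.cast_one,
    Nat.cast_ofNat, add_zero, zero_add, sub_zero, inv_one, mul_one, one_mul, cond_true,
    cond_false, arctan_zero, k0, k6]
  rw [h2, h3]
  have k4 : 2 * (1 + t * t)⁻¹ * (2 * (1 + t * t)⁻¹)⁻¹ = 1 := mul_inv_cancel₀ (by positivity)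
  simp only [k4]
  obtain ⟨w, hw⟩ : ∃ w, w = (1 + t * t)⁻¹ := ⟨_, rfl⟩
  have hw0 : w ≠ 0 := by rw [hw]; positivity
  have hw1 : w * (1 + t * t) = 1 := by rw [hw]; exact inv_mul_cancel₀ k1.ne'
  rw [← hw]
  generalize 2 * (2 / π * arctan t) = b
  have e : ((1 - t * t) * w) ^ 2 + (t * (2 * w)) ^ 2 = 1 := by
    have : ((1 - t * t) * w) ^ 2 + (t * (2 * w)) ^ 2 = (w * (1 + t * t)) ^ 2 := by ring
    rw [this, hw1]; ring
  generalize (1 - t * t) * w = v at *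
  generalize t * (2 * w) = s at *
  linear_combination (6720 * s ^ 2) * e

theorem Z2_r0 (τ t : ℝ) : Z2 rO 0 t τ = 0 := by
  obtain ⟨h2, h3⟩ := aux_r0 t
  have k1 : 0 < 1 + t * t := by nlinarith [mul_self_nonneg t]
  have k0 : √(4 : ℝ) = 2 := by
    rw [show (4 : ℝ) = 2 * 2 by norm_num]; exact Real.sqrt_mul_self (by norm_num)
  have k6 : ((2 : ℝ)⁻¹ * 2) = 1 := by norm_num
  simp only [Z2, cF0, cCo, Ga2, RG, vtx, lt, rO, mul_zero, zero_mul, Nat.cast_zero, Nat.cast_one,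
    Nat.cast_ofNat, add_zero, zero_add, sub_zero, inv_one, mul_one, one_mul, cond_true,
    cond_false, arctan_zero, k0, k6]
  rw [h2, h3]
  have k4 : 2 * (1 + t * t)⁻¹ * (2 * (1 + t * t)⁻¹)⁻¹ = 1 := mul_inv_cancel₀ (by positivity)
  simp only [k4]
  obtain ⟨w, hw⟩ : ∃ w, w = (1 + t * t)⁻¹ := ⟨_, rfl⟩
  have hw0 : w ≠ 0 := by rw [hw]; positivity
  have hw1 : w * (1 + t * t) = 1 := by rw [hw]; exact inv_mul_cancel₀ k1.ne'
  rw [← hw]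
  generalize 2 * (2 / π * arctan t) = b
  have e : ((1 - t * t) * w) ^ 2 + (t * (2 * w)) ^ 2 = 1 := by
    have : ((1 - t * t) * w) ^ 2 + (t * (2 * w)) ^ 2 = (w * (1 + t * t)) ^ 2 := by ring
    rw [this, hw1]; ring
  generalize (1 - t * t) * w = v at *
  generalize t * (2 * w) = s at *
  linear_combination (6720 * s ^ 2) * e

theorem Z7_r0 (τ t : ℝ) : Z7 rO 0 t τ = 0 := by
  obtain ⟨h2, h3⟩ := aux_r0 t
  have k1 : 0 < 1 + t * t := by nlinarith [mul_self_nonneg t]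
  have k0 : √(4 : ℝ) = 2 := by
    rw [show (4 : ℝ) = 2 * 2 by norm_num]; exact Real.sqrt_mul_self (by norm_num)
  have k6 : ((2 : ℝ)⁻¹ * 2) = 1 := by norm_num
  simp only [Z7, cF0, cCo, Ga7, RG, vtx, lt, rO, mul_zero, zero_mul, Nat.cast_zero, Nat.cast_one,
    Nat.cast_ofNat, add_zero, zero_add, sub_zero, inv_one, mul_one, one_mul, cond_true,
    cond_false, arctan_zero, k0, k6]
  rw [h2, h3]
  have k4 : 2 * (1 + t * t)⁻¹ * (2 * (1 + t * t)⁻¹)⁻¹ = 1 := mul_inv_cancel₀ (by positivity)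
  simp only [k4]
  obtain ⟨w, hw⟩ : ∃ w, w = (1 + t * t)⁻¹ := ⟨_, rfl⟩
  have hw0 : w ≠ 0 := by rw [hw]; positivity
  have hw1 : w * (1 + t * t) = 1 := by rw [hw]; exact inv_mul_cancel₀ k1.ne'
  rw [← hw]
  generalize 2 * (2 / π * arctan t) = b
  have e : ((1 - t * t) * w) ^ 2 + (t * (2 * w)) ^ 2 = 1 := by
    have : ((1 - t * t) * w) ^ 2 + (t * (2 * w)) ^ 2 = (w * (1 + t * t)) ^ 2 := by ring
    rw [this, hw1]; ring
  generalize (1 - t * t) * w = v at *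
  generalize t * (2 * w) = s at *
  linear_combination (6720 * s ^ 2) * e

theorem Z2_t1 (ρ τ : ℝ) : Z2 rO ρ 1 τ = 0 := by
  have h1 : 0 < 1 + ρ * ρ := by nlinarith [mul_self_nonneg ρ]
  have h4 : √(4 : ℝ) = 2 := by
    rw [show (4 : ℝ) = 2 * 2 by norm_num]; exact Real.sqrt_mul_self (by norm_num)
  obtain ⟨u, hu⟩ : ∃ u, u = (1 - ρ * ρ) * (1 + ρ * ρ)⁻¹ := ⟨_, rfl⟩
  obtain ⟨s, hs⟩ : ∃ s, s = 2 * (ρ * (1 + ρ * ρ)⁻¹) := ⟨_, rfl⟩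
  have h5 : s * s + u * u = 1 := by rw [hs, hu]; field_simp; ring
  have h6 : s * (1 + u)⁻¹ = ρ := by rw [hs, hu]; field_simp; ring
  have h8 : (2 : ℝ) * (1 + 1)⁻¹ = 1 := by norm_num
  simp [Z2, cF0, cCo, Ga2, RG, vtx, lt, rO, ← hu, ← hs, h4, h5, h6, h8, at_one']
  generalize 2 * (2 / π * arctan ρ) = b at *
  linear_combination (-4320 : ℝ) * h5

theorem Z7_t1 (ρ τ : ℝ) : Z7 rO ρ 1 τ = 0 := by
  have h1 : 0 < 1 + ρ * ρ := by nlinarith [mul_self_nonneg ρ]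
  have h4 : √(4 : ℝ) = 2 := by
    rw [show (4 : ℝ) = 2 * 2 by norm_num]; exact Real.sqrt_mul_self (by norm_num)
  obtain ⟨u, hu⟩ : ∃ u, u = (1 - ρ * ρ) * (1 + ρ * ρ)⁻¹ := ⟨_, rfl⟩
  obtain ⟨s, hs⟩ : ∃ s, s = 2 * (ρ * (1 + ρ * ρ)⁻¹) := ⟨_, rfl⟩
  have h5 : s * s + u * u = 1 := by rw [hs, hu]; field_simp; ring
  have h6 : s * (1 + u)⁻¹ = ρ := by rw [hs, hu]; field_simp; ring
  have h8 : (2 : ℝ) * (1 + 1)⁻¹ = 1 := by norm_num
  simp [Z7, cF0, cCo, Ga7, RG, vtx, lt, rO, ← hu, ← hs, h4, h5, h6, h8, at_one']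
  generalize 2 * (2 / π * arctan ρ) = b at *
  linear_combination (-4320 : ℝ) * h5

theorem P2_g1 (ρ t : ℝ) : P2 rO ρ t 1 = Z2 rO ρ t 0 := by
  have k0 : √(4 : ℝ) = 2 := by
    rw [show (4 : ℝ) = 2 * 2 by norm_num]; exact Real.sqrt_mul_self (by norm_num)
  have k6 : ((2 : ℝ)⁻¹ * 2) = 1 := by norm_num
  simp only [P2, cF1, Z2, cF0, cCo, Go2, Ga2, RG, vtx, lt, rO, mul_zero, zero_mul, Nat.cast_zero, Nat.cast_one,
    Nat.cast_ofNat, add_zero, zero_add, sub_zero, sub_self, inv_one, mul_one, one_mul, cond_true,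
    cond_false, arctan_zero, k0, k6, cos_pi_div_two, sin_pi_div_two]

end H41MK
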