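import Pool.Agent.H41.MK.Tru
import Pool.Agent.H41.FT.L3

/-!
# Faces, part 2 (row MK-6b)
-/

namespace H41MK

open H41FT H45FT Real

theorem E0_t0 (ρ z : ℝ) : E0 rO ρ 0 z = 0 := by
  simp [E0, cE1, Go0, RG, vtx, lt, rO]
  norm_num

theorem E0_r0 {t z : ℝ} (h1 : 0 ≤ z) (h2 : z ≤ 1) : E0 rO 0 t z = 0 := by
  have k1 : 0 < 1 + t * t := by nlinarith [mul_self_nonneg t]
  have k2 : √(2 * (1 + t * t)⁻¹ * (2 * (1 + t * t)⁻¹)) = 2 * (1 + t * t)⁻¹ :=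
    Real.sqrt_mul_self (by positivity)
  have k3 : t * (2 * (1 + t * t)⁻¹) * (1 + (1 - t * t) * (1 + t * t)⁻¹)⁻¹ = t := by
    field_simp; ring
  simp only [E0, cE1, Go0, RG, vtx, lt, rO, mul_zero, zero_mul, Nat.cast_zero, Nat.cast_one,
    Nat.cast_ofNat, add_zero, zero_add, sub_zero, inv_one, mul_one, one_mul, cond_true,
    cond_false, arctan_zero]
  rw [k2, k3]
  obtain ⟨w, hw⟩ : ∃ w, w = (1 + t * t)⁻¹ := ⟨_, rfl⟩
  have hw0 : w ≠ 0 := by rw [hw]; positivity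
  have hw1 : w * (1 + t * t) = 1 := by rw [hw]; exact inv_mul_cancel₀ k1.ne'
  rw [← hw]
  have k4 : 2 * w * (2 * w)⁻¹ = 1 := mul_inv_cancel₀ (by positivity)
  have k5 : ∀ y, 2 * w * y * (2 * w)⁻¹ = y := by
    intro y
    rw [mul_comm (2 * w) y, mul_assoc, k4, mul_one]
  simp only [k4, k5]
  generalize 2 * (2 / π * arctan t) = b
  have e : ((1 - t * t) * w) ^ 2 + (t * (2 * w)) ^ 2 = 1 := by
    have : ((1 - t * t) * w) ^ 2 + (t * (2 * w)) ^ 2 = (w * (1 + t * t)) ^ 2 := by ring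
    rw [this, hw1]; ring
  generalize (1 - t * t) * w = v at *
  generalize t * (2 * w) = s at *
  linear_combination (6720 * s ^ 2) * e

theorem E0_z0 {ρ t : ℝ} (h1 : 0 ≤ ρ) (h2 : ρ ≤ 1) (h3 : 0 ≤ t) (h4 : t < 1) :
    E0 rO ρ t 0 = 0 := by
  have hr : 0 ≤ ρ * ρ * (t * t) := by positivity
  have ht1 : t * t < 1 := by nlinarith
  have hρ1 : ρ * ρ ≤ 1 := by nlinarith
  have hr1 : ρ * ρ * (t * t) < 1 := by nlinarith [mul_nonneg h3 h3]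
  have k1 : 0 < 1 + ρ * ρ * (t * t) := by positivity
  have k2 : 0 < 1 + t * t := by positivity
  have k3 : ρ * t * t < 1 := by nlinarith
  have k4 : 0 < 1 - ρ * t * t := by linarith
  obtain ⟨q, hq⟩ : ∃ q, q = 2 * (1 + t * t)⁻¹ * ((1 - ρ * ρ * (t * t)) * (1 + ρ * ρ * (t * t))⁻¹) +
      2 * (ρ * (1 + ρ * ρ * (t * t))⁻¹) * ((1 - t * t) * (1 + t * t)⁻¹) := ⟨_, rfl⟩
  have hq0 : 0 < q := by
    rw [hq]
    have : 0 < 1 - ρ * ρ * (t * t) := by linarith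
    have : 0 < 1 - t * t := by linarith
    positivity
  have hq' : 2 * (ρ * (1 + ρ * ρ * (t * t))⁻¹) * ((1 - t * t) * (1 + t * t)⁻¹) +
      2 * (1 + t * t)⁻¹ * ((1 - ρ * ρ * (t * t)) * (1 + ρ * ρ * (t * t))⁻¹) = q := by rw [hq]; ring
  have e1 : √(q * q) = q := Real.sqrt_mul_self hq0.le
  have e2 : q * q⁻¹ = 1 := mul_inv_cancel₀ hq0.ne'
  have e3 : t * q * (1 + ((1 - ρ * ρ * (t * t)) * (1 + ρ * ρ * (t * t))⁻¹ *
      ((1 - t * t) * (1 + t * t)⁻¹) - t * t * (2 * (ρ * (1 + ρ * ρ * (t * t))⁻¹) *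
      (2 * (1 + t * t)⁻¹))))⁻¹ = (ρ * t + t) / (1 - ρ * t * t) := by
    have e4 : 1 + ((1 - ρ * ρ * (t * t)) * (1 + ρ * ρ * (t * t))⁻¹ *
      ((1 - t * t) * (1 + t * t)⁻¹) - t * t * (2 * (ρ * (1 + ρ * ρ * (t * t))⁻¹) *
      (2 * (1 + t * t)⁻¹))) = 2 * (1 - ρ * t * t) ^ 2 *
      ((1 + ρ * ρ * (t * t))⁻¹ * (1 + t * t)⁻¹) := by
      field_simp; ring
    have e6 : q = 2 * (1 + ρ) * (1 - ρ * t * t) *
        ((1 + ρ * ρ * (t * t))⁻¹ * (1 + t * t)⁻¹) := by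
      rw [hq]; field_simp; ring
    have hK : 0 < (1 + ρ * ρ * (t * t))⁻¹ * (1 + t * t)⁻¹ := by positivity
    rw [e4, e6]
    clear e4 e6 hq' hq hq0 e1 e2
    generalize (1 + ρ * ρ * (t * t))⁻¹ * (1 + t * t)⁻¹ = K at *
    generalize 1 - ρ * t * t = Q at *
    field_simp
    ring
  have e5 : arctan ((ρ * t + t) / (1 - ρ * t * t)) = arctan (ρ * t) + arctan t :=
    (arctan_add k3).symm
  simp only [E0, cE1, Go0, RG, vtx, lt, rO, mul_zero, zero_mul, Nat.cast_zero, Nat.cast_one,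
    Nat.cast_ofNat, add_zero, zero_add, sub_zero, inv_one, mul_one, one_mul, cond_true,
    cond_false, arctan_zero]
  rw [← hq, hq', e1, e2, e3, e5]
  have e6 : (2 : ℝ) * (2 / π * (arctan (ρ * t) + arctan t)) =
    2 * (2 / π * arctan (ρ * t)) + 2 * (2 / π * arctan t) := by ring
  rw [e6]
  obtain ⟨u, hu⟩ : ∃ u, u = (1 - ρ * ρ * (t * t)) * (1 + ρ * ρ * (t * t))⁻¹ := ⟨_, rfl⟩
  obtain ⟨v, hv⟩ : ∃ v, v = (1 - t * t) * (1 + t * t)⁻¹ := ⟨_, rfl⟩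
  obtain ⟨x, hx⟩ : ∃ x, x = t * (2 * (ρ * (1 + ρ * ρ * (t * t))⁻¹)) := ⟨_, rfl⟩
  obtain ⟨y, hy⟩ : ∃ y, y = t * (2 * (1 + t * t)⁻¹) := ⟨_, rfl⟩
  have f1 : u ^ 2 + x ^ 2 = 1 := by rw [hu, hx]; field_simp; ring
  have f2 : v ^ 2 + y ^ 2 = 1 := by rw [hv, hy]; field_simp; ring
  have f3 : t * q = y * u + x * v := by rw [hq, hu, hv, hx, hy]; ring
  have f4 : t * t * (2 * (ρ * (1 + ρ * ρ * (t * t))⁻¹) * (2 * (1 + t * t)⁻¹)) = x * y := by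
    rw [hx, hy]; ring
  rw [f4, f3, ← hu, ← hv, ← hx, ← hy]
  generalize 2 * (2 / π * arctan (ρ * t)) = a
  generalize 2 * (2 / π * arctan t) = b
  linear_combination (-3360*y^2 + 6720*y^4 + 6720*v^2*y^2 + 6720*v^2*x^2 + 6720*u*v*x*y) * f1 + (6720*y^2 + 3360*x^2 - 6720*x^2*y^2 + 6720*u*v*x*y) * f2

theorem Y7_a0 {y γ : ℝ} (h0 : 0 ≤ y) (h1 : y ≤ 1) : Y7 rO 0 y γ = 0 := by
  simp [Y7, cFY, cFs, Go7, RG, vtx, lt, rO, at_one']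
  norm_num

theorem D7_b0 {a n : ℝ} (h0 : 0 < a) (h1 : a < 1) (h2 : 0 ≤ n) : D7 rO a 0 n = 0 := by
  have h3 := at_half (x := a) (by linarith) (by linarith)
  have h5 := sin_sq_add_cos_sq (π / 2 * a)
  simp [D7, cFD, Go7, RG, vtx, lt, rO, at_one', h3]
  linear_combination (-4320 : ℝ) * h5

private theorem fc_le (a b c u v w sa sb sc X cx Y cy g cz : ℝ)
    (ha : 0 ≤ 7 * a - 3 * (sa * sa)) (hb : 0 ≤ 7 * b - 3 * (sb * sb))
    (hc : 0 ≤ 7 * c - 3 * (sc * sc)) (hX : 0 ≤ X) (hY : 0 ≤ Y) (hg : 0 ≤ g) :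
    Go0 rO a b c u v w sa sb sc 0 cx 0 cy 0 cz ≤ Go0 rO a b c u v w sa sb sc X cx Y cy g cz := by
  have e : Go0 rO a b c u v w sa sb sc X cx Y cy g cz =
      Go0 rO a b c u v w sa sb sc 0 cx 0 cy 0 cz +
        330 * ((7 * a - 3 * (sa * sa)) * (7 * b - 3 * (sb * sb)) * g +
          (7 * b - 3 * (sb * sb)) * (7 * c - 3 * (sc * sc)) * X +
          (7 * a - 3 * (sa * sa)) * (7 * c - 3 * (sc * sc)) * Y) := by
    simp only [Go0, RG, vtx, lt, rO, cond_true, cond_false, Nat.cast_ofNat, Nat.cast_one]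
    ring
  rw [e]
  have : 0 ≤ 330 * ((7 * a - 3 * (sa * sa)) * (7 * b - 3 * (sb * sb)) * g +
          (7 * b - 3 * (sb * sb)) * (7 * c - 3 * (sc * sc)) * X +
          (7 * a - 3 * (sa * sa)) * (7 * c - 3 * (sc * sc)) * Y) := by positivity
  linarith

/-- a side `a = (4/π) arctan y` with sine `2 y / (1 + y²)` -/
private theorem fc_side {y : ℝ} (hy : 0 ≤ y) :
    0 ≤ 7 * (2 * (2 / π * arctan y)) - 3 * (2 * y * (1 + y * y)⁻¹ * (2 * y * (1 + y * y)⁻¹)) := by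
  have hp := Real.pi_pos
  have hp4 := Real.pi_lt_four
  have h1 : 0 < 1 + y * y := by positivity
  have hs : sin (2 * arctan y) = 2 * y * (1 + y * y)⁻¹ := by
    rw [sin_two_mul, sin_arctan, cos_arctan]
    have h2 : 0 < 1 + y ^ 2 := by positivity
    have h3 : √(1 + y ^ 2) * √(1 + y ^ 2) = 1 + y ^ 2 := Real.mul_self_sqrt h2.le
    have h4 : 0 < √(1 + y ^ 2) := Real.sqrt_pos.2 h2
    rw [show 2 * (y / √(1 + y ^ 2)) * (1 / √(1 + y ^ 2)) = 2 * y / (√(1 + y ^ 2) * √(1 + y ^ 2)) by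
      field_simp, h3, div_eq_mul_inv, pow_two]
  have ha : 0 ≤ arctan y := arctan_nonneg.2 hy
  have h5 : sin (2 * arctan y) ≤ 2 * arctan y := sin_le (by linarith)
  have h6 : sin (2 * arctan y) ≤ 1 := sin_le_one _
  have h7 : 0 ≤ sin (2 * arctan y) := by rw [hs]; positivity
  rw [← hs]
  generalize sin (2 * arctan y) = s at *
  have h8 : 3 * (s * s) ≤ 6 * arctan y := by nlinarith
  have h9 : 6 * arctan y ≤ 7 * (2 * (2 / π * arctan y)) := by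
    have : 6 ≤ 7 * (2 * (2 / π)) := by
      rw [show 7 * (2 * (2 / π)) = 28 / π by ring, le_div_iff₀ hp]
      linarith
    have := mul_le_mul_of_nonneg_right this ha
    linarith
  linarith

/-- the same from the sine and the cosine -/
private theorem fc_side2 {s w : ℝ} (hs : 0 ≤ s) (h : s * s + w * w = 1) :
    0 ≤ 7 * (2 * (2 / π * arctan (s * (1 + w)⁻¹))) - 3 * (s * s) := by
  have hw : -1 ≤ w := by nlinarith
  rcases hw.eq_or_lt with hw | hw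
  · have : s = 0 := by nlinarith
    rw [this]
    simp
  · have h1 : 0 < 1 + w := by linarith
    have h2 : 0 ≤ s * (1 + w)⁻¹ := by positivity
    have h3 := fc_side h2
    have h4 : 2 * (s * (1 + w)⁻¹) * (1 + s * (1 + w)⁻¹ * (s * (1 + w)⁻¹))⁻¹ = s := by
      have h5 : 1 + s * (1 + w)⁻¹ * (s * (1 + w)⁻¹) = 2 * (1 + w)⁻¹ := by
        field_simp
        nlinarith
      rw [h5]
      field_simp
    rw [h4] at h3
    exact h3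

private theorem fc_lt {A B : Type} {e x : A} {f : A → B} {y : B} (h : x = e) (h2 : f x = y) :
    lt e f = y := by
  rw [← h2, h]; rfl

theorem E0_le {ρ t γ : ℝ} (h1 : 0 ≤ ρ) (h2 : ρ ≤ 1) (h3 : 0 ≤ t) (h4 : t ≤ 1) (h5 : 0 ≤ γ)
    (h6 : γ ≤ 1) : E0 rO ρ t (1 - cos (π / 2 * γ)) ≤ P0 rO ρ t γ := by
  have hp := Real.pi_pos
  obtain ⟨ka, hka⟩ : ∃ x, x = cos (π / 2 * γ) := ⟨_, rfl⟩
  obtain ⟨si, hsi⟩ : ∃ x, x = sin (π / 2 * γ) := ⟨_, rfl⟩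
  have hk : 0 ≤ ka := by rw [hka]; exact cos_nonneg_of_mem_Icc ⟨by nlinarith, by nlinarith⟩
  have hs : 0 ≤ si := by rw [hsi]; exact sin_nonneg_of_nonneg_of_le_pi (by positivity) (by nlinarith)
  have hs2 : si * si + ka * ka = 1 := by
    rw [hka, hsi]; have := sin_sq_add_cos_sq (π / 2 * γ); linear_combination this
  have c2 : ((2 : ℕ) : ℝ) = 2 := by norm_num
  have c1 : ((1 : ℕ) : ℝ) = 1 := by norm_num
  obtain ⟨t2, h_t2⟩ : ∃ x, x = t * t := ⟨_, rfl⟩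
  obtain ⟨r2, h_r2⟩ : ∃ x, x = ρ * ρ * t2 := ⟨_, rfl⟩
  obtain ⟨ia, h_ia⟩ : ∃ x, x = (((1 : ℕ) : ℝ) + r2)⁻¹ := ⟨_, rfl⟩
  obtain ⟨ib, h_ib⟩ : ∃ x, x = (((1 : ℕ) : ℝ) + t2)⁻¹ := ⟨_, rfl⟩
  obtain ⟨u, h_u⟩ : ∃ x, x = (((1 : ℕ) : ℝ) - r2) * ia := ⟨_, rfl⟩
  obtain ⟨v, h_v⟩ : ∃ x, x = (((1 : ℕ) : ℝ) - t2) * ib := ⟨_, rfl⟩
  obtain ⟨sap, h_sap⟩ : ∃ x, x = ((2 : ℕ) : ℝ) * (ρ * ia) := ⟨_, rfl⟩
  obtain ⟨sbp, h_sbp⟩ : ∃ x, x = ((2 : ℕ) : ℝ) * ib := ⟨_, rfl⟩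
  obtain ⟨sav, h_sav⟩ : ∃ x, x = sap * v := ⟨_, rfl⟩
  obtain ⟨sbu, h_sbu⟩ : ∃ x, x = sbp * u := ⟨_, rfl⟩
  obtain ⟨p, h_p⟩ : ∃ x, x = sap * si := ⟨_, rfl⟩
  obtain ⟨q, h_q⟩ : ∃ x, x = sbu + sav * ka := ⟨_, rfl⟩
  obtain ⟨p2, h_p2⟩ : ∃ x, x = sbp * si := ⟨_, rfl⟩
  obtain ⟨q2, h_q2⟩ : ∃ x, x = sav + sbu * ka := ⟨_, rfl⟩
  obtain ⟨scp, h_scp⟩ : ∃ x, x = √(p * p + q * q) := ⟨_, rfl⟩
  obtain ⟨isc, h_isc⟩ : ∃ x, x = scp⁻¹ := ⟨_, rfl⟩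
  obtain ⟨X, h_X⟩ : ∃ x, x = ((2 : ℕ) : ℝ) * (2 / π * arctan (p * (scp + q)⁻¹)) := ⟨_, rfl⟩
  obtain ⟨Y, h_Y⟩ : ∃ x, x = ((2 : ℕ) : ℝ) * (2 / π * arctan (p2 * (scp + q2)⁻¹)) := ⟨_, rfl⟩
  obtain ⟨w, h_w⟩ : ∃ x, x = u * v - t2 * (sap * sbp * ka) := ⟨_, rfl⟩
  obtain ⟨sc, h_sc⟩ : ∃ x, x = t * scp := ⟨_, rfl⟩
  obtain ⟨c, h_c⟩ : ∃ x, x = ((2 : ℕ) : ℝ) * (2 / π * arctan (sc * (((1 : ℕ) : ℝ) + w)⁻¹)) :=
    ⟨_, rfl⟩
  obtain ⟨sa, h_sa⟩ : ∃ x, x = t * sap := ⟨_, rfl⟩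
  obtain ⟨sb, h_sb⟩ : ∃ x, x = t * sbp := ⟨_, rfl⟩
  obtain ⟨a, h_a⟩ : ∃ x, x = ((2 : ℕ) : ℝ) * (2 / π * arctan (ρ * t)) := ⟨_, rfl⟩
  obtain ⟨b, h_b⟩ : ∃ x, x = ((2 : ℕ) : ℝ) * (2 / π * arctan t) := ⟨_, rfl⟩
  obtain ⟨cx, h_cx⟩ : ∃ x, x = q * isc := ⟨_, rfl⟩
  obtain ⟨cy, h_cy⟩ : ∃ x, x = q2 * isc := ⟨_, rfl⟩
  have f1 : P0 rO ρ t γ = Go0 rO a b c u v w sa sb sc X cx Y cy γ ka := by
    unfold P0 cF1 cCo
    exact fc_lt hka (fc_lt hsi (fc_lt h_t2 (fc_lt h_r2 (fc_lt h_ia (fc_lt h_ib (fc_lt h_u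
      (fc_lt h_v (fc_lt h_sap (fc_lt h_sbp (fc_lt h_sav (fc_lt h_sbu (fc_lt h_p (fc_lt h_q
      (fc_lt h_p2 (fc_lt h_q2 (fc_lt h_scp (fc_lt h_isc (fc_lt h_X (fc_lt h_Y (fc_lt h_w
      (fc_lt h_sc (fc_lt h_c (fc_lt h_sa (fc_lt h_sb (fc_lt rfl (fc_lt h_a (fc_lt h_b
      (fc_lt h_cx (fc_lt h_cy rfl)))))))))))))))))))))))))))))
  have g1 : ka = ((1 : ℕ) : ℝ) - (1 - ka) := by rw [c1]; ring
  have g2 : si * si = (1 - ka) * (((2 : ℕ) : ℝ) - (1 - ka)) := by rw [c2]; linear_combination hs2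
  have g3 : scp = √(sap * sap * (si * si) + q * q) := by
    rw [h_scp, h_p]; congr 1; ring
  have f2 : E0 rO ρ t (1 - ka) =
      Go0 rO a b c u v w sa sb sc ((0 : ℕ) : ℝ) cx ((0 : ℕ) : ℝ) cy ((0 : ℕ) : ℝ) ka := by
    unfold E0 cE1
    exact fc_lt rfl (fc_lt g1 (fc_lt g2 (fc_lt h_t2 (fc_lt h_r2 (fc_lt h_ia (fc_lt h_ib (fc_lt h_u
      (fc_lt h_v (fc_lt h_sap (fc_lt h_sbp (fc_lt h_sav (fc_lt h_sbu (fc_lt h_q
      (fc_lt h_q2 (fc_lt g3 (fc_lt h_isc (fc_lt h_w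
      (fc_lt h_sc (fc_lt h_c (fc_lt h_sa (fc_lt h_sb (fc_lt h_a (fc_lt h_b
      (fc_lt h_cx (fc_lt h_cy rfl)))))))))))))))))))))))))
  rw [← hka, f1, f2, Nat.cast_zero]
  rw [c1] at h_ia h_ib h_u h_v h_c
  rw [c2] at h_sap h_sbp h_X h_Y h_c h_a h_b
  have ht2 : 0 ≤ t2 := by rw [h_t2]; positivity
  have ht2' : t2 ≤ 1 := by rw [h_t2]; nlinarith
  have hr2 : 0 ≤ r2 := by rw [h_r2]; positivity
  have hr2' : r2 ≤ 1 := by
    rw [h_r2]; have : ρ * ρ ≤ 1 := by nlinarith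
    nlinarith
  have k1 : 0 < 1 + r2 := by linarith
  have k2 : 0 < 1 + t2 := by linarith
  have hia : 0 < ia := by rw [h_ia]; positivity
  have hib : 0 < ib := by rw [h_ib]; positivity
  have hia' : ia * (1 + r2) = 1 := by rw [h_ia]; exact inv_mul_cancel₀ k1.ne'
  have hib' : ib * (1 + t2) = 1 := by rw [h_ib]; exact inv_mul_cancel₀ k2.ne'
  have hu : 0 ≤ u := by rw [h_u]; exact mul_nonneg (by linarith) hia.le
  have hv : 0 ≤ v := by rw [h_v]; exact mul_nonneg (by linarith) hib.le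
  have hsap : 0 ≤ sap := by rw [h_sap]; positivity
  have hsbp : 0 ≤ sbp := by rw [h_sbp]; positivity
  have hsav : 0 ≤ sav := by rw [h_sav]; positivity
  have hsbu : 0 ≤ sbu := by rw [h_sbu]; positivity
  have hq : 0 ≤ q := by rw [h_q]; positivity
  have hq2 : 0 ≤ q2 := by rw [h_q2]; positivity
  have hpp : 0 ≤ p := by rw [h_p]; positivity
  have hpp2 : 0 ≤ p2 := by rw [h_p2]; positivity
  have hscp : 0 ≤ scp := by rw [h_scp]; exact Real.sqrt_nonneg _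
  have hscp2 : scp * scp = p * p + q * q := by
    rw [h_scp]; exact Real.mul_self_sqrt (by positivity)
  have hsc : 0 ≤ sc := by rw [h_sc]; positivity
  have hX : 0 ≤ X := by
    rw [h_X]; have := arctan_nonneg.2 (show 0 ≤ p * (scp + q)⁻¹ by positivity); positivity
  have hY : 0 ≤ Y := by
    rw [h_Y]; have := arctan_nonneg.2 (show 0 ≤ p2 * (scp + q2)⁻¹ by positivity); positivity
  have hu1 : u * u + sa * sa = 1 := by
    have : u * u + sa * sa = (ia * (1 + r2)) * (ia * (1 + r2)) := by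
      rw [h_u, h_sa, h_sap, h_r2, h_t2]; ring
    rw [this, hia']; ring
  have hv1 : v * v + sb * sb = 1 := by
    have : v * v + sb * sb = (ib * (1 + t2)) * (ib * (1 + t2)) := by
      rw [h_v, h_sb, h_sbp, h_t2]; ring
    rw [this, hib']; ring
  have hw1 : sc * sc + w * w = 1 := by
    have : sc * sc = t2 * (scp * scp) := by rw [h_sc, h_t2]; ring
    have e1 : sa * sa = t2 * (sap * sap) := by rw [h_sa, h_t2]; ring
    have e2 : sb * sb = t2 * (sbp * sbp) := by rw [h_sb, h_t2]; ring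
    rw [e1] at hu1
    rw [e2] at hv1
    rw [this, hscp2, h_w, h_p, h_q, h_sav, h_sbu]
    linear_combination (t2 * (sap * sap)) * hs2 + (u * u + t2 * (sap * sap) * (ka * ka)) * hv1 + hu1
  have ha : 0 ≤ 7 * a - 3 * (sa * sa) := by
    have := fc_side (show 0 ≤ ρ * t by positivity)
    have e : 2 * (ρ * t) * (1 + ρ * t * (ρ * t))⁻¹ = sa := by
      rw [h_sa, h_sap, h_ia, h_r2, h_t2, show ρ * t * (ρ * t) = ρ * ρ * (t * t) by ring]; ring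
    rw [e, ← h_a] at this
    exact this
  have hb : 0 ≤ 7 * b - 3 * (sb * sb) := by
    have := fc_side h3
    have e : 2 * t * (1 + t * t)⁻¹ = sb := by
      rw [h_sb, h_sbp, h_ib, h_t2]; ring
    rw [e, ← h_b] at this
    exact this
  have hc : 0 ≤ 7 * c - 3 * (sc * sc) := by
    rw [h_c]; exact fc_side2 hsc hw1
  exact fc_le a b c u v w sa sb sc X cx Y cy γ ka ha hb hc hX hY h5

end H41MK
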