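import Pool.Agent.H41.MK.Tru
import Pool.Agent.H41.FT.Kid

/-!
# MK-7: the closed forms of the slack (helper82 for helper41)
-/

namespace H41MK

open H41FT H45FT Real

variable {a b c : ℝ}

/-- the vertex term on real data -/
noncomputable def kvR (mk sg : Bool) (a b s1 s2 u1 u2 gam X : ℝ) : ℝ :=
  vtx rO mk sg a b (7 * a - 3 * (s1 * s1)) (7 * b - 3 * (s2 * s2)) (1 - 2 * (s1 * s1))
    (1 - 2 * (s2 * s2)) (10 + 3 * (s1 * s1) - 23 * a) (10 + 3 * (s2 * s2) - 23 * b)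
    (2 * (s1 * u1)) (2 * (s2 * u2)) gam X

theorem kvR_eq (mk sg : Bool) (a b s1 s2 u1 u2 gam X : ℝ) :
    kvR mk sg a b s1 s2 u1 u2 gam X =
      330 * ((7 * a - 3 * s1 ^ 2) * (7 * b - 3 * s2 ^ 2) * (1 - gam)) +
        264 * (4 * (s1 * u1 * s2 * u2) * ((1 - 2 * s1 ^ 2) * (1 - 2 * s2 ^ 2))) * (1 - X ^ 2) +
        X ^ 2 * ((bif mk then 12960 * a - 8080 else 4880 - 12960 * b) +
          800 * ((7 * a - 3 * s1 ^ 2) + (7 * b - 3 * s2 ^ 2)) -
          1680 * ((1 - 2 * s1 ^ 2) * (1 - 2 * s2 ^ 2)) -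
          32 * ((10 + 3 * s1 ^ 2 - 23 * a) * (10 + 3 * s2 ^ 2 - 23 * b)) -
          130 * ((7 * a - 3 * s1 ^ 2) * (7 * b - 3 * s2 ^ 2))) +
        (bif sg then 1 else -1) * ((810 * (bif mk then 1 - b else a) -
          105 * (4 * (s1 * u1 * s2 * u2))) * (X * (13 + 3 * X ^ 2))) := by
  unfold kvR vtx
  cases mk <;> cases sg <;> simp only [lt, rO, cond_true, cond_false] <;> push_cast <;> ring

theorem kid_csq_ang {X : ℝ} (hX : |X| ≤ 1) : csq (ang X) = X ^ 2 := by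
  unfold csq
  rw [cos_ang hX, sq_abs]

theorem sin_two_pi_mul (a : ℝ) : sin (2 * π * a) =
    4 * (sin (π / 2 * a) * cos (π / 2 * a)) * (1 - 2 * sin (π / 2 * a) ^ 2) := by
  rw [show 2 * π * a = 2 * (π * a) by ring, sin_two_mul, sin_pi_mul, cos_pi_mul, cos_sq']
  ring

theorem cos_pi_mul' (a : ℝ) : cos (π * a) = 1 - 2 * sin (π / 2 * a) ^ 2 := by
  rw [cos_pi_mul, cos_sq']
  ring

theorem e0_hi (hab : a ≤ b) (h : 1 ≤ a + b) : e0 a b = a - 1 / 2 := by
  unfold e0
  have h1 : |1 / 2 - a| ≤ |1 / 2 - b| := by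
    rw [abs_of_nonpos (by linarith : 1 / 2 - b ≤ 0)]
    exact abs_le.2 ⟨by linarith, by linarith⟩
  rw [min_eq_left h1]
  by_cases ha : a ≤ 1 / 2
  · rw [abs_of_nonneg (by linarith)]
    split_ifs with h2
    · rcases eq_or_lt_of_le ha with h3 | h3
      · linarith
      · have h4 : 0 ≤ 1 / 2 - b := by
          by_contra h5
          push Not at h5
          nlinarith
        linarith
    · ring
  · push Not at ha
    rw [abs_of_neg (by linarith), if_pos (mul_nonneg_of_nonpos_of_nonpos (by linarith)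
      (by linarith))]
    ring

theorem e0_lo (hab : a ≤ b) (h : a + b ≤ 1) : e0 a b = 1 / 2 - b := by
  unfold e0
  have h1 : |1 / 2 - b| ≤ |1 / 2 - a| := by
    rw [abs_of_nonneg (by linarith : 0 ≤ 1 / 2 - a)]
    exact abs_le.2 ⟨by linarith, by linarith⟩
  rw [min_eq_right h1]
  by_cases hb : b ≤ 1 / 2
  · rw [abs_of_nonneg (by linarith), if_pos (mul_nonneg (by linarith) (by linarith))]
  · push Not at hb
    rw [abs_of_neg (by linarith)]
    split_ifs with h2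
    · have h4 : a < 1 / 2 := by linarith
      nlinarith
    · ring

theorem Vx_comm (a b X : ℝ) : Vx a b X = Vx b a X := by
  have h1 : e0 a b = e0 b a := by
    unfold e0
    rw [mul_comm (1 / 2 - a), min_comm |1 / 2 - a|]
  unfold Vx Kz Zk Ek Ok
  rw [h1, min_comm (min a (1 - a))]
  ring

theorem mn_hi (hab : a ≤ b) (h : 1 ≤ a + b) : min (min a (1 - a)) (min b (1 - b)) = 1 - b := by
  rw [min_eq_right (by linarith : 1 - b ≤ b)]
  exact min_eq_right (le_min (by linarith) (by linarith))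

theorem mn_lo (hab : a ≤ b) (h : a + b ≤ 1) : min (min a (1 - a)) (min b (1 - b)) = a := by
  rw [min_eq_left (by linarith : a ≤ 1 - a)]
  exact min_eq_left (le_min (by linarith) (by linarith))

theorem Vx_hi {X : ℝ} (hab : a ≤ b) (h : 1 ≤ a + b) (hX : |X| ≤ 1) :
    9600 * Vx a b X = kvR true true a b (sin (π / 2 * a)) (sin (π / 2 * b)) (cos (π / 2 * a))
      (cos (π / 2 * b)) (ang X) X := by
  rw [kvR_eq]
  unfold Vx Kz Zk Ek Ok fA fB gg kk eta
  rw [kid_csq_ang hX, e0_hi hab h, mn_hi hab h, sin_two_pi_mul, sin_two_pi_mul, cos_pi_mul',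
    cos_pi_mul', sin_pi_mul, sin_pi_mul]
  unfold csq lam e1 ell c0 t1
  rw [cos_sq' (π / 2 * a), cos_sq' (π / 2 * b)]
  simp only [cond_true]
  ring

theorem Vx_lo {X : ℝ} (hab : a ≤ b) (h : a + b ≤ 1) (hX : |X| ≤ 1) :
    9600 * Vx a b X = kvR false true a b (sin (π / 2 * a)) (sin (π / 2 * b)) (cos (π / 2 * a))
      (cos (π / 2 * b)) (ang X) X := by
  rw [kvR_eq]
  unfold Vx Kz Zk Ek Ok fA fB gg kk eta
  rw [kid_csq_ang hX, e0_lo hab h, mn_lo hab h, sin_two_pi_mul, sin_two_pi_mul, cos_pi_mul',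
    cos_pi_mul', sin_pi_mul, sin_pi_mul]
  unfold csq lam e1 ell c0 t1
  rw [cos_sq' (π / 2 * a), cos_sq' (π / 2 * b)]
  simp only [cond_true, cond_false]
  ring

/-- acute vertex: both assemblies are upper bounds -/
theorem Vx_le {X : ℝ} (hab : a ≤ b) (hX0 : 0 ≤ X) (hX : |X| ≤ 1) (mk : Bool) :
    9600 * Vx a b X ≤ kvR mk true a b (sin (π / 2 * a)) (sin (π / 2 * b)) (cos (π / 2 * a))
      (cos (π / 2 * b)) (ang X) |X| := by
  rw [abs_of_nonneg hX0] at hX ⊢
  have hd : ∀ s1 s2 u1 u2 gam : ℝ, kvR true true a b s1 s2 u1 u2 gam X =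
      kvR false true a b s1 s2 u1 u2 gam X - 810 * ((a + b - 1) * (X * (1 - X) * (13 - 3 * X))) := by
    intro s1 s2 u1 u2 gam
    rw [kvR_eq, kvR_eq]
    simp only [cond_true, cond_false]
    ring
  have hpos : 0 ≤ X * (1 - X) * (13 - 3 * X) :=
    mul_nonneg (mul_nonneg hX0 (by linarith)) (by linarith)
  rcases le_total (a + b) 1 with h | h
  · rw [Vx_lo hab h (by rwa [abs_of_nonneg hX0])]
    cases mk
    · exact le_rfl
    · rw [hd]
      have : (a + b - 1) * (X * (1 - X) * (13 - 3 * X)) ≤ 0 :=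
        mul_nonpos_of_nonpos_of_nonneg (by linarith) hpos
      linarith
  · rw [Vx_hi hab h (by rwa [abs_of_nonneg hX0])]
    cases mk
    · rw [hd]
      have : 0 ≤ (a + b - 1) * (X * (1 - X) * (13 - 3 * X)) :=
        mul_nonneg (by linarith) hpos
      linarith
    · exact le_rfl

theorem kvR_neg (mk : Bool) (a b s1 s2 u1 u2 gam : ℝ) {X : ℝ} (hX : X ≤ 0) :
    kvR mk true a b s1 s2 u1 u2 gam X = kvR mk false a b s1 s2 u1 u2 gam |X| := by
  rw [abs_of_nonpos hX, kvR_eq, kvR_eq]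
  simp only [cond_true, cond_false]
  ring

theorem Vx_hi_neg {X : ℝ} (hab : a ≤ b) (h : 1 ≤ a + b) (hX0 : X ≤ 0) (hX : |X| ≤ 1) :
    9600 * Vx a b X = kvR true false a b (sin (π / 2 * a)) (sin (π / 2 * b)) (cos (π / 2 * a))
      (cos (π / 2 * b)) (ang X) |X| := by
  rw [Vx_hi hab h hX, kvR_neg _ _ _ _ _ _ _ _ hX0]

theorem Vx_lo_neg {X : ℝ} (hab : a ≤ b) (h : a + b ≤ 1) (hX0 : X ≤ 0) (hX : |X| ≤ 1) :
    9600 * Vx a b X = kvR false false a b (sin (π / 2 * a)) (sin (π / 2 * b)) (cos (π / 2 * a))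
      (cos (π / 2 * b)) (ang X) |X| := by
  rw [Vx_lo hab h hX, kvR_neg _ _ _ _ _ _ _ _ hX0]

theorem Vx_hi_pos {X : ℝ} (hab : a ≤ b) (h : 1 ≤ a + b) (hX0 : 0 ≤ X) (hX : |X| ≤ 1) :
    9600 * Vx a b X = kvR true true a b (sin (π / 2 * a)) (sin (π / 2 * b)) (cos (π / 2 * a))
      (cos (π / 2 * b)) (ang X) |X| := by
  rw [Vx_hi hab h hX, abs_of_nonneg hX0]

/-- the assembly through the vertex terms -/
theorem RG_eq (kab kbc kac sz sx : Bool) (a b c u v w sa sb sc gx cx gy cy gz cz : ℝ) :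
    RG rO kab kbc kac sz sx a b c u v w sa sb sc gx cx gy cy gz cz =
      12 * ((27 * a - 7 * (sa * sa)) * ((20 - (11 * b + 9 * (sb * sb))) +
          (20 - (11 * c + 9 * (sc * sc)))) +
        ((27 * b - 7 * (sb * sb)) * ((20 - (11 * c + 9 * (sc * sc))) +
          (20 - (11 * a + 9 * (sa * sa)))) +
        (27 * c - 7 * (sc * sc)) * ((20 - (11 * a + 9 * (sa * sa))) +
          (20 - (11 * b + 9 * (sb * sb)))))) -
      (kvR kab sz a b sa sb u v gz cz + (kvR kbc sx b c sb sc v w gx cx +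
        kvR kac sx a c sa sc u w gy cy)) := by
  unfold RG kvR
  simp only [lt, rO]
  push_cast
  rfl

/-- the slack through the vertex terms -/
theorem slk_eq (σ a b c : ℝ) : 9600 * slk σ a b c =
      12 * ((27 * a - 7 * (sin (π / 2 * a) * sin (π / 2 * a))) *
          ((20 - (11 * b + 9 * (sin (π / 2 * b) * sin (π / 2 * b)))) +
          (20 - (11 * c + 9 * (sin (π / 2 * c) * sin (π / 2 * c))))) +
        ((27 * b - 7 * (sin (π / 2 * b) * sin (π / 2 * b))) *
          ((20 - (11 * c + 9 * (sin (π / 2 * c) * sin (π / 2 * c)))) +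
          (20 - (11 * a + 9 * (sin (π / 2 * a) * sin (π / 2 * a))))) +
        (27 * c - 7 * (sin (π / 2 * c) * sin (π / 2 * c))) *
          ((20 - (11 * a + 9 * (sin (π / 2 * a) * sin (π / 2 * a)))) +
          (20 - (11 * b + 9 * (sin (π / 2 * b) * sin (π / 2 * b))))))) -
      (9600 * Vx a b (dih σ a b c) + (9600 * Vx b c (dih σ b c a) +
        9600 * Vx a c (dih σ c a b))) := by
  unfold slk
  rw [Vx_comm c a]
  unfold vv kk eta csq th lam
  rw [cos_sq' (π / 2 * a), cos_sq' (π / 2 * b), cos_sq' (π / 2 * c)]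
  ring

theorem gram3_rot (σ a b c : ℝ) : gram3 σ b c a = gram3 σ a b c := by
  unfold gram3; ring

theorem gram3_rot' (σ a b c : ℝ) : gram3 σ c a b = gram3 σ a b c := by
  unfold gram3; ring

theorem KTa {a b c : ℝ} (h0 : 0 < a) (hab : a ≤ b) (hbc : b ≤ c) (hc : c ≤ 1)
    (ht : 0 ≤ dih 1 a b c) (hg : 0 ≤ gram3 1 a b c) :
    Tt Ga0 1 a b c ≤ 9600 * slk 1 a b c ∧ Tt Ga2 1 a b c ≤ 9600 * slk 1 a b c ∧
      Tt Ga7 1 a b c ≤ 9600 * slk 1 a b c := by
  have hx := dih_x_nonneg h0 hab hbc hc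
  have hy := dih_y_nonneg h0 hab hbc hc
  have a1 : |dih 1 a b c| ≤ 1 := dih_abs_le (Or.inl rfl) h0 (by linarith) (by linarith)
    (by linarith) hg
  have a2 : |dih 1 b c a| ≤ 1 := dih_abs_le (Or.inl rfl) (by linarith) (by linarith) (by linarith)
    hc (by rw [gram3_rot]; exact hg)
  have a3 : |dih 1 c a b| ≤ 1 := dih_abs_le (Or.inl rfl) (by linarith) hc h0 (by linarith)
    (by rw [gram3_rot']; exact hg)
  have e1 := fun mk => Vx_le hab ht a1 mk
  have e2 := fun mk => Vx_le hbc hx a2 mk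
  have e3 := fun mk => Vx_le (hab.trans hbc) hy a3 mk
  rw [slk_eq]
  unfold Tt Ga0 Ga2 Ga7
  simp only [RG_eq]
  refine ⟨?_, ?_, ?_⟩
  · have := e1 false
    have := e2 false
    have := e3 false
    linarith
  · have := e1 false
    have := e2 true
    have := e3 false
    linarith
  · have := e1 true
    have := e2 true
    have := e3 true
    linarith

theorem KTo {a b c : ℝ} (h0 : 0 < a) (hab : a ≤ b) (hbc : b ≤ c) (hc : c ≤ 1)
    (ht : dih 1 a b c ≤ 0) (hg : 0 ≤ gram3 1 a b c) (hs : a + b ≤ 1) :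
    Tt Go0 1 a b c ≤ 9600 * slk 1 a b c ∧ Tt Go2 1 a b c ≤ 9600 * slk 1 a b c := by
  have hx := dih_x_nonneg h0 hab hbc hc
  have hy := dih_y_nonneg h0 hab hbc hc
  have a1 : |dih 1 a b c| ≤ 1 := dih_abs_le (Or.inl rfl) h0 (by linarith) (by linarith)
    (by linarith) hg
  have a2 : |dih 1 b c a| ≤ 1 := dih_abs_le (Or.inl rfl) (by linarith) (by linarith) (by linarith)
    hc (by rw [gram3_rot]; exact hg)
  have a3 : |dih 1 c a b| ≤ 1 := dih_abs_le (Or.inl rfl) (by linarith) hc h0 (by linarith)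
    (by rw [gram3_rot']; exact hg)
  have e1 := Vx_lo_neg hab hs ht a1
  have e2 := fun mk => Vx_le hbc hx a2 mk
  have e3 := fun mk => Vx_le (hab.trans hbc) hy a3 mk
  rw [slk_eq]
  unfold Tt Go0 Go2
  simp only [RG_eq]
  refine ⟨?_, ?_⟩
  · have := e2 false
    have := e3 false
    linarith
  · have := e2 true
    have := e3 false
    linarith

theorem gram3_neg (h0 : 0 < a) (hab : a ≤ b) (hbc : b ≤ c) (hc : c ≤ 1) (hs : 2 ≤ a + b + c) :
    0 ≤ gram3 (-1) a b c := by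
  have hpi := Real.pi_pos
  have e : gram3 (-1) a b c = (cos (π / 2 * b - π / 2 * a) + cos (π / 2 * c)) *
      (cos (π - π / 2 * c) - cos (π / 2 * a + π / 2 * b)) := by
    rw [cos_sub, cos_add, cos_pi_sub]
    have h1 : sin (π / 2 * a) ^ 2 * sin (π / 2 * b) ^ 2 =
        (1 - cos (π / 2 * a) ^ 2) * (1 - cos (π / 2 * b) ^ 2) := by
      rw [sin_sq, sin_sq]
    unfold gram3
    linear_combination (-(1 : ℝ)) * h1
  rw [e]
  apply mul_nonneg
  · have h1 := csn (by linarith : (0 : ℝ) ≤ c) hc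
    have h2 := csn (by linarith : (0 : ℝ) ≤ b - a) (by linarith)
    rw [show π / 2 * (b - a) = π / 2 * b - π / 2 * a by ring] at h2
    linarith
  · rw [sub_nonneg]
    apply cos_le_cos_of_nonneg_of_le_pi <;> nlinarith

theorem KTo7 {a b c : ℝ} (h0 : 0 < a) (hab : a ≤ b) (hbc : b ≤ c) (hc : c ≤ 1)
    (ht : dih 1 a b c ≤ 0) (hg : 0 ≤ gram3 1 a b c) (hs : 1 ≤ a + b) :
    9600 * slk 1 a b c = Tt Go7 1 a b c := by
  have hx := dih_x_nonneg h0 hab hbc hc
  have hy := dih_y_nonneg h0 hab hbc hc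
  have a1 : |dih 1 a b c| ≤ 1 := dih_abs_le (Or.inl rfl) h0 (by linarith) (by linarith)
    (by linarith) hg
  have a2 : |dih 1 b c a| ≤ 1 := dih_abs_le (Or.inl rfl) (by linarith) (by linarith) (by linarith)
    hc (by rw [gram3_rot]; exact hg)
  have a3 : |dih 1 c a b| ≤ 1 := dih_abs_le (Or.inl rfl) (by linarith) hc h0 (by linarith)
    (by rw [gram3_rot']; exact hg)
  rw [slk_eq, Vx_hi_neg hab hs ht a1, Vx_hi_pos hbc (by linarith) hx a2,
    Vx_hi_pos (hab.trans hbc) (by linarith) hy a3]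
  unfold Tt Go7
  simp only [RG_eq]

theorem KT3 {a b c : ℝ} (h0 : 0 < a) (hab : a ≤ b) (hbc : b ≤ c) (hc : c ≤ 1)
    (hs : 2 ≤ a + b + c) : 9600 * slk (-1) a b c = Tt G3 (-1) a b c := by
  have ht := dih_neg (c := c) h0 (by linarith) (by linarith : 0 < b) (by linarith) (by linarith) hc
  have hx := dih_neg (c := a) (by linarith : 0 < b) (by linarith) (by linarith : 0 < c) hc h0.le
    (by linarith)
  have hy := dih_neg (c := b) (by linarith : 0 < c) hc h0 (by linarith) (by linarith) (by linarith)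
  have hg := gram3_neg h0 hab hbc hc hs
  have a1 : |dih (-1) a b c| ≤ 1 := dih_abs_le (Or.inr rfl) h0 (by linarith) (by linarith)
    (by linarith) hg
  have a2 : |dih (-1) b c a| ≤ 1 := dih_abs_le (Or.inr rfl) (by linarith) (by linarith)
    (by linarith) hc (by rw [gram3_rot]; exact hg)
  have a3 : |dih (-1) c a b| ≤ 1 := dih_abs_le (Or.inr rfl) (by linarith) hc h0 (by linarith)
    (by rw [gram3_rot']; exact hg)
  rw [slk_eq, Vx_hi_neg hab (by linarith) ht a1, Vx_hi_neg hbc (by linarith) hx a2,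
    Vx_hi_neg (hab.trans hbc) (by linarith) hy a3]
  unfold Tt G3
  simp only [RG_eq]

end H41MK
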