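import Pool.Agent.H41.MK.R4
import Pool.Agent.H41.MK.Kid
import Pool.Agent.H41.MK.Chd
import Pool.Agent.H41.FT.Fin

/-!
# The pointwise inequality
-/

namespace H41MK

open H41FT H45FT Real

variable {a b c : ℝ}

/-! ### symmetries of the slack -/

theorem slk_rot (σ a b c : ℝ) : slk σ a b c = slk σ b c a := by
  unfold slk; ring

theorem slk_swap (σ a b c : ℝ) : slk σ a b c = slk σ b a c := by
  unfold slk
  rw [Vx_comm a b, Vx_comm b c, Vx_comm c a, dih_comm σ a b, dih_comm σ b c, dih_comm σ c a]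
  ring

theorem ang_one' : ang 1 = 0 := by unfold ang; simp

theorem ang_neg_one' : ang (-1) = 0 := by unfold ang; simp

theorem vv_zero : vv 0 = 0 := by unfold vv eta csq; simp

theorem fin_gg_zero : gg 0 = 0 := by unfold gg eta csq; simp

theorem kk_zero_ : kk 0 = 1 := by unfold kk csq; simp

theorem Vx_zero_left (b : ℝ) : Vx 0 b 0 = 0 := by
  unfold Vx Kz Zk
  rw [fin_gg_zero]
  simp

theorem slk_zero {σ : ℝ} (hb : b ∈ Set.Icc (0 : ℝ) 1) (hc : c ∈ Set.Icc (0 : ℝ) 1)
    (hσ : σ = 1 ∨ σ = -1) (hg : 0 ≤ gram3 σ 0 b c) : 0 ≤ slk σ 0 b c := by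
  have hs2 : σ * σ = 1 := by rcases hσ with rfl | rfl <;> norm_num
  have hsq : (cos (π / 2 * b) - σ * cos (π / 2 * c)) ^ 2 ≤ 0 := by
    unfold gram3 at hg
    rw [mul_zero, cos_zero] at hg
    nlinarith [hg, hs2, congrArg (· * cos (π / 2 * c) ^ 2) hs2]
  have hB : cos (π / 2 * b) = σ * cos (π / 2 * c) := by
    have : (cos (π / 2 * b) - σ * cos (π / 2 * c)) ^ 2 = 0 := le_antisymm hsq (sq_nonneg _)
    have := pow_eq_zero_iff (two_ne_zero) |>.mp this
    linarith
  have d1 : dih σ 0 b c = 0 := by unfold dih; simp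
  have d2 : dih σ c 0 b = 0 := by unfold dih; simp
  have e : slk σ 0 b c = vv b * (kk c + 1) + vv c * (1 + kk b) - Vx b c (dih σ b c 0) := by
    unfold slk
    rw [d1, d2, vv_zero, Vx_zero_left, Vx_comm c 0, Vx_zero_left, kk_zero_]
    ring
  have key : ∀ x : ℝ, x ∈ Set.Icc (0 : ℝ) 1 → Vx x x 1 ≤ vv x * (kk x + 1) + vv x * (1 + kk x) := by
    intro x hx
    have hp := sin_sq_add_cos_sq (π / 2 * x)
    have ev : vv x = (27 * x - 7 * sin (π / 2 * x) ^ 2) / 40 := by
      unfold vv eta csq th; rw [cos_sq']; ring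
    have ek : kk x = (20 - 11 * x - 9 * sin (π / 2 * x) ^ 2) / 20 := by
      unfold kk csq lam; rw [cos_sq']; ring
    have hc2 : cos (π / 2 * x) ^ 2 = 1 - sin (π / 2 * x) ^ 2 := by linarith
    rcases le_total (x + x) 1 with h | h
    · have h1 := Vx_lo (X := 1) (le_refl x) h (by norm_num)
      rw [kvR_eq, ang_one'] at h1
      simp only [cond_true, cond_false] at h1
      rw [ev, ek]
      generalize sin (π / 2 * x) = s at *
      generalize cos (π / 2 * x) = u at *
      have h2 : s * u * s * u = s ^ 2 * (1 - s ^ 2) := by rw [← hc2]; ring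
      rw [h2] at h1
      nlinarith [h1]
    · have h1 := Vx_hi (X := 1) (le_refl x) h (by norm_num)
      rw [kvR_eq, ang_one'] at h1
      simp only [cond_true] at h1
      rw [ev, ek]
      generalize sin (π / 2 * x) = s at *
      generalize cos (π / 2 * x) = u at *
      have h2 : s * u * s * u = s ^ 2 * (1 - s ^ 2) := by rw [← hc2]; ring
      rw [h2] at h1
      nlinarith [h1]
  rcases hσ with rfl | rfl
  · have hbc : b = c := cos_half_inj hb hc (by rw [hB, one_mul])
    subst hbc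
    rw [e]
    rcases hb.1.eq_or_lt with h0 | h0
    · have hd : dih 1 b b 0 = 0 := by unfold dih; rw [← h0]; simp
      rw [hd, ← h0, Vx_zero_left, vv_zero]; simp
    · have hd : dih 1 b b 0 = 1 := by
        unfold dih
        have hs := (sin_half_pos h0 hb.2).ne'
        rw [mul_zero, cos_zero, div_eq_one_iff_eq (mul_ne_zero hs hs)]
        nlinarith [sin_sq_add_cos_sq (π / 2 * b)]
      rw [hd]
      linarith [key b hb]
  · have hB0 := cos_half_nonneg hb
    have hC0 := cos_half_nonneg hc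
    have hb0 : cos (π / 2 * b) = 0 := by linarith
    have hc0 : cos (π / 2 * c) = 0 := by linarith
    have h1 : cos (π / 2 * 1) = 0 := by rw [mul_one, cos_pi_div_two]
    have hb1 : b = 1 := cos_half_inj hb (by simp) (by rw [hb0, h1])
    have hc1 : c = 1 := cos_half_inj hc (by simp) (by rw [hc0, h1])
    subst hb1
    subst hc1
    have hd : dih (-1) 1 1 0 = -1 := by unfold dih; simp
    have h2 : Vx 1 1 (-1) = Vx 1 1 1 := by
      have h3 : Ok 1 1 = 0 := by unfold Ok; simp
      unfold Vx Kz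
      rw [h3, ang_one', ang_neg_one']
      ring
    rw [e, hd, h2]
    linarith [key 1 (by simp)]

/-- reduction to sorted angles -/
theorem star_of_sorted
    (h : ∀ a b c : ℝ, 0 < a → a ≤ b → b ≤ c → c ≤ 1 → ∀ σ : ℝ, (σ = 1 ∨ σ = -1) →
      0 ≤ gram3 σ a b c → 0 ≤ slk σ a b c) : Star := by
  -- sorted, `a ≥ 0`
  have h1 : ∀ a b c : ℝ, 0 ≤ a → a ≤ b → b ≤ c → c ≤ 1 → ∀ σ : ℝ, (σ = 1 ∨ σ = -1) →
      0 ≤ gram3 σ a b c → 0 ≤ slk σ a b c := by
    intro a b c ha hab hbc hc σ hσ hg
    rcases ha.eq_or_lt with h0 | h0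
    · subst h0
      exact slk_zero ⟨hab, by linarith⟩ ⟨by linarith, hc⟩ hσ hg
    · exact h a b c h0 hab hbc hc σ hσ hg
  -- `a` the smallest
  have h2 : ∀ a b c : ℝ, 0 ≤ a → a ≤ b → a ≤ c → b ≤ 1 → c ≤ 1 → ∀ σ : ℝ, (σ = 1 ∨ σ = -1) →
      0 ≤ gram3 σ a b c → 0 ≤ slk σ a b c := by
    intro a b c ha hab hac hb hc σ hσ hg
    rcases le_total b c with hbc | hbc
    · exact h1 a b c ha hab hbc hc σ hσ hg
    · have h3 := h1 a c b ha hac hbc hb σ hσ (by
        have : gram3 σ a c b = gram3 σ a b c := by unfold gram3; ring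
        rw [this]; exact hg)
      have e : slk σ a c b = slk σ a b c := by
        rw [slk_swap σ a c b, slk_rot σ c a b]
      rwa [e] at h3
  intro a ha b hb c hc σ hσ hg
  show 0 ≤ slk σ a b c
  rcases le_total a b with hab | hab
  · rcases le_total a c with hac | hac
    · exact h2 a b c ha.1 hab hac hb.2 hc.2 σ hσ hg
    · have := h2 c a b hc.1 hac (hac.trans hab) ha.2 hb.2 σ hσ (by rw [gram3_rot']; exact hg)
      rwa [slk_rot σ c a b] at this
  · rcases le_total b c with hbc | hbc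
    · have := h2 b c a hb.1 hbc hab hc.2 ha.2 σ hσ (by rw [H41MK.gram3_rot]; exact hg)
      rwa [← slk_rot σ a b c] at this
    · have := h2 c a b hc.1 (hbc.trans hab) hbc ha.2 hb.2 σ hσ (by rw [gram3_rot']; exact hg)
      rwa [slk_rot σ c a b] at this

/-! ### `T_-` -/

theorem tm (h0 : 0 < a) (hab : a ≤ b) (hbc : b ≤ c) (hc : c ≤ 1) (hs : 2 ≤ a + b + c) :
    0 ≤ slk (-1) a b c := by
  have key : 0 ≤ Tt G3 (-1) a b c := by
    by_cases h : 1 - a ≤ 33/100
    · rw [CH_Sd3 G3 h0 hab hbc hc hs]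
      exact R_S3 (by linarith) (by linarith) (by linarith) h
    · push Not at h
      rcases (hbc.trans hc).eq_or_lt with hb | hb
      · have hc1 : c = 1 := le_antisymm hc (by linarith)
        rw [CH_Sd3 G3 h0 hab hbc hc hs, hb, hc1, sub_self]
        exact (S3_x (x := 1 - a) (by linarith) (by linarith)).ge
      · rw [CH_C3 G3 h0 hab hbc hc hb hs]
        have hgr : 0 ≤ gram3 (-1) a b c := (gram3_neg_nonneg_iff h0 hab hbc hc).2 hs
        have hcb : 0 < cos (π / 2 * b) :=
          cos_pos_of_mem_Ioo ⟨by nlinarith [Real.pi_pos], by nlinarith [Real.pi_pos]⟩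
        have hcc : 0 ≤ cos (π / 2 * c) := cs_nonneg (by linarith) hc
        refine R_M3 h0.le (by linarith) (ang_nonneg _) (ang_le_one _) (by positivity) ?_ ?_
        · rw [div_le_one hcb]; exact cs_anti (by linarith) hbc hc
        · have hd := dih_abs_le (σ := -1) (Or.inr rfl) h0 (by linarith) (by linarith : 0 < b)
            (by linarith) hgr
          rw [cos_ang hd]
          have := CH_Fc3_guard h0 hab hbc hc hb hs
          rw [← sq]
          linarith
  have e := KT3 h0 hab hbc hc hs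
  linarith

/-! ### acute -/

theorem ta (h0 : 0 < a) (hab : a ≤ b) (hbc : b ≤ c) (hc : c ≤ 1) (hs : c ≤ a + b)
    (hz : 0 ≤ dih 1 a b c) : 0 ≤ slk 1 a b c := by
  have hg : 0 ≤ gram3 1 a b c := (gram3_one_nonneg_iff h0 hab hbc hc).2 hs
  obtain ⟨q0, q2, q7⟩ := KTa h0 hab hbc hc hz hg
  by_cases h : 1 - a ≤ 12/100
  · rw [CH_Sd0 Ga7 h0 hab hbc hc hs hz] at q7
    have := R_A7 (α := 1 - a) (β := 1 - b) (δ := 1 - c) (by linarith) (by linarith) (by linarith) h
    linarith
  · push Not at h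
    obtain ⟨τ, τ0, τ1, e⟩ := CH_F0 h0 hab hbc hc hs hz
    rw [e Ga0] at q0
    rw [e Ga2] at q2
    rw [e Ga7] at q7
    have hb1 : b ≤ 1 := by linarith
    have ht := tan_q_pos (by linarith : 0 < b) hb1
    have hr := tan_q_nonneg h0.le (by linarith : a ≤ 1)
    have key := R_Z (ρ := tan (π / 4 * a) / tan (π / 4 * b)) (t := tan (π / 4 * b)) (τ := τ)
      (div_nonneg hr ht.le) (by
        rw [div_le_one ht]; exact tan_q_mono h0.le hab hb1) ht.le
      (tan_q_le_one (by linarith) hb1) τ0 τ1 (by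
        by_contra hcon
        push Not at hcon
        obtain ⟨c1, c2⟩ := hcon
        have h1 := tan_quarter (x := a) (X := 942/10000) h0.le (by linarith) (by
          have := Real.pi_gt_d4; nlinarith) (by norm_num)
        rw [lt_div_iff₀ ht] at c1
        nlinarith)
    rcases key with k | k | k
    · have k' : 0 ≤ cF0 rO Ga0 (tan (π / 4 * a) / tan (π / 4 * b)) (tan (π / 4 * b)) τ := k
      linarith
    · have k' : 0 ≤ cF0 rO Ga2 (tan (π / 4 * a) / tan (π / 4 * b)) (tan (π / 4 * b)) τ := k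
      linarith
    · have k' : 0 ≤ cF0 rO Ga7 (tan (π / 4 * a) / tan (π / 4 * b)) (tan (π / 4 * b)) τ := k
      linarith

/-! ### obtuse -/

/-- the right angle -/
theorem E1 (h0 : 0 < a) (hab : a ≤ b) (hb : b ≤ 1) (hs1 : 1 ≤ a + b) : 0 ≤ cFs rO Go7 a b 1 := by
  have hp := Real.pi_pos
  have hA := cs_nonneg h0.le (hab.trans hb)
  have hB := cs_nonneg (h0.le.trans hab) hb
  have hA1 := cos_le_one (π / 2 * a)
  have hm0 : 0 ≤ cos (π / 2 * a) * cos (π / 2 * b) := mul_nonneg hA hB
  have hm1 : cos (π / 2 * a) * cos (π / 2 * b) ≤ cos (π / 2 * b) := by nlinarith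
  obtain ⟨c, hc⟩ : ∃ c, c = 2 / π * arccos (cos (π / 2 * a) * cos (π / 2 * b)) := ⟨_, rfl⟩
  have hc' : π / 2 * c = arccos (cos (π / 2 * a) * cos (π / 2 * b)) := by
    rw [hc]; field_simp
  have hcc : cos (π / 2 * c) = cos (π / 2 * a) * cos (π / 2 * b) := by
    rw [hc', cos_arccos (by linarith) (by linarith [cos_le_one (π / 2 * b)])]
  have hbc : b ≤ c := by
    have h1 := arccos_le_arccos hm1
    rw [arccos_cos (mul_nonneg (by positivity) (h0.le.trans hab)) (by nlinarith), ← hc'] at h1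
    nlinarith
  have hc1 : c ≤ 1 := by
    have h1 := arccos_le_arccos hm0
    rw [arccos_zero, ← hc'] at h1
    nlinarith
  have hcab : c ≤ a + b := by linarith
  have hd : dih 1 a b c = 0 := by
    unfold dih; rw [hcc]; simp
  have hg : 0 ≤ gram3 1 a b c := (gram3_one_nonneg_iff h0 hab hbc hc1).2 hcab
  have hF := ta h0 hab hbc hc1 hcab hd.ge
  have e := KTo7 h0 hab hbc hc1 hd.le hg hs1
  rw [CH_Fs Go7 h0 hab hbc hc1 hcab hd.le, hd, ang_zero'] at e
  linarith

theorem Ok_one (hb0 : 0 ≤ b) (hb1 : b ≤ 1) : Ok b 1 = 0 := by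
  unfold Ok
  rw [sub_self, min_eq_right (by norm_num : (0 : ℝ) ≤ 1),
    min_eq_right (le_min hb0 (by linarith)), mul_one π, sin_pi]
  ring

theorem Vx_one_neg (hb0 : 0 ≤ b) (hb1 : b ≤ 1) (X : ℝ) : Vx b 1 (-X) = Vx b 1 X := by
  have h1 : ang (-X) = ang X := by unfold ang; rw [abs_neg]
  unfold Vx Kz
  rw [h1, Ok_one hb0 hb1]
  ring

theorem slk_one (ha0 : 0 ≤ a) (ha1 : a ≤ 1) (hb0 : 0 ≤ b) (hb1 : b ≤ 1) :
    slk 1 a b 1 = slk (-1) a b 1 := by
  unfold slk
  have hc : cos (π / 2 * 1) = 0 := by rw [mul_one, cos_pi_div_two]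
  have e1 : dih (-1) a b 1 = dih 1 a b 1 := by unfold dih; rw [hc]; simp
  have e2 : dih (-1) b 1 a = - dih 1 b 1 a := by
    unfold dih; rw [hc]; ring
  have e3 : dih (-1) 1 a b = - dih 1 1 a b := by
    unfold dih; rw [hc]; ring
  rw [e1, e2, e3, Vx_one_neg hb0 hb1, Vx_comm 1 a, Vx_comm 1 a, Vx_one_neg ha0 ha1]

/-- the limit `c = 1` -/
theorem E0' (h0 : 0 < a) (hab : a ≤ b) (hb : b ≤ 1) (hs : 1 ≤ a + b) :
    0 ≤ cFs rO Go7 a b (ang (dih 1 a b 1)) := by
  have hd := dih_one_nonpos h0 (hab.trans hb) (by linarith) hb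
  have h1 := tm h0 hab hb le_rfl (by linarith)
  rw [← slk_one h0.le (hab.trans hb) (by linarith) hb] at h1
  have hg : 0 ≤ gram3 1 a b 1 := (gram3_one_nonneg_iff h0 hab hb le_rfl).2 (by linarith)
  have e := KTo7 h0 hab hb le_rfl hd hg hs
  rw [CH_Fs Go7 h0 hab hb le_rfl (by linarith) hd] at e
  linarith

/-- `cos A sin(yA) ≤ y sin A cos(yA)` -/
theorem tan_cvx {A y : ℝ} (hA0 : 0 ≤ A) (hA1 : A ≤ π / 2) (y0 : 0 ≤ y) (y1 : y ≤ 1) :
    cos A * sin (A * y) ≤ y * (sin A * cos (A * y)) := by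
  have hp := Real.pi_pos
  have h1 : (1 - y) * sin A ≤ sin (A - A * y) := by
    have h := strictConcaveOn_sin_Icc.concaveOn.2
      (show (0 : ℝ) ∈ Set.Icc 0 π from ⟨le_rfl, hp.le⟩)
      (show A ∈ Set.Icc 0 π from ⟨hA0, by linarith⟩) y0 (by linarith : 0 ≤ 1 - y) (by ring)
    simp only [smul_eq_mul, mul_zero, sin_zero, zero_add] at h
    rwa [show (1 - y) * A = A - A * y by ring] at h
  rw [sin_sub] at h1
  have h2 : 0 ≤ sin A := sin_nonneg_of_nonneg_of_le_pi hA0 (by linarith)
  have h3 := cos_le_one (A * y)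
  have h4 : (1 - y) * sin A * cos (A * y) ≤ (1 - y) * sin A := by
    have : 0 ≤ (1 - y) * sin A := mul_nonneg (by linarith) h2
    nlinarith
  nlinarith

theorem Y7_eq (a y g : ℝ) : Y7 rO a y g = cFs rO Go7 a (1 - a * y) g := by
  unfold Y7 cFY
  rw [lt_app]
  simp only [rO, Nat.cast_one]

theorem tob (h0 : 0 < a) (hab : a ≤ b) (hbc : b ≤ c) (hc : c ≤ 1) (hs : c ≤ a + b)
    (hz : dih 1 a b c ≤ 0) : 0 ≤ slk 1 a b c := by
  have hb : b ≤ 1 := hbc.trans hc
  have ha : a ≤ 1 := hab.trans hb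
  have hb0 : 0 < b := by linarith
  have hp := Real.pi_pos
  have hg : 0 ≤ gram3 1 a b c := (gram3_one_nonneg_iff h0 hab hbc hc).2 hs
  rcases le_total (a + b) 1 with h | h
  · obtain ⟨q0, q2⟩ := KTo h0 hab hbc hc hz hg h
    rw [CH_F1 Go0 h0 hab hbc hc hs hz] at q0
    rw [CH_F1 Go2 h0 hab hbc hc hs hz] at q2
    have htp := tan_q_pos hb0 hb
    have hr := tan_q_nonneg h0.le ha
    have ht1 : tan (π / 4 * b) < 1 := by
      rw [← tan_pi_div_four]
      exact tan_lt_tan_of_lt_of_lt_pi_div_two (by nlinarith) (by linarith) (by nlinarith)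
    have key := R_P (ρ := tan (π / 4 * a) / tan (π / 4 * b)) (t := tan (π / 4 * b))
      (γ := ang (dih 1 a b c)) (div_nonneg hr htp.le) (by
        rw [div_le_one htp]; exact tan_q_mono h0.le hab hb) htp.le ht1 (ang_nonneg _)
      (ang_le_one _) (by
        rw [div_mul_cancel₀ _ htp.ne']
        -- `tan(πa/4) (1 + t) ≤ 1 - t`
        have h1 : tan (π / 4 * a) ≤ tan (π / 4 * (1 - b)) := tan_q_mono h0.le (by linarith) (by linarith)
        have hc1 : 0 < cos (π / 4 * b) := cos_pos_of_mem_Ioo ⟨by nlinarith, by nlinarith⟩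
        have hs1 : 0 ≤ sin (π / 4 * b) := sin_nonneg_of_nonneg_of_le_pi (by positivity) (by nlinarith)
        have e : tan (π / 4 * (1 - b)) * (1 + tan (π / 4 * b)) = 1 - tan (π / 4 * b) := by
          have e1 : sin (π / 4 * (1 - b)) = √2 / 2 * (cos (π / 4 * b) - sin (π / 4 * b)) := by
            rw [mul_sub, mul_one, sin_sub, sin_pi_div_four, cos_pi_div_four]; ring
          have e2 : cos (π / 4 * (1 - b)) = √2 / 2 * (cos (π / 4 * b) + sin (π / 4 * b)) := by
            rw [mul_sub, mul_one, cos_sub, sin_pi_div_four, cos_pi_div_four]; ring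
          have h2 : (0 : ℝ) < √2 := by positivity
          have h3 : 0 < cos (π / 4 * b) + sin (π / 4 * b) := by linarith
          rw [tan_eq_sin_div_cos, tan_eq_sin_div_cos (π / 4 * b), e1, e2]
          generalize cos (π / 4 * b) = C at *
          generalize sin (π / 4 * b) = S at *
          field_simp
        have h2 := mul_le_mul_of_nonneg_right h1 (show 0 ≤ 1 + tan (π / 4 * b) by linarith)
        rw [e] at h2
        linarith)
    rcases key with k | k
    · have k' : 0 ≤ cF1 rO Go0 (tan (π / 4 * a) / tan (π / 4 * b)) (tan (π / 4 * b))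
        (ang (dih 1 a b c)) := k
      linarith
    · have k' : 0 ≤ cF1 rO Go2 (tan (π / 4 * a) / tan (π / 4 * b)) (tan (π / 4 * b))
        (ang (dih 1 a b c)) := k
      linarith
  · rcases hb.eq_or_lt with hb1 | hb1
    · -- `b = c = 1`
      have hc1 : c = 1 := le_antisymm hc (by linarith)
      have hd : dih 1 a b c = 0 := by
        unfold dih; rw [hb1, hc1, mul_one, cos_pi_div_two]; simp
      exact ta h0 hab hbc hc hs hd.ge
    have e := KTo7 h0 hab hbc hc hz hg h
    have hd := dih_one_nonpos h0 ha hb0 hb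
    have hg0 : ang (dih 1 a b 1) ≤ ang (dih 1 a b c) := by
      apply ang_anti
      rw [abs_of_nonpos hz, abs_of_nonpos hd]
      have hc' : cos (π / 2 * 1) = 0 := by rw [mul_one, cos_pi_div_two]
      have h3 := sn_pos h0 ha
      have h4 := sn_pos hb0 hb
      have h5 := cs_nonneg (by linarith : 0 ≤ c) hc
      unfold dih
      rw [hc', neg_le_neg_iff]
      gcongr
    have f0 := E0' h0 hab hb h
    have f1 := E1 h0 hab hb h
    have hd1 := dih_abs_le (σ := 1) (Or.inl rfl) h0 ha hb0 hb hg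
    have hv : 0 < cos (π / 2 * b) := cos_pos_of_mem_Ioo ⟨by nlinarith, by nlinarith⟩
    have hsa := sn_pos h0 ha
    have hsb := sn_pos hb0 hb
    have hw := cs_nonneg (by linarith : 0 ≤ c) hc
    have m := dih_mul (c := c) 1 h0 ha hb0 hb
    rw [one_mul] at m
    -- `κ s_a s_b ≤ u v`
    have hks : |dih 1 a b c| * (sin (π / 2 * a) * sin (π / 2 * b)) ≤
        cos (π / 2 * a) * cos (π / 2 * b) := by
      rw [abs_of_nonpos hz, neg_mul, m]; linarith
    have hwuv : cos (π / 2 * c) ≤ cos (π / 2 * a) * cos (π / 2 * b) := by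
      have : dih 1 a b c * (sin (π / 2 * a) * sin (π / 2 * b)) ≤ 0 :=
        mul_nonpos_of_nonpos_of_nonneg hz (mul_pos hsa hsb).le
      rw [m] at this; linarith
    rcases le_total a (3/5) with ha5 | ha5
    · obtain ⟨y, hy⟩ : ∃ y, y = (1 - b) / a := ⟨_, rfl⟩
      have hay : a * y = 1 - b := by rw [hy]; field_simp
      have y0 : 0 ≤ y := by rw [hy]; exact div_nonneg (by linarith) h0.le
      have y1 : y ≤ 1 := by rw [hy, div_le_one h0]; linarith
      have eY : ∀ g, Y7 rO a y g = cFs rO Go7 a b g := by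
        intro g
        rw [Y7_eq, hay, sub_sub_cancel]
      have ev : sin (π / 2 * (a * y)) = cos (π / 2 * b) := by rw [hay]; exact sin_comp b
      have es : cos (π / 2 * (a * y)) = sin (π / 2 * b) := by rw [hay]; exact cos_comp b
      rw [CH_Fs Go7 h0 hab hbc hc hs hz, ← eY] at e
      rw [← eY] at f0 f1
      by_cases hyy : 1/4 ≤ y ∨ a ≤ 1/10
      · have key := R_Y (a := a) (y := y) (g := ang (dih 1 a b c)) (g0 := ang (dih 1 a b 1))
          h0.le ha5 y0 y1 (ang_nonneg _) hg0 (ang_le_one _) (by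
            rw [cos_ang hd1]
            have h1 := tan_cvx (A := π / 2 * a) (y := y) (by positivity) (by nlinarith) y0 y1
            rw [mul_assoc (π / 2) a y, ev, es] at h1
            have h2 : |dih 1 a b c| * (sin (π / 2 * a) * sin (π / 2 * b)) ≤
              y * (sin (π / 2 * a) * sin (π / 2 * b)) := hks.trans h1
            linarith [le_of_mul_le_mul_right h2 (mul_pos hsa hsb)])
          (by
            rw [cos_ang hd1, ev, es]
            linarith) (by rw [hay]; linarith) f0 f1 hyy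
        linarith
      · push Not at hyy
        obtain ⟨hy4, ha1⟩ := hyy
        have e' := KTo7 h0 hab hbc hc hz hg h
        rw [CH_FD Go7 h0 hab hbc hc hb1 hs hz] at e'
        have hbeta : 1 - b ≤ 3/20 := by rw [← hay]; nlinarith
        have key := R_D (a := a) (β := 1 - b) (n := cos (π / 2 * c) / cos (π / 2 * b)) ha1.le ha5
          (by linarith) hbeta (by
            rcases le_total (1/5) a with h5 | h5
            · exact Or.inr h5
            · left; rw [← hay]; nlinarith) (by positivity)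
          (by rw [div_le_one hv]; exact cs_anti (by linarith) hbc hc)
          (by
            have : cos (π / 2 * c) / cos (π / 2 * b) ≤ cos (π / 2 * a) := by
              rw [div_le_iff₀ hv]; exact hwuv
            linarith)
        have k' : 0 ≤ cFD rO Go7 a (1 - b) (cos (π / 2 * c) / cos (π / 2 * b)) := key
        linarith
    · rw [CH_Fs Go7 h0 hab hbc hc hs hz] at e
      have key : 0 ≤ cFs rO Go7 a b (ang (dih 1 a b c)) :=
        R_Q ha5 hab hb (ang_nonneg _) hg0 (ang_le_one _) (hw_eq h0 hab hb h) f0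
      linarith

/-- **The pointwise inequality.** -/
theorem star : Star := by
  refine star_of_sorted fun a b c h0 hab hbc hc σ hσ hg => ?_
  rcases hσ with rfl | rfl
  · have hs : c ≤ a + b := (gram3_one_nonneg_iff h0 hab hbc hc).1 hg
    rcases le_total 0 (dih 1 a b c) with h | h
    · exact ta h0 hab hbc hc hs h
    · exact tob h0 hab hbc hc hs h
  · exact tm h0 hab hbc hc ((gram3_neg_nonneg_iff h0 hab hbc hc).1 hg)

end H41MK
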