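import Pool.Agent.H41.MK.Fun

/-!
# Instances of the charts
-/

namespace H41MK

open H41FT

section

variable {T : Type} (o : Ops T) (a b c u v w sa sb sc gx cx gy cy gz cz x y z : T)

/-- `T_-` -/
def G3 : T := RG o true true true false false a b c u v w sa sb sc gx cx gy cy gz cz
/-- obtuse, `M = a, b, a` -/
def Go0 : T := RG o false false false false true a b c u v w sa sb sc gx cx gy cy gz cz
/-- obtuse, `M = a, 1-c, a` -/
def Go2 : T := RG o false true false false true a b c u v w sa sb sc gx cx gy cy gz cz
/-- obtuse, `M = 1-b, 1-c, 1-c` -/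
def Go7 : T := RG o true true true false true a b c u v w sa sb sc gx cx gy cy gz cz
/-- acute -/
def Ga0 : T := RG o false false false true true a b c u v w sa sb sc gx cx gy cy gz cz
def Ga2 : T := RG o false true false true true a b c u v w sa sb sc gx cx gy cy gz cz
def Ga7 : T := RG o true true true true true a b c u v w sa sb sc gx cx gy cy gz cz

def E0 : T := cE1 o Go0 x y z
def M3 : T := cC3 o G3 x y z
def S3 : T := cSd o G3 true x y z
def P0 : T := cF1 o Go0 x y z
def P2 : T := cF1 o Go2 x y z
def Z0 : T := cF0 o Ga0 x y z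
def Z2 : T := cF0 o Ga2 x y z
def Z7 : T := cF0 o Ga7 x y z
def O7 : T := cOn o Ga7 x y z
def Y7 : T := cFY o Go7 x y z
def D7 : T := cFD o Go7 x y z
def Q7 : T := cFs o Go7 x y z

end

end H41MK
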