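import Pool.Agent.H41.FT.Cl

/-!
# The functions of the mixed kernel certificate, for arbitrary operations

`G`-valued charts: the final assembly is a polymorphic function of the fifteen quantities
`a b c u v w sa sb sc gx cx gy cy gz cz` (sides, cosines, sines, and angles with cosines at the
vertices opposite to `a`, `b`, `c`).
-/

namespace H41MK

open H41FT

/-- the final assembly -/
abbrev GF := {T : Type} → Ops T → T → T → T → T → T → T → T → T → T → T → T → T → T → T → T → T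

section

variable {T : Type} (o : Ops T)

/-- `9600` times the vertex term -/
def vtx (mk sg : Bool) (a1 a2 g1 g2 C1 C2 P1 P2 S1 S2 gam X : T) : T :=
  lt (o.mul X X) fun X2 =>
  lt (o.mul C1 C2) fun CC =>
  lt (o.mul S1 S2) fun SQ =>
  lt (o.mul g1 g2) fun GG =>
  lt (o.smul 264 (o.mul SQ CC)) fun Z =>
  lt (bif mk then o.sub (o.smul 12960 a1) (o.nat 8080) else o.sub (o.nat 4880) (o.smul 12960 a2))
    fun e12 =>
  lt (bif mk then o.sub (o.nat 1) a2 else a1) fun M =>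
  lt (o.mul (o.sub (o.smul 810 M) (o.smul 105 SQ)) (o.mul X (o.add (o.nat 13) (o.smul 3 X2)))) fun Oo =>
  lt (o.sub (o.add e12 (o.smul 800 (o.add g1 g2)))
    (o.add (o.add (o.smul 1680 CC) (o.smul 32 (o.mul P1 P2))) (o.add (o.smul 130 GG) Z))) fun E =>
  lt (o.add (o.add (o.smul 330 (o.mul GG (o.sub (o.nat 1) gam))) Z) (o.mul X2 E)) fun r =>
  bif sg then o.add r Oo else o.sub r Oo

/-- `9600` times the slack; `kab, kbc, kac`: whether `M = 1 - (larger side)`; `sz, sx`: whether the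
cosine at `z`, resp. at `x` and `y`, is positive. -/
def RG (kab kbc kac sz sx : Bool) (a b c u v w sa sb sc gx cx gy cy gz cz : T) : T :=
  lt (o.mul sa sa) fun a2 => lt (o.mul sb sb) fun b2 => lt (o.mul sc sc) fun c2 =>
  lt (o.sub (o.smul 7 a) (o.smul 3 a2)) fun ga => lt (o.sub (o.smul 7 b) (o.smul 3 b2)) fun gb =>
  lt (o.sub (o.smul 7 c) (o.smul 3 c2)) fun gc =>
  lt (o.sub (o.nat 1) (o.smul 2 a2)) fun Ca => lt (o.sub (o.nat 1) (o.smul 2 b2)) fun Cb =>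
  lt (o.sub (o.nat 1) (o.smul 2 c2)) fun Cc =>
  lt (o.sub (o.add (o.nat 10) (o.smul 3 a2)) (o.smul 23 a)) fun Pa =>
  lt (o.sub (o.add (o.nat 10) (o.smul 3 b2)) (o.smul 23 b)) fun Pb =>
  lt (o.sub (o.add (o.nat 10) (o.smul 3 c2)) (o.smul 23 c)) fun Pc =>
  lt (o.smul 2 (o.mul sa u)) fun Sa => lt (o.smul 2 (o.mul sb v)) fun Sb =>
  lt (o.smul 2 (o.mul sc w)) fun Sc =>
  lt (o.sub (o.nat 20) (o.add (o.smul 11 a) (o.smul 9 a2))) fun ka =>
  lt (o.sub (o.nat 20) (o.add (o.smul 11 b) (o.smul 9 b2))) fun kb =>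
  lt (o.sub (o.nat 20) (o.add (o.smul 11 c) (o.smul 9 c2))) fun kc =>
  lt (o.add (o.mul (o.sub (o.smul 27 a) (o.smul 7 a2)) (o.add kb kc))
    (o.add (o.mul (o.sub (o.smul 27 b) (o.smul 7 b2)) (o.add kc ka))
      (o.mul (o.sub (o.smul 27 c) (o.smul 7 c2)) (o.add ka kb)))) fun N =>
  o.sub (o.smul 12 N)
    (o.add (vtx o kab sz a b ga gb Ca Cb Pa Pb Sa Sb gz cz)
      (o.add (vtx o kbc sx b c gb gc Cb Cc Pb Pc Sb Sc gx cx)
        (vtx o kac sx a c ga gc Ca Cc Pa Pc Sa Sc gy cy)))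

/-- the chart `(a, b, γ)`: two sides and the (acute version of the) angle between them, obtuse -/
def cFs (G : GF) (a b g : T) : T :=
  lt (o.cs a) fun u => lt (o.sn a) fun sa => lt (o.cs b) fun v => lt (o.sn b) fun sb =>
  lt (o.cs g) fun ka => lt (o.sn g) fun si =>
  lt (o.mul sa v) fun sav => lt (o.mul sb u) fun sbu =>
  lt (o.sub (o.mul u v) (o.mul (o.mul sa sb) ka)) fun w =>
  lt (o.mul sa si) fun p => lt (o.add sbu (o.mul sav ka)) fun q =>
  lt (o.mul sb si) fun p2 => lt (o.add sav (o.mul sbu ka)) fun q2 =>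
  lt (o.sqrt (o.add (o.mul p p) (o.mul q q))) fun sc =>
  lt (o.inv sc) fun isc =>
  lt (o.smul 2 (o.at_ (o.mul p (o.inv (o.add sc q))))) fun X =>
  lt (o.smul 2 (o.at_ (o.mul p2 (o.inv (o.add sc q2))))) fun Y =>
  lt (o.smul 2 (o.at_ (o.mul sc (o.inv (o.add (o.nat 1) w))))) fun c =>
  lt (o.mul q isc) fun cx => lt (o.mul q2 isc) fun cy =>
  G o a b c u v w sa sb sc X cx Y cy g ka

/-- the chart `(a, y, γ)`, `b = 1 - a y` -/
def cFY (G : GF) (a y g : T) : T := lt (o.sub (o.nat 1) (o.mul a y)) fun b => cFs o G a b g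

/-- the scaled chart core: `s_a = t sap` etc.; `cz = ± ka` -/
def cCo (G : GF) (neg : Bool) (rho t ka si g : T) : T :=
  lt (o.mul t t) fun t2 => lt (o.mul (o.mul rho rho) t2) fun r2 =>
  lt (o.inv (o.add (o.nat 1) r2)) fun ia => lt (o.inv (o.add (o.nat 1) t2)) fun ib =>
  lt (o.mul (o.sub (o.nat 1) r2) ia) fun u => lt (o.mul (o.sub (o.nat 1) t2) ib) fun v =>
  lt (o.smul 2 (o.mul rho ia)) fun sap => lt (o.smul 2 ib) fun sbp =>
  lt (o.mul sap v) fun sav => lt (o.mul sbp u) fun sbu =>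
  lt (o.mul sap si) fun p => lt (o.add sbu (o.mul sav ka)) fun q =>
  lt (o.mul sbp si) fun p2 => lt (o.add sav (o.mul sbu ka)) fun q2 =>
  lt (o.sqrt (o.add (o.mul p p) (o.mul q q))) fun scp =>
  lt (o.inv scp) fun isc =>
  lt (o.smul 2 (o.at_ (o.mul p (o.inv (o.add scp q))))) fun X =>
  lt (o.smul 2 (o.at_ (o.mul p2 (o.inv (o.add scp q2))))) fun Y =>
  lt (o.sub (o.mul u v) (o.mul t2 (o.mul (o.mul sap sbp) ka))) fun w =>
  lt (o.mul t scp) fun sc =>
  lt (o.smul 2 (o.at_ (o.mul sc (o.inv (o.add (o.nat 1) w))))) fun c =>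
  lt (o.mul t sap) fun sa => lt (o.mul t sbp) fun sb =>
  lt (bif neg then o.sub (o.nat 0) ka else ka) fun cz =>
  lt (o.smul 2 (o.at_ (o.mul rho t))) fun a => lt (o.smul 2 (o.at_ t)) fun b =>
  lt (o.mul q isc) fun cx => lt (o.mul q2 isc) fun cy =>
  G o a b c u v w sa sb sc X cx Y cy g cz

/-- chart `(ρ, t, γ)`, obtuse `Γ` -/
def cF1 (G : GF) (rho t g : T) : T :=
  lt (o.cs g) fun ka => lt (o.sn g) fun si => cCo o G false rho t ka si g

/-- chart `(ρ, t, τ)`, acute `Γ` -/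
def cF0 (G : GF) (rho t tau : T) : T :=
  lt (o.mul (o.mul tau rho) (o.sub (o.nat 1) (o.mul t t))) fun kz2 =>
  lt (o.sqrt (o.sub (o.nat 4) (o.mul kz2 kz2))) fun sz2 =>
  lt (o.sub (o.nat 1) (o.smul 2 (o.at_ (o.mul kz2 (o.inv (o.add (o.nat 2) sz2)))))) fun Z =>
  lt (o.inv (o.nat 2)) fun hf =>
  lt (o.sub (o.nat 0) (o.mul hf kz2)) fun ka => lt (o.mul hf sz2) fun si =>
  cCo o G true rho t ka si Z

/-- chart `(a, γ, n)` for `T_-`: `w = n v`, `tan β = κ s_a / (u + n)` -/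
def cC3 (G : GF) (a g n : T) : T :=
  lt (o.cs a) fun u => lt (o.sn a) fun sa => lt (o.cs g) fun ka => lt (o.sn g) fun si =>
  lt (o.mul ka sa) fun y => lt (o.add u n) fun un =>
  lt (o.sqrt (o.add (o.mul un un) (o.mul y y))) fun R => lt (o.inv R) fun iR =>
  lt (o.mul y iR) fun v => lt (o.mul un iR) fun sb =>
  lt (o.sub (o.nat 1) (o.smul 2 (o.at_ (o.mul y (o.inv (o.add un R)))))) fun b =>
  lt (o.mul n v) fun w =>
  lt (o.mul sa si) fun p => lt (o.add (o.mul u sb) (o.mul y v)) fun q =>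
  lt (o.mul sb si) fun p2 => lt (o.add (o.mul v sa) (o.mul (o.mul u sb) ka)) fun q2 =>
  lt (o.sqrt (o.sub (o.nat 1) (o.mul w w))) fun sc => lt (o.inv sc) fun isc =>
  lt (o.smul 2 (o.at_ (o.mul p (o.inv (o.add sc q))))) fun X =>
  lt (o.smul 2 (o.at_ (o.mul p2 (o.inv (o.add sc q2))))) fun Y =>
  lt (o.sub (o.nat 1) (o.smul 2 (o.at_ (o.mul w (o.inv (o.add (o.nat 1) sc)))))) fun c =>
  lt (o.mul q isc) fun cx => lt (o.mul q2 isc) fun cy =>
  G o a b c u v w sa sb sc X cx Y cy g ka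

/-- the chart of the complementary sides `(α, β, δ)`; `neg`: `T_-`, otherwise acute `T_+`. -/
def cSd (G : GF) (neg : Bool) (al be de : T) : T :=
  lt (o.sn al) fun u => lt (o.sn be) fun v => lt (o.sn de) fun w =>
  lt (o.cs al) fun sa => lt (o.cs be) fun sb => lt (o.cs de) fun sc =>
  lt (o.mul u v) fun uv => lt (o.mul v w) fun vw => lt (o.mul w u) fun wu =>
  lt (o.sub (o.sub (o.sub (o.nat 1) (o.mul u u)) (o.mul v v)) (o.mul w w)) fun G0 =>
  lt (o.smul 2 (o.mul uv w)) fun e =>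
  lt (bif neg then o.sub G0 e else o.add G0 e) fun D2 =>
  lt (o.sqrt D2) fun Dr =>
  lt (bif neg then o.add u vw else o.sub u vw) fun nx =>
  lt (bif neg then o.add v wu else o.sub v wu) fun ny =>
  lt (bif neg then o.add w uv else o.sub w uv) fun nz =>
  lt (o.mul sa sb) fun ab => lt (o.mul sb sc) fun bc => lt (o.mul sc sa) fun ca =>
  lt (o.sub (o.nat 1) al) fun a => lt (o.sub (o.nat 1) be) fun b => lt (o.sub (o.nat 1) de) fun c =>
  lt (o.smul 2 (o.at_ (o.mul Dr (o.inv (o.add bc nx))))) fun X => lt (o.mul nx (o.inv bc)) fun cx =>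
  lt (o.smul 2 (o.at_ (o.mul Dr (o.inv (o.add ca ny))))) fun Y => lt (o.mul ny (o.inv ca)) fun cy =>
  lt (o.smul 2 (o.at_ (o.mul Dr (o.inv (o.add ab nz))))) fun Z => lt (o.mul nz (o.inv ab)) fun cz =>
  G o a b c u v w sa sb sc X cx Y cy Z cz

/-- ONB chart for `T_+`: `α = x + β`, `δ = β θ` -/
def cOn (G : GF) (x be th : T) : T :=
  lt (o.add x be) fun al => lt (o.mul be th) fun de => cSd o G false al be de

/-- chart `(a, β, n)`, obtuse `T_+` near `b = 1`: `b = 1 - β`, `w = n v` -/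
def cFD (G : GF) (a be n : T) : T :=
  lt (o.cs a) fun u => lt (o.sn a) fun sa => lt (o.sn be) fun v => lt (o.cs be) fun sb =>
  lt (o.mul n v) fun w =>
  lt (o.sqrt (o.sub (o.nat 1) (o.mul w w))) fun sc =>
  lt (o.sub (o.nat 1) (o.smul 2 (o.at_ (o.mul w (o.inv (o.add (o.nat 1) sc)))))) fun c =>
  lt (o.inv sa) fun isa => lt (o.inv sb) fun isb => lt (o.inv sc) fun isc =>
  lt (o.mul v isa) fun m => lt (o.mul (o.mul m (o.sub u n)) isb) fun ka =>
  lt (o.sqrt (o.sub (o.nat 1) (o.mul ka ka))) fun si =>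
  lt (o.sub (o.nat 1) (o.smul 2 (o.at_ (o.mul ka (o.inv (o.add (o.nat 1) si)))))) fun g =>
  lt (o.mul sa si) fun p => lt (o.add (o.mul u sb) (o.mul (o.mul v sa) ka)) fun q =>
  lt (o.mul sb si) fun p2 => lt (o.mul m (o.sub (o.nat 1) (o.mul u n))) fun q2 =>
  lt (o.smul 2 (o.at_ (o.mul p (o.inv (o.add sc q))))) fun X =>
  lt (o.smul 2 (o.at_ (o.mul p2 (o.inv (o.add sc q2))))) fun Y =>
  lt (o.sub (o.nat 1) be) fun b =>
  lt (o.mul q isc) fun cx => lt (o.mul q2 isc) fun cy =>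
  G o a b c u v w sa sb sc X cx Y cy g ka

/-- even part in the scaled chart `(ρ, t, z)`, `κ = 1 - z` (no angles at the vertices) -/
def cE1 (G : GF) (rho t z : T) : T :=
  lt (o.nat 0) fun n0 => lt (o.sub (o.nat 1) z) fun ka => lt (o.mul z (o.sub (o.nat 2) z)) fun s2 =>
  lt (o.mul t t) fun t2 => lt (o.mul (o.mul rho rho) t2) fun r2 =>
  lt (o.inv (o.add (o.nat 1) r2)) fun ia => lt (o.inv (o.add (o.nat 1) t2)) fun ib =>
  lt (o.mul (o.sub (o.nat 1) r2) ia) fun u => lt (o.mul (o.sub (o.nat 1) t2) ib) fun v =>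
  lt (o.smul 2 (o.mul rho ia)) fun sap => lt (o.smul 2 ib) fun sbp =>
  lt (o.mul sap v) fun sav => lt (o.mul sbp u) fun sbu =>
  lt (o.add sbu (o.mul sav ka)) fun q => lt (o.add sav (o.mul sbu ka)) fun q2 =>
  lt (o.sqrt (o.add (o.mul (o.mul sap sap) s2) (o.mul q q))) fun scp =>
  lt (o.inv scp) fun isc =>
  lt (o.sub (o.mul u v) (o.mul t2 (o.mul (o.mul sap sbp) ka))) fun w =>
  lt (o.mul t scp) fun sc =>
  lt (o.smul 2 (o.at_ (o.mul sc (o.inv (o.add (o.nat 1) w))))) fun c =>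
  lt (o.mul t sap) fun sa => lt (o.mul t sbp) fun sb =>
  lt (o.smul 2 (o.at_ (o.mul rho t))) fun a => lt (o.smul 2 (o.at_ t)) fun b =>
  lt (o.mul q isc) fun cx => lt (o.mul q2 isc) fun cy =>
  G o a b c u v w sa sb sc n0 cx n0 cy n0 ka

end

end H41MK
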