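import Pool.Agent.H41.MK.Defs

/-!
# The mixed kernel: minimisers and induction on the dimension

The certificate (`Star`) and the positivity of the three-point kernel (`KPSD`) give the bound `1/n`
for the mixed kernel in every dimension `n`: at a minimising weight the first order conditions turn
the sum of `Star` over triples into an inequality between averages.
-/

namespace H41MK

open Finset H45FT

/-! ### First order conditions -/

section kkt
variable {κ : Type} [Fintype κ]

/-- quadratic form of a kernel -/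
noncomputable def QF (k : κ → κ → ℝ) (m : κ → ℝ) : ℝ := ∑ i, ∑ j, m i * m j * k i j

theorem QF_cont (k : κ → κ → ℝ) : Continuous (QF k) := by
  unfold QF
  fun_prop

theorem QF_expand (k : κ → κ → ℝ) (hk : ∀ i j, k i j = k j i) (m n : κ → ℝ) (e : ℝ) :
    QF k (fun i => m i + e * n i) = QF k m + 2 * e * (∑ i, n i * ∑ j, m j * k i j)
      + e ^ 2 * QF k n := by
  have h1 : ∑ i, n i * ∑ j, m j * k i j = ∑ i, ∑ j, m i * n j * k i j := by
    rw [Finset.sum_comm]
    refine Finset.sum_congr rfl fun i _ => ?_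
    rw [Finset.mul_sum]
    exact Finset.sum_congr rfl fun j _ => by rw [hk i j]; ring
  have h2 : ∑ i, n i * ∑ j, m j * k i j = ∑ i, ∑ j, n i * m j * k i j := by
    refine Finset.sum_congr rfl fun i _ => ?_
    rw [Finset.mul_sum]
    exact Finset.sum_congr rfl fun j _ => by ring
  have h3 : 2 * e * (∑ i, n i * ∑ j, m j * k i j) = ∑ i, ∑ j, e * (m i * n j * k i j)
      + ∑ i, ∑ j, e * (n i * m j * k i j) := by
    have e1 : ∑ i, ∑ j, e * (m i * n j * k i j) = e * ∑ i, ∑ j, m i * n j * k i j := by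
      simp only [Finset.mul_sum]
    have e2 : ∑ i, ∑ j, e * (n i * m j * k i j) = e * ∑ i, ∑ j, n i * m j * k i j := by
      simp only [Finset.mul_sum]
    rw [e1, e2, ← h1, ← h2]
    ring
  rw [h3]
  unfold QF
  simp only [Finset.mul_sum, ← Finset.sum_add_distrib]
  exact Finset.sum_congr rfl fun i _ => Finset.sum_congr rfl fun j _ => by ring

/-- A minimiser of a symmetric quadratic form on the simplex and its first order conditions. -/
theorem kkt [Nonempty κ] (k : κ → κ → ℝ) (hk : ∀ i j, k i j = k j i) :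
    ∃ m : κ → ℝ, (∀ i, 0 ≤ m i) ∧ ∑ i, m i = 1 ∧
      (∀ i, m i * ∑ j, m j * k i j = m i * QF k m) ∧
      ∀ w : κ → ℝ, (∀ i, 0 ≤ w i) → ∑ i, w i = 1 → QF k m ≤ QF k w := by
  classical
  obtain ⟨m, hm, hmin⟩ := (isCompact_stdSimplex ℝ κ).exists_isMinOn
    ⟨_, single_mem_stdSimplex ℝ (Classical.arbitrary κ)⟩ (QF_cont k).continuousOn
  have hmin' : ∀ w : κ → ℝ, (∀ i, 0 ≤ w i) → ∑ i, w i = 1 → QF k m ≤ QF k w :=
    fun w h0 h1 => hmin ⟨h0, h1⟩
  refine ⟨m, hm.1, hm.2, ?_, hmin'⟩
  -- each potential is at least the energy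
  have hU : ∀ i, QF k m ≤ ∑ j, m j * k i j := by
    intro i
    by_contra hlt
    push Not at hlt
    set U := ∑ j, m j * k i j with hUd
    set n : κ → ℝ := fun j => (if j = i then 1 else 0) - m j with hn
    have hnU : ∑ j, n j * ∑ l, m l * k j l = U - QF k m := by
      simp only [hn, sub_mul, Finset.sum_sub_distrib]
      congr 1
      · rw [Finset.sum_eq_single i]
        · simp [hUd]
        · intro b _ hb; simp [hb]
        · intro h; exact absurd (Finset.mem_univ i) h
      · unfold QF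
        refine Finset.sum_congr rfl fun a _ => ?_
        rw [Finset.mul_sum]
        exact Finset.sum_congr rfl fun b _ => by ring
    have hle : ∀ e : ℝ, 0 < e → e ≤ 1 → 0 ≤ 2 * (U - QF k m) + e * QF k n := by
      intro e he he1
      have h1 := hmin' (fun j => m j + e * n j) ?_ ?_
      · rw [QF_expand k hk, hnU] at h1
        have h2 : 0 ≤ e * (2 * (U - QF k m) + e * QF k n) := by nlinarith
        exact nonneg_of_mul_nonneg_right h2 he
      · intro j
        simp only [hn]
        have := hm.1 j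
        split_ifs
        · nlinarith
        · nlinarith
      · rw [Finset.sum_add_distrib, ← Finset.mul_sum, hm.2]
        have : ∑ j, n j = 0 := by
          simp only [hn, Finset.sum_sub_distrib, hm.2]
          simp
        rw [this]; ring
    -- choose a small parameter
    have hd : 0 < QF k m - U := by linarith
    by_cases hq : QF k n ≤ 0
    · have := hle 1 one_pos le_rfl
      linarith
    · push Not at hq
      have h3 := hle (min 1 ((QF k m - U) / QF k n)) (lt_min one_pos (div_pos hd hq))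
        (min_le_left _ _)
      have h4 : min 1 ((QF k m - U) / QF k n) * QF k n ≤ QF k m - U := by
        calc min 1 ((QF k m - U) / QF k n) * QF k n ≤ ((QF k m - U) / QF k n) * QF k n :=
              mul_le_mul_of_nonneg_right (min_le_right _ _) hq.le
          _ = _ := div_mul_cancel₀ _ hq.ne'
      linarith
  -- complementary slackness
  have hsum : ∑ i, m i * ((∑ j, m j * k i j) - QF k m) = 0 := by
    simp only [mul_sub, Finset.sum_sub_distrib, ← Finset.sum_mul, hm.2, one_mul]
    have : ∑ i, m i * ∑ j, m j * k i j = QF k m := by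
      unfold QF
      refine Finset.sum_congr rfl fun a _ => ?_
      rw [Finset.mul_sum]
      exact Finset.sum_congr rfl fun b _ => by ring
    rw [this, sub_self]
  have hz := (Finset.sum_eq_zero_iff_of_nonneg
    (fun i _ => mul_nonneg (hm.1 i) (sub_nonneg.mpr (hU i)))).1 hsum
  intro i
  have := hz i (Finset.mem_univ i)
  linarith [mul_sub (m i) (∑ j, m j * k i j) (QF k m)]

/-- triple sums -/
noncomputable def TS (m : κ → ℝ) (F : κ → κ → κ → ℝ) : ℝ :=
  ∑ x, ∑ y, ∑ z, m x * m y * m z * F x y z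

theorem TS_swap (m : κ → ℝ) (F : κ → κ → κ → ℝ) :
    TS m (fun x y z => F y x z) = TS m F := by
  unfold TS
  rw [Finset.sum_comm]
  exact Finset.sum_congr rfl fun x _ => Finset.sum_congr rfl fun y _ =>
    Finset.sum_congr rfl fun z _ => by ring

theorem TS_swap' (m : κ → ℝ) (F : κ → κ → κ → ℝ) :
    TS m (fun x y z => F x z y) = TS m F := by
  unfold TS
  refine Finset.sum_congr rfl fun x _ => ?_
  rw [Finset.sum_comm]
  exact Finset.sum_congr rfl fun y _ => Finset.sum_congr rfl fun z _ => by ring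

theorem TS_rot (m : κ → ℝ) (F : κ → κ → κ → ℝ) :
    TS m (fun x y z => F z x y) = TS m F :=
  (TS_swap' m (fun x y z => F y x z)).trans (TS_swap m F)

theorem TS_rot' (m : κ → ℝ) (F : κ → κ → κ → ℝ) :
    TS m (fun x y z => F y z x) = TS m F :=
  (TS_swap m (fun x y z => F x z y)).trans (TS_swap' m F)

theorem TS_rev (m : κ → ℝ) (F : κ → κ → κ → ℝ) :
    TS m (fun x y z => F z y x) = TS m F :=
  (TS_swap' m (fun x y z => F y z x)).trans (TS_rot' m F)

theorem TS_add (m : κ → ℝ) (F G : κ → κ → κ → ℝ) :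
    TS m (fun x y z => F x y z + G x y z) = TS m F + TS m G := by
  unfold TS
  simp only [← Finset.sum_add_distrib]
  exact Finset.sum_congr rfl fun x _ => Finset.sum_congr rfl fun y _ =>
    Finset.sum_congr rfl fun z _ => by ring

theorem TS_mono {m : κ → ℝ} (hm : ∀ i, 0 ≤ m i) {F G : κ → κ → κ → ℝ}
    (h : ∀ x y z, F x y z ≤ G x y z) : TS m F ≤ TS m G := by
  unfold TS
  exact Finset.sum_le_sum fun x _ => Finset.sum_le_sum fun y _ => Finset.sum_le_sum fun z _ =>
    mul_le_mul_of_nonneg_left (h x y z) (mul_nonneg (mul_nonneg (hm x) (hm y)) (hm z))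

theorem TS_pivot (m : κ → ℝ) (F : κ → κ → κ → ℝ) :
    TS m (fun x y z => F z x y) = ∑ z, m z * ∑ x, ∑ y, m x * m y * F z x y := by
  rw [TS_rot]
  unfold TS
  refine Finset.sum_congr rfl fun z _ => ?_
  rw [Finset.mul_sum]
  refine Finset.sum_congr rfl fun x _ => ?_
  rw [Finset.mul_sum]
  exact Finset.sum_congr rfl fun y _ => by ring

/-- a path of two edges, at a critical weight -/
theorem TS_path {m : κ → ℝ} {k : κ → κ → ℝ} {E : ℝ}
    (hU : ∀ i, m i * ∑ j, m j * k i j = m i * E) (v : κ → κ → ℝ) :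
    TS m (fun x y z => v x y * k y z) = E * QF v m := by
  unfold TS QF
  rw [Finset.mul_sum]
  refine Finset.sum_congr rfl fun x _ => ?_
  rw [Finset.mul_sum]
  refine Finset.sum_congr rfl fun y _ => ?_
  have : ∑ z, m x * m y * m z * (v x y * k y z) = m x * v x y * (m y * ∑ z, m z * k y z) := by
    rw [Finset.mul_sum, Finset.mul_sum]
    exact Finset.sum_congr rfl fun z _ => by ring
  rw [this, hU y]
  ring

theorem jensen {m : κ → ℝ} (hm : ∀ i, 0 ≤ m i) (hm1 : ∑ i, m i = 1) (a : κ → ℝ) :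
    (∑ z, m z * a z) ^ 2 ≤ ∑ z, m z * a z ^ 2 := by
  set u : ℝ := ∑ z, m z * a z with hu
  have h1 : 0 ≤ ∑ z, m z * (a z - u) ^ 2 :=
    Finset.sum_nonneg fun z _ => mul_nonneg (hm z) (sq_nonneg _)
  have h2 : ∑ z, m z * (a z - u) ^ 2 = ∑ z, m z * a z ^ 2 - 2 * u * ∑ z, m z * a z
      + u ^ 2 * ∑ z, m z := by
    simp only [Finset.mul_sum, ← Finset.sum_sub_distrib, ← Finset.sum_add_distrib]
    exact Finset.sum_congr rfl fun z _ => by ring
  rw [h2, hm1, ← hu] at h1
  nlinarith

/-- The sum of the certificate over all triples. -/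
theorem triple_sum {m : κ → ℝ} (hm : ∀ i, 0 ≤ m i) (hm1 : ∑ i, m i = 1)
    {k v g : κ → κ → ℝ} (hk : ∀ i j, k i j = k j i) (hv : ∀ i j, v i j = v j i)
    {E D : ℝ} (hD : 0 < D) (hU : ∀ i, m i * ∑ j, m j * k i j = m i * E)
    (P K : κ → κ → κ → ℝ)
    (hP : ∀ z, (∑ x, m x * g x z) ^ 2 / D ≤ ∑ x, ∑ y, m x * m y * P z x y)
    (hK : ∀ z, 0 ≤ ∑ x, ∑ y, m x * m y * K z x y)
    (hpt : ∀ x y z, (P z x y + K z x y) + (P x y z + K x y z) + (P y z x + K y z x) ≤
      v x z * (k y z + k x y) + v y z * (k x y + k x z) + v x y * (k x z + k y z)) :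
    (QF g m) ^ 2 / D ≤ 2 * (E * QF v m) := by
  have h1 := TS_mono hm hpt
  have hleft : TS m (fun x y z => (P z x y + K z x y) + (P x y z + K x y z)
      + (P y z x + K y z x)) = 3 * TS m (fun x y z => P z x y) + 3 * TS m (fun x y z => K z x y) := by
    rw [TS_add m (fun x y z => (P z x y + K z x y) + (P x y z + K x y z))
        (fun x y z => P y z x + K y z x),
      TS_add m (fun x y z => P z x y + K z x y) (fun x y z => P x y z + K x y z),
      TS_add m (fun x y z => P z x y) (fun x y z => K z x y), TS_add m P K,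
      TS_add m (fun x y z => P y z x) (fun x y z => K y z x), TS_rot m P, TS_rot m K,
      TS_rot' m P, TS_rot' m K]
    ring
  have hright : TS m (fun x y z => v x z * (k y z + k x y) + v y z * (k x y + k x z)
      + v x y * (k x z + k y z)) = 6 * (E * QF v m) := by
    set f : κ → κ → κ → ℝ := fun x y z => v x y * k y z with hf
    have hT : TS m f = E * QF v m := TS_path hU v
    have e : (fun x y z => v x z * (k y z + k x y) + v y z * (k x y + k x z)
      + v x y * (k x z + k y z)) = fun x y z => (f x z y + f z x y) + (f z y x + f y z x)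
        + (f y x z + f x y z) := by
      funext x y z
      simp only [hf]
      rw [hv z x, hv z y, hv y x, hk z y, hk y x, hk z x]
      ring
    rw [e, TS_add m (fun x y z => (f x z y + f z x y) + (f z y x + f y z x))
        (fun x y z => f y x z + f x y z),
      TS_add m (fun x y z => f x z y + f z x y) (fun x y z => f z y x + f y z x),
      TS_add m (fun x y z => f x z y) (fun x y z => f z x y),
      TS_add m (fun x y z => f z y x) (fun x y z => f y z x),
      TS_add m (fun x y z => f y x z) (fun x y z => f x y z), TS_swap' m f, TS_rot m f,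
      TS_rev m f, TS_rot' m f, TS_swap m f, show TS m (fun x y z => f x y z) = TS m f from rfl, hT]
    ring
  rw [hleft, hright] at h1
  have hKs : 0 ≤ TS m (fun x y z => K z x y) := by
    rw [TS_pivot]
    exact Finset.sum_nonneg fun z _ => mul_nonneg (hm z) (hK z)
  have hPs : (QF g m) ^ 2 / D ≤ TS m (fun x y z => P z x y) := by
    rw [TS_pivot]
    have h2 : ∑ z, m z * ((∑ x, m x * g x z) ^ 2 / D) ≤
        ∑ z, m z * ∑ x, ∑ y, m x * m y * P z x y :=
      Finset.sum_le_sum fun z _ => mul_le_mul_of_nonneg_left (hP z) (hm z)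
    refine le_trans ?_ h2
    have h3 : ∑ z, m z * ((∑ x, m x * g x z) ^ 2 / D) =
        (∑ z, m z * (∑ x, m x * g x z) ^ 2) / D := by
      rw [Finset.sum_div]
      exact Finset.sum_congr rfl fun z _ => by ring
    rw [h3]
    refine div_le_div_of_nonneg_right ?_ hD.le
    have h4 : QF g m = ∑ z, m z * ∑ x, m x * g x z := by
      unfold QF
      rw [Finset.sum_comm]
      refine Finset.sum_congr rfl fun z _ => ?_
      rw [Finset.mul_sum]
      exact Finset.sum_congr rfl fun x _ => by ring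
    rw [h4]
    -- Jensen
    exact jensen hm hm1 (fun z => ∑ x, m x * g x z)
  nlinarith

end kkt

/-! ### The functions of the certificate -/

theorem csq_zero : csq 0 = 1 := by simp [csq]

theorem kk_zero : kk 0 = 1 := by
  unfold kk
  rw [csq_zero]; ring

theorem gg_zero : gg 0 = 0 := by
  unfold gg eta
  rw [csq_zero]; ring

theorem kk_nonneg {t : ℝ} (h1 : t ≤ 1) : 0 ≤ kk t := by
  unfold kk lam csq
  have := sq_nonneg (Real.cos (Real.pi / 2 * t))
  nlinarith

theorem gg_nonneg {t : ℝ} (h0 : 0 ≤ t) (h1 : t ≤ 1) : 0 ≤ gg t := by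
  have p4 := Real.pi_lt_four
  have p0 := Real.pi_pos
  have s0 : 0 ≤ Real.sin (Real.pi / 2 * t) :=
    Real.sin_nonneg_of_nonneg_of_le_pi (by positivity) (by nlinarith)
  have s1 : Real.sin (Real.pi / 2 * t) ≤ Real.pi / 2 * t := Real.sin_le (by positivity)
  have s2 : Real.sin (Real.pi / 2 * t) ≤ 1 := Real.sin_le_one _
  have s3 := Real.sin_sq_add_cos_sq (Real.pi / 2 * t)
  unfold gg eta csq e1
  have s4 : Real.sin (Real.pi / 2 * t) ^ 2 ≤ Real.pi / 2 * t := by nlinarith
  nlinarith

theorem csq_ang {x : ℝ} (h : |x| ≤ 1) : csq (ang x) = x ^ 2 := by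
  unfold csq
  rw [cos_ang h, sq_abs]

/-! ### Dimension one and orthogonal complements -/

theorem bd_one : Bd 1 := by
  intro ι t v w hv hw
  have h : ∀ i ∈ t, ∀ j ∈ t, kk (ang (inner ℝ (v i) (v j))) = 1 := by
    intro i hi j hj
    have h1 : |(v i) 0| = 1 := by
      have := hv i hi
      rw [EuclideanSpace.norm_eq] at this
      simpa [Real.sqrt_sq_eq_abs] using this
    have h2 : |(v j) 0| = 1 := by
      have := hv j hj
      rw [EuclideanSpace.norm_eq] at this
      simpa [Real.sqrt_sq_eq_abs] using this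
    have h3 : (inner ℝ (v i) (v j) : ℝ) = (v j) 0 * (v i) 0 := by
      simp [PiLp.inner_apply]
    have h4 : ang (inner ℝ (v i) (v j)) = 0 := by
      unfold ang
      rw [h3, abs_mul, h1, h2]
      simp
    rw [h4, kk_zero]
  rw [Finset.sum_congr rfl fun i hi => Finset.sum_congr rfl fun j hj => by rw [h i hi j hj, mul_one],
    sq, Finset.sum_mul_sum]
  simp

/-- The bound in dimension `d`, applied in the orthogonal complement of a unit vector. -/
theorem bd_perp {d : ℕ} (hd : 0 < d) (H : Bd d) {ι : Type} (t : Finset ι)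
    (v : ι → EuclideanSpace ℝ (Fin (d + 1))) (w : ι → ℝ) (hw : ∀ i ∈ t, 0 ≤ w i)
    {z : EuclideanSpace ℝ (Fin (d + 1))} (hz : ‖z‖ = 1)
    (h0 : ∀ i ∈ t, tng z (v i) = 0 → w i = 0) :
    (∑ i ∈ t, w i) ^ 2 / d ≤
      ∑ i ∈ t, ∑ j ∈ t, w i * w j * kk (ang (inner ℝ (dir z (v i)) (dir z (v j)))) := by
  classical
  have hfr : Fact (Module.finrank ℝ (EuclideanSpace ℝ (Fin (d + 1))) = d + 1) := ⟨by simp⟩
  have hz0 : z ≠ 0 := by
    intro h; rw [h, norm_zero] at hz; exact zero_ne_one hz
  let b := OrthonormalBasis.fromOrthogonalSpanSingleton (𝕜 := ℝ) d hz0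
  have hmem : ∀ x, tng z x ∈ (ℝ ∙ z)ᗮ := by
    intro x
    rw [Submodule.mem_orthogonal_singleton_iff_inner_right]
    exact inner_z_tng hz
  have hdmem : ∀ x, dir z x ∈ (ℝ ∙ z)ᗮ := fun x => Submodule.smul_mem _ _ (hmem x)
  let e0 : EuclideanSpace ℝ (Fin d) := EuclideanSpace.single ⟨0, hd⟩ 1
  have he0 : ‖e0‖ = 1 := by simp [e0]
  have hnd : ∀ x, tng z x ≠ 0 → ‖dir z x‖ = 1 := by
    intro x hx
    unfold dir
    rw [norm_smul, norm_mul, norm_inv, norm_norm]
    have h1 : ‖sg (inner ℝ z x : ℝ)‖ = 1 := by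
      rcases sg_eq (inner ℝ z x : ℝ) with h | h <;> simp [h]
    rw [h1, one_mul, inv_mul_cancel₀ (norm_ne_zero_iff.mpr hx)]
  let E : ι → EuclideanSpace ℝ (Fin d) := fun i =>
    if tng z (v i) = 0 then e0 else b.repr ⟨dir z (v i), hdmem (v i)⟩
  have hE : ∀ i ∈ t, ‖E i‖ = 1 := by
    intro i _
    simp only [E]
    split_ifs with h
    · exact he0
    · rw [LinearIsometryEquiv.norm_map, Submodule.coe_norm]
      exact hnd _ h
  have h1 := H ι t E w hE hw
  refine le_trans h1 (le_of_eq ?_)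
  refine Finset.sum_congr rfl fun i hi => Finset.sum_congr rfl fun j hj => ?_
  by_cases hi0 : tng z (v i) = 0
  · rw [h0 i hi hi0]; ring
  by_cases hj0 : tng z (v j) = 0
  · rw [h0 j hj hj0]; ring
  simp only [E, hi0, hj0, if_false]
  rw [LinearIsometryEquiv.inner_map_map]
  rfl

/-- The frame potential. -/
theorem frame {κ : Type} [Fintype κ] {n : ℕ} (hn : 0 < n) (v : κ → EuclideanSpace ℝ (Fin n))
    (hv : ∀ i, ‖v i‖ = 1) (m : κ → ℝ) (hm1 : ∑ i, m i = 1) :
    1 / (n : ℝ) ≤ ∑ i, ∑ j, m i * m j * (inner ℝ (v i) (v j)) ^ 2 := by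
  have hnp : (0 : ℝ) < n := by exact_mod_cast hn
  -- the frame operator
  set T : Fin n → Fin n → ℝ := fun a b => ∑ i, m i * (v i a * v i b) with hT
  have h1 : ∑ i, ∑ j, m i * m j * (inner ℝ (v i) (v j)) ^ 2 = ∑ a, ∑ b, T a b ^ 2 := by
    have e1 : ∀ i j, m i * m j * (inner ℝ (v i) (v j)) ^ 2
        = ∑ a, ∑ b, (m i * (v i a * v i b)) * (m j * (v j a * v j b)) := by
      intro i j
      have : (inner ℝ (v i) (v j) : ℝ) = ∑ a, v i a * v j a := by
        simp only [PiLp.inner_apply]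
        exact Finset.sum_congr rfl fun a _ => by simp [mul_comm]
      rw [this, sq, Finset.sum_mul_sum, Finset.mul_sum]
      refine Finset.sum_congr rfl fun a _ => ?_
      rw [Finset.mul_sum]
      exact Finset.sum_congr rfl fun b _ => by ring
    have e2 : ∀ a b, T a b ^ 2 = ∑ i, ∑ j, (m i * (v i a * v i b)) * (m j * (v j a * v j b)) := by
      intro a b
      rw [sq, hT, Finset.sum_mul_sum]
    simp only [e1, e2]
    calc ∑ i, ∑ j, ∑ a, ∑ b, (m i * (v i a * v i b)) * (m j * (v j a * v j b))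
        = ∑ i, ∑ a, ∑ j, ∑ b, (m i * (v i a * v i b)) * (m j * (v j a * v j b)) :=
          Finset.sum_congr rfl fun i _ => Finset.sum_comm
      _ = ∑ a, ∑ i, ∑ j, ∑ b, (m i * (v i a * v i b)) * (m j * (v j a * v j b)) :=
          Finset.sum_comm
      _ = ∑ a, ∑ i, ∑ b, ∑ j, (m i * (v i a * v i b)) * (m j * (v j a * v j b)) :=
          Finset.sum_congr rfl fun a _ => Finset.sum_congr rfl fun i _ => Finset.sum_comm
      _ = ∑ a, ∑ b, ∑ i, ∑ j, (m i * (v i a * v i b)) * (m j * (v j a * v j b)) :=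
          Finset.sum_congr rfl fun a _ => Finset.sum_comm
  have h2 : ∑ a, T a a ^ 2 ≤ ∑ a, ∑ b, T a b ^ 2 :=
    Finset.sum_le_sum fun a _ =>
      Finset.single_le_sum (f := fun b => T a b ^ 2) (fun b _ => sq_nonneg _) (Finset.mem_univ a)
  have h3 : ∑ a, T a a = 1 := by
    simp only [hT]
    rw [Finset.sum_comm, ← hm1]
    refine Finset.sum_congr rfl fun i _ => ?_
    rw [← Finset.mul_sum]
    have : ∑ a, v i a * v i a = 1 := by
      have h := hv i
      have h' : ‖v i‖ ^ 2 = 1 := by rw [h]; norm_num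
      rw [EuclideanSpace.norm_sq_eq] at h'
      rw [← h']
      exact Finset.sum_congr rfl fun a _ => by rw [Real.norm_eq_abs, sq_abs, sq]
    rw [this, mul_one]
  have h4 : (∑ a, T a a) ^ 2 ≤ (n : ℝ) * ∑ a, T a a ^ 2 := by
    have := sq_sum_le_card_mul_sum_sq (s := (Finset.univ : Finset (Fin n))) (f := fun a => T a a)
    simpa using this
  rw [h3] at h4
  rw [h1, div_le_iff₀ hnp]
  nlinarith

/-! ### The induction step -/

theorem peel {d : ℕ} (hd : 0 < d) (H : Bd d) {κ : Type} [Fintype κ]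
    (v : κ → EuclideanSpace ℝ (Fin (d + 1))) (m : κ → ℝ) (hm : ∀ i, 0 ≤ m i)
    (hv : ∀ i, ‖v i‖ = 1) {z : EuclideanSpace ℝ (Fin (d + 1))} (hz : ‖z‖ = 1) :
    (∑ x, m x * gg (ang (inner ℝ (v x) z))) ^ 2 / d ≤
      ∑ x, ∑ y, m x * m y * (gg (ang (inner ℝ (v x) z)) * gg (ang (inner ℝ (v y) z)) *
        kk (ang (inner ℝ (dir z (v x)) (dir z (v y))))) := by
  have h1 := bd_perp hd H Finset.univ v (fun i => m i * gg (ang (inner ℝ (v i) z)))
    (fun i _ => mul_nonneg (hm i) (gg_nonneg (ang_nonneg _) (ang_le_one _))) hz ?_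
  · refine le_trans h1 (le_of_eq ?_)
    exact Finset.sum_congr rfl fun x _ => Finset.sum_congr rfl fun y _ => by ring
  · intro i _ h0
    have h7 : ang (inner ℝ (v i) z) = 0 := by
      apply ang_eq_zero
      rw [real_inner_comm, ← norm_tng hz (hv i), h0, norm_zero]
    simp only [h7, gg_zero, mul_zero]

/-- the certificate at three unit vectors -/
theorem cert_at (hS : Star) {d : ℕ} {x y z : EuclideanSpace ℝ (Fin (d + 1))}
    (hx : ‖x‖ = 1) (hy : ‖y‖ = 1) (hz : ‖z‖ = 1) :
    Vx (ang (inner ℝ x z)) (ang (inner ℝ y z)) (inner ℝ (dir z x) (dir z y))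
      + Vx (ang (inner ℝ y x)) (ang (inner ℝ z x)) (inner ℝ (dir x y) (dir x z))
      + Vx (ang (inner ℝ z y)) (ang (inner ℝ x y)) (inner ℝ (dir y z) (dir y x)) ≤
    vv (ang (inner ℝ x z)) * (kk (ang (inner ℝ y z)) + kk (ang (inner ℝ x y)))
      + vv (ang (inner ℝ y z)) * (kk (ang (inner ℝ x y)) + kk (ang (inner ℝ x z)))
      + vv (ang (inner ℝ x y)) * (kk (ang (inner ℝ x z)) + kk (ang (inner ℝ y z))) := by
  have h := hS (ang (inner ℝ x z)) (ang_mem _) (ang (inner ℝ y z)) (ang_mem _)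
      (ang (inner ℝ x y)) (ang_mem _)
      (sg (inner ℝ x y) * sg (inner ℝ y z) * sg (inner ℝ x z)) ?_ (gram3_nonneg hz hx hy)
  · have e1 := inner_dir_dir hz hx hy
    have e2 := inner_dir_dir hx hy hz
    have e3 := inner_dir_dir hy hz hx
    rw [real_inner_comm x y, real_inner_comm x z] at e2
    rw [real_inner_comm x z, real_inner_comm y z] at e3
    rw [show sg (inner ℝ y z) * sg (inner ℝ x z) * sg (inner ℝ x y)
        = sg (inner ℝ x y) * sg (inner ℝ y z) * sg (inner ℝ x z) by ring] at e2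
    rw [show sg (inner ℝ x z) * sg (inner ℝ x y) * sg (inner ℝ y z)
        = sg (inner ℝ x y) * sg (inner ℝ y z) * sg (inner ℝ x z) by ring] at e3
    rw [real_inner_comm x y, real_inner_comm x z, real_inner_comm y z, e1, e2, e3]
    linarith
  · rcases sg_eq (inner ℝ x y : ℝ) with h1 | h1 <;> rcases sg_eq (inner ℝ y z : ℝ) with h2 | h2 <;>
      rcases sg_eq (inner ℝ x z : ℝ) with h3 | h3 <;> rw [h1, h2, h3] <;> norm_num

theorem final_alg {A C E G V D : ℝ} (hE0 : 0 ≤ E) (hA : A = 1 - E) (hDE : D * E < A)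
    (hCE : E ≤ C) (hG : lam * G = lam * (1 - C) - e1 * (E - C))
    (hV : lam * (2 * V) = lam * (1 - C) - 2 * th * (E - C))
    (hm : G ^ 2 ≤ D * (2 * (E * V))) (hD : 0 < D) : False := by
  unfold lam at hG hV
  unfold e1 at hG
  unfold th at hV
  obtain ⟨h, rfl⟩ : ∃ h, C = E + 11 / 20 * h := ⟨20 / 11 * (C - E), by ring⟩
  have hh : 0 ≤ h := by linarith
  have hG' : G = A + 6 / 5 * h := by rw [hA]; linarith
  have hV' : 2 * V = A + 4 / 5 * h := by rw [hA]; linarith
  have hA0 : 0 < A := by nlinarith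
  have h1 : D * (2 * (E * V)) = (D * E) * (A + 4 / 5 * h) := by rw [← hV']; ring
  rw [h1, hG'] at hm
  have h2 : 0 < A + 4 / 5 * h := by linarith
  have h3 : (D * E) * (A + 4 / 5 * h) < A * (A + 4 / 5 * h) := mul_lt_mul_of_pos_right hDE h2
  nlinarith [mul_nonneg hA0.le hh, sq_nonneg h]

theorem min_bound (hS : Star) (hK : KPSD) {d : ℕ} (hd : 0 < d) (H : Bd d) {κ : Type} [Fintype κ]
    [Nonempty κ] (v : κ → EuclideanSpace ℝ (Fin (d + 1))) (hv : ∀ i, ‖v i‖ = 1)
    (w : κ → ℝ) (hw : ∀ i, 0 ≤ w i) (hw1 : ∑ i, w i = 1) :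
    1 / ((d : ℝ) + 1) ≤ ∑ i, ∑ j, w i * w j * kk (ang (inner ℝ (v i) (v j))) := by
  have hdp : (0 : ℝ) < d := by exact_mod_cast hd
  set k : κ → κ → ℝ := fun i j => kk (ang (inner ℝ (v i) (v j))) with hk
  have hks : ∀ i j, k i j = k j i := fun i j => by simp only [hk]; rw [real_inner_comm]
  obtain ⟨m, hm, hm1, hU, hmin⟩ := kkt k hks
  refine le_trans ?_ (hmin w hw hw1)
  set E : ℝ := QF k m with hE
  have hE0 : 0 ≤ E := by
    rw [hE]; unfold QF
    exact Finset.sum_nonneg fun i _ => Finset.sum_nonneg fun j _ =>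
      mul_nonneg (mul_nonneg (hm i) (hm j)) (kk_nonneg (ang_le_one _))
  set vf : κ → κ → ℝ := fun i j => vv (ang (inner ℝ (v i) (v j))) with hvf
  have hvs : ∀ i j, vf i j = vf j i := fun i j => by simp only [hvf]; rw [real_inner_comm]
  set g : κ → κ → ℝ := fun i j => gg (ang (inner ℝ (v i) (v j))) with hg
  have hmain := triple_sum hm hm1 (k := k) (v := vf) (g := g) hks hvs hdp hU
    (fun z x y => gg (ang (inner ℝ (v x) (v z))) * gg (ang (inner ℝ (v y) (v z))) *
        kk (ang (inner ℝ (dir (v z) (v x)) (dir (v z) (v y)))))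
    (fun z x y => Kz (ang (inner ℝ (v x) (v z))) (ang (inner ℝ (v y) (v z)))
        (inner ℝ (dir (v z) (v x)) (dir (v z) (v y))))
    (fun z => peel hd H v m hm hv (hv z))
    (fun z => hK d hd κ Finset.univ v m (v z) (hv z) (fun i _ => hv i))
    (fun x y z => cert_at hS (hv x) (hv y) (hv z))
  -- averages
  set C : ℝ := ∑ i, ∑ j, m i * m j * (inner ℝ (v i) (v j)) ^ 2 with hC
  have hC1 : 1 / ((d : ℝ) + 1) ≤ C := by
    have := frame (Nat.succ_pos d) v hv m hm1
    push_cast at this
    exact this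
  have hone : ∑ i, ∑ j, m i * m j * (1 : ℝ) = 1 := by
    simp only [mul_one, ← Finset.mul_sum, hm1]
  have hcsq : ∀ i j, csq (ang (inner ℝ (v i) (v j))) = (inner ℝ (v i) (v j)) ^ 2 :=
    fun i j => csq_ang (abs_inner_le_one (hv i) (hv j))
  have hG : lam * QF g m = lam * (1 - C) - e1 * (E - C) := by
    rw [← hone, hC, hE]
    unfold QF
    simp only [Finset.mul_sum, ← Finset.sum_sub_distrib]
    refine Finset.sum_congr rfl fun i _ => Finset.sum_congr rfl fun j _ => ?_
    simp only [hg, hk, gg, kk, eta, hcsq]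
    ring
  have hV : lam * (2 * QF vf m) = lam * (1 - C) - 2 * th * (E - C) := by
    rw [← hone, hC, hE]
    unfold QF
    simp only [Finset.mul_sum, ← Finset.sum_sub_distrib]
    refine Finset.sum_congr rfl fun i _ => Finset.sum_congr rfl fun j _ => ?_
    simp only [hvf, hk, vv, kk, eta, hcsq]
    ring
  by_contra hlt
  push Not at hlt
  have hdE : (d : ℝ) * E < 1 - E := by
    rw [lt_div_iff₀ (by positivity)] at hlt
    linarith
  refine final_alg (D := d) hE0 rfl hdE (by linarith) hG hV ?_ hdp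
  rw [div_le_iff₀ hdp] at hmain
  linarith

theorem bd_succ (hS : Star) (hK : KPSD) {d : ℕ} (hd : 0 < d) (H : Bd d) : Bd (d + 1) := by
  classical
  intro ι t v w hv hw
  have hT0 : 0 ≤ ∑ i ∈ t, w i := Finset.sum_nonneg hw
  have hdp : (0 : ℝ) < d := by exact_mod_cast hd
  rcases hT0.eq_or_lt with h0 | hTp
  · rw [← h0]
    have : 0 ≤ ∑ i ∈ t, ∑ j ∈ t, w i * w j * kk (ang (inner ℝ (v i) (v j))) :=
      Finset.sum_nonneg fun i hi => Finset.sum_nonneg fun j hj =>
        mul_nonneg (mul_nonneg (hw i hi) (hw j hj)) (kk_nonneg (ang_le_one _))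
    simpa using this
  set T : ℝ := ∑ i ∈ t, w i with hT
  have hne : t.Nonempty := by
    by_contra h
    rw [Finset.not_nonempty_iff_eq_empty] at h
    rw [hT, h] at hTp
    simp at hTp
  have : Nonempty {x // x ∈ t} := ⟨⟨hne.choose, hne.choose_spec⟩⟩
  have h := min_bound hS hK hd H (κ := {x // x ∈ t}) (fun i => v i.1) (fun i => hv i.1 i.2)
    (fun i => w i.1 / T) (fun i => div_nonneg (hw i.1 i.2) hTp.le) ?_
  · have e1 : ∑ i : {x // x ∈ t}, ∑ j : {x // x ∈ t}, w i.1 / T * (w j.1 / T) *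
        kk (ang (inner ℝ (v i.1) (v j.1))) =
        (∑ i ∈ t, ∑ j ∈ t, w i * w j * kk (ang (inner ℝ (v i) (v j)))) / T ^ 2 := by
      rw [Finset.sum_coe_sort t (fun i => ∑ j : {x // x ∈ t}, w i / T * (w j.1 / T) *
        kk (ang (inner ℝ (v i) (v j.1)))), Finset.sum_div]
      refine Finset.sum_congr rfl fun i _ => ?_
      rw [Finset.sum_coe_sort t (fun j => w i / T * (w j / T) *
        kk (ang (inner ℝ (v i) (v j)))), Finset.sum_div]
      refine Finset.sum_congr rfl fun j _ => ?_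
      field_simp
    rw [e1, le_div_iff₀ (by positivity)] at h
    push_cast
    rw [div_eq_mul_one_div, mul_comm]
    exact h
  · rw [Finset.sum_coe_sort t (fun i => w i / T), ← Finset.sum_div]
    exact div_self hTp.ne'

theorem bd_all (hS : Star) (hK : KPSD) (d : ℕ) : Bd (d + 1) := by
  induction d with
  | zero => exact bd_one
  | succ d ih => exact bd_succ hS hK d.succ_pos ih

end H41MK
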