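import Pool.Agent.H41.MK.Roots
import Pool.Agent.H41.FT.L2

/-!
# The claims on real boxes
-/

namespace H41MK

open H41FT

theorem gd_gKy {p : P} (h : Real.cos (Real.pi / 2 * p 2) - p 1 ≤ 0) : ev gKy p ≤ 0 := by
  exact h

theorem gd_gYW {p : P} (h : Real.sin (Real.pi / 2 * p 0) * Real.cos (Real.pi / 2 * (p 0 * p 1)) * Real.cos (Real.pi / 2 * p 2) -
      Real.cos (Real.pi / 2 * p 0) * Real.sin (Real.pi / 2 * (p 0 * p 1)) ≤ 0) : ev gYW p ≤ 0 := by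
  exact h

theorem gd_gYab {p : P} (h : p 0 + p 0 * p 1 - 1 ≤ 0) : ev gYab p ≤ 0 := by
  show p 0 + p 0 * p 1 - ((1 : ℕ) : ℝ) ≤ 0
  push_cast; exact h

theorem gd_gDn {p : P} (h : p 2 - Real.cos (Real.pi / 2 * p 0) ≤ 0) : ev gDn p ≤ 0 := by
  exact h

theorem clMA {p : P} (l0 : 0 ≤ p 0) (r0 : p 0 ≤ 1/20) (l1 : 0 ≤ p 1) (r1 : p 1 ≤ 1/10) (l2 : 0 ≤ p 2) (r2 : p 2 ≤ 1) :
    0 < (D 1 (D 0 (ev M3))) p ∧ Sm (ev M3) p := by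
  refine root_MA p ⟨?_, ?_, ?_⟩ (gN0 p) (gN0 p) (gN0 p)
  · exact in_of (by norm_num [vl, BB, SS]) (by norm_num [vl, BB, SS]) l0 r0
  · exact in_of (by norm_num [vl, BB, SS]) (by norm_num [vl, BB, SS]) l1 r1
  · exact in_of (by norm_num [vl, BB, SS]) (by norm_num [vl, BB, SS]) l2 r2

theorem clMB {p : P} (l0 : 0 ≤ p 0) (r0 : p 0 ≤ 1/20) (l1 : 19/20 ≤ p 1) (r1 : p 1 ≤ 1) (l2 : 0 ≤ p 2) (r2 : p 2 ≤ 1) :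
    0 < (fO.sub (fO.nat 0) (D 1 (D 0 (ev M3)))) p ∧ Sm (ev M3) p := by
  refine root_MB p ⟨?_, ?_, ?_⟩ (gN0 p) (gN0 p) (gN0 p)
  · exact in_of (by norm_num [vl, BB, SS]) (by norm_num [vl, BB, SS]) l0 r0
  · exact in_of (by norm_num [vl, BB, SS]) (by norm_num [vl, BB, SS]) l1 r1
  · exact in_of (by norm_num [vl, BB, SS]) (by norm_num [vl, BB, SS]) l2 r2

theorem clMC {p : P} (l0 : 0 ≤ p 0) (r0 : p 0 ≤ 1/20) (l1 : 1/10 ≤ p 1) (r1 : p 1 ≤ 19/20) (l2 : 0 ≤ p 2) (r2 : p 2 ≤ 1) :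
    0 < (D 0 (ev M3)) p ∧ Sm (ev M3) p := by
  refine root_MC p ⟨?_, ?_, ?_⟩ (gN0 p) (gN0 p) (gN0 p)
  · exact in_of (by norm_num [vl, BB, SS]) (by norm_num [vl, BB, SS]) l0 r0
  · exact in_of (by norm_num [vl, BB, SS]) (by norm_num [vl, BB, SS]) l1 r1
  · exact in_of (by norm_num [vl, BB, SS]) (by norm_num [vl, BB, SS]) l2 r2

theorem clMD {p : P} (l0 : 1/20 ≤ p 0) (r0 : p 0 ≤ 67/100) (l1 : 0 ≤ p 1) (r1 : p 1 ≤ 1/10) (l2 : 0 ≤ p 2) (r2 : p 2 ≤ 1) :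
    0 < (D 1 (ev M3)) p ∧ Sm (ev M3) p := by
  refine root_MD p ⟨?_, ?_, ?_⟩ (gN0 p) (gN0 p) (gN0 p)
  · exact in_of (by norm_num [vl, BB, SS]) (by norm_num [vl, BB, SS]) l0 r0
  · exact in_of (by norm_num [vl, BB, SS]) (by norm_num [vl, BB, SS]) l1 r1
  · exact in_of (by norm_num [vl, BB, SS]) (by norm_num [vl, BB, SS]) l2 r2

theorem clME {p : P} (l0 : 1/20 ≤ p 0) (r0 : p 0 ≤ 67/100) (l1 : 9/10 ≤ p 1) (r1 : p 1 ≤ 1) (l2 : 0 ≤ p 2) (r2 : p 2 ≤ 1)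
    (g0 : Real.cos (Real.pi / 2 * p 1) * (Real.sin (Real.pi / 2 * p 0) * Real.sin (Real.pi / 2 * p 0)) -
      Real.cos (Real.pi / 2 * p 0) * (Real.cos (Real.pi / 2 * p 0) + p 2) ≤ 0) :
    0 < (fO.sub (fO.nat 0) (D 1 (ev M3))) p ∧ Sm (ev M3) p := by
  refine root_ME p ⟨?_, ?_, ?_⟩ (gd_gC3 g0) (gN0 p) (gN0 p)
  · exact in_of (by norm_num [vl, BB, SS]) (by norm_num [vl, BB, SS]) l0 r0
  · exact in_of (by norm_num [vl, BB, SS]) (by norm_num [vl, BB, SS]) l1 r1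
  · exact in_of (by norm_num [vl, BB, SS]) (by norm_num [vl, BB, SS]) l2 r2

theorem clMG {p : P} (l0 : 1/20 ≤ p 0) (r0 : p 0 ≤ 67/100) (l1 : 1/10 ≤ p 1) (r1 : p 1 ≤ 9/10) (l2 : 0 ≤ p 2) (r2 : p 2 ≤ 1)
    (g0 : Real.cos (Real.pi / 2 * p 1) * (Real.sin (Real.pi / 2 * p 0) * Real.sin (Real.pi / 2 * p 0)) -
      Real.cos (Real.pi / 2 * p 0) * (Real.cos (Real.pi / 2 * p 0) + p 2) ≤ 0) :
    0 < (ev M3) p ∧ Sm (ev M3) p := by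
  refine root_MG p ⟨?_, ?_, ?_⟩ (gd_gC3 g0) (gN0 p) (gN0 p)
  · exact in_of (by norm_num [vl, BB, SS]) (by norm_num [vl, BB, SS]) l0 r0
  · exact in_of (by norm_num [vl, BB, SS]) (by norm_num [vl, BB, SS]) l1 r1
  · exact in_of (by norm_num [vl, BB, SS]) (by norm_num [vl, BB, SS]) l2 r2

theorem clSB {p : P} (l0 : 0 ≤ p 0) (r0 : p 0 ≤ 1/50) (l1 : 0 ≤ p 1) (r1 : p 1 ≤ 1/50) (l2 : 0 ≤ p 2) (r2 : p 2 ≤ 1/50) :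
    0 < (D 2 (D 0 (ev S3))) p ∧ Sm (ev S3) p := by
  refine root_SB p ⟨?_, ?_, ?_⟩ (gN0 p) (gN0 p) (gN0 p)
  · exact in_of (by norm_num [vl, BB, SS]) (by norm_num [vl, BB, SS]) l0 r0
  · exact in_of (by norm_num [vl, BB, SS]) (by norm_num [vl, BB, SS]) l1 r1
  · exact in_of (by norm_num [vl, BB, SS]) (by norm_num [vl, BB, SS]) l2 r2

theorem clSC {p : P} (l0 : 0 ≤ p 0) (r0 : p 0 ≤ 1/50) (l1 : 0 ≤ p 1) (r1 : p 1 ≤ 1/50) (l2 : 0 ≤ p 2) (r2 : p 2 ≤ 1/50) :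
    0 < (D 2 (D 1 (ev S3))) p ∧ Sm (ev S3) p := by
  refine root_SC p ⟨?_, ?_, ?_⟩ (gN0 p) (gN0 p) (gN0 p)
  · exact in_of (by norm_num [vl, BB, SS]) (by norm_num [vl, BB, SS]) l0 r0
  · exact in_of (by norm_num [vl, BB, SS]) (by norm_num [vl, BB, SS]) l1 r1
  · exact in_of (by norm_num [vl, BB, SS]) (by norm_num [vl, BB, SS]) l2 r2

theorem clSA {p : P} (l0 : 0 ≤ p 0) (r0 : p 0 ≤ 1/50) (l1 : 0 ≤ p 1) (r1 : p 1 ≤ 1/50) (l2 : 0 ≤ p 2) (r2 : p 2 ≤ 0) :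
    0 < (D 1 (D 0 (ev S3))) p ∧ Sm (ev S3) p := by
  refine root_SA p ⟨?_, ?_, ?_⟩ (gN0 p) (gN0 p) (gN0 p)
  · exact in_of (by norm_num [vl, BB, SS]) (by norm_num [vl, BB, SS]) l0 r0
  · exact in_of (by norm_num [vl, BB, SS]) (by norm_num [vl, BB, SS]) l1 r1
  · exact in_of (by norm_num [vl, BB, SS]) (by norm_num [vl, BB, SS]) l2 r2

theorem clSE {p : P} (l0 : 1/50 ≤ p 0) (r0 : p 0 ≤ 33/100) (l1 : 0 ≤ p 1) (r1 : p 1 ≤ 1/50) (l2 : 0 ≤ p 2) (r2 : p 2 ≤ 0) :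
    0 < (D 1 (ev S3)) p ∧ Sm (ev S3) p := by
  refine root_SE p ⟨?_, ?_, ?_⟩ (gN0 p) (gN0 p) (gN0 p)
  · exact in_of (by norm_num [vl, BB, SS]) (by norm_num [vl, BB, SS]) l0 r0
  · exact in_of (by norm_num [vl, BB, SS]) (by norm_num [vl, BB, SS]) l1 r1
  · exact in_of (by norm_num [vl, BB, SS]) (by norm_num [vl, BB, SS]) l2 r2

theorem clSF {p : P} (l0 : 1/50 ≤ p 0) (r0 : p 0 ≤ 33/100) (l1 : 0 ≤ p 1) (r1 : p 1 ≤ 1/50) (l2 : 0 ≤ p 2) (r2 : p 2 ≤ 1/50) :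
    0 < (D 2 (ev S3)) p ∧ Sm (ev S3) p := by
  refine root_SF p ⟨?_, ?_, ?_⟩ (gN0 p) (gN0 p) (gN0 p)
  · exact in_of (by norm_num [vl, BB, SS]) (by norm_num [vl, BB, SS]) l0 r0
  · exact in_of (by norm_num [vl, BB, SS]) (by norm_num [vl, BB, SS]) l1 r1
  · exact in_of (by norm_num [vl, BB, SS]) (by norm_num [vl, BB, SS]) l2 r2

theorem clS0 {p : P} (l0 : 0 ≤ p 0) (r0 : p 0 ≤ 33/100) (l1 : 1/50 ≤ p 1) (r1 : p 1 ≤ 33/100) (l2 : 0 ≤ p 2) (r2 : p 2 ≤ 33/100)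
    (g0 : p 1 - p 0 ≤ 0)
    (g1 : p 2 - p 1 ≤ 0) :
    0 < (ev S3) p ∧ Sm (ev S3) p := by
  refine root_S0 p ⟨?_, ?_, ?_⟩ (gd_gXY g0) (gd_gYZ g1) (gN0 p)
  · exact in_of (by norm_num [vl, BB, SS]) (by norm_num [vl, BB, SS]) l0 r0
  · exact in_of (by norm_num [vl, BB, SS]) (by norm_num [vl, BB, SS]) l1 r1
  · exact in_of (by norm_num [vl, BB, SS]) (by norm_num [vl, BB, SS]) l2 r2

theorem clPA {p : P} (l0 : 0 ≤ p 0) (r0 : p 0 ≤ 1/10) (l1 : 0 ≤ p 1) (r1 : p 1 ≤ 1/20) (l2 : 0 ≤ p 2) (r2 : p 2 ≤ 1/80) :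
    0 < (D 0 (D 2 (D 1 (ev E0)))) p ∧ Sm (ev E0) p := by
  refine root_PA p ⟨?_, ?_, ?_⟩ (gN0 p) (gN0 p) (gN0 p)
  · exact in_of (by norm_num [vl, BB, SS]) (by norm_num [vl, BB, SS]) l0 r0
  · exact in_of (by norm_num [vl, BB, SS]) (by norm_num [vl, BB, SS]) l1 r1
  · exact in_of (by norm_num [vl, BB, SS]) (by norm_num [vl, BB, SS]) l2 r2

theorem clPB {p : P} (l0 : 1/10 ≤ p 0) (r0 : p 0 ≤ 1) (l1 : 0 ≤ p 1) (r1 : p 1 ≤ 1/20) (l2 : 0 ≤ p 2) (r2 : p 2 ≤ 1/80) :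
    0 < (D 2 (D 1 (ev E0))) p ∧ Sm (ev E0) p := by
  refine root_PB p ⟨?_, ?_, ?_⟩ (gN0 p) (gN0 p) (gN0 p)
  · exact in_of (by norm_num [vl, BB, SS]) (by norm_num [vl, BB, SS]) l0 r0
  · exact in_of (by norm_num [vl, BB, SS]) (by norm_num [vl, BB, SS]) l1 r1
  · exact in_of (by norm_num [vl, BB, SS]) (by norm_num [vl, BB, SS]) l2 r2

theorem clPE {p : P} (l0 : 0 ≤ p 0) (r0 : p 0 ≤ 1/10) (l1 : 0 ≤ p 1) (r1 : p 1 ≤ 1/20) (l2 : 1/10 ≤ p 2) (r2 : p 2 ≤ 1) :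
    0 < (D 0 (D 1 (ev P0))) p ∧ Sm (ev P0) p := by
  refine root_PE p ⟨?_, ?_, ?_⟩ (gN0 p) (gN0 p) (gN0 p)
  · exact in_of (by norm_num [vl, BB, SS]) (by norm_num [vl, BB, SS]) l0 r0
  · exact in_of (by norm_num [vl, BB, SS]) (by norm_num [vl, BB, SS]) l1 r1
  · exact in_of (by norm_num [vl, BB, SS]) (by norm_num [vl, BB, SS]) l2 r2

theorem clPF {p : P} (l0 : 1/10 ≤ p 0) (r0 : p 0 ≤ 1) (l1 : 0 ≤ p 1) (r1 : p 1 ≤ 1/20) (l2 : 1/10 ≤ p 2) (r2 : p 2 ≤ 1) :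
    0 < (D 1 (ev P0)) p ∧ Sm (ev P0) p := by
  refine root_PF p ⟨?_, ?_, ?_⟩ (gN0 p) (gN0 p) (gN0 p)
  · exact in_of (by norm_num [vl, BB, SS]) (by norm_num [vl, BB, SS]) l0 r0
  · exact in_of (by norm_num [vl, BB, SS]) (by norm_num [vl, BB, SS]) l1 r1
  · exact in_of (by norm_num [vl, BB, SS]) (by norm_num [vl, BB, SS]) l2 r2

theorem clPG {p : P} (l0 : 0 ≤ p 0) (r0 : p 0 ≤ 1/10) (l1 : 1/20 ≤ p 1) (r1 : p 1 ≤ 9/20) (l2 : 0 ≤ p 2) (r2 : p 2 ≤ 1/10) :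
    0 < (D 2 (D 0 (ev P0))) p ∧ Sm (ev P0) p := by
  refine root_PG p ⟨?_, ?_, ?_⟩ (gN0 p) (gN0 p) (gN0 p)
  · exact in_of (by norm_num [vl, BB, SS]) (by norm_num [vl, BB, SS]) l0 r0
  · exact in_of (by norm_num [vl, BB, SS]) (by norm_num [vl, BB, SS]) l1 r1
  · exact in_of (by norm_num [vl, BB, SS]) (by norm_num [vl, BB, SS]) l2 r2

theorem clPH {p : P} (l0 : 0 ≤ p 0) (r0 : p 0 ≤ 1/10) (l1 : 9/20 ≤ p 1) (r1 : p 1 ≤ 1) (l2 : 0 ≤ p 2) (r2 : p 2 ≤ 1/10)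
    (g0 : p 0 * p 1 + p 1 + p 0 * p 1 * p 1 - 1 ≤ 0) :
    0 < (D 2 (D 0 (ev P2))) p ∧ Sm (ev P2) p := by
  refine root_PH p ⟨?_, ?_, ?_⟩ (gd_gT1 g0) (gN0 p) (gN0 p)
  · exact in_of (by norm_num [vl, BB, SS]) (by norm_num [vl, BB, SS]) l0 r0
  · exact in_of (by norm_num [vl, BB, SS]) (by norm_num [vl, BB, SS]) l1 r1
  · exact in_of (by norm_num [vl, BB, SS]) (by norm_num [vl, BB, SS]) l2 r2

theorem clPI {p : P} (l0 : 0 ≤ p 0) (r0 : p 0 ≤ 1/10) (l1 : 1/20 ≤ p 1) (r1 : p 1 ≤ 9/20) (l2 : 1/10 ≤ p 2) (r2 : p 2 ≤ 1) :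
    0 < (D 0 (ev P0)) p ∧ Sm (ev P0) p := by
  refine root_PI p ⟨?_, ?_, ?_⟩ (gN0 p) (gN0 p) (gN0 p)
  · exact in_of (by norm_num [vl, BB, SS]) (by norm_num [vl, BB, SS]) l0 r0
  · exact in_of (by norm_num [vl, BB, SS]) (by norm_num [vl, BB, SS]) l1 r1
  · exact in_of (by norm_num [vl, BB, SS]) (by norm_num [vl, BB, SS]) l2 r2

theorem clPJ {p : P} (l0 : 0 ≤ p 0) (r0 : p 0 ≤ 1/10) (l1 : 9/20 ≤ p 1) (r1 : p 1 ≤ 9/10) (l2 : 1/10 ≤ p 2) (r2 : p 2 ≤ 1)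
    (g0 : p 0 * p 1 + p 1 + p 0 * p 1 * p 1 - 1 ≤ 0) :
    0 < (D 0 (ev P2)) p ∧ Sm (ev P2) p := by
  refine root_PJ p ⟨?_, ?_, ?_⟩ (gd_gT1 g0) (gN0 p) (gN0 p)
  · exact in_of (by norm_num [vl, BB, SS]) (by norm_num [vl, BB, SS]) l0 r0
  · exact in_of (by norm_num [vl, BB, SS]) (by norm_num [vl, BB, SS]) l1 r1
  · exact in_of (by norm_num [vl, BB, SS]) (by norm_num [vl, BB, SS]) l2 r2

theorem clPK {p : P} (l0 : 1/10 ≤ p 0) (r0 : p 0 ≤ 1) (l1 : 1/20 ≤ p 1) (r1 : p 1 ≤ 9/20) (l2 : 0 ≤ p 2) (r2 : p 2 ≤ 1/10) :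
    0 < (D 2 (ev P0)) p ∧ Sm (ev P0) p := by
  refine root_PK p ⟨?_, ?_, ?_⟩ (gN0 p) (gN0 p) (gN0 p)
  · exact in_of (by norm_num [vl, BB, SS]) (by norm_num [vl, BB, SS]) l0 r0
  · exact in_of (by norm_num [vl, BB, SS]) (by norm_num [vl, BB, SS]) l1 r1
  · exact in_of (by norm_num [vl, BB, SS]) (by norm_num [vl, BB, SS]) l2 r2

theorem clPL {p : P} (l0 : 1/10 ≤ p 0) (r0 : p 0 ≤ 1) (l1 : 9/20 ≤ p 1) (r1 : p 1 ≤ 9/10) (l2 : 0 ≤ p 2) (r2 : p 2 ≤ 1/10)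
    (g0 : p 0 * p 1 + p 1 + p 0 * p 1 * p 1 - 1 ≤ 0) :
    0 < (D 2 (ev P2)) p ∧ Sm (ev P2) p := by
  refine root_PL p ⟨?_, ?_, ?_⟩ (gd_gT1 g0) (gN0 p) (gN0 p)
  · exact in_of (by norm_num [vl, BB, SS]) (by norm_num [vl, BB, SS]) l0 r0
  · exact in_of (by norm_num [vl, BB, SS]) (by norm_num [vl, BB, SS]) l1 r1
  · exact in_of (by norm_num [vl, BB, SS]) (by norm_num [vl, BB, SS]) l2 r2

theorem clPM {p : P} (l0 : 1/10 ≤ p 0) (r0 : p 0 ≤ 1) (l1 : 1/20 ≤ p 1) (r1 : p 1 ≤ 9/20) (l2 : 1/10 ≤ p 2) (r2 : p 2 ≤ 1)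
    (g0 : p 0 * p 1 + p 1 + p 0 * p 1 * p 1 - 1 ≤ 0) :
    0 < (ev P0) p ∧ Sm (ev P0) p := by
  refine root_PM p ⟨?_, ?_, ?_⟩ (gd_gT1 g0) (gN0 p) (gN0 p)
  · exact in_of (by norm_num [vl, BB, SS]) (by norm_num [vl, BB, SS]) l0 r0
  · exact in_of (by norm_num [vl, BB, SS]) (by norm_num [vl, BB, SS]) l1 r1
  · exact in_of (by norm_num [vl, BB, SS]) (by norm_num [vl, BB, SS]) l2 r2

theorem clPN {p : P} (l0 : 1/10 ≤ p 0) (r0 : p 0 ≤ 1) (l1 : 9/20 ≤ p 1) (r1 : p 1 ≤ 9/10) (l2 : 1/10 ≤ p 2) (r2 : p 2 ≤ 1)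
    (g0 : p 0 * p 1 + p 1 + p 0 * p 1 * p 1 - 1 ≤ 0) :
    0 < (ev P2) p ∧ Sm (ev P2) p := by
  refine root_PN p ⟨?_, ?_, ?_⟩ (gd_gT1 g0) (gN0 p) (gN0 p)
  · exact in_of (by norm_num [vl, BB, SS]) (by norm_num [vl, BB, SS]) l0 r0
  · exact in_of (by norm_num [vl, BB, SS]) (by norm_num [vl, BB, SS]) l1 r1
  · exact in_of (by norm_num [vl, BB, SS]) (by norm_num [vl, BB, SS]) l2 r2

theorem clPX {p : P} (l0 : 0 ≤ p 0) (r0 : p 0 ≤ 3/50) (l1 : 9/10 ≤ p 1) (r1 : p 1 ≤ 1) (l2 : 9/10 ≤ p 2) (r2 : p 2 ≤ 1)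
    (g0 : p 0 * p 1 + p 1 + p 0 * p 1 * p 1 - 1 ≤ 0) :
    0 < (fO.sub (fO.nat 0) (D 0 (D 2 (ev P2)))) p ∧ Sm (ev P2) p := by
  refine root_PX p ⟨?_, ?_, ?_⟩ (gd_gT1 g0) (gN0 p) (gN0 p)
  · exact in_of (by norm_num [vl, BB, SS]) (by norm_num [vl, BB, SS]) l0 r0
  · exact in_of (by norm_num [vl, BB, SS]) (by norm_num [vl, BB, SS]) l1 r1
  · exact in_of (by norm_num [vl, BB, SS]) (by norm_num [vl, BB, SS]) l2 r2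

theorem clPP {p : P} (l0 : 0 ≤ p 0) (r0 : p 0 ≤ 3/50) (l1 : 9/10 ≤ p 1) (r1 : p 1 ≤ 1) (l2 : 1/10 ≤ p 2) (r2 : p 2 ≤ 9/10)
    (g0 : p 0 * p 1 + p 1 + p 0 * p 1 * p 1 - 1 ≤ 0) :
    0 < (D 0 (ev P2)) p ∧ Sm (ev P2) p := by
  refine root_PP p ⟨?_, ?_, ?_⟩ (gd_gT1 g0) (gN0 p) (gN0 p)
  · exact in_of (by norm_num [vl, BB, SS]) (by norm_num [vl, BB, SS]) l0 r0
  · exact in_of (by norm_num [vl, BB, SS]) (by norm_num [vl, BB, SS]) l1 r1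
  · exact in_of (by norm_num [vl, BB, SS]) (by norm_num [vl, BB, SS]) l2 r2

theorem clYF {p : P} (l0 : 0 ≤ p 0) (r0 : p 0 ≤ 1/10) (l1 : 9/10 ≤ p 1) (r1 : p 1 ≤ 1) (l2 : 0 ≤ p 2) (r2 : p 2 ≤ 3/20) :
    0 < (D 0 (D 2 (ev Y7))) p ∧ Sm (ev Y7) p := by
  refine root_YF p ⟨?_, ?_, ?_⟩ (gN0 p) (gN0 p) (gN0 p)
  · exact in_of (by norm_num [vl, BB, SS]) (by norm_num [vl, BB, SS]) l0 r0
  · exact in_of (by norm_num [vl, BB, SS]) (by norm_num [vl, BB, SS]) l1 r1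
  · exact in_of (by norm_num [vl, BB, SS]) (by norm_num [vl, BB, SS]) l2 r2

theorem clYG {p : P} (l0 : 1/10 ≤ p 0) (r0 : p 0 ≤ 3/5) (l1 : 9/10 ≤ p 1) (r1 : p 1 ≤ 1) (l2 : 0 ≤ p 2) (r2 : p 2 ≤ 3/20) :
    0 < (D 2 (ev Y7)) p ∧ Sm (ev Y7) p := by
  refine root_YG p ⟨?_, ?_, ?_⟩ (gN0 p) (gN0 p) (gN0 p)
  · exact in_of (by norm_num [vl, BB, SS]) (by norm_num [vl, BB, SS]) l0 r0
  · exact in_of (by norm_num [vl, BB, SS]) (by norm_num [vl, BB, SS]) l1 r1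
  · exact in_of (by norm_num [vl, BB, SS]) (by norm_num [vl, BB, SS]) l2 r2

theorem clYH {p : P} (l0 : 0 ≤ p 0) (r0 : p 0 ≤ 1/10) (l1 : 0 ≤ p 1) (r1 : p 1 ≤ 1) (l2 : 3/20 ≤ p 2) (r2 : p 2 ≤ 193/200)
    (g0 : Real.cos (Real.pi / 2 * p 2) - p 1 ≤ 0) :
    0 < (D 0 (ev Y7)) p ∧ Sm (ev Y7) p := by
  refine root_YH p ⟨?_, ?_, ?_⟩ (gd_gKy g0) (gN0 p) (gN0 p)
  · exact in_of (by norm_num [vl, BB, SS]) (by norm_num [vl, BB, SS]) l0 r0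
  · exact in_of (by norm_num [vl, BB, SS]) (by norm_num [vl, BB, SS]) l1 r1
  · exact in_of (by norm_num [vl, BB, SS]) (by norm_num [vl, BB, SS]) l2 r2

theorem clYI {p : P} (l0 : 0 ≤ p 0) (r0 : p 0 ≤ 1/10) (l1 : 0 ≤ p 1) (r1 : p 1 ≤ 1) (l2 : 193/200 ≤ p 2) (r2 : p 2 ≤ 1)
    (g0 : Real.cos (Real.pi / 2 * p 2) - p 1 ≤ 0) :
    0 < (fO.sub (fO.nat 0) (D 0 (D 2 (ev Y7)))) p ∧ Sm (ev Y7) p := by
  refine root_YI p ⟨?_, ?_, ?_⟩ (gd_gKy g0) (gN0 p) (gN0 p)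
  · exact in_of (by norm_num [vl, BB, SS]) (by norm_num [vl, BB, SS]) l0 r0
  · exact in_of (by norm_num [vl, BB, SS]) (by norm_num [vl, BB, SS]) l1 r1
  · exact in_of (by norm_num [vl, BB, SS]) (by norm_num [vl, BB, SS]) l2 r2

theorem clYE {p : P} (l0 : 1/10 ≤ p 0) (r0 : p 0 ≤ 3/5) (l1 : 1/4 ≤ p 1) (r1 : p 1 ≤ 1) (l2 : 3/20 ≤ p 2) (r2 : p 2 ≤ 1)
    (g0 : Real.sin (Real.pi / 2 * p 0) * Real.cos (Real.pi / 2 * (p 0 * p 1)) * Real.cos (Real.pi / 2 * p 2) -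
      Real.cos (Real.pi / 2 * p 0) * Real.sin (Real.pi / 2 * (p 0 * p 1)) ≤ 0)
    (g1 : p 0 + p 0 * p 1 - 1 ≤ 0) :
    0 < (ev Y7) p ∧ Sm (ev Y7) p := by
  refine root_YE p ⟨?_, ?_, ?_⟩ (gd_gYW g0) (gd_gYab g1) (gN0 p)
  · exact in_of (by norm_num [vl, BB, SS]) (by norm_num [vl, BB, SS]) l0 r0
  · exact in_of (by norm_num [vl, BB, SS]) (by norm_num [vl, BB, SS]) l1 r1
  · exact in_of (by norm_num [vl, BB, SS]) (by norm_num [vl, BB, SS]) l2 r2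

theorem clDA {p : P} (l0 : 1/10 ≤ p 0) (r0 : p 0 ≤ 3/5) (l1 : 0 ≤ p 1) (r1 : p 1 ≤ 1/40) (l2 : 0 ≤ p 2) (r2 : p 2 ≤ 1)
    (g0 : p 2 - Real.cos (Real.pi / 2 * p 0) ≤ 0) :
    0 < (D 1 (ev D7)) p ∧ Sm (ev D7) p := by
  refine root_DA p ⟨?_, ?_, ?_⟩ (gd_gDn g0) (gN0 p) (gN0 p)
  · exact in_of (by norm_num [vl, BB, SS]) (by norm_num [vl, BB, SS]) l0 r0
  · exact in_of (by norm_num [vl, BB, SS]) (by norm_num [vl, BB, SS]) l1 r1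
  · exact in_of (by norm_num [vl, BB, SS]) (by norm_num [vl, BB, SS]) l2 r2

theorem clDB {p : P} (l0 : 1/10 ≤ p 0) (r0 : p 0 ≤ 3/5) (l1 : 1/40 ≤ p 1) (r1 : p 1 ≤ 1/20) (l2 : 0 ≤ p 2) (r2 : p 2 ≤ 1)
    (g0 : p 2 - Real.cos (Real.pi / 2 * p 0) ≤ 0) :
    0 < (D 1 (ev D7)) p ∧ Sm (ev D7) p := by
  refine root_DB p ⟨?_, ?_, ?_⟩ (gd_gDn g0) (gN0 p) (gN0 p)
  · exact in_of (by norm_num [vl, BB, SS]) (by norm_num [vl, BB, SS]) l0 r0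
  · exact in_of (by norm_num [vl, BB, SS]) (by norm_num [vl, BB, SS]) l1 r1
  · exact in_of (by norm_num [vl, BB, SS]) (by norm_num [vl, BB, SS]) l2 r2

theorem clDC {p : P} (l0 : 1/5 ≤ p 0) (r0 : p 0 ≤ 3/5) (l1 : 1/20 ≤ p 1) (r1 : p 1 ≤ 3/20) (l2 : 0 ≤ p 2) (r2 : p 2 ≤ 1)
    (g0 : p 2 - Real.cos (Real.pi / 2 * p 0) ≤ 0) :
    0 < (D 1 (ev D7)) p ∧ Sm (ev D7) p := by
  refine root_DC p ⟨?_, ?_, ?_⟩ (gd_gDn g0) (gN0 p) (gN0 p)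
  · exact in_of (by norm_num [vl, BB, SS]) (by norm_num [vl, BB, SS]) l0 r0
  · exact in_of (by norm_num [vl, BB, SS]) (by norm_num [vl, BB, SS]) l1 r1
  · exact in_of (by norm_num [vl, BB, SS]) (by norm_num [vl, BB, SS]) l2 r2

theorem clQD {p : P} (l0 : 3/5 ≤ p 0) (r0 : p 0 ≤ 1) (l1 : 3/5 ≤ p 1) (r1 : p 1 ≤ 1) (l2 : 0 ≤ p 2) (r2 : p 2 ≤ 1)
    (g0 : Real.sin (Real.pi / 2 * p 0) * Real.sin (Real.pi / 2 * p 1) * Real.cos (Real.pi / 2 * p 2) -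
      Real.cos (Real.pi / 2 * p 0) * Real.cos (Real.pi / 2 * p 1) ≤ 0)
    (g1 : p 0 - p 1 ≤ 0) :
    0 < (D 2 (ev Q7)) p ∧ Sm (ev Q7) p := by
  refine root_QD p ⟨?_, ?_, ?_⟩ (gd_gW g0) (gd_gYX g1) (gN0 p)
  · exact in_of (by norm_num [vl, BB, SS]) (by norm_num [vl, BB, SS]) l0 r0
  · exact in_of (by norm_num [vl, BB, SS]) (by norm_num [vl, BB, SS]) l1 r1
  · exact in_of (by norm_num [vl, BB, SS]) (by norm_num [vl, BB, SS]) l2 r2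

theorem clZA {p : P} (l0 : 0 ≤ p 0) (r0 : p 0 ≤ 1/10) (l1 : 0 ≤ p 1) (r1 : p 1 ≤ 1/10) (l2 : 0 ≤ p 2) (r2 : p 2 ≤ 1) :
    0 < (D 0 (D 1 (ev Z0))) p ∧ Sm (ev Z0) p := by
  refine root_ZA p ⟨?_, ?_, ?_⟩ (gN0 p) (gN0 p) (gN0 p)
  · exact in_of (by norm_num [vl, BB, SS]) (by norm_num [vl, BB, SS]) l0 r0
  · exact in_of (by norm_num [vl, BB, SS]) (by norm_num [vl, BB, SS]) l1 r1
  · exact in_of (by norm_num [vl, BB, SS]) (by norm_num [vl, BB, SS]) l2 r2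

theorem clZB {p : P} (l0 : 1/10 ≤ p 0) (r0 : p 0 ≤ 1) (l1 : 0 ≤ p 1) (r1 : p 1 ≤ 1/10) (l2 : 0 ≤ p 2) (r2 : p 2 ≤ 1) :
    0 < (D 1 (ev Z0)) p ∧ Sm (ev Z0) p := by
  refine root_ZB p ⟨?_, ?_, ?_⟩ (gN0 p) (gN0 p) (gN0 p)
  · exact in_of (by norm_num [vl, BB, SS]) (by norm_num [vl, BB, SS]) l0 r0
  · exact in_of (by norm_num [vl, BB, SS]) (by norm_num [vl, BB, SS]) l1 r1
  · exact in_of (by norm_num [vl, BB, SS]) (by norm_num [vl, BB, SS]) l2 r2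

theorem clZC {p : P} (l0 : 0 ≤ p 0) (r0 : p 0 ≤ 1/10) (l1 : 1/10 ≤ p 1) (r1 : p 1 ≤ 9/20) (l2 : 0 ≤ p 2) (r2 : p 2 ≤ 1) :
    0 < (D 0 (ev Z0)) p ∧ Sm (ev Z0) p := by
  refine root_ZC p ⟨?_, ?_, ?_⟩ (gN0 p) (gN0 p) (gN0 p)
  · exact in_of (by norm_num [vl, BB, SS]) (by norm_num [vl, BB, SS]) l0 r0
  · exact in_of (by norm_num [vl, BB, SS]) (by norm_num [vl, BB, SS]) l1 r1
  · exact in_of (by norm_num [vl, BB, SS]) (by norm_num [vl, BB, SS]) l2 r2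

theorem clZD {p : P} (l0 : 0 ≤ p 0) (r0 : p 0 ≤ 1/10) (l1 : 9/20 ≤ p 1) (r1 : p 1 ≤ 4/5) (l2 : 0 ≤ p 2) (r2 : p 2 ≤ 1) :
    0 < (D 0 (ev Z2)) p ∧ Sm (ev Z2) p := by
  refine root_ZD p ⟨?_, ?_, ?_⟩ (gN0 p) (gN0 p) (gN0 p)
  · exact in_of (by norm_num [vl, BB, SS]) (by norm_num [vl, BB, SS]) l0 r0
  · exact in_of (by norm_num [vl, BB, SS]) (by norm_num [vl, BB, SS]) l1 r1
  · exact in_of (by norm_num [vl, BB, SS]) (by norm_num [vl, BB, SS]) l2 r2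

theorem clZE {p : P} (l0 : 0 ≤ p 0) (r0 : p 0 ≤ 1/10) (l1 : 4/5 ≤ p 1) (r1 : p 1 ≤ 93/100) (l2 : 0 ≤ p 2) (r2 : p 2 ≤ 1) :
    0 < (D 0 (ev Z7)) p ∧ Sm (ev Z7) p := by
  refine root_ZE p ⟨?_, ?_, ?_⟩ (gN0 p) (gN0 p) (gN0 p)
  · exact in_of (by norm_num [vl, BB, SS]) (by norm_num [vl, BB, SS]) l0 r0
  · exact in_of (by norm_num [vl, BB, SS]) (by norm_num [vl, BB, SS]) l1 r1
  · exact in_of (by norm_num [vl, BB, SS]) (by norm_num [vl, BB, SS]) l2 r2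

theorem clZF {p : P} (l0 : 1/10 ≤ p 0) (r0 : p 0 ≤ 1) (l1 : 1/10 ≤ p 1) (r1 : p 1 ≤ 9/20) (l2 : 0 ≤ p 2) (r2 : p 2 ≤ 1)
    (g0 : ev Z2 p ≤ 0) :
    0 < (ev Z0) p ∧ Sm (ev Z0) p := by
  refine root_ZF p ⟨?_, ?_, ?_⟩ g0 (gN0 p) (gN0 p)
  · exact in_of (by norm_num [vl, BB, SS]) (by norm_num [vl, BB, SS]) l0 r0
  · exact in_of (by norm_num [vl, BB, SS]) (by norm_num [vl, BB, SS]) l1 r1
  · exact in_of (by norm_num [vl, BB, SS]) (by norm_num [vl, BB, SS]) l2 r2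

theorem clZG {p : P} (l0 : 1/10 ≤ p 0) (r0 : p 0 ≤ 1) (l1 : 9/20 ≤ p 1) (r1 : p 1 ≤ 93/100) (l2 : 0 ≤ p 2) (r2 : p 2 ≤ 1)
    (g0 : ev Z2 p ≤ 0)
    (g1 : ev Z0 p ≤ 0) :
    0 < (ev Z7) p ∧ Sm (ev Z7) p := by
  refine root_ZG p ⟨?_, ?_, ?_⟩ g0 g1 (gN0 p)
  · exact in_of (by norm_num [vl, BB, SS]) (by norm_num [vl, BB, SS]) l0 r0
  · exact in_of (by norm_num [vl, BB, SS]) (by norm_num [vl, BB, SS]) l1 r1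
  · exact in_of (by norm_num [vl, BB, SS]) (by norm_num [vl, BB, SS]) l2 r2

theorem clZH {p : P} (l0 : 0 ≤ p 0) (r0 : p 0 ≤ 1/10) (l1 : 93/100 ≤ p 1) (r1 : p 1 ≤ 1) (l2 : 0 ≤ p 2) (r2 : p 2 ≤ 1) :
    0 < (fO.sub (fO.nat 0) (D 0 (D 1 (ev Z7)))) p ∧ Sm (ev Z7) p := by
  refine root_ZH p ⟨?_, ?_, ?_⟩ (gN0 p) (gN0 p) (gN0 p)
  · exact in_of (by norm_num [vl, BB, SS]) (by norm_num [vl, BB, SS]) l0 r0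
  · exact in_of (by norm_num [vl, BB, SS]) (by norm_num [vl, BB, SS]) l1 r1
  · exact in_of (by norm_num [vl, BB, SS]) (by norm_num [vl, BB, SS]) l2 r2

theorem clZI {p : P} (l0 : 1/10 ≤ p 0) (r0 : p 0 ≤ 891/1000) (l1 : 93/100 ≤ p 1) (r1 : p 1 ≤ 1) (l2 : 0 ≤ p 2) (r2 : p 2 ≤ 1) :
    0 < (fO.sub (fO.nat 0) (D 1 (ev Z7))) p ∧ Sm (ev Z7) p := by
  refine root_ZI p ⟨?_, ?_, ?_⟩ (gN0 p) (gN0 p) (gN0 p)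
  · exact in_of (by norm_num [vl, BB, SS]) (by norm_num [vl, BB, SS]) l0 r0
  · exact in_of (by norm_num [vl, BB, SS]) (by norm_num [vl, BB, SS]) l1 r1
  · exact in_of (by norm_num [vl, BB, SS]) (by norm_num [vl, BB, SS]) l2 r2

theorem clZJ {p : P} (l0 : 0 ≤ p 0) (r0 : p 0 ≤ 3/50) (l1 : 9/10 ≤ p 1) (r1 : p 1 ≤ 1) (l2 : 0 ≤ p 2) (r2 : p 2 ≤ 0) :
    0 < (fO.sub (fO.nat 0) (D 0 (D 1 (ev Z2)))) p ∧ Sm (ev Z2) p := by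
  refine root_ZJ p ⟨?_, ?_, ?_⟩ (gN0 p) (gN0 p) (gN0 p)
  · exact in_of (by norm_num [vl, BB, SS]) (by norm_num [vl, BB, SS]) l0 r0
  · exact in_of (by norm_num [vl, BB, SS]) (by norm_num [vl, BB, SS]) l1 r1
  · exact in_of (by norm_num [vl, BB, SS]) (by norm_num [vl, BB, SS]) l2 r2

theorem clOA {p : P} (l0 : 0 ≤ p 0) (r0 : p 0 ≤ 3/25) (l1 : 0 ≤ p 1) (r1 : p 1 ≤ 3/25) (l2 : 0 ≤ p 2) (r2 : p 2 ≤ 1)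
    (g0 : 25 * (p 0 + p 1) - 3 ≤ 0) :
    0 < (D 1 (D 0 (ev O7))) p ∧ Sm (ev O7) p := by
  refine root_OA p ⟨?_, ?_, ?_⟩ (gd_gO g0) (gN0 p) (gN0 p)
  · exact in_of (by norm_num [vl, BB, SS]) (by norm_num [vl, BB, SS]) l0 r0
  · exact in_of (by norm_num [vl, BB, SS]) (by norm_num [vl, BB, SS]) l1 r1
  · exact in_of (by norm_num [vl, BB, SS]) (by norm_num [vl, BB, SS]) l2 r2

theorem clOB {p : P} (l0 : 0 ≤ p 0) (r0 : p 0 ≤ 3/25) (l1 : 0 ≤ p 1) (r1 : p 1 ≤ 3/25) (l2 : 0 ≤ p 2) (r2 : p 2 ≤ 1)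
    (g0 : 25 * (p 0 + p 1) - 3 ≤ 0) :
    0 < (D 1 (D 1 (ev O7))) p ∧ Sm (ev O7) p := by
  refine root_OB p ⟨?_, ?_, ?_⟩ (gd_gO g0) (gN0 p) (gN0 p)
  · exact in_of (by norm_num [vl, BB, SS]) (by norm_num [vl, BB, SS]) l0 r0
  · exact in_of (by norm_num [vl, BB, SS]) (by norm_num [vl, BB, SS]) l1 r1
  · exact in_of (by norm_num [vl, BB, SS]) (by norm_num [vl, BB, SS]) l2 r2

end H41MK
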