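import Pool.Agent.H41.MK.Defs

/-!
# MK-3c: `t ^ p < 1 - kk t` inside `(0, 1)` for `p ≥ 13 / 11`
-/

set_option autoImplicit false

namespace H41MK

open Real

private theorem mk4_kk (t : ℝ) : 1 - kk t = 11 / 20 * t + 9 / 20 * sin (π / 2 * t) ^ 2 := by
  have h := Real.sin_sq_add_cos_sq (π / 2 * t)
  unfold kk csq lam
  linear_combination (-9 / 20 : ℝ) * h

/-- tangent to `t ^ (2 / 11)` at `r ^ 11` -/
private theorem mk4_tan {t r : ℝ} (h0 : 0 < t) (hr : 0 < r) :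
    t ^ (2 / 11 : ℝ) ≤ r ^ 2 * (9 / 11 + 2 / 11 * (t / r ^ 11)) := by
  have hr11 : 0 < r ^ 11 := pow_pos hr 11
  have h1 : t = r ^ 11 * (t / r ^ 11) := by field_simp
  have h2 : (r ^ 11) ^ (2 / 11 : ℝ) = r ^ 2 := by
    rw [← Real.rpow_natCast r 11, ← Real.rpow_mul hr.le, ← Real.rpow_natCast r 2]
    norm_num
  have h3 : 0 < t / r ^ 11 := div_pos h0 hr11
  have h4 := rpow_one_add_le_one_add_mul_self (s := t / r ^ 11 - 1) (by linarith)
    (p := 2 / 11) (by norm_num) (by norm_num)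
  rw [add_sub_cancel] at h4
  have h5 : t ^ (2 / 11 : ℝ) = r ^ 2 * (t / r ^ 11) ^ (2 / 11 : ℝ) := by
    conv_lhs => rw [h1]
    rw [Real.mul_rpow hr11.le h3.le, h2]
  rw [h5]
  apply mul_le_mul_of_nonneg_left _ (by positivity)
  linarith

/-- polynomial lower bound -/
private theorem mk4_sin {t : ℝ} (h0 : 0 < t) (h1 : t ≤ 1) :
    t * (9.869 / 4 * t - 97.42 / 48 * t ^ 3) ≤ sin (π / 2 * t) ^ 2 := by
  have hp := Real.pi_gt_d4
  have hp' := Real.pi_lt_d4
  have hx0 : 0 < π / 2 * t := by positivity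
  have hx1 : π / 2 * t ≤ 1.5708 := by nlinarith
  set x := π / 2 * t with hx
  have h2 := Real.sin_ge_sub_cube hx0.le
  have h3 : 0 ≤ x - x ^ 3 / 6 := by
    have : x ^ 2 ≤ 6 := by nlinarith
    nlinarith [mul_nonneg hx0.le (by linarith : 0 ≤ 6 - x ^ 2)]
  have h4 : (x - x ^ 3 / 6) ^ 2 ≤ sin x ^ 2 := pow_le_pow_left₀ h3 h2 2
  have h5 : x ^ 2 - x ^ 4 / 3 ≤ (x - x ^ 3 / 6) ^ 2 := by nlinarith [sq_nonneg (x ^ 3)]
  have h6 : 9.869 / 4 * t ^ 2 ≤ x ^ 2 := by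
    have h7 : (9.869 : ℝ) ≤ π ^ 2 := by nlinarith
    have h8 : x ^ 2 = π ^ 2 / 4 * t ^ 2 := by rw [hx]; ring
    rw [h8]
    have : 0 ≤ t ^ 2 := by positivity
    nlinarith
  have h7 : x ^ 4 / 3 ≤ 97.42 / 48 * t ^ 4 := by
    have h8 : π ^ 4 ≤ 97.42 := by
      have h9 : π ^ 4 ≤ 3.1416 ^ 4 := pow_le_pow_left₀ Real.pi_pos.le hp'.le 4
      refine h9.trans ?_
      norm_num
    have h9 : x ^ 4 / 3 = π ^ 4 / 48 * t ^ 4 := by rw [hx]; ring
    rw [h9]
    have : 0 ≤ t ^ 4 := by positivity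
    nlinarith
  nlinarith

/-- `sin ^ 2` is at least linear on `[1 / 2, 1]` -/
private theorem mk4_half {t : ℝ} (h0 : 1 / 2 ≤ t) (h1 : t ≤ 1) : t ≤ sin (π / 2 * t) ^ 2 := by
  have hp := Real.pi_pos
  have h2 := Real.mul_le_sin (x := π * (t - 1 / 2)) (by apply mul_nonneg hp.le; linarith)
    (by nlinarith)
  have h3 : 2 / π * (π * (t - 1 / 2)) = 2 * t - 1 := by
    field_simp
  rw [h3] at h2
  have h4 : sin (π * (t - 1 / 2)) = 2 * sin (π / 2 * t) ^ 2 - 1 := by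
    have h5 : π * (t - 1 / 2) = 2 * (π / 2 * t) - π / 2 := by ring
    rw [h5, Real.sin_sub_pi_div_two, Real.cos_two_mul]
    have h6 := Real.sin_sq_add_cos_sq (π / 2 * t)
    linarith
  rw [h4] at h2
  linarith

/-- the inequality on an interval `[a, b]`, from the tangent at `r ^ 11` -/
private theorem mk4_piece {t a b r : ℝ} (h0 : 0 < t) (ha : 0 ≤ a) (hat : a ≤ t) (htb : t ≤ b)
    (hr : 0 < r) {α β : ℝ} (hα : r ^ 2 * (9 / 11) ≤ α)
    (hβ : 2 / 11 ≤ β * r ^ 9)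
    (h1 : α + β * a < 11 / 20 + 9 / 20 * (9.869 / 4 * a - 97.42 / 48 * a ^ 3))
    (h2 : α + β * b < 11 / 20 + 9 / 20 * (9.869 / 4 * b - 97.42 / 48 * b ^ 3)) :
    t ^ (2 / 11 : ℝ) < 11 / 20 + 9 / 20 * (9.869 / 4 * t - 97.42 / 48 * t ^ 3) := by
  have h3 := mk4_tan h0 hr
  have hr9 : 0 < r ^ 9 := pow_pos hr 9
  have h4 : r ^ 2 * (9 / 11 + 2 / 11 * (t / r ^ 11)) ≤ α + β * t := by
    have h5 : r ^ 2 * (9 / 11 + 2 / 11 * (t / r ^ 11)) = r ^ 2 * (9 / 11) + 2 / 11 / r ^ 9 * t := by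
      field_simp
    rw [h5]
    have h6 : 2 / 11 / r ^ 9 ≤ β := by rwa [div_le_iff₀ hr9]
    have h7 := mul_le_mul_of_nonneg_right h6 h0.le
    linarith
  refine (h3.trans h4).trans_lt ?_
  -- concavity
  rcases eq_or_lt_of_le (hat.trans htb) with hab | hab
  · have : t = a := le_antisymm (htb.trans hab.symm.le) hat
    rw [this]
    exact h1
  have h8 : 0 ≤ (b - t) * (t - a) * (t + a + b) :=
    mul_nonneg (mul_nonneg (by linarith) (by linarith)) (by linarith)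
  -- `(b - a) (value at t) ≥ (b - t) (value at a) + (t - a) (value at b)`
  set A := 11 / 20 + 9 / 20 * (9.869 / 4 * a - 97.42 / 48 * a ^ 3) - (α + β * a) with hA
  set B := 11 / 20 + 9 / 20 * (9.869 / 4 * b - 97.42 / 48 * b ^ 3) - (α + β * b) with hB
  have hA0 : 0 < A := by rw [hA]; linarith
  have hB0 : 0 < B := by rw [hB]; linarith
  have h9 : (b - a) * (11 / 20 + 9 / 20 * (9.869 / 4 * t - 97.42 / 48 * t ^ 3) - (α + β * t)) =
      (b - t) * A + (t - a) * B +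
        (b - a) * (9 / 20 * (97.42 / 48)) * ((b - t) * (t - a) * (t + a + b)) := by
    rw [hA, hB]
    ring
  have h10 : 0 < (b - t) * A + (t - a) * B := by
    rcases eq_or_lt_of_le hat with h11 | h11
    · rw [← h11]
      have : 0 < (b - a) * A := mul_pos (by linarith) hA0
      linarith
    · have h12 : 0 < (t - a) * B := mul_pos (by linarith) hB0
      have h13 : 0 ≤ (b - t) * A := mul_nonneg (by linarith) hA0.le
      linarith
  have h11 : 0 ≤ (b - a) * (9 / 20 * (97.42 / 48)) * ((b - t) * (t - a) * (t + a + b)) :=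
    mul_nonneg (mul_nonneg (by linarith) (by norm_num)) h8
  have h12 : 0 < (b - a) *
      (11 / 20 + 9 / 20 * (9.869 / 4 * t - 97.42 / 48 * t ^ 3) - (α + β * t)) := by
    rw [h9]
    linarith
  have h13 := (mul_pos_iff_of_pos_left (by linarith : (0 : ℝ) < b - a)).1 h12
  linarith

private theorem mk4_main {t : ℝ} (h0 : 0 < t) (h1 : t ≤ 1 / 2) :
    t ^ (2 / 11 : ℝ) < 11 / 20 + 9 / 20 * (9.869 / 4 * t - 97.42 / 48 * t ^ 3) := by
  rcases le_total t (1 / 20) with h2 | h2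
  · exact mk4_piece (a := 0) (b := 1 / 20) (r := 3 / 4) (α := 0.461) (β := 2.43) h0 le_rfl h0.le h2
      (by norm_num) (by norm_num) (by norm_num) (by norm_num) (by norm_num)
  rcases le_total t 0.157 with h3 | h3
  · exact mk4_piece (a := 1 / 20) (b := 0.157) (r := 41 / 50) (α := 0.55015) (β := 1.0848) h0
      (by norm_num) h2 h3 (by norm_num) (by norm_num) (by norm_num) (by norm_num) (by norm_num)
  · exact mk4_piece (a := 0.157) (b := 1 / 2) (r := 87 / 100) (α := 0.6193) (β := 0.6368) h0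
      (by norm_num) h3 h1 (by norm_num) (by norm_num) (by norm_num) (by norm_num) (by norm_num)

/-- MK-3c: `t^p < 1 - kk t` inside `(0,1)` for `p ≥ 13/11`. -/
theorem rpow_lt {p t : ℝ} (hp : 13 / 11 ≤ p) (h0 : 0 < t) (h1 : t < 1) : t ^ p < 1 - kk t := by
  rw [mk4_kk]
  rcases le_total t (1 / 2) with h2 | h2
  · have h3 : t ^ p ≤ t ^ (13 / 11 : ℝ) := Real.rpow_le_rpow_of_exponent_ge h0 h1.le hp
    have h4 : t ^ (13 / 11 : ℝ) = t * t ^ (2 / 11 : ℝ) := by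
      rw [show (13 / 11 : ℝ) = 1 + 2 / 11 by norm_num, Real.rpow_add h0, Real.rpow_one]
    have h5 := mul_lt_mul_of_pos_left (mk4_main h0 h2) h0
    have h6 := mk4_sin h0 h1.le
    linarith
  · have h3 : t ^ p < t ^ (1 : ℝ) := Real.rpow_lt_rpow_of_exponent_gt h0 h1 (by linarith)
    rw [Real.rpow_one] at h3
    have h4 := mk4_half h2 h1.le
    linarith

end H41MK
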