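import Pool.Agent.H41.MK.Defs
import Pool.Agent.H45.FT.Kern2

/-!
# The three-point kernel of the mixed certificate is positive semidefinite (row MK-2)
-/

namespace H41MK

open Finset H45FT MeasureTheory

/-! ### A second subtraction from the bridge kernel -/

private theorem mk2_cos_two (a : ℝ) :
    ∫ t in (0 : ℝ)..a, 2 * Real.pi * Real.cos (2 * Real.pi * t) = Real.sin (2 * Real.pi * a) := by
  have h : ∀ t ∈ Set.uIcc 0 a,
      HasDerivAt (fun t => Real.sin (2 * Real.pi * t))
        (2 * Real.pi * Real.cos (2 * Real.pi * t)) t := by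
    intro t _
    have h1 : HasDerivAt (fun t => 2 * Real.pi * t) (2 * Real.pi) t := by
      simpa using (hasDerivAt_id t).const_mul (2 * Real.pi)
    refine ((Real.hasDerivAt_sin (2 * Real.pi * t)).comp t h1).congr_deriv ?_
    ring
  rw [intervalIntegral.integral_eq_sub_of_hasDerivAt h (by
    apply Continuous.intervalIntegrable; fun_prop)]
  simp

private theorem mk2_cos_two_sq :
    ∫ t in (0 : ℝ)..(1 / 2), (2 * Real.pi * Real.cos (2 * Real.pi * t)) *
      (2 * Real.pi * Real.cos (2 * Real.pi * t)) = Real.pi ^ 2 := by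
  have hpi := Real.pi_ne_zero
  have h : ∀ t ∈ Set.uIcc (0 : ℝ) (1 / 2),
      HasDerivAt (fun t => 2 * Real.pi ^ 2 * t + Real.pi / 2 * Real.sin (4 * Real.pi * t))
        ((2 * Real.pi * Real.cos (2 * Real.pi * t)) * (2 * Real.pi * Real.cos (2 * Real.pi * t))) t := by
    intro t _
    have h1 : HasDerivAt (fun t => 4 * Real.pi * t) (4 * Real.pi) t := by
      simpa using (hasDerivAt_id t).const_mul (4 * Real.pi)
    have h3 : HasDerivAt (fun t => 2 * Real.pi ^ 2 * t) (2 * Real.pi ^ 2) t := by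
      simpa using (hasDerivAt_id t).const_mul (2 * Real.pi ^ 2)
    have h2 : HasDerivAt (fun t => 2 * Real.pi ^ 2 * t + Real.pi / 2 * Real.sin (4 * Real.pi * t))
        (2 * Real.pi ^ 2 + Real.pi / 2 * (Real.cos (4 * Real.pi * t) * (4 * Real.pi))) t :=
      h3.add (((Real.hasDerivAt_sin (4 * Real.pi * t)).comp t h1).const_mul (Real.pi / 2))
    refine h2.congr_deriv ?_
    rw [show 4 * Real.pi * t = 2 * (2 * Real.pi * t) by ring, Real.cos_two_mul]
    ring
  rw [intervalIntegral.integral_eq_sub_of_hasDerivAt h (by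
    apply Continuous.intervalIntegrable; fun_prop)]
  rw [show 4 * Real.pi * (1 / 2) = 2 * Real.pi by ring, Real.sin_two_pi, mul_zero, mul_zero,
    mul_zero, Real.sin_zero]
  ring

private theorem mk2_sin_reflect (a : ℝ) :
    Real.sin (2 * Real.pi * (1 - a)) = -Real.sin (2 * Real.pi * a) := by
  rw [show 2 * Real.pi * (1 - a) = 2 * Real.pi - 2 * Real.pi * a by ring, Real.sin_two_pi_sub]

theorem psdi_bridge_sub_sin : PSDI (fun a b => bridge a b -
    Real.sin (2 * Real.pi * a) * Real.sin (2 * Real.pi * b) / Real.pi ^ 2) := by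
  have hpi := Real.pi_ne_zero
  let m : Set.Icc (0 : ℝ) 1 → ℝ := fun a => min (a : ℝ) (1 - a)
  have hm : ∀ a, m a ∈ Set.Icc (0 : ℝ) (1 / 2) := by
    intro a
    refine ⟨le_min a.2.1 (by linarith [a.2.2]), ?_⟩
    rcases le_total (a : ℝ) (1 / 2) with h | h
    · exact (min_le_left _ _).trans h
    · exact (min_le_right _ _).trans (by linarith)
  let v : Fin 2 → ℝ → ℝ := ![fun _ => 1, fun t => 2 * Real.pi * Real.cos (2 * Real.pi * t)]
  let P : Fin 2 → ℝ → ℝ := ![fun a => a, fun a => Real.sin (2 * Real.pi * a)]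
  let N : Fin 2 → ℝ := ![1 / 2, Real.pi ^ 2]
  have hv : ∀ i, Continuous (v i) := by
    intro i
    fin_cases i
    · exact continuous_const
    · show Continuous (fun t => 2 * Real.pi * Real.cos (2 * Real.pi * t))
      fun_prop
  have i01 : ∫ t in (0 : ℝ)..(1 / 2), 2 * Real.pi * Real.cos (2 * Real.pi * t) = 0 := by
    rw [mk2_cos_two, show 2 * Real.pi * (1 / 2) = Real.pi by ring, Real.sin_pi]
  have h := min_bessel (T := 1 / 2) (by norm_num) m hm Finset.univ v hv N (by
      intro i _; fin_cases i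
      · show (0 : ℝ) < 1 / 2; norm_num
      · show 0 < Real.pi ^ 2; positivity) (by
      intro i _ j _
      fin_cases i <;> fin_cases j
      · show ∫ t in (0 : ℝ)..(1 / 2), (1 : ℝ) * 1 = 1 / 2
        simp
      · show ∫ t in (0 : ℝ)..(1 / 2), (1 : ℝ) * (2 * Real.pi * Real.cos (2 * Real.pi * t)) = 0
        simp only [one_mul]; exact i01
      · show ∫ t in (0 : ℝ)..(1 / 2), (2 * Real.pi * Real.cos (2 * Real.pi * t)) * (1 : ℝ) = 0
        simp only [mul_one]; exact i01
      · exact mk2_cos_two_sq) P (by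
      intro i _ a _
      fin_cases i
      · show ∫ t in (0 : ℝ)..a, (1 : ℝ) = a
        simp
      · exact mk2_cos_two a)
  let sgn : Set.Icc (0 : ℝ) 1 → ℝ := fun a => if (a : ℝ) ≤ 1 / 2 then 1 else -1
  refine ((PSD.rankOne sgn).mul h).congr fun a b => ?_
  have hsum : ∑ i ∈ (Finset.univ : Finset (Fin 2)), P i (m a) * P i (m b) / N i
      = m a * m b / (1 / 2) +
        Real.sin (2 * Real.pi * m a) * Real.sin (2 * Real.pi * m b) / Real.pi ^ 2 := by
    rw [Fin.sum_univ_two]; rfl
  rw [hsum]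
  show min (a : ℝ) b + max ((a : ℝ) + b - 1) 0 - 2 * a * b -
      Real.sin (2 * Real.pi * a) * Real.sin (2 * Real.pi * b) / Real.pi ^ 2 =
    sgn a * sgn b * (min (m a) (m b) - (m a * m b / (1 / 2) +
      Real.sin (2 * Real.pi * m a) * Real.sin (2 * Real.pi * m b) / Real.pi ^ 2))
  have ha1 := a.2.1
  have ha2 := a.2.2
  have hb1 := b.2.1
  have hb2 := b.2.2
  have key : ∀ a : Set.Icc (0 : ℝ) 1, (m a = a ∧ sgn a = 1 ∧ (a : ℝ) ≤ 1 / 2) ∨
      (m a = 1 - a ∧ sgn a = -1 ∧ 1 / 2 < (a : ℝ)) := by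
    intro a
    by_cases h : (a : ℝ) ≤ 1 / 2
    · left; exact ⟨min_eq_left (by linarith), if_pos h, h⟩
    · right; push Not at h
      exact ⟨min_eq_right (by linarith), if_neg (not_le.mpr h), h⟩
  rcases key a with ⟨h1, h2, h3⟩ | ⟨h1, h2, h3⟩ <;> rcases key b with ⟨h4, h5, h6⟩ | ⟨h4, h5, h6⟩ <;>
    rw [h1, h2, h4, h5]
  · rw [max_eq_right (by linarith)]; ring
  · rw [mk2_sin_reflect]
    rw [min_eq_left (by linarith : (a : ℝ) ≤ b)]
    rcases le_total (a : ℝ) (1 - b) with h7 | h7
    · rw [min_eq_left h7, max_eq_right (by linarith)]; ring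
    · rw [min_eq_right h7, max_eq_left (by linarith)]; ring
  · rw [mk2_sin_reflect]
    rw [min_eq_right (by linarith : (b : ℝ) ≤ a)]
    rcases le_total (1 - a : ℝ) b with h7 | h7
    · rw [min_eq_left h7, max_eq_left (by linarith)]; ring
    · rw [min_eq_right h7, max_eq_right (by linarith)]; ring
  · rw [mk2_sin_reflect, mk2_sin_reflect, max_eq_left (by linarith)]
    rcases le_total (a : ℝ) b with h7 | h7
    · rw [min_eq_left h7, min_eq_right (by linarith)]; ring
    · rw [min_eq_right h7, min_eq_left (by linarith)]; ring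

/-! ### The kernels of the certificate -/

private theorem mk2_e0 {a b : ℝ} (ha : a ∈ Set.Icc (0 : ℝ) 1) (hb : b ∈ Set.Icc (0 : ℝ) 1) :
    e0 a b - 2 * ((1 / 2 - a) * (1 / 2 - b)) = bridge a b := by
  obtain ⟨ha1, ha2⟩ := ha
  obtain ⟨hb1, hb2⟩ := hb
  unfold e0 bridge
  rcases le_or_gt a (1 / 2) with h | h <;> rcases le_or_gt b (1 / 2) with h' | h'
  · rw [if_pos (mul_nonneg (by linarith) (by linarith)), abs_of_nonneg (by linarith),
      abs_of_nonneg (by linarith), max_eq_right (by linarith)]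
    rcases le_total a b with h7 | h7
    · rw [min_eq_right (by linarith), min_eq_left h7]; ring
    · rw [min_eq_left (by linarith), min_eq_right h7]; ring
  · rcases eq_or_lt_of_le h with h0 | h0
    · rw [h0]
      norm_num
      rw [min_eq_left (by linarith), max_eq_left (by linarith)]
      ring
    · rw [if_neg (by nlinarith), abs_of_nonneg (by linarith),
        abs_of_neg (by linarith : 1 / 2 - b < 0), min_eq_left (by linarith : a ≤ b)]
      rcases le_total (a + b) 1 with h7 | h7
      · rw [min_eq_right (by linarith), max_eq_right (by linarith)]; ring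
      · rw [min_eq_left (by linarith), max_eq_left (by linarith)]; ring
  · rcases eq_or_lt_of_le h' with h0 | h0
    · rw [h0]
      norm_num
      rw [min_eq_right (by linarith), max_eq_left (by linarith)]
      ring
    · rw [if_neg (by nlinarith), abs_of_neg (by linarith : 1 / 2 - a < 0),
        abs_of_nonneg (by linarith), min_eq_right (by linarith : b ≤ a)]
      rcases le_total (a + b) 1 with h7 | h7
      · rw [min_eq_left (by linarith), max_eq_right (by linarith)]; ring
      · rw [min_eq_right (by linarith), max_eq_left (by linarith)]; ring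
  · rw [if_pos (by nlinarith), abs_of_neg (by linarith : 1 / 2 - a < 0),
      abs_of_neg (by linarith : 1 / 2 - b < 0), max_eq_left (by linarith)]
    rcases le_total a b with h7 | h7
    · rw [min_eq_left (by linarith), min_eq_left h7]; ring
    · rw [min_eq_right (by linarith), min_eq_right h7]; ring

private theorem mk2_Ek {a b : ℝ} (ha : a ∈ Set.Icc (0 : ℝ) 1) (hb : b ∈ Set.Icc (0 : ℝ) 1) :
    Ek a b = ell * bridge a b - 221 / 800 * (Dfun a * Dfun b) := by
  rw [← mk2_e0 ha hb]
  unfold Ek fA fB Dfun ell lam e1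
  ring

private theorem mk2_bridge_zero {b : ℝ} (hb : b ∈ Set.Icc (0 : ℝ) 1) : bridge 0 b = 0 := by
  obtain ⟨hb1, hb2⟩ := hb
  unfold bridge
  rw [min_eq_left hb1, max_eq_right (by linarith)]
  ring

theorem Ek_zero {b : ℝ} (hb : b ∈ Set.Icc (0 : ℝ) 1) : Ek 0 b = 0 := by
  rw [mk2_Ek ⟨le_rfl, zero_le_one⟩ hb, mk2_bridge_zero hb]
  unfold Dfun
  simp

theorem Zk_zero (b : ℝ) : Zk 0 b = 0 := by
  unfold Zk
  simp

theorem Ok_zero {b : ℝ} (hb : b ∈ Set.Icc (0 : ℝ) 1) : Ok 0 b = 0 := by
  obtain ⟨hb1, hb2⟩ := hb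
  unfold Ok
  rw [min_eq_left (by norm_num : (0 : ℝ) ≤ 1 - 0), min_eq_left (le_min hb1 (by linarith))]
  simp

theorem psdi_Zk : PSDI Zk := by
  refine ((PSDI.rankOne (fun a => Real.sin (2 * Real.pi * a))).smul
    (c := c0) (by unfold c0; norm_num)).congr fun a _ b _ => ?_
  rfl

theorem psdi_Ok : PSDI Ok := by
  have hpi := Real.pi_pos
  have hp2 : Real.pi ^ 2 ≤ 10 := by
    have := Real.pi_lt_d2
    nlinarith
  have h := (psdi_min4_sub_smul (c := (ell - 1) / 2 / ell) (by
    rw [le_div_iff₀ (by positivity)]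
    unfold ell
    nlinarith)).smul (c := ell) (by unfold ell; norm_num)
  refine h.congr fun a _ b _ => ?_
  have e : min (min a b) (min (1 - a) (1 - b)) = min (min a (1 - a)) (min b (1 - b)) := by
    rw [min_min_min_comm]
  have hl : ell ≠ 0 := by unfold ell; norm_num
  rw [e, Ok, mul_sub]
  congr 1
  field_simp

theorem psdi_Ek_sub : PSDI (fun a b => Ek a b - Zk a b) := by
  have hpi := Real.pi_pos
  have hp2 : Real.pi ^ 2 ≤ 10 := by
    have := Real.pi_lt_d2
    nlinarith
  have hN := ND_pos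
  have hN2 := ND_le
  have h1 := psdi_bridge_sub.smul (c := 221 / 800 * ND) (by positivity)
  have h2 := psdi_bridge_sub_sin.smul (c := c0 * Real.pi ^ 2) (by unfold c0; positivity)
  have h3 := psdi_bridge.smul (c := ell - 221 / 800 * ND - c0 * Real.pi ^ 2) (by
    unfold ell c0
    nlinarith)
  refine ((h1.add h2).add h3).congr fun a ha b hb => ?_
  rw [mk2_Ek ha hb, Zk]
  have hne := hN.ne'
  have hpne := hpi.ne'
  field_simp
  ring

/-! ### The kernel at a point -/

private theorem mk2_zonal_sq (d : ℕ) : Zonal d (fun t => t ^ 2) :=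
  ((zonal_id d).mul (zonal_id d)).congr fun t _ => by ring

private theorem mk2_zonal_cube (d : ℕ) : Zonal d (fun t => t ^ 3) :=
  (((zonal_id d).mul (zonal_id d)).mul (zonal_id d)).congr fun t _ => by ring

/-- MK-2 -/
theorem kpsd : KPSD := by
  classical
  intro d hd ι t v w z hz hv
  have ht1 : (0 : ℝ) ≤ t1 := by unfold t1; norm_num
  have ht2 : (0 : ℝ) ≤ 1 - t1 := by unfold t1; norm_num
  have k0 := psd_three_point_term hd hz psdi_Zk (fun b _ => Zk_zero b) (zonal_one d)
  have k2 := psd_three_point_term hd hz psdi_Ek_sub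
    (fun b hb => by rw [Ek_zero hb, Zk_zero, sub_zero]) (mk2_zonal_sq d)
  have k1 := psd_three_point_term hd hz (psdi_Ok.smul ht1)
    (fun b hb => by rw [Ok_zero hb, mul_zero]) (zonal_id d)
  have k3 := psd_three_point_term hd hz (psdi_Ok.smul ht2)
    (fun b hb => by rw [Ok_zero hb, mul_zero]) (mk2_zonal_cube d)
  have hK := ((k0.add k2).add k1).add k3
  have hzs : z ∈ Metric.sphere (0 : EuclideanSpace ℝ (Fin (d + 1))) 1 := by
    rw [mem_sphere_zero_iff_norm]
    exact hz
  have h := hK.family t (fun i => if hi : ‖v i‖ = 1 then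
    (⟨v i, mem_sphere_zero_iff_norm.mpr hi⟩ :
      Metric.sphere (0 : EuclideanSpace ℝ (Fin (d + 1))) 1) else ⟨z, hzs⟩) w
  refine h.trans (le_of_eq ?_)
  refine Finset.sum_congr rfl fun x hx => Finset.sum_congr rfl fun y hy => ?_
  rw [dif_pos (hv x hx), dif_pos (hv y hy)]
  simp only [Kz]
  ring

end H41MK
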