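import Pool.Agent.H41.MK.Fin
import Pool.Agent.H41.MK.Ind
import Pool.Agent.H41.MK.Psd
import Pool.Agent.H41.MK.EqE
import Pool.Agent.H41.MK.Pow

/-!
# The mixed inequality in all dimensions
-/

namespace H41MK

theorem bd (d : ℕ) : Bd (d + 1) := bd_all star kpsd d

end H41MK
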