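import Pool.Agent.H41.MK.Defs
import Pool.Agent.H95.FL.Eq

/-!
# The mixed kernel: from finite families to measures
-/

namespace H41MK

open Finset H45FT MeasureTheory

theorem csq_nonneg (t : ℝ) : 0 ≤ csq t := sq_nonneg _

theorem csq_le_one (t : ℝ) : csq t ≤ 1 := by
  unfold csq
  have h := Real.cos_sq_add_sin_sq (Real.pi / 2 * t)
  nlinarith [sq_nonneg (Real.sin (Real.pi / 2 * t))]

theorem ms_kk_nonneg {t : ℝ} (h1 : t ≤ 1) : 0 ≤ kk t := by
  have := csq_nonneg t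
  unfold kk lam
  nlinarith

theorem kk_le_one {t : ℝ} (h0 : 0 ≤ t) : kk t ≤ 1 := by
  have := csq_le_one t
  unfold kk lam
  nlinarith

theorem ms_kk_zero : kk 0 = 1 := by
  unfold kk csq lam
  rw [mul_zero, Real.cos_zero]
  norm_num

theorem kk_one : kk 1 = 0 := by
  unfold kk csq lam
  rw [mul_one, Real.cos_pi_div_two]
  norm_num

theorem cont_kk : Continuous kk := by
  unfold kk csq
  fun_prop

/-- The complementary kernel. -/
noncomputable def rk (t : ℝ) : ℝ := 1 - kk t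

theorem cont_rk : Continuous rk := by
  unfold rk
  exact continuous_const.sub cont_kk

theorem rk_bd (t : ℝ) : |rk (ang t)| ≤ 1 := by
  have h0 := ms_kk_nonneg (ang_le_one t)
  have h1 := kk_le_one (ang_nonneg t)
  unfold rk
  rw [abs_le]
  constructor <;> linarith

theorem fin_rk (hB : ∀ d, Bd (d + 1)) (d : ℕ)
    (t : Finset (EuclideanSpace ℝ (Fin (d + 1)))) (w : EuclideanSpace ℝ (Fin (d + 1)) → ℝ)
    (ht : ∀ v ∈ t, v ∈ Metric.sphere (0 : EuclideanSpace ℝ (Fin (d + 1))) 1)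
    (hw : ∀ v ∈ t, 0 ≤ w v) (hw1 : ∑ v ∈ t, w v = 1) :
    ∑ v ∈ t, ∑ u ∈ t, w v * w u * rk (ang (@inner ℝ _ _ v u)) ≤ (d : ℝ) / (d + 1) := by
  classical
  have h1 : (∑ i ∈ t, w i) ^ 2 / ((d + 1 : ℕ) : ℝ) ≤
      ∑ i ∈ t, ∑ j ∈ t, w i * w j * kk (ang (inner ℝ i j)) := by
    let e := t.equivFin
    have h := hB d (Fin t.card) Finset.univ (fun i => (e.symm i : EuclideanSpace ℝ (Fin (d + 1))))
      (fun i => w (e.symm i)) (fun i _ => mem_sphere_zero_iff_norm.mp (ht _ (e.symm i).2))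
      (fun i _ => hw _ (e.symm i).2)
    have hs : ∀ f : EuclideanSpace ℝ (Fin (d + 1)) → ℝ,
        ∑ i : Fin t.card, f (e.symm i) = ∑ v ∈ t, f v := by
      intro f
      rw [← Finset.sum_coe_sort t]
      exact Equiv.sum_comp e.symm (fun v => f v)
    rw [hs w] at h
    have h' : ∑ i : Fin t.card, ∑ j : Fin t.card, w (e.symm i) * w (e.symm j) *
        kk (ang (inner ℝ (e.symm i : EuclideanSpace ℝ (Fin (d + 1)))
          (e.symm j : EuclideanSpace ℝ (Fin (d + 1)))))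
        = ∑ i ∈ t, ∑ j ∈ t, w i * w j * kk (ang (inner ℝ i j)) := by
      rw [← hs (fun v => ∑ j ∈ t, w v * w j * kk (ang (inner ℝ v j)))]
      refine Finset.sum_congr rfl fun i _ => ?_
      exact hs (fun u => w (e.symm i) * w u *
        kk (ang (inner ℝ (e.symm i : EuclideanSpace ℝ (Fin (d + 1))) u)))
    rw [h'] at h
    exact h
  rw [hw1, one_pow] at h1
  have h2 : ∑ v ∈ t, ∑ u ∈ t, w v * w u * rk (ang (@inner ℝ _ _ v u)) =
      1 - ∑ i ∈ t, ∑ j ∈ t, w i * w j * kk (ang (inner ℝ i j)) := by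
    have h3 : ∑ v ∈ t, ∑ u ∈ t, w v * w u = 1 := by
      rw [← Finset.sum_mul_sum, hw1, one_mul]
    rw [← h3, ← Finset.sum_sub_distrib]
    refine Finset.sum_congr rfl fun v _ => ?_
    rw [← Finset.sum_sub_distrib]
    refine Finset.sum_congr rfl fun u _ => ?_
    unfold rk
    ring
  rw [h2]
  have hC : (1 - 1 / ((d + 1 : ℕ) : ℝ)) = (d : ℝ) / (d + 1) := by
    push_cast
    field_simp
    ring
  rw [← hC]
  linarith

theorem rk_energy (hB : ∀ d, Bd (d + 1)) (d : ℕ)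
    (μ : Measure (EuclideanSpace ℝ (Fin (d + 1)))) (hμ : IsProbabilityMeasure μ)
    (hs : μ (Metric.sphere (0 : EuclideanSpace ℝ (Fin (d + 1))) 1)ᶜ = 0) :
    ∫ x, ∫ y, rk (ang (@inner ℝ _ _ x y)) ∂μ ∂μ ≤ (d : ℝ) / (d + 1) := by
  refine integral_integral_le_of_finite μ hs (fun x y => rk (ang (@inner ℝ _ _ x y)))
    ?_ (B := 1) (fun x y => rk_bd _) (fun t w ht hw hw1 => fin_rk hB d t w ht hw hw1)
  exact cont_rk.comp (H95FL.cont_ang.comp (by fun_prop))

/-- MK-3a: the mixed inequality for measures. -/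
theorem mixed (hB : ∀ d, Bd (d + 1)) (d : ℕ)
    (μ : Measure (EuclideanSpace ℝ (Fin (d + 1)))) (hμ : IsProbabilityMeasure μ)
    (hs : μ (Metric.sphere (0 : EuclideanSpace ℝ (Fin (d + 1))) 1)ᶜ = 0) :
    1 / ((d : ℝ) + 1) ≤
      lam * (1 - 2 / Real.pi * ∫ x, ∫ y, Real.arccos |@inner ℝ _ _ x y| ∂μ ∂μ) +
        (1 - lam) * ∫ x, ∫ y, (@inner ℝ _ _ x y : ℝ) ^ 2 ∂μ ∂μ := by
  have hr := rk_energy hB d μ hμ hs
  let F0 : EuclideanSpace ℝ (Fin (d + 1)) × EuclideanSpace ℝ (Fin (d + 1)) → ℝ :=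
    fun p => rk (ang (@inner ℝ _ _ p.1 p.2))
  let F1 : EuclideanSpace ℝ (Fin (d + 1)) × EuclideanSpace ℝ (Fin (d + 1)) → ℝ :=
    fun p => Real.arccos |@inner ℝ _ _ p.1 p.2|
  let F2 : EuclideanSpace ℝ (Fin (d + 1)) × EuclideanSpace ℝ (Fin (d + 1)) → ℝ :=
    fun p => csq (ang (@inner ℝ _ _ p.1 p.2))
  let F3 : EuclideanSpace ℝ (Fin (d + 1)) × EuclideanSpace ℝ (Fin (d + 1)) → ℝ :=
    fun p => (@inner ℝ _ _ p.1 p.2 : ℝ) ^ 2
  have hcsq : Continuous csq := by unfold csq; fun_prop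
  have c0 : Continuous F0 := cont_rk.comp (H95FL.cont_ang.comp (by fun_prop))
  have c1 : Continuous F1 := by simp only [F1]; fun_prop
  have c2 : Continuous F2 := hcsq.comp (H95FL.cont_ang.comp (by fun_prop))
  have c3 : Continuous F3 := by simp only [F3]; fun_prop
  have i0 : Integrable F0 (μ.prod μ) :=
    Integrable.of_bound c0.aestronglyMeasurable 1 (Filter.Eventually.of_forall fun p => by
      rw [Real.norm_eq_abs]; exact rk_bd _)
  have i1 : Integrable F1 (μ.prod μ) :=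
    Integrable.of_bound c1.aestronglyMeasurable Real.pi (Filter.Eventually.of_forall fun p => by
      rw [Real.norm_eq_abs, abs_of_nonneg (Real.arccos_nonneg _)]
      exact Real.arccos_le_pi _)
  have i2 : Integrable F2 (μ.prod μ) :=
    Integrable.of_bound c2.aestronglyMeasurable 1 (Filter.Eventually.of_forall fun p => by
      rw [Real.norm_eq_abs, abs_of_nonneg (csq_nonneg _)]
      exact csq_le_one _)
  -- almost every point is a unit vector
  have hae : ∀ᵐ x ∂μ, ‖x‖ = 1 := by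
    have : ∀ᵐ x ∂μ, x ∈ Metric.sphere (0 : EuclideanSpace ℝ (Fin (d + 1))) 1 := by
      rw [ae_iff]; exact hs
    filter_upwards [this] with x hx
    exact mem_sphere_zero_iff_norm.1 hx
  have e23 : ∫ x, ∫ y, csq (ang (@inner ℝ _ _ x y)) ∂μ ∂μ =
      ∫ x, ∫ y, (@inner ℝ _ _ x y : ℝ) ^ 2 ∂μ ∂μ := by
    apply integral_congr_ae
    filter_upwards [hae] with x hx
    apply integral_congr_ae
    filter_upwards [hae] with y hy
    unfold csq
    rw [cos_ang (abs_inner_le_one hx hy), sq_abs]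
  have e0 : ∫ p, F0 p ∂(μ.prod μ) = ∫ x, ∫ y, rk (ang (@inner ℝ _ _ x y)) ∂μ ∂μ :=
    integral_prod _ i0
  have e1 : ∫ p, F1 p ∂(μ.prod μ) = ∫ x, ∫ y, Real.arccos |@inner ℝ _ _ x y| ∂μ ∂μ :=
    integral_prod _ i1
  have e2 : ∫ p, F2 p ∂(μ.prod μ) = ∫ x, ∫ y, csq (ang (@inner ℝ _ _ x y)) ∂μ ∂μ :=
    integral_prod _ i2
  have hF : ∀ p, F0 p = 1 - (lam * (1 - 2 / Real.pi * F1 p) + (1 - lam) * F2 p) := by
    intro p
    simp only [F0, F1, F2, rk, kk, ang]
  have hsum : ∫ p, F0 p ∂(μ.prod μ) =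
      1 - (lam * (1 - 2 / Real.pi * ∫ p, F1 p ∂(μ.prod μ)) + (1 - lam) * ∫ p, F2 p ∂(μ.prod μ)) := by
    simp_rw [hF]
    have j1 : Integrable (fun p => 2 / Real.pi * F1 p) (μ.prod μ) := i1.const_mul _
    have j2 : Integrable (fun p => 1 - 2 / Real.pi * F1 p) (μ.prod μ) :=
      (integrable_const 1).sub j1
    have j3 : Integrable (fun p => lam * (1 - 2 / Real.pi * F1 p)) (μ.prod μ) := j2.const_mul _
    have j4 : Integrable (fun p => (1 - lam) * F2 p) (μ.prod μ) := i2.const_mul _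
    have j5 : Integrable (fun p => lam * (1 - 2 / Real.pi * F1 p) + (1 - lam) * F2 p)
        (μ.prod μ) := j3.add j4
    rw [integral_sub (integrable_const 1) j5, integral_add j3 j4, integral_const_mul,
      integral_const_mul, integral_sub (integrable_const 1) j1, integral_const_mul]
    simp
  rw [← e0, hsum, e1, e2, e23] at hr
  have hC : (1 - 1 / ((d : ℝ) + 1)) = (d : ℝ) / (d + 1) := by
    field_simp
    ring
  rw [← hC] at hr
  linarith

/-- MK-3b: the form of the hand-in (i). -/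
theorem angle_le (hB : ∀ d, Bd (d + 1)) (d : ℕ)
    (μ : Measure (EuclideanSpace ℝ (Fin (d + 1)))) (hμ : IsProbabilityMeasure μ)
    (hs : μ (Metric.sphere (0 : EuclideanSpace ℝ (Fin (d + 1))) 1)ᶜ = 0) :
    ∫ x, ∫ y, Real.arccos |@inner ℝ _ _ x y| ∂μ ∂μ ≤
      Real.pi / 2 * ((d : ℝ) / (d + 1) +
        9 / 11 * (∫ x, ∫ y, (@inner ℝ _ _ x y : ℝ) ^ 2 ∂μ ∂μ - 1 / ((d : ℝ) + 1))) := by
  have h := mixed hB d μ hμ hs
  set I1 := ∫ x, ∫ y, Real.arccos |@inner ℝ _ _ x y| ∂μ ∂μ with hI1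
  set Q := ∫ x, ∫ y, (@inner ℝ _ _ x y : ℝ) ^ 2 ∂μ ∂μ with hQ
  have hp := Real.pi_pos
  have hC : (d : ℝ) / (d + 1) = (1 - 1 / ((d : ℝ) + 1)) := by
    field_simp
    ring
  rw [hC]
  set D := 1 / ((d : ℝ) + 1) with hD
  unfold lam at h
  have h2 : 2 / Real.pi * I1 ≤ 1 - D + 9 / 11 * (Q - D) := by linarith
  have h3 : I1 = Real.pi / 2 * (2 / Real.pi * I1) := by
    field_simp
  rw [h3]
  exact mul_le_mul_of_nonneg_left h2 (by positivity)

end H41MK
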