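import Pool.Agent.H41.MK.L2
import Pool.Agent.H41.MK.FcA
import Pool.Agent.H41.FT.L8

/-!
# Nonnegativity on the regions: `T_-`
-/

namespace H41MK

open H41FT Real Function

theorem ev_M3 (p : P) : ev M3 p = M3 rO (p 0) (p 1) (p 2) := rfl
theorem ev_S3 (p : P) : ev S3 p = S3 rO (p 0) (p 1) (p 2) := rfl

/-- the face `a = 0` -/
theorem M3_face0 {p : P} (h0 : p 0 = 0) (h2 : 0 ≤ p 2) : ev M3 p = 0 := by
  rw [ev_M3, h0]; exact M3_a0 _ h2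

theorem M3_zl_g0 {p : P} (h0 : 0 ≤ p 0) (h0' : p 0 ≤ 1/20) (h1 : p 1 = 0) (h2 : 0 ≤ p 2) :
    Zl (ev M3) 0 p := by
  refine ⟨0, 1/20, by norm_num, h0, h0', fun t ht ht' => ?_⟩
  rw [ev_M3, u00, u01, u02, h1]
  exact M3_g0 ht (by linarith) h2

theorem M3_zl_g1 {p : P} (h0 : 0 ≤ p 0) (h0' : p 0 ≤ 1/20) (h1 : p 1 = 1) (h2 : 0 ≤ p 2) :
    Zl (ev M3) 0 p := by
  refine ⟨0, 1/20, by norm_num, h0, h0', fun t ht ht' => ?_⟩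
  rw [ev_M3, u00, u01, u02, h1]
  exact M3_g1 ht (by linarith) h2

theorem rMA : ∀ p : P, B3 0 (1/20) 0 (1/10) 0 1 p → 0 ≤ ev M3 p := by
  have key : ∀ p : P, B3 0 (1/20) 0 (1/10) 0 1 p → 0 ≤ D 0 (ev M3) p := by
    refine pat1 (i := 1) (fun p h => h.lo1) (fun p h => ?_) (fun p h h0 => ?_)
    · obtain ⟨k1, k2⟩ := clMA h.l0 h.r0 h.l1 h.r1 h.l2 h.r2
      exact ⟨k1.le, k2.D 0⟩
    · exact ((M3_zl_g0 h.l0 h.r0 h0 h.l2).D (clMA h.l0 h.r0 h.l1 h.r1 h.l2 h.r2).2).ge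
  refine pat1 (i := 0) (fun p h => h.lo0) (fun p h => ⟨key p h, ?_⟩) (fun p h h0 => ?_)
  · exact (clMA h.l0 h.r0 h.l1 h.r1 h.l2 h.r2).2
  · exact (M3_face0 h0 h.l2).ge

theorem rMB : ∀ p : P, B3 0 (1/20) (19/20) 1 0 1 p → 0 ≤ ev M3 p := by
  have key : ∀ p : P, B3 0 (1/20) (19/20) 1 0 1 p → 0 ≤ D 0 (ev M3) p := by
    refine pat1' (i := 1) (fun p h => h.hi1) (fun p h => ?_) (fun p h h0 => ?_)
    · obtain ⟨k1, k2⟩ := clMB h.l0 h.r0 h.l1 h.r1 h.l2 h.r2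
      exact ⟨(neg_spec k1).le, k2.D 0⟩
    · exact ((M3_zl_g1 h.l0 h.r0 h0 h.l2).D (clMB h.l0 h.r0 h.l1 h.r1 h.l2 h.r2).2).ge
  refine pat1 (i := 0) (fun p h => h.lo0) (fun p h => ⟨key p h, ?_⟩) (fun p h h0 => ?_)
  · exact (clMB h.l0 h.r0 h.l1 h.r1 h.l2 h.r2).2
  · exact (M3_face0 h0 h.l2).ge

theorem rMC : ∀ p : P, B3 0 (1/20) (1/10) (19/20) 0 1 p → 0 ≤ ev M3 p := by
  refine pat1 (i := 0) (fun p h => h.lo0) (fun p h => ?_) (fun p h h0 => ?_)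
  · obtain ⟨k1, k2⟩ := clMC h.l0 h.r0 h.l1 h.r1 h.l2 h.r2
    exact ⟨k1.le, k2⟩
  · exact (M3_face0 h0 h.l2).ge

theorem rMD : ∀ p : P, B3 (1/20) (67/100) 0 (1/10) 0 1 p → 0 ≤ ev M3 p := by
  refine pat1 (i := 1) (fun p h => h.lo1) (fun p h => ?_) (fun p h h0 => ?_)
  · obtain ⟨k1, k2⟩ := clMD h.l0 h.r0 h.l1 h.r1 h.l2 h.r2
    exact ⟨k1.le, k2⟩
  · rw [ev_M3, h0]
    exact (M3_g0 (by linarith [h.l0]) (by linarith [h.r0]) h.l2).ge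

theorem rME : ∀ p : P, B3 (1/20) (67/100) (9/10) 1 0 1 p ∧ Gd3 p → 0 ≤ ev M3 p := by
  refine pat1' (i := 1) (hi := 1) (fun p h => ⟨h.1.r1, fun t ht ht' => ⟨h.1.hi1.2 t ht ht', h.2.up ?_ ht ht'⟩⟩)
    (fun p h => ?_) (fun p h h0 => ?_)
  · linarith [h.1.l1]
  · obtain ⟨k1, k2⟩ := clME h.1.l0 h.1.r0 h.1.l1 h.1.r1 h.1.l2 h.1.r2 h.2
    exact ⟨(neg_spec k1).le, k2⟩
  · rw [ev_M3, h0]
    exact (M3_g1 (by linarith [h.1.l0]) (by linarith [h.1.r0]) h.1.l2).ge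

theorem R_M3 {a g n : ℝ} (a0 : 0 ≤ a) (a1 : a ≤ 67/100) (g0 : 0 ≤ g) (g1 : g ≤ 1) (n0 : 0 ≤ n)
    (n1 : n ≤ 1) (hg : cos (π / 2 * g) * (sin (π / 2 * a) * sin (π / 2 * a)) -
      cos (π / 2 * a) * (cos (π / 2 * a) + n) ≤ 0) : 0 ≤ M3 rO a g n := by
  have e : M3 rO a g n = ev M3 ![a, g, n] := rfl
  rw [e]
  rcases le_total a (1/20) with h | h
  · rcases le_total g (1/10) with h' | h'
    · exact rMA _ ⟨a0, h, g0, h', n0, n1⟩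
    · rcases le_total g (19/20) with h'' | h''
      · exact rMC _ ⟨a0, h, h', h'', n0, n1⟩
      · exact rMB _ ⟨a0, h, h'', g1, n0, n1⟩
  · rcases le_total g (1/10) with h' | h'
    · exact rMD _ ⟨h, a1, g0, h', n0, n1⟩
    · rcases le_total g (9/10) with h'' | h''
      · exact (clMG (p := ![a, g, n]) h a1 h' h'' n0 n1 hg).1.le
      · exact rME _ ⟨⟨h, a1, h'', g1, n0, n1⟩, hg⟩

/-! ### chart of the sides -/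

theorem S3_zl0 {p : P} (h0 : -(1/2) ≤ p 0) (h0' : p 0 ≤ 1/2) (h1 : p 1 = 0) (h2 : p 2 = 0) :
    Zl (ev S3) 0 p := by
  refine ⟨-(1/2), 1/2, by norm_num, h0, h0', fun t ht ht' => ?_⟩
  rw [ev_S3, u00, u01, u02, h1, h2]
  exact S3_x (by linarith) (by linarith)

theorem S3_zl1 {p : P} (h0 : -(1/2) ≤ p 1) (h0' : p 1 ≤ 1/2) (h1 : p 0 = 0) (h2 : p 2 = 0) :
    Zl (ev S3) 1 p := by
  refine ⟨-(1/2), 1/2, by norm_num, h0, h0', fun t ht ht' => ?_⟩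
  rw [ev_S3, u10, u11, u12, h1, h2]
  exact S3_y (by linarith) (by linarith)

theorem rSA : ∀ p : P, B3 0 (1/50) 0 (1/50) 0 (1/50) p → 0 ≤ ev S3 p := by
  have hsm : ∀ p : P, B3 0 (1/50) 0 (1/50) 0 (1/50) p → Sm (ev S3) p := fun p h =>
    (clSB h.l0 h.r0 h.l1 h.r1 h.l2 h.r2).2
  -- `∂₀F ≥ 0` on `δ = 0`
  have k1 : ∀ p : P, B3 0 (1/50) 0 (1/50) 0 (1/50) p ∧ p 2 = 0 → 0 ≤ D 0 (ev S3) p := by
    refine pat1 (i := 1) (lo := 0) (fun p h => ⟨h.1.l1, fun t ht ht' => ⟨h.1.lo1.2 t ht ht', ?_⟩⟩)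
      (fun p h => ?_) (fun p h h0 => ?_)
    · rw [u12]; exact h.2
    · obtain ⟨a1, a2⟩ := clSA h.1.l0 h.1.r0 h.1.l1 h.1.r1 h.1.l2 h.2.le
      exact ⟨a1.le, a2.D 0⟩
    · exact ((S3_zl0 (by linarith [h.1.l0]) (by linarith [h.1.r0]) h0 h.2).D (hsm p h.1)).ge
  have k2 : ∀ p : P, B3 0 (1/50) 0 (1/50) 0 (1/50) p → 0 ≤ D 0 (ev S3) p := by
    refine pat1 (i := 2) (fun p h => h.lo2) (fun p h => ?_) (fun p h h0 => k1 p ⟨h, h0⟩)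
    obtain ⟨a1, a2⟩ := clSB h.l0 h.r0 h.l1 h.r1 h.l2 h.r2
    exact ⟨a1.le, a2.D 0⟩
  -- `∂₁F ≥ 0` on `α = 0`
  have k3 : ∀ p : P, B3 0 (1/50) 0 (1/50) 0 (1/50) p ∧ p 0 = 0 → 0 ≤ D 1 (ev S3) p := by
    refine pat1 (i := 2) (lo := 0) (fun p h => ⟨h.1.l2, fun t ht ht' => ⟨h.1.lo2.2 t ht ht', ?_⟩⟩)
      (fun p h => ?_) (fun p h h0 => ?_)
    · rw [u20]; exact h.2
    · obtain ⟨a1, a2⟩ := clSC h.1.l0 h.1.r0 h.1.l1 h.1.r1 h.1.l2 h.1.r2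
      exact ⟨a1.le, a2.D 1⟩
    · exact ((S3_zl1 (by linarith [h.1.l1]) (by linarith [h.1.r1]) h.2 h0).D (hsm p h.1)).ge
  have k4 : ∀ p : P, B3 0 (1/50) 0 (1/50) 0 (1/50) p ∧ p 0 = 0 → 0 ≤ ev S3 p := by
    refine pat1 (i := 1) (lo := 0) (fun p h => ⟨h.1.l1, fun t ht ht' => ⟨h.1.lo1.2 t ht ht', ?_⟩⟩)
      (fun p h => ⟨k3 p h, hsm p h.1⟩) (fun p h h0 => ?_)
    · rw [u10]; exact h.2
    · rw [ev_S3, h.2, h0]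
      exact (S3_z (by linarith [h.1.l2]) (by linarith [h.1.r2])).ge
  exact pat1 (i := 0) (fun p h => h.lo0) (fun p h => ⟨k2 p h, hsm p h⟩) (fun p h h0 => k4 p ⟨h, h0⟩)

theorem rSE : ∀ p : P, B3 (1/50) (33/100) 0 (1/50) 0 (1/50) p → 0 ≤ ev S3 p := by
  have k4 : ∀ p : P, B3 (1/50) (33/100) 0 (1/50) 0 (1/50) p ∧ p 2 = 0 → 0 ≤ ev S3 p := by
    refine pat1 (i := 1) (lo := 0) (fun p h => ⟨h.1.l1, fun t ht ht' => ⟨h.1.lo1.2 t ht ht', ?_⟩⟩)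
      (fun p h => ?_) (fun p h h0 => ?_)
    · rw [u12]; exact h.2
    · obtain ⟨a1, a2⟩ := clSE h.1.l0 h.1.r0 h.1.l1 h.1.r1 h.1.l2 h.2.le
      exact ⟨a1.le, a2⟩
    · rw [ev_S3, h.2, h0]
      exact (S3_x (by linarith [h.1.l0]) (by linarith [h.1.r0])).ge
  refine pat1 (i := 2) (fun p h => h.lo2) (fun p h => ?_) (fun p h h0 => k4 p ⟨h, h0⟩)
  obtain ⟨a1, a2⟩ := clSF h.l0 h.r0 h.l1 h.r1 h.l2 h.r2
  exact ⟨a1.le, a2⟩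

theorem R_S3 {α β δ : ℝ} (h0 : 0 ≤ δ) (h1 : δ ≤ β) (h2 : β ≤ α) (h3 : α ≤ 33/100) :
    0 ≤ S3 rO α β δ := by
  have e : S3 rO α β δ = ev S3 ![α, β, δ] := rfl
  rw [e]
  rcases le_total α (1/50) with h | h
  · exact rSA _ ⟨by show 0 ≤ α; linarith, h, by show 0 ≤ β; linarith, by show β ≤ 1/50; linarith,
      h0, by show δ ≤ 1/50; linarith⟩
  · rcases le_total β (1/50) with h' | h'
    · exact rSE _ ⟨h, h3, by show 0 ≤ β; linarith, h', h0, by show δ ≤ 1/50; linarith⟩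
    · exact (clS0 (p := ![α, β, δ]) (by show 0 ≤ α; linarith) h3 h' (by show β ≤ 33/100; linarith)
        h0 (by show δ ≤ 33/100; linarith) (by show β - α ≤ 0; linarith)
        (by show δ - β ≤ 0; linarith)).1.le

end H41MK
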