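import Pool.Agent.H41.MK.R1
import Pool.Agent.H41.MK.FcB
import Pool.Agent.H41.MK.FcC
import Pool.Agent.H41.FT.L5

/-!
# Nonnegativity on the regions: `T_+`, obtuse, `a + b ≤ 1`
-/

namespace H41MK

open H41FT Real Function

theorem ev_P0 (p : P) : ev P0 p = P0 rO (p 0) (p 1) (p 2) := rfl
theorem ev_P2 (p : P) : ev P2 p = P2 rO (p 0) (p 1) (p 2) := rfl
theorem ev_E0 (p : P) : ev E0 p = E0 rO (p 0) (p 1) (p 2) := rfl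
theorem ev_Z0 (p : P) : ev Z0 p = Z0 rO (p 0) (p 1) (p 2) := rfl
theorem ev_Z2 (p : P) : ev Z2 p = Z2 rO (p 0) (p 1) (p 2) := rfl
theorem ev_Z7 (p : P) : ev Z7 p = Z7 rO (p 0) (p 1) (p 2) := rfl

/-! ### the even part -/

theorem E0_zl1_z {p : P} (h0 : 0 ≤ p 0) (h0' : p 0 ≤ 1) (h1 : 0 ≤ p 1) (h1' : p 1 ≤ 1/20)
    (h2 : p 2 = 0) : Zl (ev E0) 1 p := by
  refine ⟨0, 1/20, by norm_num, h1, h1', fun t ht ht' => ?_⟩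
  rw [ev_E0, u10, u11, u12, h2]
  exact E0_z0 h0 h0' ht (by linarith)

theorem rPA : ∀ p : P, B3 0 (1/10) 0 (1/20) 0 (1/80) p → 0 ≤ ev E0 p := by
  have hsm : ∀ p : P, B3 0 (1/10) 0 (1/20) 0 (1/80) p → Sm (ev E0) p := fun p h =>
    (clPA h.l0 h.r0 h.l1 h.r1 h.l2 h.r2).2
  -- `∂₁F = 0` on `ρ = 0`
  have z1 : ∀ p : P, B3 0 (1/10) 0 (1/20) 0 (1/80) p → p 0 = 0 → D 1 (ev E0) p = 0 := by
    intro p h h0
    refine Zl.D ⟨0, 1/20, by norm_num, h.l1, h.r1, fun t ht ht' => ?_⟩ (hsm p h)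
    rw [ev_E0, u10, u11, u12, h0]
    exact E0_r0 h.l2 (by linarith [h.r2])
  have k1 : ∀ p : P, B3 0 (1/10) 0 (1/20) 0 (1/80) p → 0 ≤ D 2 (D 1 (ev E0)) p := by
    refine pat1 (i := 0) (fun p h => h.lo0) (fun p h => ?_) (fun p h h0 => ?_)
    · exact ⟨(clPA h.l0 h.r0 h.l1 h.r1 h.l2 h.r2).1.le, ((hsm p h).D 1).D 2⟩
    · have hz : Zl (D 1 (ev E0)) 2 p := by
        refine ⟨0, 1/80, by norm_num, h.l2, h.r2, fun t ht ht' => ?_⟩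
        exact z1 _ (h.u2 ht ht') (by rw [u20]; exact h0)
      exact (hz.D ((hsm p h).D 1)).ge
  have k2 : ∀ p : P, B3 0 (1/10) 0 (1/20) 0 (1/80) p → 0 ≤ D 1 (ev E0) p := by
    refine pat1 (i := 2) (fun p h => h.lo2) (fun p h => ⟨k1 p h, (hsm p h).D 1⟩) (fun p h h0 => ?_)
    exact ((E0_zl1_z h.l0 (by linarith [h.r0]) h.l1 h.r1 h0).D (hsm p h)).ge
  refine pat1 (i := 1) (fun p h => h.lo1) (fun p h => ⟨k2 p h, hsm p h⟩) (fun p h h0 => ?_)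
  rw [ev_E0, h0]; exact (E0_t0 _ _).ge

theorem rPB : ∀ p : P, B3 (1/10) 1 0 (1/20) 0 (1/80) p → 0 ≤ ev E0 p := by
  have hsm : ∀ p : P, B3 (1/10) 1 0 (1/20) 0 (1/80) p → Sm (ev E0) p := fun p h =>
    (clPB h.l0 h.r0 h.l1 h.r1 h.l2 h.r2).2
  have k2 : ∀ p : P, B3 (1/10) 1 0 (1/20) 0 (1/80) p → 0 ≤ D 1 (ev E0) p := by
    refine pat1 (i := 2) (fun p h => h.lo2) (fun p h => ⟨?_, (hsm p h).D 1⟩) (fun p h h0 => ?_)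
    · exact (clPB h.l0 h.r0 h.l1 h.r1 h.l2 h.r2).1.le
    · exact ((E0_zl1_z (by linarith [h.l0]) h.r0 h.l1 h.r1 h0).D (hsm p h)).ge
  refine pat1 (i := 1) (fun p h => h.lo1) (fun p h => ⟨k2 p h, hsm p h⟩) (fun p h h0 => ?_)
  rw [ev_E0, h0]; exact (E0_t0 _ _).ge

theorem R_E0 {ρ t γ : ℝ} (a0 : 0 ≤ ρ) (a1 : ρ ≤ 1) (b0 : 0 ≤ t) (b1 : t ≤ 1/20)
    (c0 : 0 ≤ γ) (c1 : γ ≤ 1/10) : 0 ≤ P0 rO ρ t γ := by
  refine le_trans ?_ (E0_le a0 a1 b0 (by linarith) c0 (by linarith))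
  have hp := Real.pi_pos
  have hp2 := Real.pi_lt_d2
  have z0 : 0 ≤ 1 - cos (π / 2 * γ) := by linarith [cos_le_one (π / 2 * γ)]
  have z1 : 1 - cos (π / 2 * γ) ≤ 1/80 := by
    have h1 := one_sub_sq_div_two_le_cos (x := π / 2 * γ)
    have h2 : π / 2 * γ ≤ 0.1575 := by nlinarith
    have h3 : 0 ≤ π / 2 * γ := by positivity
    nlinarith
  have e : E0 rO ρ t (1 - cos (π / 2 * γ)) = ev E0 ![ρ, t, 1 - cos (π / 2 * γ)] := rfl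
  rw [e]
  rcases le_total ρ (1/10) with h | h
  · exact rPA _ ⟨a0, h, b0, b1, z0, z1⟩
  · exact rPB _ ⟨h, a1, b0, b1, z0, z1⟩

/-! ### the chart `(ρ, t, γ)` -/

theorem P0_zl1_r {p : P} (h0 : p 0 = 0) (h1 : 0 ≤ p 1) (h1' : p 1 ≤ 1/10) : Zl (ev P0) 1 p := by
  refine ⟨0, 1/10, by norm_num, h1, h1', fun t ht ht' => ?_⟩
  rw [ev_P0, u10, u11, u12, h0]
  exact P0_r0 _ _

theorem P0_zl0_g {p : P} (h0 : 0 ≤ p 0) (h0' : p 0 ≤ 1/10) (h1 : 0 ≤ p 1) (h1' : p 1 < 1)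
    (h2 : p 2 = 0) : Zl (ev P0) 0 p := by
  refine ⟨0, 1/10, by norm_num, h0, h0', fun t ht ht' => ?_⟩
  rw [ev_P0, u00, u01, u02, h2]
  exact P0_g0 ht (by linarith) h1 h1'

theorem P2_zl0_g {p : P} (h0 : 0 ≤ p 0) (h0' : p 0 ≤ 1/10) (h1 : 0 ≤ p 1) (h1' : p 1 < 1)
    (h2 : p 2 = 0) : Zl (ev P2) 0 p := by
  refine ⟨0, 1/10, by norm_num, h0, h0', fun t ht ht' => ?_⟩
  rw [ev_P2, u00, u01, u02, h2]
  exact P2_g0 ht (by linarith) h1 h1'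

theorem rPE : ∀ p : P, B3 0 (1/10) 0 (1/20) (1/10) 1 p → 0 ≤ ev P0 p := by
  have hsm : ∀ p : P, B3 0 (1/10) 0 (1/20) (1/10) 1 p → Sm (ev P0) p := fun p h =>
    (clPE h.l0 h.r0 h.l1 h.r1 h.l2 h.r2).2
  have k2 : ∀ p : P, B3 0 (1/10) 0 (1/20) (1/10) 1 p → 0 ≤ D 1 (ev P0) p := by
    refine pat1 (i := 0) (fun p h => h.lo0) (fun p h => ⟨?_, (hsm p h).D 1⟩) (fun p h h0 => ?_)
    · exact (clPE h.l0 h.r0 h.l1 h.r1 h.l2 h.r2).1.le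
    · exact ((P0_zl1_r h0 h.l1 (by linarith [h.r1])).D (hsm p h)).ge
  refine pat1 (i := 1) (fun p h => h.lo1) (fun p h => ⟨k2 p h, hsm p h⟩) (fun p h h0 => ?_)
  rw [ev_P0, h0]; exact (P0_t0 _ _).ge

theorem rPF : ∀ p : P, B3 (1/10) 1 0 (1/20) (1/10) 1 p → 0 ≤ ev P0 p := by
  refine pat1 (i := 1) (fun p h => h.lo1) (fun p h => ?_) (fun p h h0 => ?_)
  · obtain ⟨a1, a2⟩ := clPF h.l0 h.r0 h.l1 h.r1 h.l2 h.r2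
    exact ⟨a1.le, a2⟩
  · rw [ev_P0, h0]; exact (P0_t0 _ _).ge

theorem rPG : ∀ p : P, B3 0 (1/10) (1/20) (9/20) 0 (1/10) p → 0 ≤ ev P0 p := by
  have hsm : ∀ p : P, B3 0 (1/10) (1/20) (9/20) 0 (1/10) p → Sm (ev P0) p := fun p h =>
    (clPG h.l0 h.r0 h.l1 h.r1 h.l2 h.r2).2
  have k2 : ∀ p : P, B3 0 (1/10) (1/20) (9/20) 0 (1/10) p → 0 ≤ D 0 (ev P0) p := by
    refine pat1 (i := 2) (fun p h => h.lo2) (fun p h => ⟨?_, (hsm p h).D 0⟩) (fun p h h0 => ?_)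
    · exact (clPG h.l0 h.r0 h.l1 h.r1 h.l2 h.r2).1.le
    · exact ((P0_zl0_g h.l0 h.r0 (by linarith [h.l1]) (by linarith [h.r1]) h0).D (hsm p h)).ge
  refine pat1 (i := 0) (fun p h => h.lo0) (fun p h => ⟨k2 p h, hsm p h⟩) (fun p h h0 => ?_)
  rw [ev_P0, h0]; exact (P0_r0 _ _).ge

theorem rPI : ∀ p : P, B3 0 (1/10) (1/20) (9/20) (1/10) 1 p → 0 ≤ ev P0 p := by
  refine pat1 (i := 0) (fun p h => h.lo0) (fun p h => ?_) (fun p h h0 => ?_)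
  · obtain ⟨a1, a2⟩ := clPI h.l0 h.r0 h.l1 h.r1 h.l2 h.r2
    exact ⟨a1.le, a2⟩
  · rw [ev_P0, h0]; exact (P0_r0 _ _).ge

theorem rPK : ∀ p : P, B3 (1/10) 1 (1/20) (9/20) 0 (1/10) p → 0 ≤ ev P0 p := by
  refine pat1 (i := 2) (fun p h => h.lo2) (fun p h => ?_) (fun p h h0 => ?_)
  · obtain ⟨a1, a2⟩ := clPK h.l0 h.r0 h.l1 h.r1 h.l2 h.r2
    exact ⟨a1.le, a2⟩
  · rw [ev_P0, h0]
    exact (P0_g0 (by linarith [h.l0]) h.r0 (by linarith [h.l1]) (by linarith [h.r1])).ge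

theorem rPH : ∀ p : P, (B3 0 (1/10) (9/20) 1 0 (1/10) p ∧ GT p) ∧ p 1 < 1 → 0 ≤ ev P2 p := by
  have hsm : ∀ p : P, (B3 0 (1/10) (9/20) 1 0 (1/10) p ∧ GT p) ∧ p 1 < 1 → Sm (ev P2) p :=
    fun p h => (clPH h.1.1.l0 h.1.1.r0 h.1.1.l1 h.1.1.r1 h.1.1.l2 h.1.1.r2 h.1.2).2
  have k2 : ∀ p : P, (B3 0 (1/10) (9/20) 1 0 (1/10) p ∧ GT p) ∧ p 1 < 1 → 0 ≤ D 0 (ev P2) p := by
    refine pat1 (i := 2) (lo := 0) (fun p h => ⟨h.1.1.l2, fun t ht ht' =>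
      ⟨⟨h.1.1.lo2.2 t ht ht', h.1.2.u2⟩, by rw [u21]; exact h.2⟩⟩)
      (fun p h => ⟨?_, (hsm p h).D 0⟩) (fun p h h0 => ?_)
    · exact (clPH h.1.1.l0 h.1.1.r0 h.1.1.l1 h.1.1.r1 h.1.1.l2 h.1.1.r2 h.1.2).1.le
    · exact ((P2_zl0_g h.1.1.l0 h.1.1.r0 (by linarith [h.1.1.l1]) h.2 h0).D (hsm p h)).ge
  refine pat1 (i := 0) (lo := 0) (fun p h => ⟨h.1.1.l0, fun t ht ht' => ⟨⟨h.1.1.lo0.2 t ht ht',
    h.1.2.lo0 (by linarith [h.1.1.l1]) ht'⟩, by rw [u01]; exact h.2⟩⟩)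
    (fun p h => ⟨k2 p h, hsm p h⟩) (fun p h h0 => ?_)
  rw [ev_P2, h0]; exact (P2_r0 _ _).ge

theorem rPJ : ∀ p : P, B3 0 (1/10) (9/20) (9/10) (1/10) 1 p ∧ GT p → 0 ≤ ev P2 p := by
  refine pat1 (i := 0) (lo := 0) (fun p h => ⟨h.1.l0, fun t ht ht' => ⟨h.1.lo0.2 t ht ht',
    h.2.lo0 (by linarith [h.1.l1]) ht'⟩⟩) (fun p h => ?_) (fun p h h0 => ?_)
  · obtain ⟨a1, a2⟩ := clPJ h.1.l0 h.1.r0 h.1.l1 h.1.r1 h.1.l2 h.1.r2 h.2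
    exact ⟨a1.le, a2⟩
  · rw [ev_P2, h0]; exact (P2_r0 _ _).ge

theorem rPL : ∀ p : P, B3 (1/10) 1 (9/20) (9/10) 0 (1/10) p ∧ GT p → 0 ≤ ev P2 p := by
  refine pat1 (i := 2) (lo := 0) (fun p h => ⟨h.1.l2, fun t ht ht' => ⟨h.1.lo2.2 t ht ht', h.2.u2⟩⟩)
    (fun p h => ?_) (fun p h h0 => ?_)
  · obtain ⟨a1, a2⟩ := clPL h.1.l0 h.1.r0 h.1.l1 h.1.r1 h.1.l2 h.1.r2 h.2
    exact ⟨a1.le, a2⟩
  · rw [ev_P2, h0]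
    exact (P2_g0 (by linarith [h.1.l0]) h.1.r0 (by linarith [h.1.l1]) (by linarith [h.1.r1])).ge

theorem rPP : ∀ p : P, B3 0 (3/50) (9/10) 1 (1/10) (9/10) p ∧ GT p → 0 ≤ ev P2 p := by
  refine pat1 (i := 0) (lo := 0) (fun p h => ⟨h.1.l0, fun t ht ht' => ⟨h.1.lo0.2 t ht ht',
    h.2.lo0 (by linarith [h.1.l1]) ht'⟩⟩) (fun p h => ?_) (fun p h h0 => ?_)
  · obtain ⟨a1, a2⟩ := clPP h.1.l0 h.1.r0 h.1.l1 h.1.r1 h.1.l2 h.1.r2 h.2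
    exact ⟨a1.le, a2⟩
  · rw [ev_P2, h0]; exact (P2_r0 _ _).ge

/-- right angle, near `(0, 1, 1)` -/
theorem rZJ : ∀ p : P, B3 0 (3/50) (9/10) 1 0 0 p → 0 ≤ ev Z2 p := by
  have hsm : ∀ p : P, B3 0 (3/50) (9/10) 1 0 0 p → Sm (ev Z2) p := fun p h =>
    (clZJ h.l0 h.r0 h.l1 h.r1 h.l2 h.r2).2
  have k2 : ∀ p : P, B3 0 (3/50) (9/10) 1 0 0 p → D 1 (ev Z2) p ≤ 0 := by
    refine pat1n (i := 0) (fun p h => h.lo0) (fun p h => ⟨?_, (hsm p h).D 1⟩) (fun p h h0 => ?_)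
    · exact (neg_spec (clZJ h.l0 h.r0 h.l1 h.r1 h.l2 h.r2).1).le
    · refine (Zl.D ⟨9/10, 1, by norm_num, h.l1, h.r1, fun t ht ht' => ?_⟩ (hsm p h)).le
      rw [ev_Z2, u10, u11, u12, h0]
      exact Z2_r0 _ _
  refine pat1' (i := 1) (fun p h => h.hi1) (fun p h => ⟨k2 p h, hsm p h⟩) (fun p h h0 => ?_)
  rw [ev_Z2, h0]; exact (Z2_t1 _ _).ge

theorem rPX : ∀ p : P, B3 0 (3/50) (9/10) 1 (9/10) 1 p ∧ GT p → 0 ≤ ev P2 p := by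
  have hsm : ∀ p : P, B3 0 (3/50) (9/10) 1 (9/10) 1 p ∧ GT p → Sm (ev P2) p :=
    fun p h => (clPX h.1.l0 h.1.r0 h.1.l1 h.1.r1 h.1.l2 h.1.r2 h.2).2
  have k2 : ∀ p : P, B3 0 (3/50) (9/10) 1 (9/10) 1 p ∧ GT p → D 2 (ev P2) p ≤ 0 := by
    refine pat1n (i := 0) (lo := 0) (fun p h => ⟨h.1.l0, fun t ht ht' => ⟨h.1.lo0.2 t ht ht',
      h.2.lo0 (by linarith [h.1.l1]) ht'⟩⟩) (fun p h => ⟨?_, (hsm p h).D 2⟩) (fun p h h0 => ?_)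
    · exact (neg_spec (clPX h.1.l0 h.1.r0 h.1.l1 h.1.r1 h.1.l2 h.1.r2 h.2).1).le
    · refine (Zl.D ⟨9/10, 1, by norm_num, h.1.l2, h.1.r2, fun t ht ht' => ?_⟩ (hsm p h)).le
      rw [ev_P2, u20, u21, u22, h0]
      exact P2_r0 _ _
  refine pat1' (i := 2) (hi := 1) (fun p h => ⟨h.1.r2, fun t ht ht' => ⟨h.1.hi2.2 t ht ht', h.2.u2⟩⟩)
    (fun p h => ⟨k2 p h, hsm p h⟩) (fun p h h0 => ?_)
  rw [ev_P2, h0, P2_g1]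
  exact rZJ ![p 0, p 1, 0] ⟨h.1.l0, h.1.r0, h.1.l1, h.1.r1, le_rfl, le_rfl⟩

theorem R_P {ρ t γ : ℝ} (a0 : 0 ≤ ρ) (a1 : ρ ≤ 1) (b0 : 0 ≤ t) (b1 : t < 1)
    (c0 : 0 ≤ γ) (c1 : γ ≤ 1) (hg : ρ * t + t + ρ * t * t - 1 ≤ 0) :
    0 ≤ P0 rO ρ t γ ∨ 0 ≤ P2 rO ρ t γ := by
  have e : P0 rO ρ t γ = ev P0 ![ρ, t, γ] := rfl
  have e2 : P2 rO ρ t γ = ev P2 ![ρ, t, γ] := rfl
  rcases le_total t (1/20) with h' | h'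
  · left
    rcases le_total γ (1/10) with h'' | h''
    · exact R_E0 a0 a1 b0 h' c0 h''
    · rw [e]
      rcases le_total ρ (1/10) with h | h
      · exact rPE _ ⟨a0, h, b0, h', h'', c1⟩
      · exact rPF _ ⟨h, a1, b0, h', h'', c1⟩
  rcases le_total t (9/20) with ht | ht
  · left
    rw [e]
    rcases le_total ρ (1/10) with h | h <;> rcases le_total γ (1/10) with h'' | h''
    · exact rPG _ ⟨a0, h, h', ht, c0, h''⟩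
    · exact rPI _ ⟨a0, h, h', ht, h'', c1⟩
    · exact rPK _ ⟨h, a1, h', ht, c0, h''⟩
    · exact (clPM (p := ![ρ, t, γ]) h a1 h' ht h'' c1 hg).1.le
  right
  rw [e2]
  rcases le_total t (9/10) with ht9 | ht9
  · rcases le_total ρ (1/10) with h | h <;> rcases le_total γ (1/10) with h'' | h''
    · exact rPH _ ⟨⟨⟨a0, h, ht, b1.le, c0, h''⟩, hg⟩, b1⟩
    · exact rPJ _ ⟨⟨a0, h, ht, ht9, h'', c1⟩, hg⟩
    · exact rPL _ ⟨⟨h, a1, ht, ht9, c0, h''⟩, hg⟩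
    · exact (clPN (p := ![ρ, t, γ]) h a1 ht ht9 h'' c1 hg).1.le
  · have h6 : ρ ≤ 3/50 := by
      by_contra hcon
      push Not at hcon
      have h1 : 3/50 * (9/10 : ℝ) ≤ ρ * t := by nlinarith
      have h2 : 3/50 * (9/10 : ℝ) * (9/10) ≤ ρ * t * t := by nlinarith
      nlinarith
    rcases le_total γ (1/10) with h'' | h''
    · exact rPH _ ⟨⟨⟨a0, by show ρ ≤ 1/10; linarith, ht, b1.le, c0, h''⟩, hg⟩, b1⟩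
    · rcases le_total γ (9/10) with h3 | h3
      · exact rPP _ ⟨⟨a0, h6, ht9, b1.le, h'', h3⟩, hg⟩
      · exact rPX _ ⟨⟨a0, h6, ht9, b1.le, h3, c1⟩, hg⟩

end H41MK
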