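import Pool.Agent.H41.MK.R2

/-!
# Nonnegativity on the regions: `T_+`, obtuse, `a + b ≥ 1`
-/

namespace H41MK

open H41FT Real Function

theorem ev_Y7 (p : P) : ev Y7 p = Y7 rO (p 0) (p 1) (p 2) := rfl
theorem ev_D7 (p : P) : ev D7 p = D7 rO (p 0) (p 1) (p 2) := rfl
theorem ev_Q7 (p : P) : ev Q7 p = Q7 rO (p 0) (p 1) (p 2) := rfl

/-- the guard `κ ≤ y` -/
def KY (p : P) : Prop := cos (π / 2 * p 2) - p 1 ≤ 0

theorem KY.u0 {p : P} {t : ℝ} (h : KY p) : KY (update p 0 t) := by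
  unfold KY at *
  rw [u01, u02]; exact h

theorem KY.hi2 {p : P} {t : ℝ} (h : KY p) (h0 : 0 ≤ p 2) (h1 : p 2 ≤ t) (h2 : t ≤ 1) :
    KY (update p 2 t) := by
  unfold KY at *
  rw [u21, u22]
  have := cs_anti h0 h1 h2
  linarith

theorem rYF : ∀ p : P, B3 0 (1/10) (9/10) 1 0 (3/20) p → 0 ≤ D 2 (ev Y7) p := by
  have hsm : ∀ p : P, B3 0 (1/10) (9/10) 1 0 (3/20) p → Sm (ev Y7) p := fun p h =>
    (clYF h.l0 h.r0 h.l1 h.r1 h.l2 h.r2).2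
  refine pat1 (i := 0) (fun p h => h.lo0) (fun p h => ⟨?_, (hsm p h).D 2⟩) (fun p h h0 => ?_)
  · exact (clYF h.l0 h.r0 h.l1 h.r1 h.l2 h.r2).1.le
  · refine (Zl.D ⟨0, 3/20, by norm_num, h.l2, h.r2, fun t ht ht' => ?_⟩ (hsm p h)).ge
    rw [ev_Y7, u20, u21, u22, h0]
    exact Y7_a0 (by linarith [h.l1]) h.r1

theorem rYH : ∀ p : P, B3 0 (1/10) 0 1 (3/20) (193/200) p ∧ KY p → 0 ≤ ev Y7 p := by
  refine pat1 (i := 0) (lo := 0) (fun p h => ⟨h.1.l0, fun t ht ht' => ⟨h.1.lo0.2 t ht ht',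
    h.2.u0⟩⟩) (fun p h => ?_) (fun p h h0 => ?_)
  · obtain ⟨a1, a2⟩ := clYH h.1.l0 h.1.r0 h.1.l1 h.1.r1 h.1.l2 h.1.r2 h.2
    exact ⟨a1.le, a2⟩
  · rw [ev_Y7, h0]; exact (Y7_a0 h.1.l1 h.1.r1).ge

theorem rYI : ∀ p : P, (B3 0 (1/10) 0 1 (193/200) 1 p ∧ KY p) ∧ 0 ≤ Y7 rO (p 0) (p 1) 1 →
    0 ≤ ev Y7 p := by
  have hsm : ∀ p : P, B3 0 (1/10) 0 1 (193/200) 1 p ∧ KY p → Sm (ev Y7) p := fun p h =>
    (clYI h.1.l0 h.1.r0 h.1.l1 h.1.r1 h.1.l2 h.1.r2 h.2).2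
  have k2 : ∀ p : P, B3 0 (1/10) 0 1 (193/200) 1 p ∧ KY p → D 2 (ev Y7) p ≤ 0 := by
    refine pat1n (i := 0) (lo := 0) (fun p h => ⟨h.1.l0, fun t ht ht' => ⟨h.1.lo0.2 t ht ht',
      h.2.u0⟩⟩) (fun p h => ⟨?_, (hsm p h).D 2⟩) (fun p h h0 => ?_)
    · exact (neg_spec (clYI h.1.l0 h.1.r0 h.1.l1 h.1.r1 h.1.l2 h.1.r2 h.2).1).le
    · refine (Zl.D ⟨193/200, 1, by norm_num, h.1.l2, h.1.r2, fun t ht ht' => ?_⟩ (hsm p h)).le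
      rw [ev_Y7, u20, u21, u22, h0]
      exact Y7_a0 h.1.l1 h.1.r1
  refine pat1' (i := 2) (hi := 1) (fun p h => ⟨h.1.1.r2, fun t ht ht' =>
    ⟨⟨h.1.1.hi2.2 t ht ht', h.1.2.hi2 (by linarith [h.1.1.l2]) ht ht'⟩, ?_⟩⟩)
    (fun p h => ⟨k2 p h.1, hsm p h.1⟩) (fun p h h0 => ?_)
  · rw [u20, u21]; exact h.2
  · rw [ev_Y7, h0]; exact h.2

theorem R_Y {a y g g0 : ℝ} (a0 : 0 ≤ a) (a1 : a ≤ 3/5) (y0 : 0 ≤ y) (y1 : y ≤ 1)
    (g00 : 0 ≤ g0) (g01 : g0 ≤ g) (g1 : g ≤ 1) (hk : cos (π / 2 * g) - y ≤ 0)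
    (hw : sin (π / 2 * a) * cos (π / 2 * (a * y)) * cos (π / 2 * g) -
      cos (π / 2 * a) * sin (π / 2 * (a * y)) ≤ 0) (hab : a + a * y - 1 ≤ 0)
    (e0 : 0 ≤ Y7 rO a y g0) (e1 : 0 ≤ Y7 rO a y 1) (hy : 1/4 ≤ y ∨ a ≤ 1/10) :
    0 ≤ Y7 rO a y g := by
  have hp := Real.pi_pos
  have hp2 := Real.pi_lt_d2
  have hg0 : 0 ≤ g := g00.trans g01
  have e : Y7 rO a y g = ev Y7 ![a, y, g] := rfl
  -- small `γ` forces `y ≥ 9/10`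
  have hy9 : g ≤ 3/20 → 9/10 ≤ y := by
    intro hg
    have h1 := one_sub_sq_div_two_le_cos (x := π / 2 * g)
    have h2 : π / 2 * g ≤ 0.24 := by nlinarith
    have h3 : 0 ≤ π / 2 * g := by positivity
    nlinarith
  rcases le_or_gt a (1/10) with h | h
  · rcases le_total g (3/20) with h' | h'
    · have h3 := mono_line (φ := ev Y7) (p := ![a, y, 0]) (i := 2) g01
        (fun t ht ht' => by
          rw [upd_line]
          exact (clYF (p := ![a, y, t]) a0 h (hy9 h') y1 (g00.trans ht) (ht'.trans h')).2)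
        (fun t ht ht' => by
          rw [upd_line]
          exact rYF _ ⟨a0, h, hy9 h', y1, g00.trans ht, ht'.trans h'⟩)
      rw [upd_line, upd_line] at h3
      exact e0.trans h3
    · rcases le_total g (193/200) with h'' | h''
      · rw [e]; exact rYH _ ⟨⟨a0, h, y0, y1, h', h''⟩, hk⟩
      · rw [e]; exact rYI _ ⟨⟨⟨a0, h, y0, y1, h'', g1⟩, hk⟩, e1⟩
  · rcases le_total g (3/20) with h' | h'
    · have h3 := mono_line (φ := ev Y7) (p := ![a, y, 0]) (i := 2) g01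
        (fun t ht ht' => by
          rw [upd_line]
          exact (clYG (p := ![a, y, t]) h.le a1 (hy9 h') y1 (g00.trans ht) (ht'.trans h')).2)
        (fun t ht ht' => by
          rw [upd_line]
          exact (clYG (p := ![a, y, t]) h.le a1 (hy9 h') y1 (g00.trans ht) (ht'.trans h')).1.le)
      rw [upd_line, upd_line] at h3
      exact e0.trans h3
    · rw [e]
      have hy4 : 1/4 ≤ y := by
        rcases hy with hy | hy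
        · exact hy
        · exact absurd hy (not_le.2 h)
      exact (clYE (p := ![a, y, g]) h.le a1 hy4 y1 h' g1 hw hab).1.le

/-! ### the chart `cFD` -/

/-- the guard `n ≤ u` -/
def GD (p : P) : Prop := p 2 - cos (π / 2 * p 0) ≤ 0

theorem GD.u1 {p : P} {t : ℝ} (h : GD p) : GD (update p 1 t) := by
  unfold GD at *
  rw [u10, u12]; exact h

theorem cos_pos_of_lt {a : ℝ} (h0 : 0 ≤ a) (h1 : a < 1) : 0 < cos (π / 2 * a) :=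
  cos_pos_of_mem_Ioo ⟨by nlinarith [Real.pi_pos], by nlinarith [Real.pi_pos]⟩

theorem rDA : ∀ p : P, B3 (1/10) (3/5) 0 (1/40) 0 1 p ∧ GD p → 0 ≤ ev D7 p := by
  refine pat1 (i := 1) (lo := 0) (fun p h => ⟨h.1.l1, fun t ht ht' => ⟨h.1.lo1.2 t ht ht',
    h.2.u1⟩⟩) (fun p h => ?_) (fun p h h0 => ?_)
  · obtain ⟨a1, a2⟩ := clDA h.1.l0 h.1.r0 h.1.l1 h.1.r1 h.1.l2 h.1.r2 h.2
    exact ⟨a1.le, a2⟩
  · rw [ev_D7, h0]
    exact (D7_b0 (by linarith [h.1.l0]) (by linarith [h.1.r0]) h.1.l2).ge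

theorem rDB : ∀ p : P, B3 (1/10) (3/5) (1/40) (1/20) 0 1 p ∧ GD p → 0 ≤ ev D7 p := by
  refine pat1 (i := 1) (lo := 1/40) (fun p h => ⟨h.1.l1, fun t ht ht' => ⟨h.1.lo1.2 t ht ht',
    h.2.u1⟩⟩) (fun p h => ?_) (fun p h h0 => ?_)
  · obtain ⟨a1, a2⟩ := clDB h.1.l0 h.1.r0 h.1.l1 h.1.r1 h.1.l2 h.1.r2 h.2
    exact ⟨a1.le, a2⟩
  · exact rDA p ⟨⟨h.1.l0, h.1.r0, by rw [h0]; norm_num, h0.le, h.1.l2, h.1.r2⟩, h.2⟩

theorem rDC : ∀ p : P, B3 (1/5) (3/5) (1/20) (3/20) 0 1 p ∧ GD p → 0 ≤ ev D7 p := by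
  refine pat1 (i := 1) (lo := 1/20) (fun p h => ⟨h.1.l1, fun t ht ht' => ⟨h.1.lo1.2 t ht ht',
    h.2.u1⟩⟩) (fun p h => ?_) (fun p h h0 => ?_)
  · obtain ⟨a1, a2⟩ := clDC h.1.l0 h.1.r0 h.1.l1 h.1.r1 h.1.l2 h.1.r2 h.2
    exact ⟨a1.le, a2⟩
  · exact rDB p ⟨⟨by linarith [h.1.l0], h.1.r0, by rw [h0]; norm_num, h0.le, h.1.l2, h.1.r2⟩, h.2⟩

theorem R_D {a β n : ℝ} (a0 : 1/10 ≤ a) (a1 : a ≤ 3/5) (b0 : 0 ≤ β) (b1 : β ≤ 3/20)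
    (hb : β ≤ 1/20 ∨ 1/5 ≤ a) (n0 : 0 ≤ n) (n1 : n ≤ 1) (hn : n - cos (π / 2 * a) ≤ 0) :
    0 ≤ D7 rO a β n := by
  have e : D7 rO a β n = ev D7 ![a, β, n] := rfl
  rw [e]
  rcases le_or_gt β (1/20) with h | h
  · rcases le_total β (1/40) with h' | h'
    · exact rDA _ ⟨⟨a0, a1, b0, h', n0, n1⟩, hn⟩
    · exact rDB _ ⟨⟨a0, a1, h', h, n0, n1⟩, hn⟩
  · have h5 : 1/5 ≤ a := by
      rcases hb with hb | hb
      · exact absurd hb (not_le.2 h)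
      · exact hb
    exact rDC _ ⟨⟨h5, a1, h.le, b1, n0, n1⟩, hn⟩

/-! ### large `a`: monotonicity in `γ` -/

theorem R_Q {a b g0 g : ℝ} (a1 : 3/5 ≤ a) (hab : a ≤ b) (b1 : b ≤ 1) (h0 : 0 ≤ g0)
    (h1 : g0 ≤ g) (h2 : g ≤ 1)
    (hw : sin (π / 2 * a) * sin (π / 2 * b) * cos (π / 2 * g0) -
      cos (π / 2 * a) * cos (π / 2 * b) ≤ 0)
    (e0 : 0 ≤ Q7 rO a b g0) : 0 ≤ Q7 rO a b g := by
  have hg : ∀ t, g0 ≤ t → t ≤ g → 0 < D 2 (ev Q7) ![a, b, t] ∧ Sm (ev Q7) ![a, b, t] := by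
    intro t h3 h4
    refine clQD (p := ![a, b, t]) a1 (by show a ≤ 1; linarith) (by show 3/5 ≤ b; linarith) b1
      (h0.trans h3) (h4.trans h2) ?_ (by show a - b ≤ 0; linarith)
    exact gw_mono (a := a) (b := b) (g0 := g0) (g := t) (by linarith) (by linarith) (by linarith)
      b1 h0 h3 (h4.trans h2) hw
  have h3 := mono_line (φ := ev Q7) (p := ![a, b, 0]) (i := 2) h1
    (fun t ht ht' => by rw [upd_line]; exact (hg t ht ht').2)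
    (fun t ht ht' => by rw [upd_line]; exact (hg t ht ht').1.le)
  rw [upd_line, upd_line] at h3
  exact e0.trans h3

end H41MK
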