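import Pool.Agent.H41.MK.R3
import Pool.Agent.H41.FT.L6

/-!
# Nonnegativity on the regions: `T_+`, acute
-/

namespace H41MK

open H41FT Real Function

theorem Z0_zl1_r {p : P} (h0 : p 0 = 0) {lo hi : ℝ} (hl : lo < hi) (h1 : lo ≤ p 1)
    (h1' : p 1 ≤ hi) : Zl (ev Z0) 1 p := by
  refine ⟨lo, hi, hl, h1, h1', fun t ht ht' => ?_⟩
  rw [ev_Z0, u10, u11, u12, h0]
  exact Z0_r0 _ _

theorem Z7_zl1_r {p : P} (h0 : p 0 = 0) {lo hi : ℝ} (hl : lo < hi) (h1 : lo ≤ p 1)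
    (h1' : p 1 ≤ hi) : Zl (ev Z7) 1 p := by
  refine ⟨lo, hi, hl, h1, h1', fun t ht ht' => ?_⟩
  rw [ev_Z7, u10, u11, u12, h0]
  exact Z7_r0 _ _

theorem rZA : ∀ p : P, B3 0 (1/10) 0 (1/10) 0 1 p → 0 ≤ ev Z0 p := by
  have hsm : ∀ p : P, B3 0 (1/10) 0 (1/10) 0 1 p → Sm (ev Z0) p := fun p h =>
    (clZA h.l0 h.r0 h.l1 h.r1 h.l2 h.r2).2
  have k2 : ∀ p : P, B3 0 (1/10) 0 (1/10) 0 1 p → 0 ≤ D 1 (ev Z0) p := by
    refine pat1 (i := 0) (fun p h => h.lo0) (fun p h => ⟨?_, (hsm p h).D 1⟩) (fun p h h0 => ?_)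
    · exact (clZA h.l0 h.r0 h.l1 h.r1 h.l2 h.r2).1.le
    · exact ((Z0_zl1_r h0 (by norm_num) h.l1 h.r1).D (hsm p h)).ge
  refine pat1 (i := 1) (fun p h => h.lo1) (fun p h => ⟨k2 p h, hsm p h⟩) (fun p h h0 => ?_)
  rw [ev_Z0, h0]; exact (Z0_t0 _ _).ge

theorem rZB : ∀ p : P, B3 (1/10) 1 0 (1/10) 0 1 p → 0 ≤ ev Z0 p := by
  refine pat1 (i := 1) (fun p h => h.lo1) (fun p h => ?_) (fun p h h0 => ?_)
  · obtain ⟨a1, a2⟩ := clZB h.l0 h.r0 h.l1 h.r1 h.l2 h.r2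
    exact ⟨a1.le, a2⟩
  · rw [ev_Z0, h0]; exact (Z0_t0 _ _).ge

theorem rZC : ∀ p : P, B3 0 (1/10) (1/10) (9/20) 0 1 p → 0 ≤ ev Z0 p := by
  refine pat1 (i := 0) (fun p h => h.lo0) (fun p h => ?_) (fun p h h0 => ?_)
  · obtain ⟨a1, a2⟩ := clZC h.l0 h.r0 h.l1 h.r1 h.l2 h.r2
    exact ⟨a1.le, a2⟩
  · rw [ev_Z0, h0]; exact (Z0_r0 _ _).ge

theorem rZD : ∀ p : P, B3 0 (1/10) (9/20) (4/5) 0 1 p → 0 ≤ ev Z2 p := by
  refine pat1 (i := 0) (fun p h => h.lo0) (fun p h => ?_) (fun p h h0 => ?_)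
  · obtain ⟨a1, a2⟩ := clZD h.l0 h.r0 h.l1 h.r1 h.l2 h.r2
    exact ⟨a1.le, a2⟩
  · rw [ev_Z2, h0]; exact (Z2_r0 _ _).ge

theorem rZE : ∀ p : P, B3 0 (1/10) (4/5) (93/100) 0 1 p → 0 ≤ ev Z7 p := by
  refine pat1 (i := 0) (fun p h => h.lo0) (fun p h => ?_) (fun p h h0 => ?_)
  · obtain ⟨a1, a2⟩ := clZE h.l0 h.r0 h.l1 h.r1 h.l2 h.r2
    exact ⟨a1.le, a2⟩
  · rw [ev_Z7, h0]; exact (Z7_r0 _ _).ge

theorem rZH : ∀ p : P, B3 0 (1/10) (93/100) 1 0 1 p → 0 ≤ ev Z7 p := by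
  have hsm : ∀ p : P, B3 0 (1/10) (93/100) 1 0 1 p → Sm (ev Z7) p := fun p h =>
    (clZH h.l0 h.r0 h.l1 h.r1 h.l2 h.r2).2
  have k2 : ∀ p : P, B3 0 (1/10) (93/100) 1 0 1 p → D 1 (ev Z7) p ≤ 0 := by
    refine pat1n (i := 0) (fun p h => h.lo0) (fun p h => ⟨?_, (hsm p h).D 1⟩) (fun p h h0 => ?_)
    · exact (neg_spec (clZH h.l0 h.r0 h.l1 h.r1 h.l2 h.r2).1).le
    · exact ((Z7_zl1_r h0 (by norm_num) h.l1 h.r1).D (hsm p h)).le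
  refine pat1' (i := 1) (fun p h => h.hi1) (fun p h => ⟨k2 p h, hsm p h⟩) (fun p h h0 => ?_)
  rw [ev_Z7, h0]; exact (Z7_t1 _ _).ge

theorem rZI : ∀ p : P, B3 (1/10) (891/1000) (93/100) 1 0 1 p → 0 ≤ ev Z7 p := by
  refine pat1' (i := 1) (fun p h => h.hi1) (fun p h => ?_) (fun p h h0 => ?_)
  · obtain ⟨a1, a2⟩ := clZI h.l0 h.r0 h.l1 h.r1 h.l2 h.r2
    exact ⟨(neg_spec a1).le, a2⟩
  · rw [ev_Z7, h0]; exact (Z7_t1 _ _).ge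

theorem R_Z {ρ t τ : ℝ} (a0 : 0 ≤ ρ) (a1 : ρ ≤ 1) (b0 : 0 ≤ t) (b1 : t ≤ 1)
    (c0 : 0 ≤ τ) (c1 : τ ≤ 1) (hg : ρ ≤ 891/1000 ∨ t ≤ 93/100) :
    0 ≤ Z0 rO ρ t τ ∨ 0 ≤ Z2 rO ρ t τ ∨ 0 ≤ Z7 rO ρ t τ := by
  have e0 : Z0 rO ρ t τ = ev Z0 ![ρ, t, τ] := rfl
  have e2 : Z2 rO ρ t τ = ev Z2 ![ρ, t, τ] := rfl
  have e7 : Z7 rO ρ t τ = ev Z7 ![ρ, t, τ] := rfl
  rw [e0, e2, e7]
  rcases le_total t (1/10) with h' | h'
  · left
    rcases le_total ρ (1/10) with h | h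
    · exact rZA _ ⟨a0, h, b0, h', c0, c1⟩
    · exact rZB _ ⟨h, a1, b0, h', c0, c1⟩
  rcases le_total t (9/20) with h2 | h2
  · rcases le_total ρ (1/10) with h | h
    · exact Or.inl (rZC _ ⟨a0, h, h', h2, c0, c1⟩)
    · rcases le_or_gt (ev Z2 ![ρ, t, τ]) 0 with k | k
      · exact Or.inl (clZF (p := ![ρ, t, τ]) h a1 h' h2 c0 c1 k).1.le
      · exact Or.inr (Or.inl k.le)
  rcases le_total ρ (1/10) with h | h
  · rcases le_total t (4/5) with h3 | h3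
    · exact Or.inr (Or.inl (rZD _ ⟨a0, h, h2, h3, c0, c1⟩))
    · rcases le_total t (93/100) with h4 | h4
      · exact Or.inr (Or.inr (rZE _ ⟨a0, h, h3, h4, c0, c1⟩))
      · exact Or.inr (Or.inr (rZH _ ⟨a0, h, h4, b1, c0, c1⟩))
  · have key : t ≤ 93/100 → 0 ≤ ev Z0 ![ρ, t, τ] ∨ 0 ≤ ev Z2 ![ρ, t, τ] ∨ 0 ≤ ev Z7 ![ρ, t, τ] := by
      intro h4
      rcases le_or_gt (ev Z2 ![ρ, t, τ]) 0 with k | k
      · rcases le_or_gt (ev Z0 ![ρ, t, τ]) 0 with k' | k'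
        · exact Or.inr (Or.inr (clZG (p := ![ρ, t, τ]) h a1 h2 h4 c0 c1 k k').1.le)
        · exact Or.inl k'.le
      · exact Or.inr (Or.inl k.le)
    rcases le_total t (93/100) with h4 | h4
    · exact key h4
    · rcases hg with hg | hg
      · exact Or.inr (Or.inr (rZI _ ⟨h, hg, h4, b1, c0, c1⟩))
      · exact key hg

/-! ### the corner -/

def A7 {T : Type} (o : Ops T) (x y z : T) : T := cSd o Ga7 false x y z

theorem ev_A7 (p : P) : ev A7 p = cSd rO Ga7 false (p 0) (p 1) (p 2) := rfl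
theorem ev_O7 (p : P) : ev O7 p = cSd rO Ga7 false (p 0 + p 1) (p 1) (p 1 * p 2) := rfl

theorem A7_Sm : Sm (ev A7) 0 := by
  have h : Enc3 A7 (ev A7) (Sm (ev A7)) :=
    Enc3.of_R fun S _ _ _ _ _ _ h1 h2 h3 => cSd_R S par_Ga7 false h1 h2 h3
  have hs : ∀ i : Fin 3, (co i) 0 = ((0 : ℝ), True).1 ∧ Sm (co i) 0 := fun i => ⟨rfl, Sm_coord i⟩
  refine (h (vO_sound 0) (hs 0) (hs 1) (hs 2) ?_).2 0 rfl
  simp [A7, cSd, Ga7, RG, vtx, lt, vO]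

theorem A7_D (i : Fin 3) : D i (ev A7) 0 = 0 := by
  refine Zl.D ⟨-(1/2), 1/2, by norm_num, by norm_num, by norm_num, fun t ht ht' => ?_⟩ A7_Sm
  rw [ev_A7]
  fin_cases i
  · show cSd rO Ga7 false (update (0 : P) 0 t 0) (update (0 : P) 0 t 1) (update (0 : P) 0 t 2) = 0
    rw [u00, u01, u02]
    exact A7_x (by linarith) (by linarith)
  · show cSd rO Ga7 false (update (0 : P) 1 t 0) (update (0 : P) 1 t 1) (update (0 : P) 1 t 2) = 0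
    rw [u10, u11, u12]
    exact A7_y (by linarith) (by linarith)
  · show cSd rO Ga7 false (update (0 : P) 2 t 0) (update (0 : P) 2 t 1) (update (0 : P) 2 t 2) = 0
    rw [u20, u21, u22]
    exact A7_z (by linarith) (by linarith)

theorem O7_D {q : P} (h0 : q 0 = 0) (h1 : q 1 = 0) (hs : Sm (ev O7) q) : D 1 (ev O7) q = 0 := by
  have hs' : Sm (ev O7) (update q 1 (q 1)) := by rwa [update_eq_self]
  have h2 := hasDerivAt_line hs'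
  rw [update_eq_self, h1] at h2
  obtain ⟨v, hv⟩ : ∃ v : P, v = Pi.single 0 1 + Pi.single 1 1 + q 2 • Pi.single 2 1 := ⟨_, rfl⟩
  have hv0 : v 0 = 1 := by rw [hv]; simp
  have hv1 : v 1 = 1 := by rw [hv]; simp
  have hv2 : v 2 = q 2 := by rw [hv]; simp
  have e : (fun s => ev O7 (update q 1 s)) = fun s : ℝ => ev A7 (s • v) := by
    funext s
    rw [ev_O7, ev_A7, u10, u11, u12, h0]
    simp only [Pi.smul_apply, smul_eq_mul, hv0, hv1, hv2, zero_add, mul_one]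
  have h3 : HasDerivAt (fun s : ℝ => s • v) v 0 := by
    simpa using (hasDerivAt_id (0 : ℝ)).smul_const v
  have hF : HasFDerivAt (ev A7) (fderiv ℝ (ev A7) 0) ((0 : ℝ) • v) := by
    rw [zero_smul]; exact A7_Sm.diff.hasFDerivAt
  have h4 : HasDerivAt (fun s : ℝ => ev A7 (s • v)) (fderiv ℝ (ev A7) 0 v) 0 :=
    hF.comp_hasDerivAt (0 : ℝ) h3
  have h5 : fderiv ℝ (ev A7) 0 v = 0 := by
    have d0 : fderiv ℝ (ev A7) 0 (Pi.single 0 1) = 0 := A7_D 0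
    have d1 : fderiv ℝ (ev A7) 0 (Pi.single 1 1) = 0 := A7_D 1
    have d2 : fderiv ℝ (ev A7) 0 (Pi.single 2 1) = 0 := A7_D 2
    rw [hv, map_add, map_add, map_smul, d0, d1, d2]; simp
  rw [e] at h2
  rw [h5] at h4
  exact h2.unique h4

theorem rO7 : ∀ p : P, SO p → 0 ≤ ev O7 p := by
  have hA : ∀ p : P, SO p → 0 < D 1 (D 0 (ev O7)) p ∧ Sm (ev O7) p := fun p h =>
    clOA h.1.l0 (by linarith [h.1.r0]) h.1.l1 (by linarith [h.1.r1]) h.1.l2 h.1.r2 h.2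
  have hB : ∀ p : P, SO p → 0 < D 1 (D 1 (ev O7)) p ∧ Sm (ev O7) p := fun p h =>
    clOB h.1.l0 (by linarith [h.1.r0]) h.1.l1 (by linarith [h.1.r1]) h.1.l2 h.1.r2 h.2
  have kA : ∀ p : P, SO p → 0 ≤ D 0 (ev O7) p := by
    refine pat1 (i := 1) (fun p h => h.lo1) (fun p h => ⟨(hA p h).1.le, (hA p h).2.D 0⟩)
      (fun p h h0 => ?_)
    refine (Zl.D ⟨0, 12/100, by norm_num, h.1.l0, h.1.r0, fun t ht ht' => ?_⟩ (hA p h).2).ge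
    rw [ev_O7, u00, u01, u02, h0, add_zero, zero_mul]
    exact A7_x (by linarith) (by linarith)
  have kB : ∀ p : P, SO p ∧ p 0 = 0 → 0 ≤ D 1 (ev O7) p := by
    refine pat1 (i := 1) (lo := 0) (fun p h => ⟨h.1.lo1.1, fun t h1 h2 => ⟨h.1.lo1.2 t h1 h2, ?_⟩⟩)
      (fun p h => ⟨(hB p h.1).1.le, (hB p h.1).2.D 1⟩) (fun p h h0 => ?_)
    · rw [u10]; exact h.2
    · exact (O7_D h.2 h0 (hB p h.1).2).ge
  have kC : ∀ p : P, SO p ∧ p 0 = 0 → 0 ≤ ev O7 p := by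
    refine pat1 (i := 1) (lo := 0) (fun p h => ⟨h.1.lo1.1, fun t h1 h2 => ⟨h.1.lo1.2 t h1 h2, ?_⟩⟩)
      (fun p h => ⟨kB p h, (hB p h.1).2⟩) (fun p h h0 => ?_)
    · rw [u10]; exact h.2
    · rw [ev_O7, h0, add_zero, zero_mul, h.2]
      exact (A7_x (by norm_num) (by norm_num)).ge
  exact pat1 (i := 0) (fun p h => h.lo0) (fun p h => ⟨kA p h, (hA p h).2⟩) (fun p h h0 => kC p ⟨h, h0⟩)

theorem R_A7 {α β δ : ℝ} (h0 : 0 ≤ δ) (h1 : δ ≤ β) (h2 : β ≤ α) (h3 : α ≤ 12/100) :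
    0 ≤ cSd rO Ga7 false α β δ := by
  rcases (h0.trans h1).eq_or_lt with hb | hb
  · have hd : δ = 0 := le_antisymm (by linarith) h0
    rw [hd, ← hb]
    exact (A7_x (by linarith) (by linarith)).ge
  · have e : cSd rO Ga7 false α β δ = ev O7 ![α - β, β, δ / β] := by
      rw [ev_O7]
      show cSd rO Ga7 false α β δ = cSd rO Ga7 false (α - β + β) β (β * (δ / β))
      rw [sub_add_cancel, mul_div_cancel₀ _ hb.ne']
    rw [e]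
    refine rO7 _ ⟨⟨?_, ?_, ?_, ?_, ?_, ?_⟩, ?_⟩
    · show 0 ≤ α - β; linarith
    · show α - β ≤ 12/100; linarith
    · exact hb.le
    · show β ≤ 12/100; linarith
    · show 0 ≤ δ / β; positivity
    · show δ / β ≤ 1
      rw [div_le_one hb]; exact h1
    · show 25 * (α - β + β) - 3 ≤ 0; linarith

end H41MK
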