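import Pool.Agent.H41.MK.Fn
import Pool.Agent.H41.MK.Defs
import Pool.Agent.H45.FT.Range3

/-!
# The closed forms on true data
-/

namespace H41MK

open H41FT H45FT Real

/-- the assembly `G` on the data of a triple of lines -/
noncomputable def Tt (G : GF) (σ a b c : ℝ) : ℝ :=
  G rO a b c (cos (π / 2 * a)) (cos (π / 2 * b)) (cos (π / 2 * c))
    (sin (π / 2 * a)) (sin (π / 2 * b)) (sin (π / 2 * c))
    (ang (dih σ b c a)) |dih σ b c a| (ang (dih σ c a b)) |dih σ c a b|
    (ang (dih σ a b c)) |dih σ a b c|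

/-- the slack of the pointwise inequality -/
noncomputable def slk (σ a b c : ℝ) : ℝ :=
  (vv a * (kk b + kk c) + vv b * (kk c + kk a) + vv c * (kk a + kk b))
    - (Vx a b (dih σ a b c) + Vx b c (dih σ b c a) + Vx c a (dih σ c a b))

end H41MK
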