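import Pool.Agent.H41.MK.Meas

/-!
# The unconditional bound for the first power
-/

namespace H41MK

open Real MeasureTheory Finset H45FT

theorem csq_le_lin {t : ℝ} (h0 : 0 ≤ t) (h1 : t ≤ 1) : csq t ≤ 9649 / 8469 * (1 - t) := by
  have hp := Real.pi_pos
  have hl := Real.pi_gt_d6
  have hu := Real.pi_lt_d6
  unfold csq
  have hpy := sin_sq_add_cos_sq (π / 2 * t)
  rcases le_total t (27/50) with h | h
  · -- `cos² x ≤ 1 - x² + x⁴/3`
    have hx0 : 0 ≤ π / 2 * t := by positivity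
    have hx1 : π / 2 * t ≤ 0.8485 := by nlinarith
    have hs := sin_ge_sub_cube hx0
    have hs0 : 0 ≤ π / 2 * t - (π / 2 * t) ^ 3 / 6 := by
      have : (π / 2 * t) ^ 3 = (π / 2 * t) * (π / 2 * t) ^ 2 := by ring
      nlinarith [mul_nonneg hx0 (sub_nonneg.2 hx1)]
    have hs2 := mul_self_le_mul_self hs0 hs
    have h2 : cos (π / 2 * t) ^ 2 ≤ 1 - (π / 2 * t) ^ 2 + (π / 2 * t) ^ 4 / 3 := by
      have h6 : 0 ≤ (π / 2 * t) ^ 6 := by positivity
      nlinarith
    have q0 : 9.8695 ≤ π ^ 2 := by nlinarith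
    have q1 : π ^ 2 ≤ 9.8697 := by nlinarith
    have q2 : π ^ 4 ≤ 97.412 := by
      have : π ^ 4 = π ^ 2 * π ^ 2 := by ring
      nlinarith
    have e1 : (π / 2 * t) ^ 2 = π ^ 2 * (t ^ 2 / 4) := by ring
    have e2 : (π / 2 * t) ^ 4 / 3 = π ^ 4 * (t ^ 4 / 48) := by ring
    have t2 : 0 ≤ t ^ 2 := sq_nonneg t
    have t4 : 0 ≤ t ^ 4 := by positivity
    have b1 : 9.8695 * (t ^ 2 / 4) ≤ π ^ 2 * (t ^ 2 / 4) :=
      mul_le_mul_of_nonneg_right q0 (by positivity)
    have b2 : π ^ 4 * (t ^ 4 / 48) ≤ 97.412 * (t ^ 4 / 48) :=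
      mul_le_mul_of_nonneg_right q2 (by positivity)
    rw [e1, e2] at h2
    have key : 1 - 9.8695 * (t ^ 2 / 4) + 97.412 * (t ^ 4 / 48) ≤ 9649 / 8469 * (1 - t) := by
      rcases le_total t (11/50) with ha | ha
      · have k : t ^ 4 ≤ 0.0484 * t ^ 2 := by
          have : t ^ 2 ≤ 0.0484 := by nlinarith
          nlinarith
        nlinarith [sq_nonneg (t - 0.2404)]
      · rcases le_total t (3/10) with hb | hb
        · have k1 : t ^ 2 ≤ 0.52 * t - 0.066 := by nlinarith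
          have k : t ^ 4 ≤ (0.52 * t - 0.066) ^ 2 := by
            have : t ^ 4 = t ^ 2 * t ^ 2 := by ring
            rw [this, sq (0.52 * t - 0.066)]
            exact mul_self_le_mul_self t2 k1
          nlinarith [sq_nonneg (t - 0.2606)]
        · have k1 : t ^ 2 ≤ 0.84 * t - 0.162 := by nlinarith
          have k : t ^ 4 ≤ (0.84 * t - 0.162) ^ 2 := by
            have : t ^ 4 = t ^ 2 * t ^ 2 := by ring
            rw [this, sq (0.84 * t - 0.162)]
            exact mul_self_le_mul_self t2 k1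
          nlinarith [sq_nonneg (t - 0.2835)]
    linarith
  · -- `cos² (π t/2) = sin² (π (1-t)/2) ≤ (π (1-t)/2)²`
    have e : cos (π / 2 * t) = sin (π / 2 * (1 - t)) := by
      rw [mul_sub, mul_one, sin_pi_div_two_sub]
    have h2 : sin (π / 2 * (1 - t)) ≤ π / 2 * (1 - t) := sin_le (by nlinarith)
    have h3 : 0 ≤ sin (π / 2 * (1 - t)) :=
      sin_nonneg_of_nonneg_of_le_pi (by nlinarith) (by nlinarith)
    have h4 := mul_self_le_mul_self h3 h2
    rw [e, sq]
    have h5 : π / 2 * (π / 2) * (1 - t) ≤ 9649 / 8469 := by nlinarith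
    nlinarith [mul_le_mul_of_nonneg_right h5 (sub_nonneg.2 h1)]

theorem kk_le_lin {t : ℝ} (h0 : 0 ≤ t) (h1 : t ≤ 1) : kk t ≤ 1000 / 941 * (1 - t) := by
  have := csq_le_lin h0 h1
  unfold kk lam
  linarith

/-- The unconditional bound. -/
theorem uncond (hB : ∀ d, Bd (d + 1)) (d : ℕ)
    (μ : Measure (EuclideanSpace ℝ (Fin (d + 1)))) (hμ : IsProbabilityMeasure μ)
    (hs : μ (Metric.sphere (0 : EuclideanSpace ℝ (Fin (d + 1))) 1)ᶜ = 0) :
    ∫ x, ∫ y, Real.arccos |@inner ℝ _ _ x y| ∂μ ∂μ ≤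
      Real.pi / 2 * (1 - 941 / 1000 / ((d : ℝ) + 1)) := by
  have hr := rk_energy hB d μ hμ hs
  have hp := Real.pi_pos
  let F0 : EuclideanSpace ℝ (Fin (d + 1)) × EuclideanSpace ℝ (Fin (d + 1)) → ℝ :=
    fun p => rk (ang (@inner ℝ _ _ p.1 p.2))
  let F1 : EuclideanSpace ℝ (Fin (d + 1)) × EuclideanSpace ℝ (Fin (d + 1)) → ℝ :=
    fun p => Real.arccos |@inner ℝ _ _ p.1 p.2|
  have c0 : Continuous F0 := cont_rk.comp (H95FL.cont_ang.comp (by fun_prop))
  have c1 : Continuous F1 := by simp only [F1]; fun_prop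
  have i0 : Integrable F0 (μ.prod μ) :=
    Integrable.of_bound c0.aestronglyMeasurable 1 (Filter.Eventually.of_forall fun p => by
      rw [Real.norm_eq_abs]; exact rk_bd _)
  have i1 : Integrable F1 (μ.prod μ) :=
    Integrable.of_bound c1.aestronglyMeasurable Real.pi (Filter.Eventually.of_forall fun p => by
      rw [Real.norm_eq_abs, abs_of_nonneg (Real.arccos_nonneg _)]
      exact Real.arccos_le_pi _)
  have e0 : ∫ p, F0 p ∂(μ.prod μ) = ∫ x, ∫ y, rk (ang (@inner ℝ _ _ x y)) ∂μ ∂μ :=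
    integral_prod _ i0
  have e1 : ∫ p, F1 p ∂(μ.prod μ) = ∫ x, ∫ y, Real.arccos |@inner ℝ _ _ x y| ∂μ ∂μ :=
    integral_prod _ i1
  have j1 : Integrable (fun p => 2 / Real.pi * F1 p) (μ.prod μ) := i1.const_mul _
  have j2 : Integrable (fun p => 1 - 2 / Real.pi * F1 p) (μ.prod μ) := (integrable_const 1).sub j1
  have j3 : Integrable (fun p => 1000 / 941 * (1 - 2 / Real.pi * F1 p)) (μ.prod μ) :=
    j2.const_mul _
  have hle : ∫ p, (1 - 1000 / 941 * (1 - 2 / Real.pi * F1 p)) ∂(μ.prod μ) ≤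
      ∫ p, F0 p ∂(μ.prod μ) := by
    refine integral_mono ((integrable_const 1).sub j3) i0 fun p => ?_
    have h := kk_le_lin (ang_nonneg (@inner ℝ _ _ p.1 p.2)) (ang_le_one (@inner ℝ _ _ p.1 p.2))
    show 1 - 1000 / 941 * (1 - 2 / Real.pi * Real.arccos |@inner ℝ _ _ p.1 p.2|) ≤
      1 - kk (ang (@inner ℝ _ _ p.1 p.2))
    unfold ang at h ⊢
    linarith
  rw [integral_sub (integrable_const 1) j3, integral_const_mul, integral_sub (integrable_const 1) j1,
    integral_const_mul, e0, e1] at hle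
  simp only [integral_const, probReal_univ, smul_eq_mul, mul_one] at hle
  have hd : (0 : ℝ) < (d : ℝ) + 1 := by positivity
  have hC : (d : ℝ) / (d + 1) = 1 - 1 / ((d : ℝ) + 1) := by field_simp; ring
  rw [hC] at hr
  generalize ∫ x, ∫ y, Real.arccos |@inner ℝ _ _ x y| ∂μ ∂μ = A at *
  have h3 : 2 / Real.pi * A ≤ 1 - 941 / 1000 * (1 / ((d : ℝ) + 1)) := by linarith
  have h4 : A = Real.pi / 2 * (2 / Real.pi * A) := by field_simp
  rw [h4]
  refine mul_le_mul_of_nonneg_left ?_ (by positivity)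
  calc 2 / Real.pi * A ≤ 1 - 941 / 1000 * (1 / ((d : ℝ) + 1)) := h3
    _ = 1 - 941 / 1000 / ((d : ℝ) + 1) := by ring

end H41MK
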